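import Mathlib

set_option autoImplicit false

open Set Filter Topology

namespace Pool.Agent.H494.BR

/-- splitting function -/
noncomputable def phr (r x : ℝ) : ℝ :=
  Real.exp (r * x) - ((1 - r) / r) * (Real.exp (r * x) - 1) ^ 2 / (Real.exp x - Real.exp (r * x))

noncomputable def JJ (r x z : ℝ) : ℝ :=
  (Real.exp (x + z) - 1) * (phr r x * phr r z - 1 / Real.exp (x + z))
    - ((Real.exp (r * x) + Real.exp (r * z) - 2) / r)
      * (2 + (Real.exp (r * x) + Real.exp (r * z) - 2) / r - phr r x - phr r z)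

theorem JJ_symm (r x z : ℝ) : JJ r x z = JJ r z x := by
  unfold JJ
  rw [add_comm x z]
  ring

theorem psd_form (p t w A B : ℝ) (hp : 0 ≤ p) (hw : 0 ≤ w) (h : t ^ 2 ≤ p * w) :
    0 ≤ p * A ^ 2 + 2 * t * (A * B) + w * B ^ 2 := by
  rcases hp.eq_or_lt with h0 | h0
  · have : t = 0 := by
      rw [← h0, zero_mul] at h
      exact pow_eq_zero_iff (n := 2) (by norm_num) |>.1 (le_antisymm h (sq_nonneg t))
    rw [← h0, this]
    have := mul_nonneg hw (sq_nonneg B)
    linarith
  · have : 0 ≤ p * (p * A ^ 2 + 2 * t * (A * B) + w * B ^ 2) := by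
      nlinarith [sq_nonneg (p * A + t * B), sq_nonneg B, mul_nonneg (sub_nonneg.2 h) (sq_nonneg B)]
    exact nonneg_of_mul_nonneg_right this h0

theorem ident (E Ei R D D0 u φ φ' : ℝ) (hE : E * Ei = 1)
    (hφ : D0 * φ' = D0 * (u - φ) + (φ - 1) ^ 2) :
    D0 * ((E - 1) * R + D) * (E * (φ * R - Ei) + (E - 1) * (φ' * R + Ei) - u * (2 + D - φ - R)
        - D * (u - φ'))
      + ((E - 1) * (φ * R - Ei) - D * (2 + D - φ - R)) *
        (D0 * ((E - 1) * R + D) - 2 * (φ - 1) * ((E - 1) * R + D) - D0 * (E * R + u))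
      + ((E - 1) * (φ * R - Ei) - D * (2 + D - φ - R)) ^ 2
    = Ei ^ 2 * (((E - 1) * (1 - E * R) + D * E * (1 + D - R)) ^ 2
        - D0 * E * (E * D * (1 + D - R) ^ 2 - u * (E - 1) * (1 - E * R) ^ 2)) := by
  have hEi : Ei = 1 / E := by
    have : E ≠ 0 := by rintro rfl; simp at hE
    field_simp; linarith
  have hE0 : E ≠ 0 := by rintro rfl; simp at hE
  subst hEi
  field_simp
  linear_combination (((E - 1) * R + D)^2 * E^2) * hφ

/-- Bernoulli: `exp x - exp (r x) ≥ ((1-r)/r) (exp (r x) - 1)` -/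
theorem bern (r x : ℝ) (hr : 0 < r) (hr1 : r < 1) :
    (Real.exp (r * x) - 1) / r ≤ Real.exp x - 1 := by
  have h := Real.rpow_le_rpow_of_exponent_le (x := 1) le_rfl hr1.le
  -- e^{x} = (e^{rx})^{1/r} ≥ 1 + (1/r)(e^{rx}-1)
  have h1 : 1 + (1 / r) * (Real.exp (r * x) - 1) ≤ (1 + (Real.exp (r * x) - 1)) ^ (1 / r) := by
    apply one_add_mul_self_le_rpow_one_add
    · have := Real.exp_pos (r * x); linarith
    · rw [le_div_iff₀ hr]; linarith
  have h2 : (1 + (Real.exp (r * x) - 1)) ^ (1 / r) = Real.exp x := by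
    rw [add_sub_cancel, ← Real.exp_mul]
    congr 1
    field_simp
  rw [h2] at h1
  have : (Real.exp (r * x) - 1) / r = (1 / r) * (Real.exp (r * x) - 1) := by ring
  rw [this]; linarith

theorem phr_zero (r : ℝ) : phr r 0 = 1 := by simp [phr]

theorem exp_sub_pos (r x : ℝ) (hr1 : r < 1) (hx : 0 < x) :
    0 < Real.exp x - Real.exp (r * x) := by
  have : Real.exp (r * x) < Real.exp x := Real.exp_lt_exp.2 (by nlinarith)
  linarith

theorem phr_bounds_pos (r x : ℝ) (hr : 0 < r) (hr1 : r < 1) (hx : 0 < x) :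
    1 ≤ phr r x ∧ phr r x ≤ Real.exp (r * x) := by
  have hd := exp_sub_pos r x hr1 hx
  have hu : 1 < Real.exp (r * x) := Real.one_lt_exp_iff.2 (by positivity)
  have hb := bern r x hr hr1
  unfold phr
  set u := Real.exp (r * x)
  set a := Real.exp x
  have hb' : (1 - r) / r * (u - 1) ≤ a - u := by
    have : (1 - r) / r * (u - 1) = (u - 1) / r - (u - 1) := by field_simp
    rw [this]; linarith
  constructor
  · have : (1 - r) / r * (u - 1) ^ 2 / (a - u) ≤ u - 1 := by
      rw [div_le_iff₀ hd]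
      nlinarith
    linarith
  · have : 0 ≤ (1 - r) / r * (u - 1) ^ 2 / (a - u) := by
      have : 0 < 1 - r := by linarith
      positivity
    linarith

theorem phr_pos (r x : ℝ) (hr : 0 < r) (hr1 : r < 1) : 0 < phr r x := by
  rcases lt_trichotomy x 0 with hx | hx | hx
  · have hd : 0 < Real.exp (r * x) - Real.exp x := by
      have : Real.exp x < Real.exp (r * x) := Real.exp_lt_exp.2 (by nlinarith)
      linarith
    have hu := Real.exp_pos (r * x)
    unfold phr
    have e : (1 - r) / r * (Real.exp (r * x) - 1) ^ 2 / (Real.exp x - Real.exp (r * x))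
        = - ((1 - r) / r * (Real.exp (r * x) - 1) ^ 2 / (Real.exp (r * x) - Real.exp x)) := by
      rw [← neg_sub (Real.exp (r * x)) (Real.exp x), div_neg]
    rw [e]
    have : 0 ≤ (1 - r) / r * (Real.exp (r * x) - 1) ^ 2 / (Real.exp (r * x) - Real.exp x) := by
      have : 0 < 1 - r := by linarith
      positivity
    linarith
  · rw [hx, phr_zero]; norm_num
  · linarith [(phr_bounds_pos r x hr hr1 hx).1]

theorem phr_neg (r x : ℝ) (hr : 0 < r) (hr1 : r < 1) (hx : x ≠ 0) :
    phr r (-x) = 2 + (Real.exp (r * x) - 1) ^ 2 / (r * Real.exp (r * x)) - phr r x := by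
  have hd : Real.exp x - Real.exp (r * x) ≠ 0 := by
    rw [sub_ne_zero]
    intro h
    have := Real.exp_injective h
    apply hx
    have h2 : x * (1 - r) = 0 := by linarith
    rcases mul_eq_zero.1 h2 with h | h
    · exact h
    · linarith
  unfold phr
  rw [show r * -x = -(r * x) by ring, Real.exp_neg, Real.exp_neg]
  have hu := (Real.exp_pos (r * x)).ne'
  have ha := (Real.exp_pos x).ne'
  set u := Real.exp (r * x)
  set a := Real.exp x
  have e1 : a⁻¹ - u⁻¹ = - ((a - u) / (a * u)) := by field_simp; ring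
  rw [e1]
  field_simp
  ring

theorem phr_deriv (r x : ℝ) (hr : 0 < r) (hr1 : r < 1) (hx : x ≠ 0) :
    ∃ φ' : ℝ, HasDerivAt (phr r) φ' x ∧
      (Real.exp (r * x) - 1) ^ 2 / (r * Real.exp (r * x)) * φ'
        = (Real.exp (r * x) - 1) ^ 2 / (r * Real.exp (r * x)) * (Real.exp (r * x) - phr r x)
          + (phr r x - 1) ^ 2 := by
  have hd : Real.exp x - Real.exp (r * x) ≠ 0 := by
    rw [sub_ne_zero]
    intro h
    have := Real.exp_injective h
    apply hx
    have h2 : x * (1 - r) = 0 := by linarith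
    rcases mul_eq_zero.1 h2 with h | h
    · exact h
    · linarith
  have h1 : HasDerivAt (fun x => Real.exp (r * x)) (Real.exp (r * x) * r) x := by
    have := ((hasDerivAt_id x).const_mul r).exp
    simpa using this
  have h2 := Real.hasDerivAt_exp x
  have h3 := h1.sub ((((h1.sub_const 1).pow 2).const_mul ((1 - r) / r)).div (h2.sub h1) hd)
  refine ⟨_, h3, ?_⟩
  unfold phr
  have hu := (Real.exp_pos (r * x)).ne'
  simp only [Pi.sub_apply, Pi.pow_apply]
  set u := Real.exp (r * x)
  set a := Real.exp x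
  field_simp
  ring

theorem sinh_aux (r y : ℝ) (hr : 0 < r) (hr1 : r < 1) (hy : 0 < y) :
    Real.sinh (r * y) < r * Real.sinh y := by
  have hmono : StrictMonoOn (fun y => r * Real.sinh y - Real.sinh (r * y)) (Ici 0) := by
    apply strictMonoOn_of_deriv_pos (convex_Ici 0)
    · fun_prop
    · intro x hx
      rw [interior_Ici] at hx
      have hx' : 0 < x := hx
      have h1 : HasDerivAt (fun y => r * Real.sinh y - Real.sinh (r * y))
          (r * Real.cosh x - Real.cosh (r * x) * r) x := by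
        have h2 := (Real.hasDerivAt_sinh x).const_mul r
        have h3 : HasDerivAt (fun y => Real.sinh (r * y)) (Real.cosh (r * x) * r) x := by
          have := ((hasDerivAt_id x).const_mul r).sinh
          simpa using this
        exact h2.sub h3
      rw [h1.deriv]
      have : Real.cosh (r * x) < Real.cosh x := by
        rw [Real.cosh_lt_cosh, abs_of_pos (by positivity), abs_of_pos hx']
        nlinarith
      nlinarith
  have := hmono (show (0:ℝ) ∈ Ici 0 by simp) (show y ∈ Ici 0 from hy.le) hy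
  simp at this
  exact this

theorem JJ_zero_pos (r x : ℝ) (hr : 0 < r) (hr1 : r < 1) (hx : 0 < x) : 0 < JJ r x 0 := by
  have hd := exp_sub_pos r x hr1 hx
  have ha1 : 1 < Real.exp x := Real.one_lt_exp_iff.2 hx
  have hform : JJ r x 0 = (Real.exp x - 1) * ((Real.exp x - 1) ^ 2 * Real.exp (r * x)
      - (Real.exp (r * x) - 1) ^ 2 * Real.exp x / r ^ 2)
      / (Real.exp x * (Real.exp x - Real.exp (r * x))) := by
    unfold JJ
    rw [phr_zero, add_zero, mul_zero, Real.exp_zero]
    unfold phr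
    have hd' := hd.ne'
    have ha := (Real.exp_pos x).ne'
    set u := Real.exp (r * x)
    set a := Real.exp x
    field_simp
    ring
  rw [hform]
  have hs := sinh_aux r (x / 2) hr hr1 (by positivity)
  have e1 : Real.exp x = Real.exp (x / 2) ^ 2 := by rw [← Real.exp_nat_mul]; congr 1; push_cast; ring
  have e2 : Real.exp (r * x) = Real.exp (r * (x / 2)) ^ 2 := by
    rw [← Real.exp_nat_mul]; congr 1; push_cast; ring
  have hkey : (Real.exp (r * x) - 1) ^ 2 * Real.exp x / r ^ 2
      < (Real.exp x - 1) ^ 2 * Real.exp (r * x) := by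
    rw [div_lt_iff₀ (by positivity), e1, e2]
    rw [Real.sinh_eq, Real.sinh_eq, Real.exp_neg, Real.exp_neg] at hs
    have hu1 : 1 ≤ Real.exp (r * (x / 2)) := Real.one_le_exp (by positivity)
    have hu := Real.exp_pos (r * (x / 2))
    have ha := Real.exp_pos (x / 2)
    set u := Real.exp (r * (x / 2))
    set a := Real.exp (x / 2)
    have h1 : (u ^ 2 - 1) * a < r * ((a ^ 2 - 1) * u) := by
      have e3 : (u - u⁻¹) / 2 = (u ^ 2 - 1) / (2 * u) := by field_simp
      have e4 : r * ((a - a⁻¹) / 2) = r * (a ^ 2 - 1) / (2 * a) := by field_simp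
      rw [e3, e4, div_lt_div_iff₀ (by positivity) (by positivity)] at hs
      nlinarith
    have h0 : 0 ≤ (u ^ 2 - 1) * a := mul_nonneg (by nlinarith) ha.le
    have h2 := pow_lt_pow_left₀ h1 h0 (n := 2) (by norm_num)
    nlinarith
  have hA : 0 < Real.exp x - 1 := by linarith
  have hB : 0 < (Real.exp x - 1) ^ 2 * Real.exp (r * x)
      - (Real.exp (r * x) - 1) ^ 2 * Real.exp x / r ^ 2 := by linarith
  have := Real.exp_pos x
  positivity

theorem comp_lemma (f f' Ξ : ℝ → ℝ) (a b : ℝ) (hab : a ≤ b)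
    (hf : ContinuousOn f (Icc a b)) (hΞ : ContinuousOn Ξ (Icc a b))
    (hd : ∀ x ∈ Ioo a b, HasDerivAt f (f' x) x)
    (hineq : ∀ x ∈ Ioo a b, f x < 0 → Ξ x * f x ≤ f' x) (ha : 0 ≤ f a) : 0 ≤ f b := by
  by_contra hb
  push Not at hb
  obtain ⟨C, hC⟩ : ∃ C, ∀ x ∈ Icc a b, Ξ x ≤ C := by
    obtain ⟨C, hC⟩ := (isCompact_Icc.image_of_continuousOn hΞ).bddAbove
    exact ⟨C, fun x hx => hC (mem_image_of_mem _ hx)⟩
  let S : Set ℝ := {x | x ∈ Icc a b ∧ 0 ≤ f x}
  have hSne : S.Nonempty := ⟨a, ⟨left_mem_Icc.2 hab, ha⟩⟩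
  have hSb : BddAbove S := ⟨b, fun x hx => hx.1.2⟩
  have hSclosed : IsClosed S := by
    have : S = Icc a b ∩ f ⁻¹' (Ici 0) := by ext x; rfl
    rw [this]
    exact hf.preimage_isClosed_of_isClosed isClosed_Icc isClosed_Ici
  have hx0 := hSclosed.csSup_mem hSne hSb
  set x0 := sSup S
  have hx0b : x0 < b := by
    rcases hx0.1.2.eq_or_lt with h | h
    · exfalso; rw [h] at hx0; linarith [hx0.2]
    · exact h
  have hneg : ∀ x ∈ Ioc x0 b, f x < 0 := by
    intro x hx
    by_contra hn
    push Not at hn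
    have : x ∈ S := ⟨⟨hx0.1.1.trans hx.1.le, hx.2⟩, hn⟩
    exact absurd (le_csSup hSb this) (not_le.2 hx.1)
  have hmono : MonotoneOn (fun x => f x * Real.exp (-C * x)) (Icc x0 b) := by
    apply monotoneOn_of_deriv_nonneg (convex_Icc _ _)
    · exact (hf.mono (Icc_subset_Icc_left hx0.1.1)).mul (by fun_prop)
    · intro x hx
      rw [interior_Icc] at hx
      have hx' : x ∈ Ioo a b := ⟨lt_of_le_of_lt hx0.1.1 hx.1, hx.2⟩
      have h1 : HasDerivAt (fun x => Real.exp (-C * x)) (Real.exp (-C * x) * (-C)) x := by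
        have := ((hasDerivAt_id x).const_mul (-C)).exp
        simpa using this
      exact ((hd x hx').mul h1).differentiableAt.differentiableWithinAt
    · intro x hx
      rw [interior_Icc] at hx
      have hx' : x ∈ Ioo a b := ⟨lt_of_le_of_lt hx0.1.1 hx.1, hx.2⟩
      have h1 : HasDerivAt (fun x => Real.exp (-C * x)) (Real.exp (-C * x) * (-C)) x := by
        have := ((hasDerivAt_id x).const_mul (-C)).exp
        simpa using this
      have h2 := (hd x hx').mul h1
      have h3 : deriv (fun x => f x * Real.exp (-C * x)) x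
          = f' x * Real.exp (-C * x) + f x * (Real.exp (-C * x) * (-C)) := h2.deriv
      rw [h3]
      have hfx := hneg x ⟨hx.1, hx.2.le⟩
      have h4 := hineq x hx' hfx
      have h5 : C * f x ≤ Ξ x * f x :=
        mul_le_mul_of_nonpos_right (hC x ⟨hx'.1.le, hx'.2.le⟩) hfx.le
      have h6 : 0 ≤ (f' x - C * f x) * Real.exp (-C * x) :=
        mul_nonneg (by linarith) (Real.exp_pos _).le
      nlinarith
  have h7 := hmono (left_mem_Icc.2 hx0b.le) (right_mem_Icc.2 hx0b.le) hx0b.le
  have h8 : 0 ≤ f x0 * Real.exp (-C * x0) := mul_nonneg hx0.2 (Real.exp_pos _).le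
  have h9 : f b * Real.exp (-C * b) < 0 := mul_neg_of_neg_of_pos hb (Real.exp_pos _)
  have h10 : f x0 * Real.exp (-C * x0) ≤ f b * Real.exp (-C * b) := h7
  linarith

theorem D_ge (r x z : ℝ) (hr : 0 < r) (hx : 0 < x) (hxz : 0 ≤ x + z) :
    0 < (Real.exp (r * x) - 1) ^ 2 / (r * Real.exp (r * x)) ∧
    (Real.exp (r * x) - 1) ^ 2 / (r * Real.exp (r * x)) ≤
      (Real.exp (r * x) + Real.exp (r * z) - 2) / r := by
  have hu : 1 < Real.exp (r * x) := Real.one_lt_exp_iff.2 (by positivity)
  have huv : 1 ≤ Real.exp (r * x) * Real.exp (r * z) := by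
    rw [← Real.exp_add]
    apply Real.one_le_exp
    rw [← mul_add]; positivity
  set u := Real.exp (r * x)
  set v := Real.exp (r * z)
  have hu1 : 0 < u - 1 := by linarith
  have hu0 : 0 < u := by linarith
  refine ⟨by positivity, ?_⟩
  rw [div_le_div_iff₀ (by positivity) hr]
  have : (u - 1) ^ 2 ≤ (u + v - 2) * u := by nlinarith
  nlinarith

theorem step_ineq (r x z : ℝ) (hr : 0 < r) (hr1 : r < 1) (hx : 0 < x) (hxz : 0 < x + z) :
    ∃ f', HasDerivAt (fun x => JJ r x z) f' x ∧
      (-((((Real.exp (r * x) - 1) ^ 2 / (r * Real.exp (r * x)))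
            * ((Real.exp (x + z) - 1) * phr r z + (Real.exp (r * x) + Real.exp (r * z) - 2) / r)
          - 2 * (phr r x - 1)
            * ((Real.exp (x + z) - 1) * phr r z + (Real.exp (r * x) + Real.exp (r * z) - 2) / r)
          - ((Real.exp (r * x) - 1) ^ 2 / (r * Real.exp (r * x)))
            * (Real.exp (x + z) * phr r z + Real.exp (r * x)) + JJ r x z)
        / (((Real.exp (r * x) - 1) ^ 2 / (r * Real.exp (r * x)))
            * ((Real.exp (x + z) - 1) * phr r z
              + (Real.exp (r * x) + Real.exp (r * z) - 2) / r)))) * JJ r x z ≤ f' := by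
  obtain ⟨φ', hφ', hric⟩ := phr_deriv r x hr hr1 hx.ne'
  obtain ⟨hD0, hD⟩ := D_ge r x z hr hx hxz.le
  have hR := phr_pos r z hr hr1
  have hE1 : 1 < Real.exp (x + z) := Real.one_lt_exp_iff.2 hxz
  have hEd : HasDerivAt (fun x => Real.exp (x + z)) (Real.exp (x + z)) x := by
    have := ((hasDerivAt_id x).add_const z).exp
    simpa using this
  have hud : HasDerivAt (fun x => Real.exp (r * x)) (Real.exp (r * x) * r) x := by
    have := ((hasDerivAt_id x).const_mul r).exp
    simpa using this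
  have hDd : HasDerivAt (fun x => (Real.exp (r * x) + Real.exp (r * z) - 2) / r)
      (Real.exp (r * x)) x := by
    have := ((hud.add_const (Real.exp (r * z))).sub_const 2).div_const r
    refine this.congr_deriv ?_
    field_simp
  have hEi : HasDerivAt (fun x => 1 / Real.exp (x + z)) (-(1 / Real.exp (x + z))) x := by
    have := ((hasDerivAt_id x).add_const z).neg.exp
    have h2 : (fun x => 1 / Real.exp (x + z)) = fun x => Real.exp (-(id x + z)) := by
      ext x; rw [Real.exp_neg, one_div]; rfl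
    rw [h2]
    refine this.congr_deriv ?_
    have h3 : (-fun x => id x + z) x = -(x + z) := rfl
    rw [h3, Real.exp_neg, one_div]; ring
  have hJd := (((hEd.sub_const 1).mul ((hφ'.mul_const (phr r z)).sub hEi)).sub
    (hDd.mul (((hDd.const_add 2).sub hφ').sub_const (phr r z))))
  have hkey : Real.exp (x + z) - 1 ≤ Real.exp (x + z) * Real.exp (r * x) *
      ((Real.exp (r * x) + Real.exp (r * z) - 2) / r
        - (Real.exp (r * x) - 1) ^ 2 / (r * Real.exp (r * x))) := by
    have e1 : Real.exp (x + z) * Real.exp (r * x) *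
      ((Real.exp (r * x) + Real.exp (r * z) - 2) / r
        - (Real.exp (r * x) - 1) ^ 2 / (r * Real.exp (r * x)))
        = Real.exp (x + z) * ((Real.exp (r * x) * Real.exp (r * z) - 1) / r) := by
      have := (Real.exp_pos (r * x)).ne'
      field_simp
      ring
    rw [e1, ← Real.exp_add]
    have h1 : x + z ≤ (Real.exp (r * x + r * z) - 1) / r := by
      rw [le_div_iff₀ hr]
      have := Real.add_one_le_exp (r * x + r * z)
      nlinarith
    have h2 : 1 - Real.exp (-(x + z)) ≤ x + z := by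
      have := Real.add_one_le_exp (-(x + z))
      linarith
    have h3 : Real.exp (x + z) * (1 - Real.exp (-(x + z))) = Real.exp (x + z) - 1 := by
      rw [mul_sub, ← Real.exp_add]; simp
    rw [← h3]
    exact mul_le_mul_of_nonneg_left (h2.trans h1) (Real.exp_pos _).le
  refine ⟨Real.exp (x + z) * (phr r x * phr r z - 1 / Real.exp (x + z))
      + (Real.exp (x + z) - 1) * (φ' * phr r z + 1 / Real.exp (x + z))
      - Real.exp (r * x) * (2 + (Real.exp (r * x) + Real.exp (r * z) - 2) / r
        - phr r x - phr r z)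
      - ((Real.exp (r * x) + Real.exp (r * z) - 2) / r) * (Real.exp (r * x) - φ'),
    hJd.congr_deriv ?_, ?_⟩
  · simp only [Pi.sub_apply]
    ring
  have hid := ident (Real.exp (x + z)) (1 / Real.exp (x + z)) (phr r z)
    ((Real.exp (r * x) + Real.exp (r * z) - 2) / r)
    ((Real.exp (r * x) - 1) ^ 2 / (r * Real.exp (r * x))) (Real.exp (r * x)) (phr r x) φ'
    (by field_simp) hric
  have hJ : JJ r x z = (Real.exp (x + z) - 1) * (phr r x * phr r z - 1 / Real.exp (x + z))
    - ((Real.exp (r * x) + Real.exp (r * z) - 2) / r)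
      * (2 + (Real.exp (r * x) + Real.exp (r * z) - 2) / r - phr r x - phr r z) := rfl
  rw [← hJ] at hid
  have hupos := Real.exp_pos (r * x)
  set u := Real.exp (r * x)
  set E := Real.exp (x + z)
  set D := (u + Real.exp (r * z) - 2) / r
  set D0 := (u - 1) ^ 2 / (r * u)
  set R := phr r z
  set φ := phr r x
  set J := JJ r x z
  have hDpos : 0 < D := lt_of_lt_of_le hD0 hD
  have hK : 0 < E - 1 := by linarith
  have hE0 : 0 < E := by linarith
  have hQ : 0 < (E - 1) * R + D := by positivity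
  have hrhs : 0 ≤ (1 / E) ^ 2 * (((E - 1) * (1 - E * R) + D * E * (1 + D - R)) ^ 2
        - D0 * E * (E * D * (1 + D - R) ^ 2 - u * (E - 1) * (1 - E * R) ^ 2)) := by
    apply mul_nonneg (by positivity)
    have hps := psd_form ((E - 1) ^ 2 + D0 * E * u * (E - 1)) ((E - 1) * D * E)
      ((D - D0) * D * E ^ 2) (1 - E * R) (1 + D - R) (by positivity)
      (by have : 0 ≤ D - D0 := by linarith
          positivity) (by
        have : 0 ≤ E ^ 2 * D * (E - 1) * D0 * (E * u * (D - D0) - (E - 1)) := by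
          apply mul_nonneg (by positivity)
          linarith
        nlinarith)
    refine hps.trans (le_of_eq ?_)
    ring
  rw [← hid] at hrhs
  have hDQ : 0 < D0 * ((E - 1) * R + D) := mul_pos hD0 hQ
  rw [neg_div', div_mul_eq_mul_div, div_le_iff₀ hDQ]
  linarith [hrhs]

theorem phr_contOn (r a b : ℝ) (hr : 0 < r) (hr1 : r < 1) (ha : 0 < a) :
    ContinuousOn (phr r) (Icc a b) := by
  intro x hx
  obtain ⟨φ', h, _⟩ := phr_deriv r x hr hr1 (ne_of_gt (lt_of_lt_of_le ha hx.1))
  exact h.continuousAt.continuousWithinAt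

theorem JJ_prop (r z x0 x1 : ℝ) (hr : 0 < r) (hr1 : r < 1) (hx0 : 0 < x0) (h01 : x0 ≤ x1)
    (hz : 0 ≤ x0 + z) (hJ : 0 ≤ JJ r x0 z) : 0 ≤ JJ r x1 z := by
  have hφ := phr_contOn r x0 x1 hr hr1 hx0
  have hD0c : ContinuousOn (fun x => (Real.exp (r * x) - 1) ^ 2 / (r * Real.exp (r * x)))
      (Icc x0 x1) := by
    apply ContinuousOn.div (by fun_prop) (by fun_prop)
    intro x _
    have := Real.exp_pos (r * x)
    positivity
  have hDc : ContinuousOn (fun x => (Real.exp (r * x) + Real.exp (r * z) - 2) / r)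
      (Icc x0 x1) := by fun_prop
  have hEic : ContinuousOn (fun x => 1 / Real.exp (x + z)) (Icc x0 x1) := by
    apply ContinuousOn.div (by fun_prop) (by fun_prop)
    intro x _
    exact (Real.exp_pos _).ne'
  have hEc : ContinuousOn (fun x => Real.exp (x + z)) (Icc x0 x1) := by fun_prop
  have huc : ContinuousOn (fun x => Real.exp (r * x)) (Icc x0 x1) := by fun_prop
  have hJc : ContinuousOn (fun x => JJ r x z) (Icc x0 x1) := by
    unfold JJ
    exact ((hEc.sub continuousOn_const).mul ((hφ.mul continuousOn_const).sub hEic)).sub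
      (hDc.mul (((continuousOn_const.add hDc).sub hφ).sub continuousOn_const))
  have hQc : ContinuousOn (fun x => (Real.exp (x + z) - 1) * phr r z
      + (Real.exp (r * x) + Real.exp (r * z) - 2) / r) (Icc x0 x1) :=
    ((hEc.sub continuousOn_const).mul continuousOn_const).add hDc
  have hpos : ∀ x ∈ Icc x0 x1, 0 < ((Real.exp (r * x) - 1) ^ 2 / (r * Real.exp (r * x)))
            * ((Real.exp (x + z) - 1) * phr r z
              + (Real.exp (r * x) + Real.exp (r * z) - 2) / r) := by
    intro x hx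
    have hx' : 0 < x := lt_of_lt_of_le hx0 hx.1
    have hxz : 0 ≤ x + z := by linarith [hx.1]
    obtain ⟨h1, h2⟩ := D_ge r x z hr hx' hxz
    have hR := phr_pos r z hr hr1
    have hE1 : 1 ≤ Real.exp (x + z) := Real.one_le_exp hxz
    have : 0 ≤ (Real.exp (x + z) - 1) * phr r z := mul_nonneg (by linarith) hR.le
    exact mul_pos h1 (by linarith)
  apply comp_lemma (fun x => JJ r x z) (fun x => if h : 0 < x ∧ 0 < x + z then
    (step_ineq r x z hr hr1 h.1 h.2).choose else 0)
    (fun x => (-((((Real.exp (r * x) - 1) ^ 2 / (r * Real.exp (r * x)))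
            * ((Real.exp (x + z) - 1) * phr r z + (Real.exp (r * x) + Real.exp (r * z) - 2) / r)
          - 2 * (phr r x - 1)
            * ((Real.exp (x + z) - 1) * phr r z + (Real.exp (r * x) + Real.exp (r * z) - 2) / r)
          - ((Real.exp (r * x) - 1) ^ 2 / (r * Real.exp (r * x)))
            * (Real.exp (x + z) * phr r z + Real.exp (r * x)) + JJ r x z)
        / (((Real.exp (r * x) - 1) ^ 2 / (r * Real.exp (r * x)))
            * ((Real.exp (x + z) - 1) * phr r z
              + (Real.exp (r * x) + Real.exp (r * z) - 2) / r))))) x0 x1 h01 hJc ?_ ?_ ?_ hJ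
  · apply ContinuousOn.neg
    apply ContinuousOn.div
    · exact ((((hD0c.mul hQc).sub ((continuousOn_const.mul (hφ.sub continuousOn_const)).mul
        hQc)).sub (hD0c.mul ((hEc.mul continuousOn_const).add huc))).add hJc)
    · exact hD0c.mul hQc
    · intro x hx
      exact (hpos x hx).ne'
  · intro x hx
    have h : 0 < x ∧ 0 < x + z := ⟨hx0.trans hx.1, by linarith [hx.1]⟩
    simp only [dif_pos h]
    exact (step_ineq r x z hr hr1 h.1 h.2).choose_spec.1
  · intro x hx _
    have h : 0 < x ∧ 0 < x + z := ⟨hx0.trans hx.1, by linarith [hx.1]⟩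
    simp only [dif_pos h]
    exact (step_ineq r x z hr hr1 h.1 h.2).choose_spec.2

theorem JJ_diag (r z : ℝ) (hr : 0 < r) (hr1 : r < 1) (hz : z ≠ 0) : JJ r (-z) z = 0 := by
  unfold JJ
  rw [phr_neg r z hr hr1 hz]
  have hv := (Real.exp_pos (r * z)).ne'
  rw [neg_add_cancel, Real.exp_zero, show r * -z = -(r * z) by ring, Real.exp_neg]
  set v := Real.exp (r * z)
  field_simp
  ring

theorem JJ_nonneg (r x z : ℝ) (hr : 0 < r) (hr1 : r < 1) (hxz : 0 < x + z) : 0 ≤ JJ r x z := by
  -- case x > 0, z < 0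
  have caseA : ∀ x z : ℝ, 0 < x + z → z < 0 → 0 ≤ JJ r x z := by
    intro x z hxz hz
    exact JJ_prop r z (-z) x hr hr1 (by linarith) (by linarith) (by simp)
      (JJ_diag r z hr hr1 hz.ne).ge
  rcases lt_trichotomy z 0 with hz | hz | hz
  · exact caseA x z hxz hz
  · subst hz
    exact (JJ_zero_pos r x hr hr1 (by linarith)).le
  · rcases lt_trichotomy x 0 with hx | hx | hx
    · rw [JJ_symm]; exact caseA z x (by linarith) hx
    · subst hx
      rw [JJ_symm]
      exact (JJ_zero_pos r z hr hr1 hz).le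
    · -- both positive
      have hlim : Tendsto (phr r) (𝓝[>] 0) (𝓝 1) := by
        have h1 : Tendsto (fun x : ℝ => Real.exp (r * x)) (𝓝[>] 0) (𝓝 1) := by
          have : Tendsto (fun x : ℝ => Real.exp (r * x)) (𝓝 0) (𝓝 (Real.exp (r * 0))) :=
            Continuous.tendsto (by fun_prop) 0
          rw [mul_zero, Real.exp_zero] at this
          exact this.mono_left nhdsWithin_le_nhds
        refine tendsto_of_tendsto_of_tendsto_of_le_of_le' tendsto_const_nhds h1 ?_ ?_
        · filter_upwards [self_mem_nhdsWithin] with y hy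
          exact (phr_bounds_pos r y hr hr1 hy).1
        · filter_upwards [self_mem_nhdsWithin] with y hy
          exact (phr_bounds_pos r y hr hr1 hy).2
      have hJlim : Tendsto (fun y => JJ r y z) (𝓝[>] 0) (𝓝 (JJ r 0 z)) := by
        unfold JJ
        rw [phr_zero]
        have t1 : Tendsto (fun y : ℝ => Real.exp (y + z)) (𝓝[>] 0) (𝓝 (Real.exp (0 + z))) :=
          (Continuous.tendsto (by fun_prop) 0).mono_left nhdsWithin_le_nhds
        have t2 : Tendsto (fun y : ℝ => (Real.exp (r * y) + Real.exp (r * z) - 2) / r) (𝓝[>] 0)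
            (𝓝 ((Real.exp (r * 0) + Real.exp (r * z) - 2) / r)) :=
          (Continuous.tendsto (by fun_prop) 0).mono_left nhdsWithin_le_nhds
        exact ((t1.sub_const 1).mul ((hlim.mul_const _).sub
          (tendsto_const_nhds.div t1 (Real.exp_pos _).ne'))).sub
          (t2.mul (((t2.const_add 2).sub hlim).sub_const _))
      have hpos0 : 0 < JJ r 0 z := by rw [JJ_symm]; exact JJ_zero_pos r z hr hr1 hz
      have hev : ∀ᶠ y in 𝓝[>] (0:ℝ), 0 < JJ r y z := hJlim.eventually (lt_mem_nhds hpos0)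
      have hev2 : ∀ᶠ y in 𝓝[>] (0:ℝ), y < x :=
        (gt_mem_nhds hx).filter_mono nhdsWithin_le_nhds
      have hev3 : ∀ᶠ y in 𝓝[>] (0:ℝ), 0 < y := self_mem_nhdsWithin
      obtain ⟨y, hy1, hy2, hy3⟩ := (hev.and (hev2.and hev3)).exists
      exact JJ_prop r z y x hr hr1 hy3 hy2.le (by linarith) hy1.le

/-- weight of the window in `g²` at the pair `(a, b)` -/
noncomputable def wA (r a b : ℝ) : ℝ := a⁻¹ * b ^ (-r) * phr r (Real.log (b / a))

theorem wA_pos (r a b : ℝ) (hr : 0 < r) (hr1 : r < 1) (ha : 0 < a) (hb : 0 < b) :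
    0 < wA r a b := by
  unfold wA
  have := phr_pos r (Real.log (b / a)) hr hr1
  have := Real.rpow_pos_of_pos hb (-r)
  positivity

theorem rpow_shift (r a b : ℝ) (ha : 0 < a) (hb : 0 < b) :
    a ^ (-r) = b ^ (-r) * Real.exp (r * Real.log (b / a)) := by
  rw [Real.rpow_def_of_pos ha, Real.rpow_def_of_pos hb, ← Real.exp_add,
    Real.log_div hb.ne' ha.ne']
  congr 1; ring

theorem rpow_sub_one' (r b : ℝ) (hb : 0 < b) : b ^ (-r - 1) = b ^ (-r) * b⁻¹ := by
  rw [sub_eq_add_neg, Real.rpow_add hb, Real.rpow_neg_one]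

theorem wA_add (r a b : ℝ) (hr : 0 < r) (hr1 : r < 1) (ha : 0 < a) (hb : 0 < b) :
    wA r a b + wA r b a = a ^ (-r - 1) + b ^ (-r - 1) := by
  rw [rpow_sub_one' r a ha, rpow_sub_one' r b hb]
  unfold wA
  have hlog : Real.log (a / b) = - Real.log (b / a) := by
    rw [← Real.log_inv, inv_div]
  rw [hlog, rpow_shift r a b ha hb]
  have hα : Real.exp (Real.log (b / a)) = b / a := Real.exp_log (by positivity)
  have ha' : a = b / Real.exp (Real.log (b / a)) := by rw [hα]; field_simp
  set x := Real.log (b / a) with hx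
  by_cases hx0 : x = 0
  · rw [hx0] at ha' ⊢
    rw [Real.exp_zero, div_one] at ha'
    simp only [neg_zero, phr_zero, mul_zero, Real.exp_zero]
    rw [ha']; ring
  · rw [phr_neg r x hr hr1 hx0]
    have hd : Real.exp x - Real.exp (r * x) ≠ 0 := by
      rw [sub_ne_zero]
      intro h
      have := Real.exp_injective h
      apply hx0
      have h2 : x * (1 - r) = 0 := by linarith
      rcases mul_eq_zero.1 h2 with h | h
      · exact h
      · linarith
    unfold phr
    rw [ha']
    have hu := (Real.exp_pos (r * x)).ne'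
    have hα0 := (Real.exp_pos x).ne'
    set B := b ^ (-r)
    set u := Real.exp (r * x)
    set α := Real.exp x
    field_simp
    ring

theorem window_ineq (r a b c g g' h : ℝ) (hr : 0 < r) (hr1 : r < 1) (ha : 0 < a) (hb : 0 < b)
    (hc : 0 < c) (hbac : 0 < b ^ 2 - a * c)
    (hC1 : h * (b ^ 2 - a * c) ≤ 2 * b * g * g' - c * g ^ 2 - a * g' ^ 2) :
    h * ((a ^ (-r) - 2 * b ^ (-r) + c ^ (-r)) / r) ≤
      wA r a b * g ^ 2 + wA r c b * g' ^ 2 - 2 * b ^ (-r - 1) * (g * g') := by
  rw [rpow_sub_one' r b hb, rpow_shift r a b ha hb, rpow_shift r c b hc hb]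
  unfold wA
  have hα : Real.exp (Real.log (b / a)) = b / a := Real.exp_log (by positivity)
  have hβ : Real.exp (Real.log (b / c)) = b / c := Real.exp_log (by positivity)
  have hB := Real.rpow_pos_of_pos hb (-r)
  have hE : Real.exp (Real.log (b / a) + Real.log (b / c)) = b ^ 2 / (a * c) := by
    rw [Real.exp_add, hα, hβ]; field_simp
  have hxz : 0 < Real.log (b / a) + Real.log (b / c) := by
    rw [← Real.log_mul (by positivity) (by positivity)]
    apply Real.log_pos
    rw [div_mul_div_comm, lt_div_iff₀ (by positivity)]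
    linarith
  have hJ := JJ_nonneg r _ _ hr hr1 hxz
  have hφ1 := phr_pos r (Real.log (b / a)) hr hr1
  have hφ2 := phr_pos r (Real.log (b / c)) hr hr1
  -- D̂ ≥ 0
  have hD : 0 ≤ (Real.exp (r * Real.log (b / a)) + Real.exp (r * Real.log (b / c)) - 2) / r := by
    apply div_nonneg _ hr.le
    have h1 := Real.add_one_le_exp (r * Real.log (b / a))
    have h2 := Real.add_one_le_exp (r * Real.log (b / c))
    nlinarith
  unfold JJ at hJ
  rw [hE] at hJ
  set B := b ^ (-r)
  set u := Real.exp (r * Real.log (b / a))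
  set v := Real.exp (r * Real.log (b / c))
  set φ1 := phr r (Real.log (b / a))
  set φ2 := phr r (Real.log (b / c))
  obtain ⟨Dh, hDh⟩ : ∃ Dh, Dh = (u + v - 2) / r := ⟨_, rfl⟩
  rw [← hDh] at hJ hD
  have hDD : (B * u - 2 * B + B * v) / r = B * Dh := by rw [hDh]; ring
  rw [hDD]
  -- step 1
  have hs1 : h * (B * Dh) ≤ B * Dh / (b ^ 2 - a * c) * (2 * b * g * g' - c * g ^ 2 - a * g' ^ 2) := by
    have : h * (B * Dh) = B * Dh / (b ^ 2 - a * c) * (h * (b ^ 2 - a * c)) := by
      field_simp
    rw [this]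
    exact mul_le_mul_of_nonneg_left hC1 (by positivity)
  refine hs1.trans ?_
  -- psd
  have hps := psd_form (a⁻¹ * B * φ1 + B * Dh * c / (b ^ 2 - a * c))
    (-(B * b⁻¹ + B * Dh * b / (b ^ 2 - a * c)))
    (c⁻¹ * B * φ2 + B * Dh * a / (b ^ 2 - a * c)) g g' (by positivity) (by positivity) (by
      have e : (a⁻¹ * B * φ1 + B * Dh * c / (b ^ 2 - a * c))
          * (c⁻¹ * B * φ2 + B * Dh * a / (b ^ 2 - a * c))
          - (-(B * b⁻¹ + B * Dh * b / (b ^ 2 - a * c))) ^ 2
          = B ^ 2 / (b ^ 2 - a * c) * ((b ^ 2 / (a * c) - 1) * (φ1 * φ2 - 1 / (b ^ 2 / (a * c)))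
              - Dh * (2 + Dh - φ1 - φ2)) := by
        have := hbac.ne'
        field_simp
        ring
      have : 0 ≤ B ^ 2 / (b ^ 2 - a * c) * ((b ^ 2 / (a * c) - 1)
          * (φ1 * φ2 - 1 / (b ^ 2 / (a * c))) - Dh * (2 + Dh - φ1 - φ2)) := by positivity
      linarith)
  have e2 : (a⁻¹ * B * φ1 * g ^ 2 + c⁻¹ * B * φ2 * g' ^ 2 - 2 * (B * b⁻¹) * (g * g'))
      - B * Dh / (b ^ 2 - a * c) * (2 * b * g * g' - c * g ^ 2 - a * g' ^ 2)
      = (a⁻¹ * B * φ1 + B * Dh * c / (b ^ 2 - a * c)) * g ^ 2 + 2 *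
          (-(B * b⁻¹ + B * Dh * b / (b ^ 2 - a * c))) * (g * g')
        + (c⁻¹ * B * φ2 + B * Dh * a / (b ^ 2 - a * c)) * g' ^ 2 := by
    ring
  linarith

end Pool.Agent.H494.BR
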