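import Pool.Agent.H494.BRWindow
import Pool.Agent.H494.BRSplit

set_option autoImplicit false

open Polynomial Finset

namespace Pool.Agent.H494.BR

/-- telescoping of the split weights -/
theorem split_sum (ω A B g : ℕ → ℝ) (n : ℕ) (hAB : ∀ k ≤ n, A k + B k = ω k + ω (k + 1)) :
    ∑ k ∈ range n, (A k * g k ^ 2 + B (k + 1) * g (k + 1) ^ 2 - 2 * ω (k + 1) * (g k * g (k + 1)))
      + B 0 * g 0 ^ 2 + A n * g n ^ 2
    = ω 0 * g 0 ^ 2 + ∑ k ∈ range n, ω (k + 1) * (g (k + 1) - g k) ^ 2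
      + ω (n + 1) * g n ^ 2 := by
  induction n with
  | zero =>
    have := hAB 0 le_rfl
    simp only [range_zero, sum_empty, zero_add]
    linear_combination (g 0 ^ 2) * this
  | succ n ih =>
    have ih' := ih (fun k hk => hAB k (by omega))
    have h1 := hAB (n + 1) le_rfl
    rw [sum_range_succ, sum_range_succ]
    linear_combination ih' + (g (n + 1) ^ 2) * h1

/-- The main inequality for positive arrays. `g (-1) = 0 = g (n+1)`. -/
theorem main_sum (r : ℝ) (hr : 0 < r) (hr1 : r < 1) (f g h : ℕ → ℝ) (n : ℕ)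
    (hf : ∀ k ≤ n + 1, 0 < f k)
    (hw : ∀ k < n, 0 < f (k + 1) ^ 2 - f k * f (k + 2) ∧
      h k * (f (k + 1) ^ 2 - f k * f (k + 2)) ≤
        2 * f (k + 1) * g k * g (k + 1) - f (k + 2) * g k ^ 2 - f k * g (k + 1) ^ 2) :
    ∑ k ∈ range n, h k * ((f k ^ (-r) - 2 * f (k + 1) ^ (-r) + f (k + 2) ^ (-r)) / r) ≤
      f 0 ^ (-r - 1) * g 0 ^ 2 + ∑ k ∈ range n, f (k + 1) ^ (-r - 1) * (g (k + 1) - g k) ^ 2
      + f (n + 1) ^ (-r - 1) * g n ^ 2 := by
  have hs := split_sum (fun k => f k ^ (-r - 1)) (fun k => wA r (f k) (f (k + 1)))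
    (fun k => wA r (f (k + 1)) (f k)) g n (fun k hk =>
      wA_add r (f k) (f (k + 1)) hr hr1 (hf k (by omega)) (hf (k + 1) (by omega)))
  rw [← hs]
  have h0 : 0 ≤ wA r (f (0 + 1)) (f 0) * g 0 ^ 2 :=
    mul_nonneg (wA_pos r _ _ hr hr1 (hf _ (by omega)) (hf _ (by omega))).le (sq_nonneg _)
  have h1 : 0 ≤ wA r (f n) (f (n + 1)) * g n ^ 2 :=
    mul_nonneg (wA_pos r _ _ hr hr1 (hf _ (by omega)) (hf _ (by omega))).le (sq_nonneg _)
  have h2 : ∑ k ∈ range n, h k * ((f k ^ (-r) - 2 * f (k + 1) ^ (-r) + f (k + 2) ^ (-r)) / r) ≤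
      ∑ k ∈ range n, (wA r (f k) (f (k + 1)) * g k ^ 2
        + wA r (f (k + 1 + 1)) (f (k + 1)) * g (k + 1) ^ 2
        - 2 * f (k + 1) ^ (-r - 1) * (g k * g (k + 1))) := by
    apply sum_le_sum
    intro k hk
    have hk' := mem_range.1 hk
    obtain ⟨w1, w2⟩ := hw k hk'
    exact window_ineq r (f k) (f (k + 1)) (f (k + 2)) (g k) (g (k + 1)) (h k) hr hr1
      (hf k (by omega)) (hf (k + 1) (by omega)) (hf (k + 2) (by omega)) w1 w2
  linarith

/-- coefficientwise derivative -/
def HasDerivCoeff (P : ℝ → ℝ[X]) (P' : ℝ[X]) (t : ℝ) : Prop :=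
  ∀ k, HasDerivAt (fun t => (P t).coeff k) (P'.coeff k) t

theorem HasDerivCoeff.add {P Q : ℝ → ℝ[X]} {P' Q' : ℝ[X]} {t : ℝ} (hP : HasDerivCoeff P P' t)
    (hQ : HasDerivCoeff Q Q' t) : HasDerivCoeff (fun t => P t + Q t) (P' + Q') t := by
  intro k
  simp only [coeff_add]
  exact (hP k).add (hQ k)

theorem HasDerivCoeff.lin_mul {P : ℝ → ℝ[X]} {P' : ℝ[X]} {a b : ℝ → ℝ} {a' b' t : ℝ}
    (hP : HasDerivCoeff P P' t) (ha : HasDerivAt a a' t) (hb : HasDerivAt b b' t) :
    HasDerivCoeff (fun t => (C (a t) + C (b t) * X) * P t)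
      ((C a' + C b' * X) * P t + (C (a t) + C (b t) * X) * P') t := by
  intro k
  simp only [add_mul, coeff_add, coeff_C_mul, mul_assoc]
  cases k with
  | zero =>
    simp only [mul_coeff_zero, coeff_X_zero, zero_mul, mul_zero, add_zero]
    exact ha.mul (hP 0)
  | succ k =>
    simp only [coeff_X_mul]
    have := (ha.mul (hP (k + 1))).add (hb.mul (hP k))
    refine this.congr_deriv ?_
    ring

theorem HasDerivCoeff.const_mul {P : ℝ → ℝ[X]} {P' : ℝ[X]} {t : ℝ}
    (hP : HasDerivCoeff P P' t) (c : ℝ) : HasDerivCoeff (fun t => C c * P t) (C c * P') t := by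
  intro k
  simp only [coeff_C_mul]
  exact (hP k).const_mul c

section Path
variable {ι : Type*} [DecidableEq ι]

theorem deriv_F (p0 d : ι → ℝ) (S : Finset ι) (t : ℝ) :
    HasDerivCoeff (fun t => (AA (fun i => 1 - (p0 i + t * d i)) (fun i => p0 i + t * d i) d S).coeff 0)
      ((X - 1) * (AA (fun i => 1 - (p0 i + t * d i)) (fun i => p0 i + t * d i) d S).coeff 1) t := by
  induction S using Finset.induction_on with
  | empty =>
    intro k
    simp only [AA_empty]
    have : ((X - 1 : ℝ[X]) * (1 : ℝ[X][X]).coeff 1).coeff k = 0 := by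
      simp [coeff_one]
    rw [this]
    exact hasDerivAt_const t _
  | insert a S ha ih =>
    have ha1 : HasDerivAt (fun t => 1 - (p0 a + t * d a)) (-(d a)) t := by
      have := (((hasDerivAt_id t).mul_const (d a)).const_add (p0 a)).const_sub 1
      simpa using this
    have ha2 : HasDerivAt (fun t => p0 a + t * d a) (d a) t := by
      have := ((hasDerivAt_id t).mul_const (d a)).const_add (p0 a)
      simpa using this
    have h := ih.lin_mul ha1 ha2
    have e1 : (fun t => (AA (fun i => 1 - (p0 i + t * d i)) (fun i => p0 i + t * d i) d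
        (insert a S)).coeff 0) = fun t => (C (1 - (p0 a + t * d a)) + C (p0 a + t * d a) * X) *
        (AA (fun i => 1 - (p0 i + t * d i)) (fun i => p0 i + t * d i) d S).coeff 0 := by
      funext t
      rw [AA_coeff_zero _ _ _ ha]
    rw [e1, AA_coeff_succ _ _ _ ha]
    convert h using 1
    simp only [C_neg]
    ring

theorem deriv_G (p0 d : ι → ℝ) (S : Finset ι) (t : ℝ) :
    HasDerivCoeff (fun t => (AA (fun i => 1 - (p0 i + t * d i)) (fun i => p0 i + t * d i) d S).coeff 1)
      ((X - 1) * (C 2 * (AA (fun i => 1 - (p0 i + t * d i)) (fun i => p0 i + t * d i) d S).coeff 2))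
      t := by
  induction S using Finset.induction_on with
  | empty =>
    intro k
    simp only [AA_empty]
    have : ((X - 1 : ℝ[X]) * (C 2 * (1 : ℝ[X][X]).coeff 2)).coeff k = 0 := by
      simp [coeff_one]
    rw [this]
    exact hasDerivAt_const t _
  | insert a S ha ih =>
    have ha1 : HasDerivAt (fun t => 1 - (p0 a + t * d a)) (-(d a)) t := by
      have := (((hasDerivAt_id t).mul_const (d a)).const_add (p0 a)).const_sub 1
      simpa using this
    have ha2 : HasDerivAt (fun t => p0 a + t * d a) (d a) t := by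
      have := ((hasDerivAt_id t).mul_const (d a)).const_add (p0 a)
      simpa using this
    have h := (ih.lin_mul ha1 ha2).add ((deriv_F p0 d S t).const_mul (d a))
    have e1 : (fun t => (AA (fun i => 1 - (p0 i + t * d i)) (fun i => p0 i + t * d i) d
        (insert a S)).coeff 1) = fun t => (C (1 - (p0 a + t * d a)) + C (p0 a + t * d a) * X) *
        (AA (fun i => 1 - (p0 i + t * d i)) (fun i => p0 i + t * d i) d S).coeff 1
        + C (d a) * (AA (fun i => 1 - (p0 i + t * d i)) (fun i => p0 i + t * d i) d S).coeff 0 := by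
      funext t
      rw [AA_coeff_succ _ _ _ ha]
    rw [e1, AA_coeff_succ _ _ _ ha]
    convert h using 1
    have e2 : (C 2 : ℝ[X]) = 2 := rfl
    simp only [C_neg, e2]
    ring

end Path


theorem HasDerivCoeff.xsub {P : ℝ → ℝ[X]} {P' : ℝ[X]} {t : ℝ}
    (hP : HasDerivCoeff P P' t) : HasDerivCoeff (fun t => (X - 1) * P t) ((X - 1) * P') t := by
  intro k
  simp only [sub_mul, coeff_sub, one_mul]
  cases k with
  | zero =>
    simp only [mul_coeff_zero, coeff_X_zero, zero_mul, zero_sub]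
    exact (hP 0).fun_neg
  | succ k =>
    simp only [coeff_X_mul]
    exact (hP k).sub (hP (k + 1))

theorem sum_parts_one (P : ℝ[X]) (W : ℕ → ℝ) (n : ℕ) (hP : P.coeff n = 0) :
    ∑ k ∈ range (n + 1), W k * ((X - 1) * P).coeff k
      = ∑ k ∈ range n, P.coeff k * (W (k + 1) - W k) := by
  have h1 : ∑ k ∈ range (n + 1), W k * ((X - 1) * P).coeff k
      = ∑ k ∈ range (n + 1), W k * (X * P).coeff k - ∑ k ∈ range (n + 1), W k * P.coeff k := by
    rw [← sum_sub_distrib]
    apply sum_congr rfl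
    intro k _
    rw [sub_mul, coeff_sub, one_mul]; ring
  rw [h1, sum_range_succ', sum_range_succ (fun k => W k * P.coeff k), hP]
  simp only [coeff_X_mul, mul_coeff_zero, coeff_X_zero, zero_mul, mul_zero, add_zero]
  rw [← sum_sub_distrib]
  apply sum_congr rfl
  intro k _
  ring

theorem sum_parts_two (P : ℝ[X]) (W : ℕ → ℝ) (n : ℕ) (hP : P.coeff n = 0)
    (hP1 : P.coeff (n + 1) = 0) :
    ∑ k ∈ range (n + 2), W k * ((X - 1) * ((X - 1) * P)).coeff k
      = ∑ k ∈ range n, P.coeff k * (W k - 2 * W (k + 1) + W (k + 2)) := by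
  rw [sum_parts_one ((X - 1) * P) W (n + 1)]
  · have := sum_parts_one P (fun k => W (k + 1) - W k) n hP
    have h3 : ∑ k ∈ range (n + 1), ((X - 1) * P).coeff k * (W (k + 1) - W k)
      = ∑ k ∈ range (n + 1), (W (k + 1) - W k) * ((X - 1) * P).coeff k :=
      sum_congr rfl (fun k _ => mul_comm _ _)
    rw [h3, this]
    apply sum_congr rfl
    intro k _
    ring
  · rw [sub_mul, coeff_sub, coeff_X_mul, one_mul, hP, hP1]; ring

theorem sum_sq_parts (P : ℝ[X]) (ω : ℕ → ℝ) (n : ℕ) (hP : P.coeff (n + 1) = 0) :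
    ∑ k ∈ range (n + 2), ω k * (((X - 1) * P).coeff k) ^ 2
      = ω 0 * P.coeff 0 ^ 2 + ∑ k ∈ range n, ω (k + 1) * (P.coeff (k + 1) - P.coeff k) ^ 2
        + ω (n + 1) * P.coeff n ^ 2 := by
  rw [sum_range_succ, sum_range_succ']
  have h0 : ((X - 1) * P).coeff 0 = - P.coeff 0 := by simp
  have hk : ∀ k, ((X - 1) * P).coeff (k + 1) = P.coeff k - P.coeff (k + 1) := by
    intro k; rw [sub_mul, coeff_sub, coeff_X_mul, one_mul]
  rw [h0]
  simp only [hk, hP]
  have : ∑ k ∈ range n, ω (k + 1) * (P.coeff k - P.coeff (k + 1)) ^ 2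
      = ∑ k ∈ range n, ω (k + 1) * (P.coeff (k + 1) - P.coeff k) ^ 2 :=
    sum_congr rfl (fun k _ => by ring)
  rw [this]
  ring

section Path
variable {ι : Type*} [DecidableEq ι]

/-- concavity of `Σ f_k^q` along an affine path in the open cube -/
theorem concave_open (q : ℝ) (hq : 0 < q) (hq1 : q < 1) (p0 p1 : ι → ℝ) (S : Finset ι)
    (hS : 1 ≤ S.card) (h0 : ∀ i, p0 i ∈ Set.Ioo (0:ℝ) 1) (h1 : ∀ i, p1 i ∈ Set.Ioo (0:ℝ) 1) :
    ConcaveOn ℝ (Set.Icc (0:ℝ) 1) (fun t => ∑ k ∈ range (S.card + 1),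
      (((AA (fun i => 1 - (p0 i + t * (p1 i - p0 i))) (fun i => p0 i + t * (p1 i - p0 i))
        (fun i => p1 i - p0 i) S).coeff 0).coeff k) ^ q) := by
  set d : ι → ℝ := fun i => p1 i - p0 i with hd
  set F : ℝ → ℝ[X] := fun t => (AA (fun i => 1 - (p0 i + t * d i)) (fun i => p0 i + t * d i)
    d S).coeff 0 with hF
  set G : ℝ → ℝ[X] := fun t => (AA (fun i => 1 - (p0 i + t * d i)) (fun i => p0 i + t * d i)
    d S).coeff 1 with hG
  set H : ℝ → ℝ[X] := fun t => C 2 * (AA (fun i => 1 - (p0 i + t * d i))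
    (fun i => p0 i + t * d i) d S).coeff 2 with hH
  have hcube : ∀ t ∈ Set.Icc (0:ℝ) 1, ∀ i, 0 < 1 - (p0 i + t * d i) ∧ 0 < p0 i + t * d i := by
    intro t ht i
    have a0 := h0 i
    have a1 := h1 i
    simp only [hd]
    have e1 : 1 - (p0 i + t * (p1 i - p0 i)) = (1 - t) * (1 - p0 i) + t * (1 - p1 i) := by ring
    have e2 : p0 i + t * (p1 i - p0 i) = (1 - t) * p0 i + t * p1 i := by ring
    rw [e1, e2]
    have b1 : 0 < 1 - p0 i := by linarith [a0.2]
    have b2 : 0 < 1 - p1 i := by linarith [a1.2]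
    have b3 := a0.1
    have b4 := a1.1
    have b5 : 0 ≤ 1 - t := by linarith [ht.2]
    rcases ht.1.eq_or_lt with h | h
    · rw [← h]; constructor <;> linarith
    · constructor <;> positivity
  have hpos : ∀ t ∈ Set.Icc (0:ℝ) 1, ∀ k, k ≤ S.card → 0 < (F t).coeff k := by
    intro t ht k hk
    exact AA_pos _ _ _ S (fun i _ => (hcube t ht i).1) (fun i _ => (hcube t ht i).2) k hk
  have hF1 : ∀ t, HasDerivCoeff F ((X - 1) * G t) t := fun t => deriv_F p0 d S t
  have hG1 : ∀ t, HasDerivCoeff G ((X - 1) * H t) t := fun t => deriv_G p0 d S t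
  have hF2 : ∀ t, HasDerivCoeff (fun t => (X - 1) * G t) ((X - 1) * ((X - 1) * H t)) t :=
    fun t => (hG1 t).xsub
  obtain ⟨n, hn⟩ : ∃ n, S.card = n + 1 := ⟨S.card - 1, by omega⟩
  obtain ⟨r, hr⟩ : ∃ r, r = 1 - q := ⟨_, rfl⟩
  have hr0 : 0 < r := by linarith
  have hr1 : r < 1 := by linarith
  have hqr : q = 1 - r := by linarith
  apply concaveOn_of_hasDerivWithinAt2_nonpos (convex_Icc 0 1)
    (f' := fun t => ∑ k ∈ range (S.card + 1),
      ((X - 1) * G t).coeff k * q * (F t).coeff k ^ (q - 1))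
    (f'' := fun t => ∑ k ∈ range (S.card + 1),
      (((X - 1) * ((X - 1) * H t)).coeff k * q * (F t).coeff k ^ (q - 1)
        + ((X - 1) * G t).coeff k * q *
          (((X - 1) * G t).coeff k * (q - 1) * (F t).coeff k ^ (q - 1 - 1))))
  · intro t ht
    apply ContinuousAt.continuousWithinAt
    apply tendsto_finset_sum
    intro k hk
    have hk' : k ≤ S.card := by have := mem_range.1 hk; omega
    exact ((hF1 t k).rpow_const (p := q) (Or.inl (hpos t ht k hk').ne')).continuousAt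
  · intro t ht
    rw [interior_Icc] at ht
    have ht' : t ∈ Set.Icc (0:ℝ) 1 := ⟨ht.1.le, ht.2.le⟩
    apply HasDerivAt.hasDerivWithinAt
    apply HasDerivAt.fun_sum
    intro k hk
    have hk' : k ≤ S.card := by have := mem_range.1 hk; omega
    exact (hF1 t k).rpow_const (Or.inl (hpos t ht' k hk').ne')
  · intro t ht
    rw [interior_Icc] at ht
    have ht' : t ∈ Set.Icc (0:ℝ) 1 := ⟨ht.1.le, ht.2.le⟩
    apply HasDerivAt.hasDerivWithinAt
    apply HasDerivAt.fun_sum
    intro k hk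
    have hk' : k ≤ S.card := by have := mem_range.1 hk; omega
    exact ((hF2 t k).mul_const q).mul
      ((hF1 t k).rpow_const (p := q - 1) (Or.inl (hpos t ht' k hk').ne'))
  · intro t ht
    rw [interior_Icc] at ht
    have ht' : t ∈ Set.Icc (0:ℝ) 1 := ⟨ht.1.le, ht.2.le⟩
    have hHn : ∀ k, n ≤ k → (H t).coeff k = 0 := by
      intro k hk
      simp only [hH, coeff_C_mul]
      rw [AA_coeff_eq_zero _ _ _ S 2 k (by omega)]
      ring
    have hGn : (G t).coeff (n + 1) = 0 := AA_coeff_eq_zero _ _ _ S 1 (n + 1) (by omega)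
    have key := main_sum r hr0 hr1 (fun k => (F t).coeff k) (fun k => (G t).coeff k)
      (fun k => (H t).coeff k) n (fun k hk => hpos t ht' k (by omega)) (fun k hk =>
        window_C1 _ _ d S (fun i _ => (hcube t ht' i).1) (fun i _ => (hcube t ht' i).2) k
          (by omega) _ _ _ _ _ _ rfl rfl rfl rfl rfl (by simp [hH]))
    have e1 := sum_parts_two (H t) (fun k => (F t).coeff k ^ (-r)) n (hHn n le_rfl)
      (hHn (n + 1) (by omega))
    have e2 := sum_sq_parts (G t) (fun k => (F t).coeff k ^ (-r - 1)) n hGn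
    have e3 : ∑ k ∈ range (S.card + 1),
      (((X - 1) * ((X - 1) * H t)).coeff k * q * (F t).coeff k ^ (q - 1)
        + ((X - 1) * G t).coeff k * q *
          (((X - 1) * G t).coeff k * (q - 1) * (F t).coeff k ^ (q - 1 - 1)))
        = q * r * (∑ k ∈ range n, (H t).coeff k * (((F t).coeff k ^ (-r)
            - 2 * (F t).coeff (k + 1) ^ (-r) + (F t).coeff (k + 2) ^ (-r)) / r)
          - ∑ k ∈ range (n + 2), (F t).coeff k ^ (-r - 1) * (((X - 1) * G t).coeff k) ^ 2) := by
      have e4 : ∑ k ∈ range n, (H t).coeff k * (((F t).coeff k ^ (-r)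
            - 2 * (F t).coeff (k + 1) ^ (-r) + (F t).coeff (k + 2) ^ (-r)) / r)
          = (1 / r) * ∑ k ∈ range (n + 2), (F t).coeff k ^ (-r)
              * ((X - 1) * ((X - 1) * H t)).coeff k := by
        rw [e1, mul_sum]
        apply sum_congr rfl
        intro k _
        ring
      rw [e4, hn]
      simp only [mul_sub, mul_sum, ← sum_sub_distrib]
      apply sum_congr rfl
      intro k _
      have x1 : q - 1 = -r := by linarith
      rw [x1, hqr]
      field_simp
      ring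
    rw [e3, e2]
    have hqr0 : 0 ≤ q * r := by positivity
    apply mul_nonpos_of_nonneg_of_nonpos hqr0
    linarith
end Path

end Pool.Agent.H494.BR
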