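import Mathlib

set_option autoImplicit false

open Polynomial Finset

namespace Pool.Agent.H494.BR

/-- A form of Newton's inequality for the three lowest coefficients of a real-rooted polynomial. -/
theorem newton_low (n : ℕ) : ∀ P : ℝ[X], P.natDegree ≤ n + 1 →
    (∀ z : ℂ, (P.map Complex.ofRealHom).eval z = 0 → z.im = 0) →
    2 * ((n : ℝ) + 1) * (P.coeff 0 * P.coeff 2) ≤ n * (P.coeff 1) ^ 2 := by
  induction n with
  | zero =>
    intro P hP _
    have : P.coeff 2 = 0 := coeff_eq_zero_of_natDegree_lt (by omega)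
    simp [this]
  | succ n ih =>
    intro P hP hroots
    by_cases hdeg : P.natDegree = 0
    · have h1 : P.coeff 1 = 0 := coeff_eq_zero_of_natDegree_lt (by omega)
      have h2 : P.coeff 2 = 0 := coeff_eq_zero_of_natDegree_lt (by omega)
      simp [h1, h2]
    · have hP0 : P ≠ 0 := by rintro rfl; simp at hdeg
      have hdegC : (P.map Complex.ofRealHom).degree ≠ 0 := by
        rw [degree_map]
        intro h
        exact hdeg (natDegree_eq_of_degree_eq_some h)
      obtain ⟨z, hz⟩ := Complex.isAlgClosed.exists_root (P.map Complex.ofRealHom) hdegC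
      have hzim := hroots z hz
      have hzr : z = ((z.re : ℝ) : ℂ) := by
        apply Complex.ext <;> simp [hzim]
      have hroot : P.IsRoot z.re := by
        rw [IsRoot.def] at hz ⊢
        rw [hzr] at hz
        have : (P.map Complex.ofRealHom).eval ((z.re : ℝ) : ℂ) = ((P.eval z.re : ℝ) : ℂ) := by
          rw [eval_map]
          exact (Polynomial.hom_eval₂ P (RingHom.id ℝ) Complex.ofRealHom z.re).symm ▸ by simp
        rw [this] at hz
        exact_mod_cast hz
      obtain ⟨Q, hQ⟩ := dvd_iff_isRoot.2 hroot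
      set r := z.re
      have hQ0 : Q ≠ 0 := by rintro rfl; simp at hQ; exact hP0 hQ
      have hQdeg : Q.natDegree ≤ n + 1 := by
        have : P.natDegree = 1 + Q.natDegree := by
          rw [hQ, natDegree_mul (X_sub_C_ne_zero r) hQ0, natDegree_X_sub_C]
        omega
      have hQr : ∀ z : ℂ, (Q.map Complex.ofRealHom).eval z = 0 → z.im = 0 := by
        intro w hw
        apply hroots w
        rw [hQ, Polynomial.map_mul, eval_mul, hw, mul_zero]
      have IH := ih Q hQdeg hQr
      have a0 : P.coeff 0 = - r * Q.coeff 0 := by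
        rw [hQ, sub_mul, coeff_sub, coeff_C_mul]
        simp
      have a1 : P.coeff 1 = Q.coeff 0 - r * Q.coeff 1 := by
        rw [hQ, sub_mul, coeff_sub, coeff_C_mul, coeff_X_mul]
      have a2 : P.coeff 2 = Q.coeff 1 - r * Q.coeff 2 := by
        rw [hQ, sub_mul, coeff_sub, coeff_C_mul, coeff_X_mul]
      rw [a0, a1, a2]
      push_cast
      set b0 := Q.coeff 0
      set b1 := Q.coeff 1
      set b2 := Q.coeff 2
      have hn : (0:ℝ) < (n:ℝ) + 1 := by positivity
      have key : 0 ≤ ((n:ℝ) + 1) * (((n:ℝ) + 1) * (b0 - r * b1) ^ 2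
          - 2 * ((n:ℝ) + 1 + 1) * (-r * b0 * (b1 - r * b2))) := by
        have h2 : 0 ≤ r ^ 2 * ((n:ℝ) + 2) := by positivity
        have h3 := mul_le_mul_of_nonneg_left IH h2
        nlinarith [sq_nonneg (((n:ℝ) + 1) * b0 + r * b1)]
      have := nonneg_of_mul_nonneg_right key hn
      linarith

/-- If all roots of `P` lie in a convex set avoiding `0`, no coefficient up to the degree
vanishes. -/
theorem coeff_ne_zero_of_roots (U : Set ℂ) (hU : Convex ℝ U) (h0 : (0:ℂ) ∉ U) (k : ℕ) :
    ∀ P : ℂ[X], P ≠ 0 → (∀ z, P.eval z = 0 → z ∈ U) → k ≤ P.natDegree → P.coeff k ≠ 0 := by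
  induction k with
  | zero =>
    intro P hP hr _ hc
    apply h0
    apply hr
    rw [← coeff_zero_eq_eval_zero]; exact hc
  | succ k ih =>
    intro P hP hr hk hc
    have hdeg : 0 < P.degree := by
      rw [← natDegree_pos_iff_degree_pos]; omega
    have hd : P.derivative.natDegree = P.natDegree - 1 := by
      exact natDegree_derivative _
    have hd0 : P.derivative ≠ 0 := by
      intro h
      have := natDegree_eq_zero_of_derivative_eq_zero h
      omega
    have := ih P.derivative hd0 (by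
      intro z hz
      have h1 : z ∈ P.derivative.rootSet ℂ := by
        rw [mem_rootSet, coe_aeval_eq_eval]; exact ⟨hd0, hz⟩
      have h2 := rootSet_derivative_subset_convexHull_rootSet hdeg h1
      refine convexHull_min ?_ hU h2
      intro w hw
      rw [mem_rootSet, coe_aeval_eq_eval] at hw
      exact hr w hw.2) (by omega)
    apply this
    rw [coeff_derivative, hc, zero_mul]

section Arr
variable {ι : Type*} [DecidableEq ι]

/-- `∏ (q_i + p_i s + c_i z)` as a polynomial in `z` over polynomials in `s`. -/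
noncomputable def AA (q p c : ι → ℝ) (S : Finset ι) : ℝ[X][X] :=
  ∏ i ∈ S, (C (C (q i) + C (p i) * X) + C (C (c i)) * X)

theorem AA_insert (q p c : ι → ℝ) {S : Finset ι} {a : ι} (ha : a ∉ S) :
    AA q p c (insert a S) = (C (C (q a) + C (p a) * X) + C (C (c a)) * X) * AA q p c S := by
  unfold AA; rw [Finset.prod_insert ha]

theorem AA_coeff_zero (q p c : ι → ℝ) {S : Finset ι} {a : ι} (ha : a ∉ S) :
    (AA q p c (insert a S)).coeff 0 = (C (q a) + C (p a) * X) * (AA q p c S).coeff 0 := by
  rw [AA_insert q p c ha, add_mul, coeff_add, coeff_C_mul, mul_assoc, coeff_C_mul,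
    coeff_zero_eq_eval_zero (X * _)]
  simp

theorem AA_coeff_succ (q p c : ι → ℝ) {S : Finset ι} {a : ι} (ha : a ∉ S) (j : ℕ) :
    (AA q p c (insert a S)).coeff (j + 1) = (C (q a) + C (p a) * X) * (AA q p c S).coeff (j + 1)
      + C (c a) * (AA q p c S).coeff j := by
  rw [AA_insert q p c ha, add_mul, coeff_add, coeff_C_mul, mul_assoc, coeff_C_mul, coeff_X_mul]

theorem AA_empty (q p c : ι → ℝ) : AA q p c ∅ = 1 := by simp [AA]

theorem AA_coeff_eq_zero (q p c : ι → ℝ) (S : Finset ι) :
    ∀ j k : ℕ, S.card < j + k → ((AA q p c S).coeff j).coeff k = 0 := by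
  induction S using Finset.induction_on with
  | empty =>
    intro j k h
    rw [AA_empty, coeff_one]
    split_ifs with hj
    · subst hj
      rw [coeff_one, if_neg]; simp at h; omega
    · simp
  | insert a S ha ih =>
    intro j k h
    rw [Finset.card_insert_of_notMem ha] at h
    have hL : ∀ Q : ℝ[X], (∀ k', S.card < j + k' → Q.coeff k' = 0) →
        ((C (q a) + C (p a) * X) * Q).coeff k = 0 := by
      intro Q hQ
      rw [add_mul, coeff_add, coeff_C_mul, mul_assoc, coeff_C_mul, hQ k (by omega), mul_zero,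
        zero_add]
      cases k with
      | zero => simp
      | succ k => rw [coeff_X_mul, hQ k (by omega), mul_zero]
    cases j with
    | zero =>
      rw [AA_coeff_zero q p c ha]
      exact hL _ (fun k' hk' => ih 0 k' hk')
    | succ j =>
      rw [AA_coeff_succ q p c ha, coeff_add, hL _ (fun k' hk' => ih (j + 1) k' hk'),
        coeff_C_mul, ih j k (by omega)]
      simp

/-- the coefficient of `s^k` as a polynomial in `z`. -/
noncomputable def EE (q p c : ι → ℝ) (S : Finset ι) (k : ℕ) : ℝ[X] :=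
  ∑ j ∈ Finset.range (S.card + 1), C (((AA q p c S).coeff j).coeff k) * X ^ j

theorem EE_coeff (q p c : ι → ℝ) (S : Finset ι) (k j : ℕ) :
    (EE q p c S k).coeff j = ((AA q p c S).coeff j).coeff k := by
  unfold EE
  rw [finset_sum_coeff]
  simp only [coeff_C_mul, coeff_X_pow]
  by_cases hj : j < S.card + 1
  · rw [Finset.sum_eq_single j]
    · simp
    · intro b _ hb; rw [if_neg (Ne.symm hb)]; simp
    · intro h; exact absurd (Finset.mem_range.2 hj) h
  · rw [AA_coeff_eq_zero q p c S j k (by omega)]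
    apply Finset.sum_eq_zero
    intro b hb
    rw [if_neg, mul_zero]
    rintro rfl
    exact hj (Finset.mem_range.1 hb)

theorem EE_natDegree (q p c : ι → ℝ) (S : Finset ι) (k : ℕ) :
    (EE q p c S k).natDegree ≤ S.card - k := by
  rw [natDegree_le_iff_coeff_eq_zero]
  intro j hj
  rw [EE_coeff]
  exact AA_coeff_eq_zero q p c S j k (by omega)

theorem AA_natDegree (q p c : ι → ℝ) (S : Finset ι) : (AA q p c S).natDegree ≤ S.card := by
  rw [natDegree_le_iff_coeff_eq_zero]
  intro j hj
  ext k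
  rw [AA_coeff_eq_zero q p c S j k (by omega)]
  simp

theorem EE_eval (q p c : ι → ℝ) (S : Finset ι) (k : ℕ) (z : ℂ) :
    ((EE q p c S k).map Complex.ofRealHom).eval z
      = (∏ i ∈ S, (C ((q i : ℂ) + c i * z) + C (p i : ℂ) * X)).coeff k := by
  have h1 : (∏ i ∈ S, (C ((q i : ℂ) + c i * z) + C (p i : ℂ) * X) : ℂ[X])
      = ((AA q p c S).map (mapRingHom Complex.ofRealHom)).eval (C z) := by
    unfold AA
    rw [Polynomial.map_prod, eval_prod]
    apply Finset.prod_congr rfl
    intro i _
    simp only [Polynomial.map_add, Polynomial.map_mul, map_C, map_X, eval_add, eval_mul, eval_C,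
      eval_X, coe_mapRingHom, Complex.ofRealHom_eq_coe, map_add, map_mul]
    ring
  have h2 : ((AA q p c S).map (mapRingHom Complex.ofRealHom)).natDegree < S.card + 1 :=
    lt_of_le_of_lt natDegree_map_le (Nat.lt_succ_of_le (AA_natDegree q p c S))
  rw [h1, eval_eq_sum_range' h2 (C z), finset_sum_coeff]
  unfold EE
  rw [Polynomial.map_sum, eval_finset_sum]
  apply Finset.sum_congr rfl
  intro j _
  rw [← C_pow, coeff_mul_C, coeff_map]
  simp

theorem EE_realRooted (q p c : ι → ℝ) (S : Finset ι) (hq : ∀ i ∈ S, 0 < q i)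
    (hp : ∀ i ∈ S, 0 < p i) (k : ℕ) (hk : k ≤ S.card) (z : ℂ)
    (hz : ((EE q p c S k).map Complex.ofRealHom).eval z = 0) : z.im = 0 := by
  by_contra hne
  rw [EE_eval] at hz
  have hnat : (∏ i ∈ S, (C ((q i : ℂ) + c i * z) + C (p i : ℂ) * X) : ℂ[X]).natDegree
      = S.card := by
    rw [natDegree_prod]
    · rw [Finset.card_eq_sum_ones]
      apply Finset.sum_congr rfl
      intro i hi
      rw [add_comm]
      exact natDegree_linear (by exact_mod_cast (hp i hi).ne')
    · intro i hi h
      have : (C ((q i : ℂ) + c i * z) + C (p i : ℂ) * X : ℂ[X]).coeff 1 = 0 := by rw [h]; simp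
      simp [coeff_C] at this
      exact (hp i hi).ne' this
  have hlin : ∀ i ∈ S, (C ((q i : ℂ) + c i * z) + C (p i : ℂ) * X : ℂ[X]) ≠ 0 := by
    intro i hi h
    have : (C ((q i : ℂ) + c i * z) + C (p i : ℂ) * X : ℂ[X]).coeff 1 = 0 := by rw [h]; simp
    simp [coeff_C] at this
    exact (hp i hi).ne' this
  refine coeff_ne_zero_of_roots {s : ℂ | 0 < (s * (starRingEnd ℂ) z).im * z.im} ?_ ?_ k _
    (Finset.prod_ne_zero_iff.2 hlin) ?_ (by rw [hnat]; exact hk) hz
  · intro x hx y hy a b ha hb hab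
    simp only [Set.mem_ofPred_eq] at hx hy ⊢
    have : ((a • x + b • y) * (starRingEnd ℂ) z).im * z.im
        = a * ((x * (starRingEnd ℂ) z).im * z.im) + b * ((y * (starRingEnd ℂ) z).im * z.im) := by
      simp [Complex.add_im, Complex.mul_im, Complex.add_re, Complex.mul_re]
      ring
    rw [this]
    rcases ha.eq_or_lt with h | h
    · have : b = 1 := by linarith
      rw [← h, this]; simpa using hy
    · have := mul_pos h hx
      have := mul_nonneg hb hy.le
      linarith
  · simp
  · intro s hs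
    rw [eval_prod, Finset.prod_eq_zero_iff] at hs
    obtain ⟨i, hi, hs⟩ := hs
    simp only [eval_add, eval_C, eval_mul, eval_X] at hs
    simp only [Set.mem_ofPred_eq]
    have hpi := hp i hi
    have hqi := hq i hi
    have hre := congrArg Complex.re hs
    have him := congrArg Complex.im hs
    simp [Complex.add_re, Complex.add_im, Complex.mul_re, Complex.mul_im] at hre him
    simp only [Complex.mul_im, Complex.conj_re, Complex.conj_im]
    have e : p i * (s.re * -z.im + s.im * z.re) = q i * z.im := by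
      linear_combination (-z.im) * hre + z.re * him
    have e2 : 0 < p i * ((s.re * -z.im + s.im * z.re) * z.im) := by
      rw [← mul_assoc, e, mul_assoc]
      have : 0 < z.im * z.im := mul_self_pos.2 hne
      exact mul_pos hqi this
    exact (mul_pos_iff_of_pos_left hpi).1 e2

theorem AA_expand (q p d : ι → ℝ) (β γ : ℝ) (S : Finset ι) :
    (AA q p (fun i => β * p i + γ * d i) S).coeff 0 = (AA q p d S).coeff 0 ∧
    (AA q p (fun i => β * p i + γ * d i) S).coeff 1 =
      C β * derivative ((AA q p d S).coeff 0) + C γ * (AA q p d S).coeff 1 ∧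
    (AA q p (fun i => β * p i + γ * d i) S).coeff 2 =
      C (β ^ 2 / 2) * derivative (derivative ((AA q p d S).coeff 0))
        + C (β * γ) * derivative ((AA q p d S).coeff 1)
        + C (γ ^ 2) * (AA q p d S).coeff 2 := by
  induction S using Finset.induction_on with
  | empty =>
    rw [AA_empty, AA_empty]
    simp [coeff_one]
  | insert a S ha ih =>
    obtain ⟨i0, i1, i2⟩ := ih
    have hC2 : (C (β ^ 2 / 2) : ℝ[X]) * 2 = C β ^ 2 := by
      rw [← C_pow, show (2:ℝ[X]) = C 2 from rfl, ← C_mul]; congr 1; ring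
    refine ⟨?_, ?_, ?_⟩
    · rw [AA_coeff_zero q p _ ha, AA_coeff_zero q p _ ha, i0]
    · rw [AA_coeff_succ q p _ ha, AA_coeff_succ q p _ ha, AA_coeff_zero q p _ ha, i0, i1]
      simp only [derivative_mul, derivative_add, derivative_C, derivative_X, map_add, map_mul]
      ring
    · rw [AA_coeff_succ q p _ ha, AA_coeff_succ q p _ ha, AA_coeff_succ q p _ ha,
        AA_coeff_zero q p _ ha, i1, i2]
      simp only [derivative_mul, derivative_add, derivative_C, derivative_X, map_add, map_mul,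
        map_pow, derivative_zero, derivative_one]
      linear_combination (-C (p a) * derivative ((AA q p d S).coeff 0)) * hC2

/-- The Lorentzian-type inequality for a window of the arrays. -/
theorem window_form (q p d : ι → ℝ) (S : Finset ι) (hq : ∀ i ∈ S, 0 < q i)
    (hp : ∀ i ∈ S, 0 < p i) (k : ℕ) (hk : k + 2 ≤ S.card) (β γ : ℝ) :
    2 * ((S.card - k : ℕ) : ℝ) * (((AA q p d S).coeff 0).coeff k *
      ((β ^ 2 / 2) * (((k:ℝ) + 2) * ((k:ℝ) + 1) * ((AA q p d S).coeff 0).coeff (k + 2))
        + β * γ * (((k:ℝ) + 1) * ((AA q p d S).coeff 1).coeff (k + 1))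
        + γ ^ 2 * ((AA q p d S).coeff 2).coeff k)) ≤
    (((S.card - k : ℕ) : ℝ) - 1) * (β * (((k:ℝ) + 1) * ((AA q p d S).coeff 0).coeff (k + 1))
        + γ * ((AA q p d S).coeff 1).coeff k) ^ 2 := by
  obtain ⟨n, hn⟩ : ∃ n, S.card - k = n + 1 := ⟨S.card - k - 1, by omega⟩
  have h := newton_low n (EE q p (fun i => β * p i + γ * d i) S k)
    (by rw [← hn]; exact EE_natDegree _ _ _ _ _)
    (fun z hz => EE_realRooted q p _ S hq hp k (by omega) z hz)
  obtain ⟨i0, i1, i2⟩ := AA_expand q p d β γ S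
  rw [EE_coeff, EE_coeff, EE_coeff, i0, i1, i2] at h
  simp only [coeff_add, coeff_C_mul, coeff_derivative] at h
  rw [hn]
  push_cast at h ⊢
  convert h using 2
  · ring
  · ring
  · ring

theorem AA_pos (q p d : ι → ℝ) (S : Finset ι) (hq : ∀ i ∈ S, 0 < q i) (hp : ∀ i ∈ S, 0 < p i) :
    ∀ k, k ≤ S.card → 0 < ((AA q p d S).coeff 0).coeff k := by
  induction S using Finset.induction_on with
  | empty =>
    intro k hk
    have : k = 0 := by simpa using hk
    subst this
    rw [AA_empty]; simp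
  | insert a S ha ih =>
    have ih' := ih (fun i hi => hq i (Finset.mem_insert_of_mem hi))
      (fun i hi => hp i (Finset.mem_insert_of_mem hi))
    have hqa := hq a (Finset.mem_insert_self a S)
    have hpa := hp a (Finset.mem_insert_self a S)
    intro k hk
    rw [Finset.card_insert_of_notMem ha] at hk
    rw [AA_coeff_zero q p d ha, add_mul, coeff_add, coeff_C_mul, mul_assoc, coeff_C_mul]
    cases k with
    | zero =>
      have := ih' 0 (by omega)
      simp only [mul_coeff_zero, coeff_X_zero, zero_mul, mul_zero, add_zero]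
      positivity
    | succ k =>
      rw [coeff_X_mul]
      have h1 := ih' k (by omega)
      have h2 : 0 ≤ ((AA q p d S).coeff 0).coeff (k + 1) := by
        rcases Nat.lt_or_ge S.card (k + 1) with h | h
        · rw [AA_coeff_eq_zero q p d S 0 (k + 1) (by omega)]
        · exact (ih' (k + 1) h).le
      positivity
end Arr

theorem c1_aux (a b c g g' h : ℝ) (ha : 0 < a) (hc : 0 < c)
    (h1 : a * c ≤ b ^ 2) (h2 : a * h ≤ g ^ 2)
    (h3 : a * g' ^ 2 + h * b ^ 2 + c * g ^ 2 ≤ 2 * b * g * g' + a * c * h) : c * h ≤ g' ^ 2 := by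
  by_contra hlt
  push Not at hlt
  have hh : 0 < h := by
    by_contra hn
    push Not at hn
    nlinarith [sq_nonneg g']
  have e1 : (c * h - g' ^ 2) * (b ^ 2 - a * c) + (c * g - g' * b) ^ 2 ≤ 0 := by
    nlinarith
  have p1 : 0 ≤ (c * h - g' ^ 2) * (b ^ 2 - a * c) := mul_nonneg (by linarith) (by linarith)
  have p2 : (c * g - g' * b) ^ 2 = 0 := le_antisymm (by linarith) (sq_nonneg _)
  have p3 : (c * h - g' ^ 2) * (b ^ 2 - a * c) = 0 := le_antisymm (by nlinarith [sq_nonneg (c * g - g' * b)]) p1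
  have p4 : b ^ 2 = a * c := by
    rcases mul_eq_zero.1 p3 with h | h
    · linarith
    · linarith
  have p5 : c * g = g' * b := by
    have := pow_eq_zero_iff (n := 2) (by norm_num) |>.1 p2
    linarith
  -- then c^2 g^2 = g'^2 b^2 = g'^2 a c, so c g^2 = g'^2 a, and a h ≤ g^2
  have p6 : c * g ^ 2 = g' ^ 2 * a := by
    have : c * (c * g ^ 2) = c * (g' ^ 2 * a) := by
      calc c * (c * g ^ 2) = (c * g) ^ 2 := by ring
        _ = (g' * b) ^ 2 := by rw [p5]
        _ = g' ^ 2 * b ^ 2 := by ring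
        _ = c * (g' ^ 2 * a) := by rw [p4]; ring
    exact mul_left_cancel₀ hc.ne' this
  nlinarith

/-- `C1` from the Lorentzian form: algebra. -/
theorem c1_algebra (a b c g g' h κ lam : ℝ) (ha : 0 < a) (hc : 0 < c) (hκ : 1 < κ) (hlam : 1 < lam)
    (hform : ∀ β γ : ℝ, κ * a * (lam * c * β ^ 2 + 2 * β * γ * g' + γ ^ 2 * h)
      ≤ (β * b + γ * g) ^ 2) :
    0 < b ^ 2 - a * c ∧ h * (b ^ 2 - a * c) ≤ 2 * b * g * g' - c * g ^ 2 - a * g' ^ 2 := by
  obtain ⟨A, hA⟩ : ∃ A, A = κ * a := ⟨_, rfl⟩
  obtain ⟨D, hD⟩ : ∃ D, D = lam * c := ⟨_, rfl⟩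
  rw [← hA, ← hD] at hform
  have hAa : a < A := by rw [hA]; nlinarith
  have hDc : c < D := by rw [hD]; nlinarith
  have hApos : 0 < A := ha.trans hAa
  have hDpos : 0 < D := hc.trans hDc
  have h1 : A * D ≤ b ^ 2 := by have := hform 1 0; simp at this; linarith
  have h2 : A * h ≤ g ^ 2 := by have := hform 0 1; simp at this; linarith
  have hdisc : discrim (b ^ 2 - A * D) (2 * (b * g - A * g')) (g ^ 2 - A * h) ≤ 0 := by
    apply discrim_le_zero
    intro x
    have := hform x 1
    nlinarith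
  have h3 : A * (A * g' ^ 2 + h * b ^ 2 + D * g ^ 2) ≤ A * (2 * b * g * g' + A * D * h) := by
    unfold discrim at hdisc
    nlinarith
  have h3' : A * g' ^ 2 + h * b ^ 2 + D * g ^ 2 ≤ 2 * b * g * g' + A * D * h :=
    le_of_mul_le_mul_left h3 hApos
  have h4 := c1_aux A b D g g' h hApos hDpos h1 h2 h3'
  have hac : a * c < A * D := mul_lt_mul'' hAa hDc ha.le hc.le
  refine ⟨by linarith, ?_⟩
  have q1 : 0 ≤ (A - a) * (g' ^ 2 - D * h) := mul_nonneg (by linarith) (by linarith)
  have q2 : 0 ≤ (D - c) * (g ^ 2 - A * h) := mul_nonneg (by linarith) (by linarith)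
  rcases le_or_gt 0 h with hh | hh
  · have q3 : 0 ≤ h * ((A - a) * (D - c)) :=
      mul_nonneg hh (mul_nonneg (by linarith) (by linarith))
    nlinarith
  · have q4 : 0 ≤ (D - c) * (g ^ 2 - a * h) := mul_nonneg (by linarith) (by nlinarith [sq_nonneg g])
    nlinarith

section Arr2
variable {ι : Type*} [DecidableEq ι]

theorem window_C1 (q p d : ι → ℝ) (S : Finset ι) (hq : ∀ i ∈ S, 0 < q i)
    (hp : ∀ i ∈ S, 0 < p i) (k : ℕ) (hk : k + 2 ≤ S.card) (a b c g g' h : ℝ)
    (ha : a = ((AA q p d S).coeff 0).coeff k) (hb : b = ((AA q p d S).coeff 0).coeff (k + 1))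
    (hc : c = ((AA q p d S).coeff 0).coeff (k + 2)) (hg : g = ((AA q p d S).coeff 1).coeff k)
    (hg' : g' = ((AA q p d S).coeff 1).coeff (k + 1))
    (hh : h = 2 * ((AA q p d S).coeff 2).coeff k) :
    0 < b ^ 2 - a * c ∧ h * (b ^ 2 - a * c) ≤ 2 * b * g * g' - c * g ^ 2 - a * g' ^ 2 := by
  have hapos : 0 < a := ha ▸ AA_pos q p d S hq hp k (by omega)
  have hcpos : 0 < c := hc ▸ AA_pos q p d S hq hp (k + 2) (by omega)
  obtain ⟨n, hn⟩ : ∃ n : ℕ, S.card - k = n + 2 := ⟨S.card - k - 2, by omega⟩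
  have hn0 : (0:ℝ) ≤ n := Nat.cast_nonneg n
  have hk0 : (0:ℝ) ≤ k := Nat.cast_nonneg k
  refine c1_algebra a b c g g' h (((n:ℝ) + 2) / ((n:ℝ) + 1)) (((k:ℝ) + 2) / ((k:ℝ) + 1))
    hapos hcpos ?_ ?_ ?_
  · rw [lt_div_iff₀ (by positivity)]; linarith
  · rw [lt_div_iff₀ (by positivity)]; linarith
  · intro β γ
    have := window_form q p d S hq hp k hk (β / ((k:ℝ) + 1)) γ
    rw [← ha, ← hb, ← hc, ← hg, ← hg', hn] at this
    have hh2 : ((AA q p d S).coeff 2).coeff k = h / 2 := by rw [hh]; ring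
    rw [hh2] at this
    push_cast at this
    have e1 : β / ((k:ℝ) + 1) * (((k:ℝ) + 1) * b) + γ * g = β * b + γ * g := by
      field_simp
    rw [e1] at this
    have e2 : (β / ((k:ℝ) + 1)) ^ 2 / 2 * (((k:ℝ) + 2) * ((k:ℝ) + 1) * c)
        + β / ((k:ℝ) + 1) * γ * (((k:ℝ) + 1) * g') + γ ^ 2 * (h / 2)
        = (((k:ℝ) + 2) / ((k:ℝ) + 1) * c * β ^ 2 + 2 * β * γ * g' + γ ^ 2 * h) / 2 := by
      field_simp
    rw [e2] at this
    have hn1 : (0:ℝ) < (n:ℝ) + 1 := by positivity
    rw [div_mul_eq_mul_div, div_mul_eq_mul_div, div_le_iff₀ hn1]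
    nlinarith
end Arr2

end Pool.Agent.H494.BR
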