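import Mathlib

set_option autoImplicit false
open MeasureTheory Set Filter Topology
open scoped ENNReal

namespace FisherMin

/-- standard Gaussian density -/
noncomputable def gauss (u : ℝ) : ℝ := (Real.sqrt (2 * Real.pi))⁻¹ * Real.exp (-u ^ 2 / 2)

/-- density of `Z + U`, `Z ~ N(0,1)`, `U ~ G` -/
noncomputable def dens (G : Measure ℝ) (x : ℝ) : ℝ := ∫ u, gauss (x - u) ∂G

/-- its derivative -/
noncomputable def densD (G : Measure ℝ) (x : ℝ) : ℝ := ∫ u, -(x - u) * gauss (x - u) ∂G

noncomputable def sqm (G : Measure ℝ) (x : ℝ) : ℝ := ∫ u, (x - u) ^ 2 * gauss (x - u) ∂G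

noncomputable def lam (G : Measure ℝ) (x : ℝ) : ℝ := densD G x / dens G x

/-- Fisher information -/
noncomputable def FI (G : Measure ℝ) : ℝ := ∫ x, densD G x ^ 2 / dens G x

/-- first variation kernel -/
noncomputable def KK (G : Measure ℝ) (u : ℝ) : ℝ :=
  ∫ x, (-2 * (x - u) * lam G x - lam G x ^ 2) * gauss (x - u)


theorem gauss_pos (u : ℝ) : 0 < gauss u := by
  unfold gauss; positivity
theorem gauss_even (u : ℝ) : gauss (-u) = gauss u := by
  unfold gauss; simp
theorem gauss_cont : Continuous gauss := by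
  unfold gauss; fun_prop
theorem gauss_shift (x u : ℝ) : gauss (x - u) = gauss x * Real.exp (x * u - u ^ 2 / 2) := by
  unfold gauss; rw [mul_assoc, ← Real.exp_add]; congr 2; ring

theorem k_pos : 0 < (Real.sqrt (2 * Real.pi))⁻¹ := by positivity
theorem k_le : (Real.sqrt (2 * Real.pi))⁻¹ ≤ 1 / 2 := by
  rw [inv_le_comm₀ (by positivity) (by norm_num)]
  apply Real.le_sqrt_of_sq_le
  have := Real.pi_gt_three
  linarith

theorem gauss_mul_exp (y : ℝ) : gauss y * Real.exp (y ^ 2 / 2) = (Real.sqrt (2 * Real.pi))⁻¹ := by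
  unfold gauss
  rw [mul_assoc, ← Real.exp_add]
  have : -y ^ 2 / 2 + y ^ 2 / 2 = 0 := by ring
  rw [this, Real.exp_zero, mul_one]

/-- if `w ≤ c e^{y²/2}` then `w γ(y) ≤ c/2` -/
theorem bd_of (y w c : ℝ) (hc : 0 ≤ c) (h : w ≤ c * Real.exp (y ^ 2 / 2)) : w * gauss y ≤ c / 2 := by
  have h1 := mul_le_mul_of_nonneg_right h (gauss_pos y).le
  have h2 : c * Real.exp (y ^ 2 / 2) * gauss y = c * (Real.sqrt (2 * Real.pi))⁻¹ := by
    rw [mul_assoc, mul_comm (Real.exp _), gauss_mul_exp]
  rw [h2] at h1
  have h3 := mul_le_mul_of_nonneg_left k_le hc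
  linarith

theorem gauss_le_half (u : ℝ) : gauss u ≤ 1 / 2 := by
  have := bd_of u 1 1 (by norm_num) (by rw [one_mul]; exact Real.one_le_exp (by positivity))
  linarith
theorem gauss_le_one (u : ℝ) : gauss u ≤ 1 := (gauss_le_half u).trans (by norm_num)

theorem abs_gauss_le (y : ℝ) : |y| * gauss y ≤ 1 := by
  have h := Real.add_one_le_exp (y ^ 2 / 2)
  have h2 : |y| ≤ 1 * Real.exp (y ^ 2 / 2) := by
    rw [one_mul]
    nlinarith [sq_abs y, sq_nonneg (|y| - 1)]
  have := bd_of y _ 1 (by norm_num) h2
  linarith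
theorem sq_gauss_le (y : ℝ) : y ^ 2 * gauss y ≤ 1 := by
  have h := Real.add_one_le_exp (y ^ 2 / 2)
  have h2 : y ^ 2 ≤ 2 * Real.exp (y ^ 2 / 2) := by linarith
  have := bd_of y _ 2 (by norm_num) h2
  linarith
theorem cube_gauss_le (y : ℝ) : |y| ^ 3 * gauss y ≤ 4 := by
  have h := Real.quadratic_le_exp_of_nonneg (show 0 ≤ y ^ 2 / 2 by positivity)
  have h2 : |y| ^ 3 ≤ 8 * Real.exp (y ^ 2 / 2) := by
    have h3 : |y| ^ 3 ≤ (y ^ 2 + y ^ 4) := by
      have h4 : |y| ^ 2 = y ^ 2 := sq_abs y
      have h5 : y ^ 4 = |y| ^ 4 := by rw [show (4 : ℕ) = 2 * 2 by norm_num, pow_mul, pow_mul, sq_abs]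
      rw [h5, ← h4]
      nlinarith [abs_nonneg y, sq_nonneg (|y| * (|y| - 1)), sq_nonneg (|y|^2), sq_nonneg (|y|)]
    nlinarith
  have := bd_of y _ 8 (by norm_num) h2
  linarith

theorem gauss_eq : gauss = ProbabilityTheory.gaussianPDFReal 0 1 := by
  ext x; unfold gauss ProbabilityTheory.gaussianPDFReal; simp
theorem integrable_gauss : Integrable gauss := by
  rw [gauss_eq]; exact ProbabilityTheory.integrable_gaussianPDFReal 0 1
theorem integral_gauss : ∫ x, gauss x = 1 := by
  rw [gauss_eq]; exact ProbabilityTheory.integral_gaussianPDFReal_eq_one 0 one_ne_zero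
/-- every polynomial factor is harmless -/
theorem integrable_pow_gauss (n : ℕ) : Integrable (fun x : ℝ => |x| ^ n * gauss x) := by
  have h := integrable_rpow_mul_exp_neg_mul_sq (b := 1 / 2) (by norm_num) (s := n) (by
    have : (0 : ℝ) ≤ n := n.cast_nonneg
    linarith)
  have h2 := (h.norm).mul_const ((Real.sqrt (2 * Real.pi))⁻¹)
  refine h2.congr (Eventually.of_forall fun x => ?_)
  simp only [Real.rpow_natCast, norm_mul, norm_pow, Real.norm_eq_abs, Real.abs_exp]
  unfold gauss
  rw [show -(1 / 2) * x ^ 2 = -x ^ 2 / 2 by ring]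
  ring
theorem integrable_sq_gauss : Integrable (fun x : ℝ => x ^ 2 * gauss x) := by
  have := integrable_pow_gauss 2
  simpa only [sq_abs] using this
theorem integral_sq_gauss : ∫ x, x ^ 2 * gauss x = 1 := by
  have h := ProbabilityTheory.variance_fun_id_gaussianReal (μ := 0) (v := 1)
  rw [ProbabilityTheory.variance_eq_integral (by fun_prop)] at h
  simp only [ProbabilityTheory.integral_id_gaussianReal, sub_zero, NNReal.coe_one] at h
  rw [ProbabilityTheory.integral_gaussianReal_eq_integral_smul (by norm_num)] at h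
  rw [← h]
  refine integral_congr_ae (Eventually.of_forall fun x => ?_)
  simp only [smul_eq_mul]
  rw [gauss_eq]; ring

theorem gauss_deriv (y : ℝ) : HasDerivAt gauss (-y * gauss y) y := by
  unfold gauss
  have h1 : HasDerivAt (fun u : ℝ => -u ^ 2 / 2) (-y) y := by
    have := ((hasDerivAt_pow 2 y).neg).div_const 2
    refine this.congr_deriv ?_
    simp; ring
  have := (h1.exp).const_mul ((Real.sqrt (2 * Real.pi))⁻¹)
  refine this.congr_deriv ?_
  ring
theorem gauss_deriv1 (y : ℝ) : HasDerivAt (fun y => -y * gauss y) ((y ^ 2 - 1) * gauss y) y := by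
  have := ((hasDerivAt_id y).neg).mul (gauss_deriv y)
  refine this.congr_deriv ?_
  simp; ring

variable (G : Measure ℝ) [IsFiniteMeasure G]

theorem conv_int (h : ℝ → ℝ) (hc : Continuous h) (C : ℝ) (hC : ∀ y, |h y| ≤ C) (x : ℝ) :
    Integrable (fun u => h (x - u)) G := by
  refine (integrable_const C).mono' (hc.comp (by fun_prop)).aestronglyMeasurable
    (Eventually.of_forall fun u => ?_)
  exact hC _

theorem conv_cont (h : ℝ → ℝ) (hc : Continuous h) (C : ℝ) (hC : ∀ y, |h y| ≤ C) :
    Continuous (fun x => ∫ u, h (x - u) ∂G) := by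
  refine continuous_of_dominated (bound := fun _ => C) ?_ ?_ (integrable_const C) ?_
  · intro x; exact (hc.comp (by fun_prop)).aestronglyMeasurable
  · intro x; exact Eventually.of_forall fun u => hC _
  · exact Eventually.of_forall fun u => hc.comp (by fun_prop)

theorem conv_deriv (h h' : ℝ → ℝ) (hd : ∀ y, HasDerivAt h (h' y) y) (hc' : Continuous h')
    (C : ℝ) (hC : ∀ y, |h y| ≤ C) (hC' : ∀ y, |h' y| ≤ C) (x : ℝ) :
    HasDerivAt (fun x => ∫ u, h (x - u) ∂G) (∫ u, h' (x - u) ∂G) x := by
  have hc : Continuous h := continuous_iff_continuousAt.mpr fun y => (hd y).continuousAt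
  refine (hasDerivAt_integral_of_dominated_loc_of_deriv_le (F := fun x u => h (x - u))
    (F' := fun x u => h' (x - u)) (bound := fun _ => C) (s := univ) univ_mem ?_ ?_ ?_ ?_ ?_ ?_).2
  · exact Eventually.of_forall fun y => (hc.comp (by fun_prop)).aestronglyMeasurable
  · exact conv_int G h hc C hC x
  · exact (hc'.comp (by fun_prop)).aestronglyMeasurable
  · exact Eventually.of_forall fun u y _ => hC' _
  · exact integrable_const C
  · refine Eventually.of_forall fun u y _ => ?_
    exact (hd (y - u)).comp_sub_const y u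

theorem conv_integrable (h : ℝ → ℝ) (hc : Continuous h) (hi : Integrable h) :
    Integrable (fun x => ∫ u, h (x - u) ∂G) ∧
      ∫ x, (∫ u, h (x - u) ∂G) = (∫ y, h y) * G.real univ := by
  have hp : Integrable (fun p : ℝ × ℝ => h (p.1 - p.2)) ((volume : Measure ℝ).prod G) := by
    have hm : Continuous (fun p : ℝ × ℝ => h (p.1 - p.2)) := hc.comp (by fun_prop)
    rw [integrable_prod_iff' hm.aestronglyMeasurable]
    constructor
    · exact Eventually.of_forall fun u => hi.comp_sub_right u
    · have : (fun u : ℝ => ∫ x, ‖h (x - u)‖) = fun _ => ∫ x, ‖h x‖ := by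
        ext u
        exact integral_sub_right_eq_self (fun x => ‖h x‖) u
      simp only [this]
      exact integrable_const _
  constructor
  · exact hp.integral_prod_left
  · rw [integral_integral_swap hp]
    have : ∀ u : ℝ, ∫ x, h (x - u) = ∫ x, h x := fun u => integral_sub_right_eq_self h u
    simp only [this, integral_const, smul_eq_mul]
    rw [mul_comm]

theorem hgc : ∀ y, |gauss y| ≤ (4 : ℝ) := fun y => by
  rw [abs_of_pos (gauss_pos y)]; linarith [gauss_le_one y]
theorem hgc1 : ∀ y : ℝ, |-y * gauss y| ≤ (4 : ℝ) := fun y => by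
  rw [abs_mul, abs_neg, abs_of_pos (gauss_pos y)]; linarith [abs_gauss_le y]
theorem hgc2 : ∀ y : ℝ, |y ^ 2 * gauss y| ≤ (4 : ℝ) := fun y => by
  rw [abs_of_nonneg (mul_nonneg (sq_nonneg y) (gauss_pos y).le)]; linarith [sq_gauss_le y]
theorem hgc3 : ∀ y : ℝ, |(y ^ 2 - 1) * gauss y| ≤ (4 : ℝ) := fun y => by
  have h1 := sq_gauss_le y
  have h2 := gauss_le_one y
  have h3 := gauss_pos y
  have h4 : 0 ≤ y ^ 2 * gauss y := by positivity
  rw [sub_mul, one_mul, abs_le]; constructor <;> linarith
theorem c1 : Continuous (fun y : ℝ => -y * gauss y) := (by fun_prop : Continuous fun y : ℝ => -y).mul gauss_cont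
theorem c2 : Continuous (fun y : ℝ => y ^ 2 * gauss y) := (by fun_prop : Continuous fun y : ℝ => y ^ 2).mul gauss_cont
theorem c3 : Continuous (fun y : ℝ => (y ^ 2 - 1) * gauss y) :=
  (by fun_prop : Continuous fun y : ℝ => y ^ 2 - 1).mul gauss_cont

theorem dens_cont : Continuous (dens G) := conv_cont G gauss gauss_cont 4 hgc
theorem densD_cont : Continuous (densD G) := conv_cont G (fun y => -y * gauss y) c1 4 hgc1
theorem sqm_cont : Continuous (sqm G) := conv_cont G (fun y => y ^ 2 * gauss y) c2 4 hgc2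
theorem hasDerivAt_dens (x : ℝ) : HasDerivAt (dens G) (densD G x) x :=
  conv_deriv G gauss (fun y => -y * gauss y) gauss_deriv c1 4 hgc hgc1 x
theorem hasDerivAt_densD (x : ℝ) : HasDerivAt (densD G) (sqm G x - dens G x) x := by
  have h := conv_deriv G (fun y => -y * gauss y) (fun y => (y ^ 2 - 1) * gauss y) gauss_deriv1 c3 4
    hgc1 hgc3 x
  refine h.congr_deriv ?_
  unfold sqm dens
  rw [← integral_sub (conv_int G (fun y => y ^ 2 * gauss y) c2 4 hgc2 x) (conv_int G gauss gauss_cont 4 hgc x)]
  refine integral_congr_ae (Eventually.of_forall fun u => ?_)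
  simp only; ring
theorem dens_nonneg (x : ℝ) : 0 ≤ dens G x := integral_nonneg fun u => (gauss_pos _).le
theorem sqm_nonneg (x : ℝ) : 0 ≤ sqm G x :=
  integral_nonneg fun u => mul_nonneg (sq_nonneg _) (gauss_pos _).le
theorem densD_sq_le (x : ℝ) : densD G x ^ 2 ≤ dens G x * sqm G x := by
  have i0 := conv_int G gauss gauss_cont 4 hgc x
  have i1 := conv_int G (fun y => -y * gauss y) c1 4 hgc1 x
  have i2 := conv_int G (fun y => y ^ 2 * gauss y) c2 4 hgc2 x
  have key : ∀ t : ℝ, 0 ≤ t ^ 2 * dens G x - 2 * t * densD G x + sqm G x := by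
    intro t
    have : t ^ 2 * dens G x - 2 * t * densD G x + sqm G x
        = ∫ u, (t ^ 2 * gauss (x - u) - 2 * t * (-(x - u) * gauss (x - u))
          + (x - u) ^ 2 * gauss (x - u)) ∂G := by
      unfold dens densD sqm
      rw [integral_add, integral_sub, integral_const_mul, integral_const_mul]
      · exact i0.const_mul _
      · exact i1.const_mul _
      · exact (i0.const_mul _).sub (i1.const_mul _)
      · exact i2
    rw [this]
    refine integral_nonneg fun u => ?_
    have h : t ^ 2 * gauss (x - u) - 2 * t * (-(x - u) * gauss (x - u)) + (x - u) ^ 2 * gauss (x - u)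
        = (t + (x - u)) ^ 2 * gauss (x - u) := by ring
    simp only [Pi.zero_apply]
    rw [h]
    exact mul_nonneg (sq_nonneg _) (gauss_pos _).le
  have hd := discrim_le_zero (a := dens G x) (b := -2 * densD G x) (c := sqm G x) (fun t => by
    have := key t; nlinarith)
  unfold discrim at hd
  nlinarith
theorem integrable_dens : Integrable (dens G) :=
  (conv_integrable G gauss gauss_cont integrable_gauss).1
theorem integral_dens : ∫ x, dens G x = G.real univ := by
  have := (conv_integrable G gauss gauss_cont integrable_gauss).2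
  rw [integral_gauss, one_mul] at this
  exact this
theorem integrable_sqm : Integrable (sqm G) :=
  (conv_integrable G (fun y => y ^ 2 * gauss y) c2 integrable_sq_gauss).1
theorem integral_sqm : ∫ x, sqm G x = G.real univ := by
  have := (conv_integrable G (fun y => y ^ 2 * gauss y) c2 integrable_sq_gauss).2
  rw [integral_sq_gauss, one_mul] at this
  exact this

variable {α : ℝ} (hα : 0 < α) (hG : ENNReal.ofReal α ≤ G {0})
include hα hG

theorem dens_lower (x : ℝ) : α * gauss x ≤ dens G x := by
  have h1 : α ≤ G.real {0} := by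
    unfold Measure.real
    rw [← ENNReal.ofReal_le_iff_le_toReal (by finiteness)]
    exact hG
  have h2 : ∫ u in ({0} : Set ℝ), gauss (x - u) ∂G ≤ dens G x :=
    setIntegral_le_integral (conv_int G gauss gauss_cont 4 hgc x)
      (Eventually.of_forall fun u => (gauss_pos _).le)
  rw [integral_singleton, sub_zero, smul_eq_mul] at h2
  have := mul_le_mul_of_nonneg_right h1 (gauss_pos x).le
  linarith
theorem dens_pos (x : ℝ) : 0 < dens G x :=
  lt_of_lt_of_le (mul_pos hα (gauss_pos x)) (dens_lower G hα hG x)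
theorem mass_lower : α ≤ G.real univ := by
  unfold Measure.real
  rw [← ENNReal.ofReal_le_iff_le_toReal (by finiteness)]
  exact hG.trans (measure_mono (subset_univ _))
/-- posterior second moment bound (exponential Jensen) -/
theorem sqm_le_log (x : ℝ) : sqm G x ≤
    dens G x * (2 * Real.log (G.real univ * (Real.sqrt (2 * Real.pi))⁻¹ / dens G x)) := by
  have hf := dens_pos G hα hG x
  have hm : 0 < G.real univ := lt_of_lt_of_le hα (mass_lower G hα hG)
  set k := (Real.sqrt (2 * Real.pi))⁻¹ with hk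
  have hkp : 0 < k := k_pos
  set M := G.real univ * k / dens G x with hM
  have hMp : 0 < M := by positivity
  have i0 := conv_int G gauss gauss_cont 4 hgc x
  have i2 := conv_int G (fun y => y ^ 2 * gauss y) c2 4 hgc2 x
  have h1 : sqm G x ≤ ∫ u, (2 * k / M + 2 * (Real.log M - 1) * gauss (x - u)) ∂G := by
    unfold sqm
    refine integral_mono i2 ((integrable_const _).add (i0.const_mul _)) fun u => ?_
    simp only
    have e1 := Real.add_one_le_exp ((x - u) ^ 2 / 2 - Real.log M)
    rw [Real.exp_sub, Real.exp_log hMp] at e1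
    have e2 : (x - u) ^ 2 ≤ 2 * (Real.exp ((x - u) ^ 2 / 2) / M) + 2 * (Real.log M - 1) := by linarith
    have e3 := mul_le_mul_of_nonneg_right e2 (gauss_pos (x - u)).le
    have e4 := gauss_mul_exp (x - u)
    rw [← hk] at e4
    calc (x - u) ^ 2 * gauss (x - u)
        ≤ (2 * (Real.exp ((x - u) ^ 2 / 2) / M) + 2 * (Real.log M - 1)) * gauss (x - u) := e3
      _ = 2 * (gauss (x - u) * Real.exp ((x - u) ^ 2 / 2)) / M + 2 * (Real.log M - 1) * gauss (x - u) := by ring
      _ = _ := by rw [e4]
  rw [integral_add (integrable_const _) (i0.const_mul _), integral_const, integral_const_mul,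
    smul_eq_mul] at h1
  have h2 : G.real univ * (2 * k / M) = 2 * dens G x := by
    rw [hM]; field_simp
  rw [h2] at h1
  have h3 : ∫ u, gauss (x - u) ∂G = dens G x := rfl
  rw [h3] at h1
  linarith
theorem sqm_div_le (x : ℝ) : sqm G x / dens G x ≤ x ^ 2 + 2 * Real.log (G.real univ / α) := by
  have hf := dens_pos G hα hG x
  have hm : 0 < G.real univ := lt_of_lt_of_le hα (mass_lower G hα hG)
  have h1 := sqm_le_log G hα hG x
  rw [div_le_iff₀ hf]
  refine h1.trans ?_
  rw [mul_comm]
  refine mul_le_mul_of_nonneg_right ?_ hf.le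
  have h2 : G.real univ * (Real.sqrt (2 * Real.pi))⁻¹ / dens G x
      ≤ G.real univ / α * Real.exp (x ^ 2 / 2) := by
    have h3 := dens_lower G hα hG x
    rw [div_le_iff₀ hf]
    have h4 := mul_le_mul_of_nonneg_left h3 (show 0 ≤ G.real univ / α * Real.exp (x ^ 2 / 2) by positivity)
    have h5 : G.real univ / α * Real.exp (x ^ 2 / 2) * (α * gauss x)
        = G.real univ * (gauss x * Real.exp (x ^ 2 / 2)) := by field_simp
    rw [h5, gauss_mul_exp] at h4
    exact h4
  have h6 := Real.log_le_log (by have := k_pos; positivity) h2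
  rw [Real.log_mul (by positivity) (Real.exp_pos _).ne', Real.log_exp] at h6
  linarith
theorem lam_sq_le_div (x : ℝ) : lam G x ^ 2 ≤ sqm G x / dens G x := by
  have hf := dens_pos G hα hG x
  unfold lam
  rw [div_pow, div_le_div_iff₀ (by positivity) hf]
  have := densD_sq_le G x
  nlinarith
theorem lam_sq_le (x : ℝ) : lam G x ^ 2 ≤ x ^ 2 + 2 * Real.log (G.real univ / α) :=
  (lam_sq_le_div G hα hG x).trans (sqm_div_le G hα hG x)
theorem lam_cont : Continuous (lam G) :=
  (densD_cont G).div (dens_cont G) fun x => (dens_pos G hα hG x).ne'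
theorem FI_integrable : Integrable (fun x => densD G x ^ 2 / dens G x) := by
  refine (integrable_sqm G).mono' ?_ (Eventually.of_forall fun x => ?_)
  · exact (((densD_cont G).pow 2).div (dens_cont G) fun x => (dens_pos G hα hG x).ne').aestronglyMeasurable
  · have hf := dens_pos G hα hG x
    rw [Real.norm_of_nonneg (by positivity), div_le_iff₀ hf]
    have := densD_sq_le G x
    linarith
theorem lamsq_dens_eq (x : ℝ) : lam G x ^ 2 * dens G x = densD G x ^ 2 / dens G x := by
  have hf := dens_pos G hα hG x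
  unfold lam
  field_simp
theorem lamsq_dens_integrable : Integrable (fun x => lam G x ^ 2 * dens G x) :=
  (FI_integrable G hα hG).congr (Eventually.of_forall fun x => (lamsq_dens_eq G hα hG x).symm)

end FisherMin
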