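import Mathlib
import Pool.Agent.H494.FM1

set_option autoImplicit false
open MeasureTheory Set Filter Topology
open scoped ENNReal

namespace FisherMin

section linear
variable (G G' : Measure ℝ) [IsFiniteMeasure G] [IsFiniteMeasure G']

theorem dens_add (x : ℝ) : dens (G + G') x = dens G x + dens G' x := by
  unfold dens
  exact integral_add_measure (conv_int G gauss gauss_cont 4 hgc x) (conv_int G' gauss gauss_cont 4 hgc x)
theorem densD_add (x : ℝ) : densD (G + G') x = densD G x + densD G' x := by
  unfold densD
  exact integral_add_measure (conv_int G (fun y => -y * gauss y) c1 4 hgc1 x)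
    (conv_int G' (fun y => -y * gauss y) c1 4 hgc1 x)
theorem dens_smul (a : ℝ) (ha : 0 ≤ a) (x : ℝ) : dens (ENNReal.ofReal a • G) x = a * dens G x := by
  unfold dens
  rw [integral_smul_measure, ENNReal.toReal_ofReal ha, smul_eq_mul]
theorem densD_smul (a : ℝ) (ha : 0 ≤ a) (x : ℝ) : densD (ENNReal.ofReal a • G) x = a * densD G x := by
  unfold densD
  rw [integral_smul_measure, ENNReal.toReal_ofReal ha, smul_eq_mul]
theorem dens_dirac (u x : ℝ) : dens (Measure.dirac u) x = gauss (x - u) := by
  unfold dens; rw [integral_dirac]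
theorem densD_dirac (u x : ℝ) : densD (Measure.dirac u) x = -(x - u) * gauss (x - u) := by
  unfold densD; rw [integral_dirac]
end linear

theorem shift_int (n : ℕ) (u : ℝ) : Integrable (fun x : ℝ => |x - u| ^ n * gauss (x - u)) :=
  (integrable_pow_gauss n).comp_sub_right u

variable (G : Measure ℝ) [IsFiniteMeasure G] {α : ℝ} (hα : 0 < α) (hG : ENNReal.ofReal α ≤ G {0})
include hα hG

theorem lamsq_gauss_int (u : ℝ) : Integrable (fun x => lam G x ^ 2 * gauss (x - u)) := by
  set L := 2 * Real.log (G.real univ / α) with hL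
  have h2 := shift_int 2 u
  have h0 := shift_int 0 u
  simp only [pow_zero, one_mul] at h0
  have hb : Integrable (fun x : ℝ => 2 * (|x - u| ^ 2 * gauss (x - u)) + (2 * u ^ 2 + |L|) * gauss (x - u)) :=
    (h2.const_mul 2).add (h0.const_mul _)
  refine hb.mono' ?_ (Eventually.of_forall fun x => ?_)
  · exact (((lam_cont G hα hG).pow 2).mul (gauss_cont.comp (by fun_prop))).aestronglyMeasurable
  · have h := lam_sq_le G hα hG x
    rw [← hL] at h
    rw [Real.norm_of_nonneg (mul_nonneg (sq_nonneg _) (gauss_pos _).le)]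
    have h3 : lam G x ^ 2 ≤ 2 * |x - u| ^ 2 + (2 * u ^ 2 + |L|) := by
      rw [sq_abs]
      nlinarith [le_abs_self L, sq_nonneg (x - 2 * u)]
    calc lam G x ^ 2 * gauss (x - u) ≤ (2 * |x - u| ^ 2 + (2 * u ^ 2 + |L|)) * gauss (x - u) :=
          mul_le_mul_of_nonneg_right h3 (gauss_pos _).le
      _ = _ := by ring

theorem lam1_gauss_int (u : ℝ) : Integrable (fun x => 2 * (x - u) * lam G x * gauss (x - u)) := by
  have h2 := shift_int 2 u
  have hb := h2.add (lamsq_gauss_int G hα hG u)
  refine hb.mono' ?_ (Eventually.of_forall fun x => ?_)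
  · exact (((by fun_prop : Continuous fun x : ℝ => 2 * (x - u)).mul (lam_cont G hα hG)).mul
      (gauss_cont.comp (by fun_prop))).aestronglyMeasurable
  · rw [norm_mul, Real.norm_of_nonneg (gauss_pos (x - u)).le, Real.norm_eq_abs]
    simp only [Pi.add_apply]
    rw [← add_mul]
    refine mul_le_mul_of_nonneg_right ?_ (gauss_pos _).le
    rw [abs_mul, abs_mul, abs_two, ← sq_abs (lam G x)]
    nlinarith [sq_nonneg (|x - u| - |lam G x|)]

theorem KK_integrand_int (u : ℝ) :
    Integrable (fun x => (-2 * (x - u) * lam G x - lam G x ^ 2) * gauss (x - u)) := by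
  have := ((lam1_gauss_int G hα hG u).neg).sub (lamsq_gauss_int G hα hG u)
  refine this.congr (Eventually.of_forall fun x => ?_)
  simp only [Pi.sub_apply, Pi.neg_apply]; ring

/-- first variation against a three point measure -/
theorem var_dirac (a b : ℝ) (ha : 0 ≤ a) (hb : 0 ≤ b) (u : ℝ) :
    ∫ x, (2 * densD (ENNReal.ofReal a • Measure.dirac 0 +
        ENNReal.ofReal b • (Measure.dirac u + Measure.dirac (-u))) x * lam G x -
      dens (ENNReal.ofReal a • Measure.dirac 0 +
        ENNReal.ofReal b • (Measure.dirac u + Measure.dirac (-u))) x * lam G x ^ 2)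
    = a * KK G 0 + b * (KK G u + KK G (-u)) := by
  have e : ∀ x, (2 * densD (ENNReal.ofReal a • Measure.dirac 0 +
        ENNReal.ofReal b • (Measure.dirac u + Measure.dirac (-u))) x * lam G x -
      dens (ENNReal.ofReal a • Measure.dirac 0 +
        ENNReal.ofReal b • (Measure.dirac u + Measure.dirac (-u))) x * lam G x ^ 2)
      = a * ((-2 * (x - 0) * lam G x - lam G x ^ 2) * gauss (x - 0)) +
        b * ((-2 * (x - u) * lam G x - lam G x ^ 2) * gauss (x - u) +
          (-2 * (x - (-u)) * lam G x - lam G x ^ 2) * gauss (x - (-u))) := by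
    intro x
    have f1 : IsFiniteMeasure (ENNReal.ofReal a • Measure.dirac (0 : ℝ)) :=
      Measure.smul_finite _ ENNReal.ofReal_ne_top
    have f2 : IsFiniteMeasure (ENNReal.ofReal b • (Measure.dirac u + Measure.dirac (-u))) :=
      Measure.smul_finite _ ENNReal.ofReal_ne_top
    rw [dens_add, densD_add, dens_smul _ a ha, densD_smul _ a ha, dens_smul _ b hb,
      densD_smul _ b hb, dens_add, densD_add]
    simp only [dens_dirac, densD_dirac]
    ring
  simp_rw [e]
  have i0 := KK_integrand_int G hα hG 0
  have i1 := KK_integrand_int G hα hG u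
  have i2 := KK_integrand_int G hα hG (-u)
  have i3 : Integrable (fun x => (-2 * (x - u) * lam G x - lam G x ^ 2) * gauss (x - u) +
          (-2 * (x - (-u)) * lam G x - lam G x ^ 2) * gauss (x - (-u))) := i1.add i2
  rw [integral_add (i0.const_mul a) (i3.const_mul b), integral_const_mul, integral_const_mul,
    integral_add i1 i2]
  rfl

theorem KK_prod_int : Integrable (fun p : ℝ × ℝ =>
    (-2 * (p.1 - p.2) * lam G p.1 - lam G p.1 ^ 2) * gauss (p.1 - p.2))
    ((volume : Measure ℝ).prod G) := by
  have hlc := lam_cont G hα hG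
  have hcont : Continuous (fun p : ℝ × ℝ =>
      (-2 * (p.1 - p.2) * lam G p.1 - lam G p.1 ^ 2) * gauss (p.1 - p.2)) := by
    have h1 : Continuous (fun p : ℝ × ℝ => lam G p.1) := hlc.comp continuous_fst
    have h2 : Continuous (fun p : ℝ × ℝ => gauss (p.1 - p.2)) := gauss_cont.comp (by fun_prop)
    exact (((by fun_prop : Continuous fun p : ℝ × ℝ => -2 * (p.1 - p.2)).mul h1).sub (h1.pow 2)).mul h2
  have hb : ∀ x u : ℝ, ‖(-2 * (x - u) * lam G x - lam G x ^ 2) * gauss (x - u)‖
      ≤ (x - u) ^ 2 * gauss (x - u) + 2 * (lam G x ^ 2 * gauss (x - u)) := by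
    intro x u
    rw [norm_mul, Real.norm_of_nonneg (gauss_pos (x - u)).le, Real.norm_eq_abs]
    have : |-2 * (x - u) * lam G x - lam G x ^ 2| ≤ (x - u) ^ 2 + 2 * lam G x ^ 2 := by
      rw [abs_le]; constructor <;> nlinarith [sq_nonneg (x - u + lam G x), sq_nonneg (x - u - lam G x)]
    calc _ ≤ ((x - u) ^ 2 + 2 * lam G x ^ 2) * gauss (x - u) :=
          mul_le_mul_of_nonneg_right this (gauss_pos _).le
      _ = _ := by ring
  rw [integrable_prod_iff hcont.aestronglyMeasurable]
  have hbu : ∀ x, Integrable (fun u => (x - u) ^ 2 * gauss (x - u) + 2 * (lam G x ^ 2 * gauss (x - u))) G := by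
    intro x
    exact (conv_int G (fun y => y ^ 2 * gauss y) c2 4 hgc2 x).add
      (((conv_int G gauss gauss_cont 4 hgc x).const_mul _).const_mul _)
  have hcu : ∀ x : ℝ, Continuous (fun u : ℝ => (-2 * (x - u) * lam G x - lam G x ^ 2) * gauss (x - u)) := by
    intro x
    exact (by fun_prop : Continuous fun u : ℝ => (-2 * (x - u) * lam G x - lam G x ^ 2)).mul
      (gauss_cont.comp (by fun_prop))
  constructor
  · refine Eventually.of_forall fun x => ?_
    exact (hbu x).mono' (hcu x).aestronglyMeasurable (Eventually.of_forall fun u => hb x u)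
  · have h3 : Integrable (fun x => sqm G x + 2 * (lam G x ^ 2 * dens G x)) :=
      (integrable_sqm G).add ((lamsq_dens_integrable G hα hG).const_mul 2)
    refine h3.mono' ?_ (Eventually.of_forall fun x => ?_)
    · exact (hcont.norm.stronglyMeasurable.integral_prod_right
        (f := fun x u : ℝ => ‖(-2 * (x - u) * lam G x - lam G x ^ 2) * gauss (x - u)‖)).aestronglyMeasurable
    · rw [Real.norm_of_nonneg (integral_nonneg fun u => norm_nonneg _)]
      calc ∫ u, ‖(-2 * (x - u) * lam G x - lam G x ^ 2) * gauss (x - u)‖ ∂G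
          ≤ ∫ u, ((x - u) ^ 2 * gauss (x - u) + 2 * (lam G x ^ 2 * gauss (x - u))) ∂G :=
            integral_mono_of_nonneg (Eventually.of_forall fun u => norm_nonneg _) (hbu x)
              (Eventually.of_forall fun u => hb x u)
        _ = sqm G x + 2 * (lam G x ^ 2 * dens G x) := by
            rw [integral_add (conv_int G (fun y => y ^ 2 * gauss y) c2 4 hgc2 x)
              (((conv_int G gauss gauss_cont 4 hgc x).const_mul _).const_mul _),
              integral_const_mul, integral_const_mul]
            rfl

/-- Euler identity: `∫ K dG = I(G)` -/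
theorem KK_int : Integrable (KK G) G ∧ ∫ u, KK G u ∂G = FI G := by
  have hp := KK_prod_int G hα hG
  constructor
  · have := hp.integral_prod_right
    exact this
  · unfold KK FI
    rw [← integral_integral_swap hp]
    refine integral_congr_ae (Eventually.of_forall fun x => ?_)
    have i1 := conv_int G (fun y => -y * gauss y) c1 4 hgc1 x
    have i0 := conv_int G gauss gauss_cont 4 hgc x
    have hf := dens_pos G hα hG x
    simp only
    have : ∀ u, (-2 * (x - u) * lam G x - lam G x ^ 2) * gauss (x - u)
        = 2 * lam G x * (-(x - u) * gauss (x - u)) - lam G x ^ 2 * gauss (x - u) := by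
      intro u; ring
    simp_rw [this]
    rw [integral_sub (i1.const_mul _) (i0.const_mul _), integral_const_mul, integral_const_mul]
    have e1 : ∫ u, -(x - u) * gauss (x - u) ∂G = densD G x := rfl
    have e2 : ∫ u, gauss (x - u) ∂G = dens G x := rfl
    rw [e1, e2]
    unfold lam
    field_simp
    ring

omit hα hG in
theorem dens_even (hsym : G.map (fun u => -u) = G) (x : ℝ) : dens G (-x) = dens G x := by
  unfold dens
  conv_rhs => rw [← hsym]
  have hm : Continuous (fun u : ℝ => gauss (x - u)) := gauss_cont.comp (by fun_prop)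
  rw [integral_map (by fun_prop) hm.aestronglyMeasurable]
  refine integral_congr_ae (Eventually.of_forall fun u => ?_)
  simp only
  rw [← gauss_even]; congr 1; ring
omit hα hG in
theorem densD_odd (hsym : G.map (fun u => -u) = G) (x : ℝ) : densD G (-x) = -densD G x := by
  unfold densD
  conv_rhs => rw [← hsym]
  have hm : Continuous (fun u : ℝ => -(x - u) * gauss (x - u)) :=
    (by fun_prop : Continuous fun u : ℝ => -(x - u)).mul (gauss_cont.comp (by fun_prop))
  rw [integral_map (by fun_prop) hm.aestronglyMeasurable, ← integral_neg]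
  refine integral_congr_ae (Eventually.of_forall fun u => ?_)
  simp only
  rw [show -x - u = -(x - -u) by ring, gauss_even]; ring
omit hα hG in
theorem lam_odd (hsym : G.map (fun u => -u) = G) (x : ℝ) : lam G (-x) = -lam G x := by
  unfold lam; rw [dens_even G hsym, densD_odd G hsym]; ring
omit hα hG in
theorem KK_even (hsym : G.map (fun u => -u) = G) (u : ℝ) : KK G (-u) = KK G u := by
  unfold KK
  rw [← integral_neg_eq_self]
  refine integral_congr_ae (Eventually.of_forall fun x => ?_)
  simp only
  rw [lam_odd G hsym, show -x - -u = -(x - u) by ring, gauss_even]; ring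

end FisherMin
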