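import Mathlib
import Pool.Agent.H494.FM3

set_option autoImplicit false
open MeasureTheory Set Filter Topology
open scoped ENNReal

namespace FisherMin

/- proved by helper317 (jobs board) -/

/-! TARGET -/

/-! helper lemmas for the first order condition -/

theorem fo_sq_gauss_le (v : ℝ) : v ^ 2 * gauss v ≤ 2 := by
  unfold gauss
  have h1 : v ^ 2 / 2 ≤ Real.exp (v ^ 2 / 2) := by linarith [Real.add_one_le_exp (v ^ 2 / 2)]
  have h2 : Real.exp (-v ^ 2 / 2) = (Real.exp (v ^ 2 / 2))⁻¹ := by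
    rw [← Real.exp_neg]; congr 1; ring
  have h3 : v ^ 2 * Real.exp (-v ^ 2 / 2) ≤ 2 := by
    rw [h2, ← div_eq_mul_inv, div_le_iff₀ (Real.exp_pos _)]; linarith
  have h4 : (Real.sqrt (2 * Real.pi))⁻¹ ≤ 1 := by
    apply inv_le_one_of_one_le₀
    rw [Real.one_le_sqrt]; linarith [Real.pi_gt_three]
  have h5 : 0 ≤ (Real.sqrt (2 * Real.pi))⁻¹ := by positivity
  have h6 : 0 ≤ v ^ 2 * Real.exp (-v ^ 2 / 2) := by positivity
  calc v ^ 2 * ((Real.sqrt (2 * Real.pi))⁻¹ * Real.exp (-v ^ 2 / 2))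
      = (Real.sqrt (2 * Real.pi))⁻¹ * (v ^ 2 * Real.exp (-v ^ 2 / 2)) := by ring
    _ ≤ 1 * 2 := mul_le_mul h4 h3 h6 zero_le_one
    _ = 2 := by norm_num

theorem fo_int0 (G : Measure ℝ) [IsFiniteMeasure G] (x : ℝ) :
    Integrable (fun u => gauss (x - u)) G :=
  Integrable.of_bound (gauss_cont.comp (by fun_prop)).aestronglyMeasurable 1
    (ae_of_all _ fun u => by
      rw [Real.norm_eq_abs, abs_of_pos (gauss_pos _)]; exact gauss_le_one _)

theorem fo_int2 (G : Measure ℝ) [IsFiniteMeasure G] (x : ℝ) :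
    Integrable (fun u => (x - u) ^ 2 * gauss (x - u)) G := by
  have hc : Continuous (fun u : ℝ => gauss (x - u)) := gauss_cont.comp (by fun_prop)
  refine Integrable.of_bound (Continuous.aestronglyMeasurable (by fun_prop)) 2
    (ae_of_all _ fun u => ?_)
  have h := gauss_pos (x - u)
  rw [Real.norm_eq_abs, abs_of_nonneg (by positivity)]
  exact fo_sq_gauss_le _

theorem fo_int1 (G : Measure ℝ) [IsFiniteMeasure G] (x : ℝ) :
    Integrable (fun u => -(x - u) * gauss (x - u)) G := by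
  have hc : Continuous (fun u : ℝ => gauss (x - u)) := gauss_cont.comp (by fun_prop)
  refine Integrable.of_bound (Continuous.aestronglyMeasurable (by fun_prop)) 2
    (ae_of_all _ fun u => ?_)
  have h := gauss_pos (x - u)
  have h1 := gauss_le_one (x - u)
  have h2 := fo_sq_gauss_le (x - u)
  rw [Real.norm_eq_abs, abs_mul, abs_of_pos h, abs_neg]
  have h3 : |x - u| ≤ (1 + (x - u) ^ 2) / 2 := by
    have := sq_nonneg (|x - u| - 1)
    rw [sub_sq, sq_abs] at this
    linarith
  calc |x - u| * gauss (x - u) ≤ (1 + (x - u) ^ 2) / 2 * gauss (x - u) := by gcongr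
    _ ≤ 2 := by linarith

theorem fo_mix {G0 G1 : Measure ℝ} {f : ℝ → ℝ} (h0 : Integrable f G0) (h1 : Integrable f G1)
    {t : ℝ} (ht0 : 0 < t) (ht1 : t < 1) :
    ∫ u, f u ∂(ENNReal.ofReal (1 - t) • G0 + ENNReal.ofReal t • G1)
      = (1 - t) * ∫ u, f u ∂G0 + t * ∫ u, f u ∂G1 := by
  rw [integral_add_measure (h0.smul_measure ENNReal.ofReal_ne_top)
    (h1.smul_measure ENNReal.ofReal_ne_top), integral_smul_measure, integral_smul_measure,
    ENNReal.toReal_ofReal (by linarith), ENNReal.toReal_ofReal ht0.le]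
  rfl

theorem fo_x2 (G : Measure ℝ) [IsFiniteMeasure G] (R : ℝ) (hR : G (Icc (-R) R)ᶜ = 0) (x : ℝ) :
    x ^ 2 * dens G x ≤ 2 * sqm G x + 2 * R ^ 2 * dens G x := by
  unfold dens sqm
  rw [← integral_const_mul, ← integral_const_mul, ← integral_const_mul,
    ← integral_add ((fo_int2 G x).const_mul 2) ((fo_int0 G x).const_mul _)]
  refine integral_mono_ae ((fo_int0 G x).const_mul _)
    (((fo_int2 G x).const_mul 2).add ((fo_int0 G x).const_mul _)) ?_
  have hae : ∀ᵐ u ∂G, u ∈ Icc (-R) R := by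
    rw [ae_iff]; exact hR
  filter_upwards [hae] with u hu
  have h := gauss_pos (x - u)
  have h1 : u ^ 2 ≤ R ^ 2 := by nlinarith [hu.1, hu.2]
  have h2 : x ^ 2 ≤ 2 * (x - u) ^ 2 + 2 * R ^ 2 := by nlinarith [sq_nonneg (x - 2 * u)]
  calc x ^ 2 * gauss (x - u) ≤ (2 * (x - u) ^ 2 + 2 * R ^ 2) * gauss (x - u) := by gcongr
    _ = 2 * ((x - u) ^ 2 * gauss (x - u)) + 2 * R ^ 2 * gauss (x - u) := by ring

/-- first order condition at a minimiser, tested against a compactly supported competitor -/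
theorem first_order (G0 G1 : Measure ℝ) [IsFiniteMeasure G0] [IsFiniteMeasure G1] {α : ℝ}
    (hα : 0 < α) (h0 : ENNReal.ofReal α ≤ G0 {0}) (h1 : ENNReal.ofReal α ≤ G1 {0})
    (R : ℝ) (hR : G1 (Icc (-R) R)ᶜ = 0)
    (hmin : ∀ t : ℝ, 0 < t → t < 1 →
      FI G0 ≤ FI (ENNReal.ofReal (1 - t) • G0 + ENNReal.ofReal t • G1)) :
    FI G0 ≤ ∫ x, (2 * densD G1 x * lam G0 x - dens G1 x * lam G0 x ^ 2) := by
  let Gt : ℝ → Measure ℝ := fun t => ENNReal.ofReal (1 - t) • G0 + ENNReal.ofReal t • G1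
  have hfin : ∀ t, IsFiniteMeasure (Gt t) := by
    intro t
    have a1 : IsFiniteMeasure (ENNReal.ofReal (1 - t) • G0) := G0.smul_finite ENNReal.ofReal_ne_top
    have a2 : IsFiniteMeasure (ENNReal.ofReal t • G1) := G1.smul_finite ENNReal.ofReal_ne_top
    exact isFiniteMeasureAdd
  have hdens : ∀ t, 0 < t → t < 1 → ∀ x, dens (Gt t) x = (1 - t) * dens G0 x + t * dens G1 x :=
    fun t ht0 ht1 x => fo_mix (fo_int0 G0 x) (fo_int0 G1 x) ht0 ht1
  have hdensD : ∀ t, 0 < t → t < 1 → ∀ x, densD (Gt t) x = (1 - t) * densD G0 x + t * densD G1 x :=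
    fun t ht0 ht1 x => fo_mix (fo_int1 G0 x) (fo_int1 G1 x) ht0 ht1
  have hsqm : ∀ t, 0 < t → t < 1 → ∀ x, sqm (Gt t) x = (1 - t) * sqm G0 x + t * sqm G1 x :=
    fun t ht0 ht1 x => fo_mix (fo_int2 G0 x) (fo_int2 G1 x) ht0 ht1
  have hmass : ∀ t, 0 < t → t < 1 → (Gt t).real univ = (1 - t) * G0.real univ + t * G1.real univ := by
    intro t ht0 ht1
    have := hfin t
    have e := fo_mix (f := fun _ => (1 : ℝ)) (integrable_const (μ := G0) (1 : ℝ))
      (integrable_const (μ := G1) (1 : ℝ)) ht0 ht1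
    simpa using e
  have hat : ∀ t, 0 < t → t < 1 → ENNReal.ofReal α ≤ Gt t {0} := by
    intro t ht0 ht1
    have e : ENNReal.ofReal α = ENNReal.ofReal (1 - t) * ENNReal.ofReal α
        + ENNReal.ofReal t * ENNReal.ofReal α := by
      rw [← add_mul, ← ENNReal.ofReal_add (by linarith) ht0.le]
      norm_num
    have e2 : Gt t {0} = ENNReal.ofReal (1 - t) * G0 {0} + ENNReal.ofReal t * G1 {0} := by
      simp only [Gt, Measure.add_apply, Measure.smul_apply, smul_eq_mul]
    rw [e, e2]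
    gcongr
  have hp0 : ∀ x, 0 < dens G0 x := dens_pos G0 hα h0
  have hp1 : ∀ x, 0 < dens G1 x := dens_pos G1 hα h1
  -- the two families of integrands
  let L : ℝ → ℝ → ℝ := fun t x => 2 * densD G0 x * lam (Gt t) x - dens G0 x * lam (Gt t) x ^ 2
  let H : ℝ → ℝ → ℝ := fun t x => 2 * densD G1 x * lam (Gt t) x - dens G1 x * lam (Gt t) x ^ 2
  set K : ℝ := 2 * Real.log ((G0.real univ + G1.real univ) / α) with hK
  have hm0 : α ≤ G0.real univ := mass_lower G0 hα h0
  have hm1 : α ≤ G1.real univ := mass_lower G1 hα h1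
  -- general facts for t in (0, 1/2]
  have key : ∀ t, 0 < t → t ≤ 1 / 2 → ∀ x,
      dens G0 x * lam (Gt t) x ^ 2 ≤ 2 * (sqm G0 x + sqm G1 x) ∧
      lam (Gt t) x ^ 2 ≤ x ^ 2 + K := by
    intro t ht0 ht1 x
    have := hfin t
    have ht1' : t < 1 := by linarith
    have hpt : 0 < dens (Gt t) x := dens_pos (Gt t) hα (hat t ht0 ht1') x
    constructor
    · have a1 : dens G0 x ≤ 2 * dens (Gt t) x := by
        rw [hdens t ht0 ht1']
        nlinarith [hp0 x, hp1 x, mul_pos ht0 (hp1 x)]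
      have a2 : lam (Gt t) x ^ 2 * dens (Gt t) x ≤ sqm (Gt t) x := by
        have := lam_sq_le_div (Gt t) hα (hat t ht0 ht1') x
        rwa [le_div_iff₀ hpt] at this
      have a3 : sqm (Gt t) x ≤ sqm G0 x + sqm G1 x := by
        rw [hsqm t ht0 ht1']
        nlinarith [sqm_nonneg G0 x, sqm_nonneg G1 x, mul_nonneg ht0.le (sqm_nonneg G0 x),
          mul_nonneg (by linarith : 0 ≤ 1 - t) (sqm_nonneg G1 x)]
      calc dens G0 x * lam (Gt t) x ^ 2 ≤ 2 * dens (Gt t) x * lam (Gt t) x ^ 2 := by gcongr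
        _ = 2 * (lam (Gt t) x ^ 2 * dens (Gt t) x) := by ring
        _ ≤ 2 * (sqm G0 x + sqm G1 x) := by linarith
    · refine (lam_sq_le (Gt t) hα (hat t ht0 ht1') x).trans ?_
      have a1 : Real.log ((Gt t).real univ / α) ≤ Real.log ((G0.real univ + G1.real univ) / α) := by
        apply Real.log_le_log
        · apply div_pos _ hα
          exact lt_of_lt_of_le hα (mass_lower (Gt t) hα (hat t ht0 ht1'))
        · apply div_le_div_of_nonneg_right _ hα.le
          rw [hmass t ht0 ht1']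
          nlinarith
      rw [hK]
      linarith
  have hlamc : ∀ t, 0 < t → t < 1 → Continuous (lam (Gt t)) := fun t ht0 ht1 => by
    have := hfin t
    exact lam_cont (Gt t) hα (hat t ht0 ht1)
  have young : ∀ (a b l s : ℝ), 0 < b → a ^ 2 ≤ b * s → |2 * a * l - b * l ^ 2| ≤ s + 2 * (b * l ^ 2) := by
    intro a b l s hb has
    have h3 : 0 ≤ (b * l - a) ^ 2 := sq_nonneg _
    have h4 : 0 ≤ (b * l + a) ^ 2 := sq_nonneg _
    have h5 : b * (2 * a * l) ≤ b * (s + b * l ^ 2) := by nlinarith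
    have h6 : b * (-(2 * a * l)) ≤ b * (s + b * l ^ 2) := by nlinarith
    have h7 := le_of_mul_le_mul_left h5 hb
    have h8 := le_of_mul_le_mul_left h6 hb
    have h9 : 0 ≤ b * l ^ 2 := by positivity
    rw [abs_le]
    constructor <;> linarith
  -- bounds
  have hLb : ∀ t, 0 < t → t ≤ 1 / 2 → ∀ x, ‖L t x‖ ≤ sqm G0 x + 4 * (sqm G0 x + sqm G1 x) := by
    intro t ht0 ht1 x
    have a1 := young (densD G0 x) (dens G0 x) (lam (Gt t) x) (sqm G0 x) (hp0 x) (densD_sq_le G0 x)
    have a2 := (key t ht0 ht1 x).1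
    rw [Real.norm_eq_abs]
    refine a1.trans ?_
    linarith
  have hHb : ∀ t, 0 < t → t ≤ 1 / 2 → ∀ x,
      ‖H t x‖ ≤ sqm G1 x + 2 * (2 * sqm G1 x + 2 * R ^ 2 * dens G1 x + K * dens G1 x) := by
    intro t ht0 ht1 x
    have a1 := young (densD G1 x) (dens G1 x) (lam (Gt t) x) (sqm G1 x) (hp1 x) (densD_sq_le G1 x)
    have a2 := (key t ht0 ht1 x).2
    have a3 : dens G1 x * lam (Gt t) x ^ 2 ≤ dens G1 x * (x ^ 2 + K) :=
      mul_le_mul_of_nonneg_left a2 (hp1 x).le
    have a4 := fo_x2 G1 R hR x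
    rw [Real.norm_eq_abs]
    refine a1.trans ?_
    nlinarith
  have hLc : ∀ t, 0 < t → t < 1 → Continuous (L t) := by
    intro t ht0 ht1
    have c1 := dens_cont G0
    have c2 := densD_cont G0
    have c3 := hlamc t ht0 ht1
    fun_prop
  have hHc : ∀ t, 0 < t → t < 1 → Continuous (H t) := by
    intro t ht0 ht1
    have c1 := dens_cont G1
    have c2 := densD_cont G1
    have c3 := hlamc t ht0 ht1
    fun_prop
  have hBL : Integrable (fun x => sqm G0 x + 4 * (sqm G0 x + sqm G1 x)) :=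
    (integrable_sqm G0).add (((integrable_sqm G0).add (integrable_sqm G1)).const_mul 4)
  have hBH : Integrable (fun x => sqm G1 x +
      2 * (2 * sqm G1 x + 2 * R ^ 2 * dens G1 x + K * dens G1 x)) :=
    (integrable_sqm G1).add (((((integrable_sqm G1).const_mul 2).add
      ((integrable_dens G1).const_mul (2 * R ^ 2))).add ((integrable_dens G1).const_mul K)).const_mul 2)
  have hLi : ∀ t, 0 < t → t ≤ 1 / 2 → Integrable (L t) := fun t ht0 ht1 =>
    hBL.mono' (hLc t ht0 (by linarith)).aestronglyMeasurable (ae_of_all _ (hLb t ht0 ht1))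
  have hHi : ∀ t, 0 < t → t ≤ 1 / 2 → Integrable (H t) := fun t ht0 ht1 =>
    hBH.mono' (hHc t ht0 (by linarith)).aestronglyMeasurable (ae_of_all _ (hHb t ht0 ht1))
  -- comparison
  have hcmp : ∀ t, 0 < t → t ≤ 1 / 2 → ∫ x, L t x ≤ ∫ x, H t x := by
    intro t ht0 ht1
    have := hfin t
    have ht1' : t < 1 := by linarith
    have b1 : FI G0 ≤ FI (Gt t) := hmin t ht0 ht1'
    have b2 : FI (Gt t) = ∫ x, ((1 - t) * L t x + t * H t x) := by
      unfold FI
      congr 1
      funext x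
      have hpt : 0 < dens (Gt t) x := dens_pos (Gt t) hα (hat t ht0 ht1') x
      have e1 : densD (Gt t) x = lam (Gt t) x * dens (Gt t) x := by
        unfold lam; field_simp
      have e2 : densD (Gt t) x ^ 2 / dens (Gt t) x
          = 2 * densD (Gt t) x * lam (Gt t) x - dens (Gt t) x * lam (Gt t) x ^ 2 := by
        rw [e1]; field_simp; ring
      rw [e2, hdens t ht0 ht1', hdensD t ht0 ht1']
      simp only [L, H]
      ring
    have b3 : ∫ x, L t x ≤ FI G0 := by
      unfold FI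
      refine integral_mono (hLi t ht0 ht1) (FI_integrable G0 hα h0) fun x => ?_
      have hp := hp0 x
      simp only [L]
      rw [le_div_iff₀ hp]
      nlinarith [sq_nonneg (dens G0 x * lam (Gt t) x - densD G0 x)]
    rw [b2, integral_add ((hLi t ht0 ht1).const_mul _) ((hHi t ht0 ht1).const_mul _),
      integral_const_mul, integral_const_mul] at b1
    have b4 : t * ∫ x, L t x ≤ t * ∫ x, H t x := by linarith
    exact le_of_mul_le_mul_left b4 ht0
  -- the sequence
  let τ : ℕ → ℝ := fun n => 1 / ((n : ℝ) + 2)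
  have hτ0 : ∀ n, 0 < τ n := fun n => by simp only [τ]; positivity
  have hτ1 : ∀ n, τ n ≤ 1 / 2 := fun n => by
    simp only [τ]
    apply one_div_le_one_div_of_le (by norm_num)
    have : (0 : ℝ) ≤ n := Nat.cast_nonneg n
    linarith
  have hτlim : Tendsto τ atTop (𝓝 0) := by
    have h := tendsto_one_div_add_atTop_nhds_zero_nat (𝕜 := ℝ)
    have h2 := h.comp (tendsto_add_atTop_nat 1)
    refine h2.congr fun n => ?_
    simp only [Function.comp, τ]
    push_cast
    congr 1
    ring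
  have hlam : ∀ x, Tendsto (fun n => lam (Gt (τ n)) x) atTop (𝓝 (lam G0 x)) := by
    intro x
    have c1 : Tendsto (fun n => (1 - τ n) * densD G0 x + τ n * densD G1 x) atTop
        (𝓝 ((1 - 0) * densD G0 x + 0 * densD G1 x)) :=
      ((tendsto_const_nhds.sub hτlim).mul_const _).add (hτlim.mul_const _)
    have c2 : Tendsto (fun n => (1 - τ n) * dens G0 x + τ n * dens G1 x) atTop
        (𝓝 ((1 - 0) * dens G0 x + 0 * dens G1 x)) :=
      ((tendsto_const_nhds.sub hτlim).mul_const _).add (hτlim.mul_const _)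
    rw [sub_zero, one_mul, zero_mul, add_zero] at c1 c2
    have c3 := c1.div c2 (hp0 x).ne'
    refine c3.congr fun n => ?_
    have hn1 : τ n < 1 := by linarith [hτ1 n]
    simp only [lam, Pi.div_apply]
    rw [hdens _ (hτ0 n) hn1, hdensD _ (hτ0 n) hn1]
  have hL0 : Tendsto (fun n => ∫ x, L (τ n) x) atTop
      (𝓝 (∫ x, (2 * densD G0 x * lam G0 x - dens G0 x * lam G0 x ^ 2))) := by
    refine tendsto_integral_of_dominated_convergence _ (fun n =>
      (hLc _ (hτ0 n) (by linarith [hτ1 n])).aestronglyMeasurable) hBL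
      (fun n => ae_of_all _ (hLb _ (hτ0 n) (hτ1 n))) (ae_of_all _ fun x => ?_)
    exact ((hlam x).const_mul _).sub (((hlam x).pow 2).const_mul _)
  have hH0 : Tendsto (fun n => ∫ x, H (τ n) x) atTop
      (𝓝 (∫ x, (2 * densD G1 x * lam G0 x - dens G1 x * lam G0 x ^ 2))) := by
    refine tendsto_integral_of_dominated_convergence _ (fun n =>
      (hHc _ (hτ0 n) (by linarith [hτ1 n])).aestronglyMeasurable) hBH
      (fun n => ae_of_all _ (hHb _ (hτ0 n) (hτ1 n))) (ae_of_all _ fun x => ?_)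
    exact ((hlam x).const_mul _).sub (((hlam x).pow 2).const_mul _)
  have hfinal := le_of_tendsto_of_tendsto' hL0 hH0 fun n => hcmp _ (hτ0 n) (hτ1 n)
  refine le_trans (le_of_eq ?_) hfinal
  unfold FI
  congr 1
  funext x
  have hp := hp0 x
  have e1 : densD G0 x = lam G0 x * dens G0 x := by
    unfold lam; field_simp
  rw [e1]; field_simp; ring

end FisherMin
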