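import Mathlib
import Pool.Agent.H494.FM3

set_option autoImplicit false
open MeasureTheory Set Filter Topology
open scoped ENNReal

namespace FisherMin

/- proved by helper86 (jobs board) -/


/-- dominating function -/
noncomputable def fm4_dom (u x : ℝ) : ℝ := (1 + (x - u) ^ 2) * Real.exp (-(x - u) ^ 2 / 4)

theorem fm4_dom_integrable (u : ℝ) : Integrable (fm4_dom u) := by
  have h1 : Integrable (fun x : ℝ => Real.exp (-(1 / 4) * x ^ 2)) :=
    integrable_exp_neg_mul_sq (by norm_num)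
  have h2 : Integrable (fun x : ℝ => x ^ (2 : ℝ) * Real.exp (-(1 / 4) * x ^ 2)) :=
    integrable_rpow_mul_exp_neg_mul_sq (by norm_num) (by norm_num)
  have h3 : Integrable (fun x : ℝ => (1 + x ^ 2) * Real.exp (-x ^ 2 / 4)) := by
    have := h1.add h2
    refine this.congr (Filter.Eventually.of_forall fun x => ?_)
    simp only [Pi.add_apply]
    have e1 : x ^ (2 : ℝ) = x ^ 2 := by
      rw [show (2 : ℝ) = ((2 : ℕ) : ℝ) by norm_num, Real.rpow_natCast]
    have e2 : -(1 / 4) * x ^ 2 = -x ^ 2 / 4 := by ring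
    rw [e1, e2]; ring
  exact h3.comp_sub_right u

theorem fm4_dom_nonneg (u x : ℝ) : 0 ≤ fm4_dom u x := by
  unfold fm4_dom; positivity

theorem fm4_gauss_le (v : ℝ) : gauss v ≤ Real.exp (-v ^ 2 / 2) := by
  unfold gauss
  have h1 : (Real.sqrt (2 * Real.pi))⁻¹ ≤ 1 := by
    apply inv_le_one_of_one_le₀
    rw [Real.one_le_sqrt]
    have := Real.pi_gt_three
    linarith
  have h2 := Real.exp_pos (-v ^ 2 / 2)
  nlinarith

theorem fm4_gauss_le' (v : ℝ) : gauss v ≤ Real.exp (-v ^ 2 / 4) := by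
  refine (fm4_gauss_le v).trans (Real.exp_le_exp.2 ?_)
  nlinarith [sq_nonneg v]

theorem fm4_measurable_gauss : Measurable gauss := by
  unfold gauss; fun_prop

theorem fm4_sq_bound {l : ℝ → ℝ} {C : ℝ} (hb : ∀ x, l x ^ 2 ≤ C * (1 + x ^ 2)) (hC : 0 ≤ C)
    (u x : ℝ) : l x ^ 2 ≤ C * (2 + 2 * u ^ 2) * (1 + (x - u) ^ 2) := by
  have h1 : 1 + x ^ 2 ≤ (2 + 2 * u ^ 2) * (1 + (x - u) ^ 2) := by
    have : x ^ 2 ≤ 2 * (x - u) ^ 2 + 2 * u ^ 2 := by nlinarith [sq_nonneg (x - 2 * u)]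
    nlinarith [sq_nonneg (u * (x - u)), sq_nonneg u, sq_nonneg (x - u)]
  calc l x ^ 2 ≤ C * (1 + x ^ 2) := hb x
    _ ≤ C * ((2 + 2 * u ^ 2) * (1 + (x - u) ^ 2)) := mul_le_mul_of_nonneg_left h1 hC
    _ = _ := by ring

theorem fm4_C_nonneg {l : ℝ → ℝ} {C : ℝ} (hb : ∀ x, l x ^ 2 ≤ C * (1 + x ^ 2)) : 0 ≤ C := by
  have := hb 0
  nlinarith [sq_nonneg (l 0)]

theorem fm4_int_sq {l : ℝ → ℝ} (hm : Measurable l) {C : ℝ}
    (hb : ∀ x, l x ^ 2 ≤ C * (1 + x ^ 2)) (u : ℝ) :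
    Integrable (fun x => l x ^ 2 * gauss (x - u)) := by
  have hC := fm4_C_nonneg hb
  refine ((fm4_dom_integrable u).const_mul (C * (2 + 2 * u ^ 2))).mono' ?_ ?_
  · exact ((hm.pow_const 2).mul (fm4_measurable_gauss.comp (measurable_id.sub_const u))).aestronglyMeasurable
  · refine Filter.Eventually.of_forall fun x => ?_
    rw [Real.norm_of_nonneg (mul_nonneg (sq_nonneg _) (gauss_pos _).le)]
    have h1 := fm4_sq_bound hb hC u x
    have h2 := fm4_gauss_le' (x - u)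
    calc l x ^ 2 * gauss (x - u) ≤ (C * (2 + 2 * u ^ 2) * (1 + (x - u) ^ 2)) *
        Real.exp (-(x - u) ^ 2 / 4) :=
          mul_le_mul h1 h2 (gauss_pos _).le (by positivity)
      _ = C * (2 + 2 * u ^ 2) * fm4_dom u x := by unfold fm4_dom; ring

theorem fm4_int_l {l : ℝ → ℝ} (hm : Measurable l) {C : ℝ}
    (hb : ∀ x, l x ^ 2 ≤ C * (1 + x ^ 2)) (u : ℝ) :
    Integrable (fun x => l x * gauss (x - u)) := by
  have hC := fm4_C_nonneg hb
  refine ((fm4_dom_integrable u).const_mul (C * (2 + 2 * u ^ 2) + 1)).mono' ?_ ?_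
  · exact (hm.mul (fm4_measurable_gauss.comp (measurable_id.sub_const u))).aestronglyMeasurable
  · refine Filter.Eventually.of_forall fun x => ?_
    rw [norm_mul, Real.norm_eq_abs, Real.norm_of_nonneg (gauss_pos _).le]
    have h1 := fm4_sq_bound hb hC u x
    have h2 := fm4_gauss_le' (x - u)
    have h3 : |l x| ≤ (C * (2 + 2 * u ^ 2) + 1) * (1 + (x - u) ^ 2) := by
      have : |l x| ≤ 1 + l x ^ 2 := by
        rw [← sq_abs (l x)]; nlinarith [sq_nonneg (|l x| - 1), abs_nonneg (l x)]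
      nlinarith [sq_nonneg (x - u)]
    calc |l x| * gauss (x - u) ≤ ((C * (2 + 2 * u ^ 2) + 1) * (1 + (x - u) ^ 2)) *
        Real.exp (-(x - u) ^ 2 / 4) :=
          mul_le_mul h3 h2 (gauss_pos _).le (by positivity)
      _ = (C * (2 + 2 * u ^ 2) + 1) * fm4_dom u x := by unfold fm4_dom; ring

theorem fm4_int_lx {l : ℝ → ℝ} (hm : Measurable l) {C : ℝ}
    (hb : ∀ x, l x ^ 2 ≤ C * (1 + x ^ 2)) (u : ℝ) :
    Integrable (fun x => l x * ((x - u) * gauss (x - u))) := by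
  have hC := fm4_C_nonneg hb
  refine ((fm4_dom_integrable u).const_mul (C * (2 + 2 * u ^ 2) + 1)).mono' ?_ ?_
  · exact (hm.mul ((measurable_id.sub_const u).mul
      (fm4_measurable_gauss.comp (measurable_id.sub_const u)))).aestronglyMeasurable
  · refine Filter.Eventually.of_forall fun x => ?_
    rw [norm_mul, norm_mul, Real.norm_eq_abs, Real.norm_eq_abs,
      Real.norm_of_nonneg (gauss_pos _).le]
    have h1 := fm4_sq_bound hb hC u x
    have h2 := fm4_gauss_le' (x - u)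
    have h3 : |l x| * |x - u| ≤ (C * (2 + 2 * u ^ 2) + 1) * (1 + (x - u) ^ 2) := by
      have : |l x| * |x - u| ≤ l x ^ 2 + (x - u) ^ 2 := by
        rw [← sq_abs (l x), ← sq_abs (x - u)]
        nlinarith [sq_nonneg (|l x| - |x - u|), abs_nonneg (l x), abs_nonneg (x - u)]
      nlinarith [sq_nonneg (x - u)]
    calc |l x| * (|x - u| * gauss (x - u)) = (|l x| * |x - u|) * gauss (x - u) := by ring
      _ ≤ ((C * (2 + 2 * u ^ 2) + 1) * (1 + (x - u) ^ 2)) *
        Real.exp (-(x - u) ^ 2 / 4) :=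
          mul_le_mul h3 h2 (gauss_pos _).le (by positivity)
      _ = (C * (2 + 2 * u ^ 2) + 1) * fm4_dom u x := by unfold fm4_dom; ring

theorem fm4_gauss_deriv (x u : ℝ) :
    HasDerivAt (fun v => gauss (x - v)) ((x - u) * gauss (x - u)) u := by
  unfold gauss
  have h1 : HasDerivAt (fun v : ℝ => x - v) (-1) u := by
    simpa using (hasDerivAt_id u).const_sub x
  have h2 : HasDerivAt (fun v : ℝ => -(x - v) ^ 2 / 2) (x - u) u := by
    have h3 := ((h1.pow 2).neg).div_const 2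
    refine h3.congr_deriv ?_
    norm_num
  have h4 := (h2.exp).const_mul (Real.sqrt (2 * Real.pi))⁻¹
  exact h4.congr_deriv (by ring)

theorem fm4_deriv {l : ℝ → ℝ} (hm : Measurable l) {C : ℝ}
    (hb : ∀ x, l x ^ 2 ≤ C * (1 + x ^ 2)) (u : ℝ) :
    HasDerivAt (fun v => ∫ x, l x * gauss (x - v)) (∫ x, l x * ((x - u) * gauss (x - u))) u := by
  have hC := fm4_C_nonneg hb
  have key := hasDerivAt_integral_of_dominated_loc_of_deriv_le (μ := volume)
    (F := fun v x => l x * gauss (x - v)) (F' := fun v x => l x * ((x - v) * gauss (x - v)))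
    (x₀ := u) (s := Metric.ball u 1) (bound := fun x => (2 * (C * (2 + 2 * u ^ 2) + 2)) * fm4_dom u x)
    (Metric.ball_mem_nhds u one_pos) ?_ ?_ ?_ ?_ ?_ ?_
  · exact key.2
  · refine Filter.Eventually.of_forall fun v => ?_
    exact (hm.mul (fm4_measurable_gauss.comp (measurable_id.sub_const v))).aestronglyMeasurable
  · exact fm4_int_l hm hb u
  · exact (fm4_int_lx hm hb u).aestronglyMeasurable
  · refine Filter.Eventually.of_forall fun x v hv => ?_
    rw [norm_mul, norm_mul, Real.norm_eq_abs, Real.norm_eq_abs,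
      Real.norm_of_nonneg (gauss_pos _).le]
    have hv1 : (v - u) ^ 2 ≤ 1 := by
      rw [Metric.mem_ball, Real.dist_eq] at hv
      rw [← sq_abs]
      nlinarith [abs_nonneg (v - u)]
    have h1 := fm4_sq_bound hb hC u x
    have h0 : (x - v) ^ 2 ≤ 2 * (x - u) ^ 2 + 2 := by
      nlinarith [sq_nonneg ((x - u) + (v - u))]
    have h0' : (x - u) ^ 2 ≤ 2 * (x - v) ^ 2 + 2 := by
      nlinarith [sq_nonneg ((x - v) - (v - u))]
    have h2 : gauss (x - v) ≤ 2 * Real.exp (-(x - u) ^ 2 / 4) := by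
      have e1 : Real.exp (1 / 2) ≤ 2 := by
        have : Real.exp (1 / 2) ^ 2 = Real.exp 1 := by
          rw [← Real.exp_nat_mul]; norm_num
        have h3 := Real.exp_one_lt_d9
        nlinarith [Real.exp_pos (1 / 2)]
      calc gauss (x - v) ≤ Real.exp (-(x - v) ^ 2 / 2) := fm4_gauss_le _
        _ ≤ Real.exp (1 / 2 + -(x - u) ^ 2 / 4) := Real.exp_le_exp.2 (by linarith)
        _ = Real.exp (1 / 2) * Real.exp (-(x - u) ^ 2 / 4) := Real.exp_add _ _
        _ ≤ 2 * Real.exp (-(x - u) ^ 2 / 4) :=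
          mul_le_mul_of_nonneg_right e1 (Real.exp_pos _).le
    have h3 : |l x| * |x - v| ≤ (C * (2 + 2 * u ^ 2) + 2) * (1 + (x - u) ^ 2) := by
      have : |l x| * |x - v| ≤ l x ^ 2 + (x - v) ^ 2 := by
        rw [← sq_abs (l x), ← sq_abs (x - v)]
        nlinarith [sq_nonneg (|l x| - |x - v|), abs_nonneg (l x), abs_nonneg (x - v)]
      nlinarith [sq_nonneg (x - u)]
    calc |l x| * (|x - v| * gauss (x - v)) = (|l x| * |x - v|) * gauss (x - v) := by ring
      _ ≤ ((C * (2 + 2 * u ^ 2) + 2) * (1 + (x - u) ^ 2)) *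
        (2 * Real.exp (-(x - u) ^ 2 / 4)) :=
          mul_le_mul h3 h2 (gauss_pos _).le (by positivity)
      _ = (2 * (C * (2 + 2 * u ^ 2) + 2)) * fm4_dom u x := by unfold fm4_dom; ring
  · exact (fm4_dom_integrable u).const_mul _
  · refine Filter.Eventually.of_forall fun x v _ => ?_
    exact (fm4_gauss_deriv x v).const_mul (l x)

theorem fm4_jensen {l : ℝ → ℝ} (hm : Measurable l) {C : ℝ}
    (hb : ∀ x, l x ^ 2 ≤ C * (1 + x ^ 2)) (u : ℝ) :
    (∫ x, l x * gauss (x - u)) ^ 2 ≤ ∫ x, l x ^ 2 * gauss (x - u) := by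
  obtain ⟨L, hL⟩ : ∃ L, L = ∫ x, l x * gauss (x - u) := ⟨_, rfl⟩
  have hg : Integrable (fun x => gauss (x - u)) := integrable_gauss.comp_sub_right u
  have hg1 : ∫ x, gauss (x - u) = 1 := by
    rw [integral_sub_right_eq_self (fun x => gauss x) u]; exact integral_gauss
  have h0 : 0 ≤ ∫ x, (l x - L) ^ 2 * gauss (x - u) :=
    integral_nonneg fun x => mul_nonneg (sq_nonneg _) (gauss_pos _).le
  have h1 : (fun x => (l x - L) ^ 2 * gauss (x - u)) = fun x =>
      (l x ^ 2 * gauss (x - u) - 2 * L * (l x * gauss (x - u))) + L ^ 2 * gauss (x - u) := by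
    funext x; ring
  have e1 := integral_add (μ := volume)
    (f := fun x => l x ^ 2 * gauss (x - u) - 2 * L * (l x * gauss (x - u)))
    (g := fun x => L ^ 2 * gauss (x - u))
    ((fm4_int_sq hm hb u).sub ((fm4_int_l hm hb u).const_mul _)) (hg.const_mul _)
  have e2 := integral_sub (μ := volume) (f := fun x => l x ^ 2 * gauss (x - u))
    (g := fun x => 2 * L * (l x * gauss (x - u)))
    (fm4_int_sq hm hb u) ((fm4_int_l hm hb u).const_mul _)
  rw [h1, e1, e2, integral_const_mul, integral_const_mul, hg1, ← hL] at h0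
  rw [← hL]
  nlinarith

theorem fm4_K_eq {l : ℝ → ℝ} (hm : Measurable l) {C : ℝ}
    (hb : ∀ x, l x ^ 2 ≤ C * (1 + x ^ 2)) (u : ℝ) :
    ∫ x, (-2 * (x - u) * l x - l x ^ 2) * gauss (x - u) =
      -2 * (∫ x, l x * ((x - u) * gauss (x - u))) - ∫ x, l x ^ 2 * gauss (x - u) := by
  have h1 : (fun x => (-2 * (x - u) * l x - l x ^ 2) * gauss (x - u)) = fun x =>
      -2 * (l x * ((x - u) * gauss (x - u))) - l x ^ 2 * gauss (x - u) := by
    funext x; ring
  rw [h1, integral_sub ((fm4_int_lx hm hb u).const_mul _) (fm4_int_sq hm hb u),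
    integral_const_mul]

/-- blow-up argument -/
theorem fm4_ode_low (f f' : ℝ → ℝ) (hf : ∀ u, HasDerivAt f (f' u) u) (κ : ℝ) (hκ : 0 ≤ κ)
    (h : ∀ u, 2 * f' u ≤ κ - f u ^ 2) (u0 : ℝ) : -Real.sqrt κ ≤ f u0 := by
  by_contra hlt
  push Not at hlt
  obtain ⟨r, hr⟩ : ∃ r, r = Real.sqrt κ := ⟨_, rfl⟩
  have hr0 : 0 ≤ r := by rw [hr]; exact Real.sqrt_nonneg _
  have hr2 : r ^ 2 = κ := by rw [hr]; exact Real.sq_sqrt hκ
  rw [← hr] at hlt
  obtain ⟨δ, hδ⟩ : ∃ δ, δ = -r - f u0 := ⟨_, rfl⟩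
  have hδ0 : 0 < δ := by linarith
  have hcont : Continuous f := continuous_iff_continuousAt.2 fun u => (hf u).continuousAt
  obtain ⟨m, hm⟩ : ∃ m, ∀ u ∈ Icc u0 (u0 + 4 / δ), m ≤ f u := by
    obtain ⟨m, hm⟩ := (isCompact_Icc.image hcont).bddBelow (s := f '' Icc u0 (u0 + 4 / δ))
    exact ⟨m, fun u hu => hm (mem_image_of_mem _ hu)⟩
  obtain ⟨η, hη⟩ : ∃ η, η = min (1 / δ) (1 / (|m| + r + 1)) := ⟨_, rfl⟩
  have hden : 0 < |m| + r + 1 := by positivity
  have hη0 : 0 < η := by rw [hη]; exact lt_min (by positivity) (by positivity)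
  have hη1 : η ≤ 1 / δ := by rw [hη]; exact min_le_left _ _
  have hη2 : η ≤ 1 / (|m| + r + 1) := by rw [hη]; exact min_le_right _ _
  obtain ⟨b, hb⟩ : ∃ b, b = u0 + 4 / δ - 4 * η := ⟨_, rfl⟩
  have hbu : u0 ≤ b := by
    have : 4 / δ = 4 * (1 / δ) := by ring
    rw [hb, this]; linarith
  have hpos : ∀ u ∈ Icc u0 b, 0 < 1 / δ - (u - u0) / 4 := by
    intro u hu
    have h1 := hu.2
    rw [hb] at h1
    have : 4 / δ = 4 * (1 / δ) := by ring
    rw [this] at h1
    linarith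
  have hB : ∀ u ∈ Icc u0 b, HasDerivAt (fun u => -r - 1 / (1 / δ - (u - u0) / 4))
      (-(1 / 4) * (1 / (1 / δ - (u - u0) / 4)) ^ 2) u := by
    intro u hu
    have h1 : HasDerivAt (fun u : ℝ => 1 / δ - (u - u0) / 4) (-(1 / 4)) u := by
      have := (((hasDerivAt_id u).sub_const u0).div_const 4).const_sub (1 / δ)
      simpa using this
    have h2 := h1.inv (hpos u hu).ne'
    have h3 := h2.const_sub (-r)
    simp only [one_div] at h3 ⊢
    refine h3.congr_deriv ?_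
    have := (hpos u hu).ne'
    simp only [one_div] at this
    field_simp
  have key := image_le_of_deriv_right_lt_deriv_boundary' (f := f) (f' := f') (a := u0) (b := b)
    (B := fun u => -r - 1 / (1 / δ - (u - u0) / 4))
    (B' := fun u => -(1 / 4) * (1 / (1 / δ - (u - u0) / 4)) ^ 2)
    hcont.continuousOn (fun x _ => (hf x).hasDerivWithinAt) ?_ ?_ ?_ ?_
  · have h1 := key (right_mem_Icc.2 hbu)
    have h2 := hm b ⟨hbu, by rw [hb]; linarith⟩
    have h3 : 1 / δ - (b - u0) / 4 = η := by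
      rw [hb]; ring
    simp only [h3] at h1
    have h4 : |m| + r + 1 ≤ 1 / η := by
      rw [le_div_iff₀ hη0]
      rw [le_div_iff₀ hden] at hη2
      linarith
    have h5 := neg_abs_le m
    linarith
  · simp only [sub_self, zero_div, sub_zero, one_div_one_div]
    linarith
  · intro u hu
    exact (hB u hu).continuousAt.continuousWithinAt
  · intro u hu
    exact (hB u ⟨hu.1, hu.2.le⟩).hasDerivWithinAt
  · intro u hu hfu
    have hp := hpos u ⟨hu.1, hu.2.le⟩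
    obtain ⟨w, hw⟩ : ∃ w, w = 1 / (1 / δ - (u - u0) / 4) := ⟨_, rfl⟩
    have hw0 : 0 < w := by rw [hw]; positivity
    have h1 := h u
    simp only [← hw] at hfu ⊢
    rw [hfu, ← hr2] at h1
    nlinarith [mul_nonneg hr0 hw0.le]

theorem fm4_ode (f f' : ℝ → ℝ) (hf : ∀ u, HasDerivAt f (f' u) u) (κ : ℝ) (hκ : 0 ≤ κ)
    (h : ∀ u, 2 * f' u ≤ κ - f u ^ 2) (u0 : ℝ) : f u0 ^ 2 ≤ κ := by
  have h1 := fm4_ode_low f f' hf κ hκ h u0
  have h2 := fm4_ode_low (fun u => -f (-u)) (fun u => f' (-u)) (fun u => by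
    have h3 : HasDerivAt (fun u : ℝ => -u) (-1) u := hasDerivAt_neg u
    have h4 := ((hf (-u)).comp u h3).neg
    refine h4.congr_deriv (by ring)) κ hκ (fun u => by
      have := h (-u)
      simpa using this) (-u0)
  simp only [neg_neg] at h2
  have h5 : |f u0| ≤ Real.sqrt κ := abs_le.2 ⟨h1, by linarith⟩
  calc f u0 ^ 2 = |f u0| ^ 2 := (sq_abs _).symm
    _ ≤ (Real.sqrt κ) ^ 2 := by
      exact pow_le_pow_left₀ (abs_nonneg _) h5 2
    _ = κ := Real.sq_sqrt hκ

/-! TARGETS -/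

/-- Riccati comparison: `2Ψ' ≥ Ψ² - κ` on the whole line forces `Ψ² ≤ κ` -/
theorem riccati (l : ℝ → ℝ) (hm : Measurable l) (C : ℝ) (hb : ∀ x, l x ^ 2 ≤ C * (1 + x ^ 2))
    (κ : ℝ) (hκ : 0 ≤ κ)
    (hK : ∀ u, -κ ≤ ∫ x, (-2 * (x - u) * l x - l x ^ 2) * gauss (x - u)) :
    ∀ u, (∫ x, l x * gauss (x - u)) ^ 2 ≤ κ := by
  intro u
  refine fm4_ode (fun v => ∫ x, l x * gauss (x - v)) (fun v => ∫ x, l x * ((x - v) * gauss (x - v)))
    (fun v => fm4_deriv hm hb v) κ hκ (fun v => ?_) u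
  have h1 := hK v
  rw [fm4_K_eq hm hb v] at h1
  have h2 := fm4_jensen hm hb v
  linarith

theorem riccati_zero (l : ℝ → ℝ) (hm : Measurable l) (C : ℝ) (hb : ∀ x, l x ^ 2 ≤ C * (1 + x ^ 2))
    (hK : ∀ u, 0 ≤ ∫ x, (-2 * (x - u) * l x - l x ^ 2) * gauss (x - u)) :
    ∀ᵐ x, l x = 0 := by
  have h1 : ∀ u, ∫ x, l x * gauss (x - u) = 0 := by
    intro u
    have := riccati l hm C hb 0 le_rfl (fun v => by simpa using hK v) u
    exact pow_eq_zero_iff (two_ne_zero) |>.1 (le_antisymm this (sq_nonneg _))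
  have h2 : ∫ x, l x * ((x - 0) * gauss (x - 0)) = 0 := by
    have h3 := fm4_deriv hm hb 0
    have h4 : (fun v => ∫ x, l x * gauss (x - v)) = fun _ => (0 : ℝ) := funext h1
    rw [h4] at h3
    exact h3.unique (hasDerivAt_const _ _)
  have h3 := hK 0
  rw [fm4_K_eq hm hb 0, h2] at h3
  have h4 : ∫ x, l x ^ 2 * gauss (x - 0) = 0 :=
    le_antisymm (by linarith) (integral_nonneg fun x => mul_nonneg (sq_nonneg _) (gauss_pos _).le)
  rw [integral_eq_zero_iff_of_nonneg (fun x => mul_nonneg (sq_nonneg _) (gauss_pos _).le)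
    (fm4_int_sq hm hb 0)] at h4
  filter_upwards [h4] with x hx
  simp only [Pi.zero_apply, mul_eq_zero] at hx
  rcases hx with hx | hx
  · exact pow_eq_zero_iff (two_ne_zero) |>.1 hx
  · exact absurd hx (gauss_pos _).ne'

end FisherMin
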