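import Mathlib
import Pool.Agent.H494.FM3

set_option autoImplicit false
open MeasureTheory Set Filter Topology
open scoped ENNReal

namespace FisherMin

/- proved by helper296 (jobs board) -/

/-! TARGET -/


/-- extension by zero to the extended reals -/
noncomputable def fmExt (F : ℝ → ℝ) (y : EReal) : ℝ := if y = ⊤ ∨ y = ⊥ then 0 else F y.toReal

theorem fmExt_coe (F : ℝ → ℝ) (u : ℝ) : fmExt F (u : EReal) = F u := by
  simp [fmExt]

theorem fmExt_cont (F : ℝ → ℝ) (hF : Continuous F) (h0 : Tendsto F (cocompact ℝ) (𝓝 0)) :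
    Continuous (fmExt F) := by
  rw [cocompact_eq_atBot_atTop, tendsto_sup] at h0
  obtain ⟨hb, ht⟩ := h0
  rw [continuous_iff_continuousAt]
  intro y
  induction y with
  | bot =>
    rw [continuousAt_iff_punctured_nhds]
    have e : fmExt F ⊥ = 0 := by simp [fmExt]
    rw [e]
    refine (hb.comp EReal.tendsto_toReal_atBot).congr' ?_
    have h1 : ∀ᶠ y in 𝓝[≠] (⊥ : EReal), y ≠ ⊥ := eventually_mem_nhdsWithin
    have h2 : ∀ᶠ y in 𝓝[≠] (⊥ : EReal), y ≠ ⊤ :=
      nhdsWithin_le_nhds (isOpen_ne.mem_nhds (by simp))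
    filter_upwards [h1, h2] with y hy1 hy2
    simp [fmExt, hy1, hy2]
  | top =>
    rw [continuousAt_iff_punctured_nhds]
    have e : fmExt F ⊤ = 0 := by simp [fmExt]
    rw [e]
    refine (ht.comp EReal.tendsto_toReal_atTop).congr' ?_
    have h1 : ∀ᶠ y in 𝓝[≠] (⊤ : EReal), y ≠ ⊤ := eventually_mem_nhdsWithin
    have h2 : ∀ᶠ y in 𝓝[≠] (⊤ : EReal), y ≠ ⊥ :=
      nhdsWithin_le_nhds (isOpen_ne.mem_nhds (by simp))
    filter_upwards [h1, h2] with y hy1 hy2
    simp [fmExt, hy1, hy2]
  | coe x =>
    rw [← EReal.isOpenEmbedding_coe.continuousAt_iff]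
    have : fmExt F ∘ Real.toEReal = F := by
      funext u; exact fmExt_coe F u
    rw [this]
    exact hF.continuousAt

theorem fm_int_comap (μ : Measure EReal) (F : ℝ → ℝ) :
    ∫ u, F u ∂(μ.comap Real.toEReal) = ∫ y, fmExt F y ∂μ := by
  have h1 : ∫ u, F u ∂(μ.comap Real.toEReal) = ∫ u : ℝ, fmExt F (u : EReal) ∂(μ.comap Real.toEReal) := by
    simp only [fmExt_coe]
  rw [h1, ← EReal.measurableEmbedding_coe.integral_map, EReal.measurableEmbedding_coe.map_comap]
  refine setIntegral_eq_integral_of_forall_compl_eq_zero ?_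
  intro y hy
  induction y with
  | bot => simp [fmExt]
  | top => simp [fmExt]
  | coe x => exact absurd (mem_range_self x) hy

/-- compactified measure -/
noncomputable def fmEmb (G : Measure ℝ) : Measure EReal :=
  G.map Real.toEReal + ((1 - G univ) / 2) • (Measure.dirac ⊤ + Measure.dirac ⊥)

theorem fmEmb_univ (G : Measure ℝ) (h : G univ ≤ 1) : fmEmb G univ = 1 := by
  unfold fmEmb
  rw [Measure.add_apply, Measure.smul_apply, Measure.add_apply,
    Measure.map_apply EReal.measurableEmbedding_coe.measurable MeasurableSet.univ]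
  simp only [preimage_univ, measure_univ, smul_eq_mul]
  have : (1 - G univ) / 2 * (1 + 1) = 1 - G univ := by
    rw [one_add_one_eq_two]
    exact ENNReal.div_mul_cancel (by norm_num) (by norm_num)
  rw [this]
  exact add_tsub_cancel_of_le h

theorem fmEmb_comap (G : Measure ℝ) : (fmEmb G).comap Real.toEReal = G := by
  ext s hs
  have hm := EReal.measurableEmbedding_coe.measurableSet_image.2 hs
  rw [EReal.measurableEmbedding_coe.comap_apply]
  unfold fmEmb
  rw [Measure.add_apply, Measure.smul_apply, Measure.add_apply,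
    Measure.map_apply EReal.measurableEmbedding_coe.measurable hm,
    preimage_image_eq _ EReal.coe_injective, Measure.dirac_apply' _ hm, Measure.dirac_apply' _ hm]
  have h1 : (⊤ : EReal) ∉ Real.toEReal '' s := by
    rintro ⟨u, -, hu⟩
    exact EReal.coe_ne_top u hu
  have h2 : (⊥ : EReal) ∉ Real.toEReal '' s := by
    rintro ⟨u, -, hu⟩
    exact EReal.coe_ne_bot u hu
  rw [indicator_of_notMem h1, indicator_of_notMem h2]
  simp

theorem fmEmb_neg (G : Measure ℝ) (h : G.map (fun u => -u) = G) :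
    (fmEmb G).map (fun y => -y) = fmEmb G := by
  have hn : Measurable (fun y : EReal => -y) := measurable_neg
  have hn' : Measurable (fun y : ℝ => -y) := measurable_neg
  unfold fmEmb
  rw [Measure.map_add _ _ hn, Measure.map_smul, Measure.map_add _ _ hn, Measure.map_dirac' hn,
    Measure.map_dirac' hn, Measure.map_map hn EReal.measurableEmbedding_coe.measurable]
  have e : (fun y : EReal => -y) ∘ Real.toEReal = Real.toEReal ∘ (fun u : ℝ => -u) := by
    funext u; simp
  rw [e, ← Measure.map_map EReal.measurableEmbedding_coe.measurable hn', h]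
  simp only [EReal.neg_top, EReal.neg_bot]
  rw [add_comm (Measure.dirac (⊥ : EReal))]

theorem fm_comap_neg (μ : Measure EReal) (h : μ.map (fun y => -y) = μ) :
    (μ.comap Real.toEReal).map (fun u => -u) = μ.comap Real.toEReal := by
  have hn : Measurable (fun y : EReal => -y) := measurable_neg
  have hn' : Measurable (fun y : ℝ => -y) := measurable_neg
  ext s hs
  have hm := EReal.measurableEmbedding_coe.measurableSet_image.2 hs
  rw [Measure.map_apply hn' hs, EReal.measurableEmbedding_coe.comap_apply,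
    EReal.measurableEmbedding_coe.comap_apply]
  conv_rhs => rw [← h]
  rw [Measure.map_apply hn hm]
  congr 1
  ext y
  constructor
  · rintro ⟨u, hu, rfl⟩
    exact ⟨-u, hu, by simp⟩
  · rintro ⟨u, hu, hy⟩
    refine ⟨-u, by simpa using hu, ?_⟩
    rw [EReal.coe_neg, hy, neg_neg]

theorem fm_gauss_tendsto (x : ℝ) : Tendsto (fun u => gauss (x - u)) (cocompact ℝ) (𝓝 0) := by
  have h1 := tendsto_rpow_abs_mul_exp_neg_mul_sq_cocompact (a := 1/2) (by norm_num) 0
  have h2 : Tendsto gauss (cocompact ℝ) (𝓝 0) := by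
    have h3 := h1.const_mul ((Real.sqrt (2 * Real.pi))⁻¹)
    rw [mul_zero] at h3
    refine h3.congr ?_
    intro u
    unfold gauss
    rw [Real.rpow_zero, one_mul]
    congr 2
    ring
  have h4 : Tendsto (fun u : ℝ => x - u) (cocompact ℝ) (cocompact ℝ) :=
    (Homeomorph.subLeft x).isClosedEmbedding.tendsto_cocompact
  exact h2.comp h4

theorem fm_dgauss_tendsto (x : ℝ) :
    Tendsto (fun u => -(x - u) * gauss (x - u)) (cocompact ℝ) (𝓝 0) := by
  have h1 := tendsto_rpow_abs_mul_exp_neg_mul_sq_cocompact (a := 1/2) (by norm_num) 1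
  have h2 : Tendsto (fun u => -u * gauss u) (cocompact ℝ) (𝓝 0) := by
    have h3 := h1.const_mul ((Real.sqrt (2 * Real.pi))⁻¹)
    rw [mul_zero] at h3
    refine squeeze_zero_norm ?_ h3
    intro u
    unfold gauss
    rw [Real.rpow_one, Real.norm_eq_abs, abs_mul, abs_neg, abs_mul,
      abs_of_nonneg (by positivity : 0 ≤ (Real.sqrt (2 * Real.pi))⁻¹),
      abs_of_pos (Real.exp_pos _)]
    have : -(1/2) * u ^ 2 = -u ^ 2 / 2 := by ring
    rw [this]
    apply le_of_eq; ring
  have h4 : Tendsto (fun u : ℝ => x - u) (cocompact ℝ) (cocompact ℝ) :=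
    (Homeomorph.subLeft x).isClosedEmbedding.tendsto_cocompact
  exact h2.comp h4

theorem fm_lim {ι : Type*} {L : Filter ι} (μs : ι → ProbabilityMeasure EReal)
    (μ : ProbabilityMeasure EReal) (h : Tendsto μs L (𝓝 μ)) (F : ℝ → ℝ) (hF : Continuous F)
    (h0 : Tendsto F (cocompact ℝ) (𝓝 0)) :
    Tendsto (fun i => ∫ u, F u ∂((μs i : Measure EReal).comap Real.toEReal)) L
      (𝓝 (∫ u, F u ∂((μ : Measure EReal).comap Real.toEReal))) := by
  simp only [fm_int_comap]
  exact (ProbabilityMeasure.tendsto_iff_forall_integral_tendsto.mp h)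
    (BoundedContinuousFunction.mkOfCompact ⟨fmExt F, fmExt_cont F hF h0⟩)

/-- existence of a minimiser in the relaxed (compact) class -/
theorem exists_relaxed_min (α : ℝ) (h0 : 0 < α) (h1 : α ≤ 1) :
    ∃ G : Measure ℝ, G univ ≤ 1 ∧ G.map (fun u => -u) = G ∧ ENNReal.ofReal α ≤ G {0} ∧
      ∀ G' : Measure ℝ, G' univ ≤ 1 → G'.map (fun u => -u) = G' → ENNReal.ofReal α ≤ G' {0} →
        FI G ≤ FI G' := by
  set S : Set ℝ := {r | ∃ G : Measure ℝ, (G univ ≤ 1 ∧ G.map (fun u => -u) = G ∧
    ENNReal.ofReal α ≤ G {0}) ∧ FI G = r} with hS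
  have hFI0 : ∀ G : Measure ℝ, 0 ≤ FI G := by
    intro G
    refine integral_nonneg ?_
    intro x
    exact div_nonneg (sq_nonneg _) (integral_nonneg fun u => (gauss_pos _).le)
  have hbdd : BddBelow S := by
    refine ⟨0, ?_⟩
    rintro r ⟨G, -, rfl⟩
    exact hFI0 G
  have hne : S.Nonempty := by
    refine ⟨_, ENNReal.ofReal α • Measure.dirac 0, ⟨?_, ?_, ?_⟩, rfl⟩
    · simp [h1]
    · rw [Measure.map_smul, Measure.map_dirac' measurable_neg, neg_zero]
    · simp
  obtain ⟨r, -, hr, hrS⟩ := exists_seq_tendsto_sInf hne hbdd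
  choose Gs hGs hFIs using hrS
  -- compactified measures
  set μs : ℕ → ProbabilityMeasure EReal := fun n => ⟨fmEmb (Gs n), ⟨fmEmb_univ _ (hGs n).1⟩⟩ with hμs
  have hμc : ∀ n, (μs n : Measure EReal).comap Real.toEReal = Gs n := fun n => fmEmb_comap _
  obtain ⟨μ, k, hk, hlim⟩ := SeqCompactSpace.tendsto_subseq μs
  set G : Measure ℝ := (μ : Measure EReal).comap Real.toEReal with hG
  have hn : Measurable (fun y : EReal => -y) := measurable_neg
  -- symmetric
  have hsym : (μ : Measure EReal).map (fun y => -y) = μ := by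
    have h2 := ProbabilityMeasure.tendsto_map_of_tendsto_of_continuous _ _ hlim
      (continuous_neg : Continuous (fun y : EReal => -y))
    have h3 : ∀ n, ((μs ∘ k) n).map (continuous_neg : Continuous (fun y : EReal => -y)).measurable.aemeasurable
        = (μs ∘ k) n := by
      intro n
      apply Subtype.ext
      exact fmEmb_neg _ (hGs (k n)).2.1
    simp only [h3] at h2
    have h4 := tendsto_nhds_unique h2 hlim
    exact congrArg (fun ν : ProbabilityMeasure EReal => (ν : Measure EReal)) h4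
  have hzero : ENNReal.ofReal α ≤ G {0} := by
    rw [hG, EReal.measurableEmbedding_coe.comap_apply, image_singleton]
    have h2 := ProbabilityMeasure.limsup_measure_closed_le_of_tendsto hlim
      (isClosed_singleton (x := ((0:ℝ) : EReal)))
    refine le_trans ?_ h2
    have h3 : ∀ n, ENNReal.ofReal α ≤ ((μs ∘ k) n : Measure EReal) {((0:ℝ) : EReal)} := by
      intro n
      have h4 := (hGs (k n)).2.2
      rw [← hμc (k n), EReal.measurableEmbedding_coe.comap_apply, image_singleton] at h4
      exact h4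
    exact le_limsup_of_frequently_le (Frequently.of_forall h3) (by isBoundedDefault)
  have hmass : G univ ≤ 1 := by
    rw [hG, EReal.measurableEmbedding_coe.comap_apply]
    exact prob_le_one
  refine ⟨G, hmass, fm_comap_neg _ hsym, hzero, ?_⟩
  have hfin : IsFiniteMeasure G := ⟨hmass.trans_lt ENNReal.one_lt_top⟩
  have hfins : ∀ n, IsFiniteMeasure (Gs n) := fun n => ⟨(hGs n).1.trans_lt ENNReal.one_lt_top⟩
  -- pointwise convergence
  have hd : ∀ x, Tendsto (fun n => dens (Gs (k n)) x) atTop (𝓝 (dens G x)) := by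
    intro x
    have h2 := fm_lim _ _ hlim (fun u => gauss (x - u)) (gauss_cont.comp (by fun_prop))
      (fm_gauss_tendsto x)
    simp only [Function.comp_apply, hμc] at h2
    exact h2
  have hd' : ∀ x, Tendsto (fun n => densD (Gs (k n)) x) atTop (𝓝 (densD G x)) := by
    intro x
    have hg := gauss_cont
    have h2 := fm_lim _ _ hlim (fun u => -(x - u) * gauss (x - u)) (by fun_prop)
      (fm_dgauss_tendsto x)
    simp only [Function.comp_apply, hμc] at h2
    exact h2
  have hpt : ∀ x, Tendsto (fun n => ENNReal.ofReal (densD (Gs (k n)) x ^ 2 / dens (Gs (k n)) x))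
      atTop (𝓝 (ENNReal.ofReal (densD G x ^ 2 / dens G x))) := by
    intro x
    exact ENNReal.tendsto_ofReal (((hd' x).pow 2).div (hd x) (dens_pos G h0 hzero x).ne')
  have hnn : ∀ (H : Measure ℝ) (x : ℝ), 0 ≤ densD H x ^ 2 / dens H x := fun H x =>
    div_nonneg (sq_nonneg _) (integral_nonneg fun u => (gauss_pos _).le)
  have hli : ∀ (H : Measure ℝ) [IsFiniteMeasure H], ENNReal.ofReal α ≤ H {0} →
      ∫⁻ x, ENNReal.ofReal (densD H x ^ 2 / dens H x) = ENNReal.ofReal (FI H) := by
    intro H _ hH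
    rw [FI, ofReal_integral_eq_lintegral_ofReal (FI_integrable H h0 hH)
      (Eventually.of_forall (hnn H))]
  have hfatou : ENNReal.ofReal (FI G) ≤ ENNReal.ofReal (sInf S) := by
    rw [← hli G hzero]
    have e : ∀ x, ENNReal.ofReal (densD G x ^ 2 / dens G x) =
        liminf (fun n => ENNReal.ofReal (densD (Gs (k n)) x ^ 2 / dens (Gs (k n)) x)) atTop :=
      fun x => (hpt x).liminf_eq.symm
    simp only [e]
    refine (lintegral_liminf_le ?_).trans ?_
    · intro n
      have := hfins (k n)
      exact ENNReal.measurable_ofReal.comp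
        ((((densD_cont (Gs (k n))).measurable).pow_const 2).div (dens_cont (Gs (k n))).measurable)
    · have h2 : ∀ n, ∫⁻ x, ENNReal.ofReal (densD (Gs (k n)) x ^ 2 / dens (Gs (k n)) x) =
          ENNReal.ofReal (r (k n)) := by
        intro n
        have := hfins (k n)
        rw [hli _ (hGs (k n)).2.2, hFIs]
      simp only [h2]
      have h3 : Tendsto (fun n => ENNReal.ofReal (r (k n))) atTop (𝓝 (ENNReal.ofReal (sInf S))) :=
        ENNReal.tendsto_ofReal (hr.comp hk.tendsto_atTop)
      exact h3.liminf_eq.le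
  have hI0 : 0 ≤ sInf S := by
    refine le_csInf hne ?_
    rintro r ⟨G', -, rfl⟩
    exact hFI0 G'
  have hle : FI G ≤ sInf S := (ENNReal.ofReal_le_ofReal_iff hI0).mp hfatou
  intro G' g1 g2 g3
  exact hle.trans (csInf_le hbdd ⟨G', ⟨g1, g2, g3⟩, rfl⟩)

end FisherMin
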