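import Mathlib
import Pool.Agent.H494.FM3

set_option autoImplicit false
open MeasureTheory Set Filter Topology
open scoped ENNReal

namespace FisherMin

/- proved by helper27 (jobs board) -/


theorem fm6_gauss_shift (x u : ℝ) : gauss (x - u) = Real.exp (-u ^ 2 / 2) * (gauss x * Real.exp (u * x)) := by
  unfold gauss
  have h1 : Real.exp (-(x - u) ^ 2 / 2) = Real.exp (-u ^ 2 / 2) * (Real.exp (-x ^ 2 / 2) * Real.exp (u * x)) := by
    rw [← Real.exp_add, ← Real.exp_add]
    congr 1
    ring
  rw [h1]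
  ring

theorem fm6_cont_gauss : Continuous gauss := by
  unfold gauss
  fun_prop

theorem fm6_integrable (h : ℝ → ℝ) (hm : Measurable h) (K : ℝ) (hb : ∀ x, |h x| ≤ K * (1 + x ^ 2)) (t : ℝ) :
    Integrable (fun x => h x * (gauss x * Real.exp (t * x))) := by
  have hK : 0 ≤ K := by
    have := (abs_nonneg _).trans (hb 0)
    simpa using this
  have h1 : Integrable (fun x : ℝ => Real.exp (t ^ 2 / 2) * (K * (1 + 2 * t ^ 2) * (|x - t| ^ 0 * gauss (x - t)) +
      2 * K * (|x - t| ^ 2 * gauss (x - t)))) := by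
    refine Integrable.const_mul ?_ _
    exact (((integrable_pow_gauss 0).comp_sub_right t).const_mul _).add
      (((integrable_pow_gauss 2).comp_sub_right t).const_mul _)
  refine h1.mono' ?_ ?_
  · refine (hm.mul (fm6_cont_gauss.measurable.mul ?_)).aestronglyMeasurable
    fun_prop
  · refine Filter.Eventually.of_forall fun x => ?_
    have hg := gauss_pos (x - t)
    have h2 : gauss x * Real.exp (t * x) = Real.exp (t ^ 2 / 2) * gauss (x - t) := by
      rw [fm6_gauss_shift x t, ← mul_assoc, ← Real.exp_add]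
      have : t ^ 2 / 2 + -t ^ 2 / 2 = 0 := by ring
      rw [this, Real.exp_zero, one_mul]
    rw [h2, norm_mul, Real.norm_eq_abs, Real.norm_eq_abs, abs_of_pos (by positivity : 0 < Real.exp (t ^ 2 / 2) * gauss (x - t))]
    have h3 : |h x| ≤ K * (1 + 2 * t ^ 2) + 2 * K * |x - t| ^ 2 := by
      refine (hb x).trans ?_
      rw [sq_abs]
      have h4 : x ^ 2 ≤ 2 * t ^ 2 + 2 * (x - t) ^ 2 := by nlinarith [sq_nonneg (x - 2 * t)]
      nlinarith
    calc |h x| * (Real.exp (t ^ 2 / 2) * gauss (x - t))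
        ≤ (K * (1 + 2 * t ^ 2) + 2 * K * |x - t| ^ 2) * (Real.exp (t ^ 2 / 2) * gauss (x - t)) :=
          mul_le_mul_of_nonneg_right h3 (by positivity)
      _ = _ := by ring

theorem fm6_analytic_nonneg (w : ℝ → ℝ) (hm : Measurable w) (h0 : ∀ x, 0 ≤ w x) (K : ℝ)
    (hb : ∀ x, |w x| ≤ K * (1 + x ^ 2)) :
    AnalyticOnNhd ℝ (fun u => ∫ x, w x * (gauss x * Real.exp (u * x))) univ := by
  let f : ℝ → NNReal := fun x => Real.toNNReal (w x * gauss x)
  have hf : Measurable f := (hm.mul fm6_cont_gauss.measurable).real_toNNReal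
  let μ : Measure ℝ := volume.withDensity (fun x => (f x : ℝ≥0∞))
  have hfx : ∀ x, (f x : ℝ) = w x * gauss x := fun x =>
    Real.coe_toNNReal _ (mul_nonneg (h0 x) (gauss_pos x).le)
  have h1 : ProbabilityTheory.integrableExpSet id μ = univ := by
    rw [eq_univ_iff_forall]
    intro t
    show Integrable (fun x : ℝ => Real.exp (t * x)) μ
    rw [integrable_withDensity_iff_integrable_smul hf]
    refine (fm6_integrable w hm K hb t).congr (Filter.Eventually.of_forall fun x => ?_)
    show _ = (f x : ℝ) • Real.exp (t * x)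
    rw [hfx, smul_eq_mul]
    ring
  have h2 := ProbabilityTheory.analyticOnNhd_mgf (X := (id : ℝ → ℝ)) (μ := μ)
  rw [h1, interior_univ] at h2
  refine h2.congr isOpen_univ ?_
  intro u _
  show ∫ x, Real.exp (u * x) ∂μ = _
  rw [integral_withDensity_eq_integral_smul hf]
  refine integral_congr_ae (Filter.Eventually.of_forall fun x => ?_)
  show (f x : ℝ) • Real.exp (u * x) = _
  rw [hfx, smul_eq_mul]
  ring

theorem fm6_analytic (h : ℝ → ℝ) (hm : Measurable h) (K : ℝ) (hb : ∀ x, |h x| ≤ K * (1 + x ^ 2)) :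
    AnalyticOnNhd ℝ (fun u => ∫ x, h x * (gauss x * Real.exp (u * x))) univ := by
  have hp : ∀ x, |max (h x) 0| ≤ K * (1 + x ^ 2) := by
    intro x
    have h1 := hb x
    have h2 := abs_nonneg (h x)
    rw [abs_of_nonneg (le_max_right _ _)]
    exact max_le ((le_abs_self _).trans h1) (h2.trans h1)
  have hn : ∀ x, |max (-h x) 0| ≤ K * (1 + x ^ 2) := by
    intro x
    have h1 := hb x
    have h2 := abs_nonneg (h x)
    rw [abs_of_nonneg (le_max_right _ _)]
    exact max_le ((neg_le_abs _).trans h1) (h2.trans h1)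
  have hmp : Measurable fun x => max (h x) 0 := hm.max measurable_const
  have hmn : Measurable fun x => max (-h x) 0 := hm.neg.max measurable_const
  have h1 := (fm6_analytic_nonneg _ hmp (fun x => le_max_right _ _) K hp).sub
    (fm6_analytic_nonneg _ hmn (fun x => le_max_right _ _) K hn)
  refine h1.congr isOpen_univ ?_
  intro u _
  show (∫ x, max (h x) 0 * (gauss x * Real.exp (u * x))) - ∫ x, max (-h x) 0 * (gauss x * Real.exp (u * x)) = _
  rw [← integral_sub (fm6_integrable _ hmp K hp u) (fm6_integrable _ hmn K hn u)]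
  refine integral_congr_ae (Filter.Eventually.of_forall fun x => ?_)
  show max (h x) 0 * (gauss x * Real.exp (u * x)) - max (-h x) 0 * (gauss x * Real.exp (u * x)) = _
  have h3 : max (h x) 0 - max (-h x) 0 = h x := by
    rcases le_total (h x) 0 with h4 | h4
    · rw [max_eq_right h4, max_eq_left (by linarith)]; ring
    · rw [max_eq_left h4, max_eq_right (by linarith)]; ring
  rw [← sub_mul, h3]

/-! TARGET -/

theorem kernel_analytic (l : ℝ → ℝ) (hm : Measurable l) (C : ℝ)
    (hb : ∀ x, l x ^ 2 ≤ C * (1 + x ^ 2)) :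
    AnalyticOnNhd ℝ (fun u => ∫ x, (-2 * (x - u) * l x - l x ^ 2) * gauss (x - u)) univ := by
  have hm1 : Measurable fun x => -2 * x * l x - l x ^ 2 :=
    ((measurable_const.mul measurable_id).mul hm).sub (hm.pow_const 2)
  have hb1 : ∀ x, |(-2 * x * l x - l x ^ 2)| ≤ (1 + 2 * C) * (1 + x ^ 2) := by
    intro x
    have h1 := hb x
    rw [abs_le]
    constructor <;> nlinarith [sq_nonneg (x + l x), sq_nonneg (x - l x), sq_nonneg (l x), sq_nonneg x]
  have hb2 : ∀ x, |l x| ≤ (1 + C) * (1 + x ^ 2) := by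
    intro x
    have h1 := hb x
    rw [abs_le]
    constructor <;> nlinarith [sq_nonneg (l x - 1), sq_nonneg (l x + 1), sq_nonneg x]
  have hA := fm6_analytic _ hm1 _ hb1
  have hB := fm6_analytic _ hm _ hb2
  have hexp : AnalyticOnNhd ℝ (fun u : ℝ => Real.exp (-u ^ 2 / 2)) univ := by
    intro u _
    fun_prop
  have hid : AnalyticOnNhd ℝ (fun u : ℝ => 2 * u) univ := by
    intro u _
    fun_prop
  refine (hexp.mul (hA.add (hid.mul hB))).congr isOpen_univ ?_
  intro u _
  show Real.exp (-u ^ 2 / 2) * ((∫ x, (-2 * x * l x - l x ^ 2) * (gauss x * Real.exp (u * x))) +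
    2 * u * ∫ x, l x * (gauss x * Real.exp (u * x))) = ∫ x, (-2 * (x - u) * l x - l x ^ 2) * gauss (x - u)
  rw [← integral_const_mul, ← integral_add (fm6_integrable _ hm1 _ hb1 u)
    ((fm6_integrable _ hm _ hb2 u).const_mul _), ← integral_const_mul]
  refine integral_congr_ae (Filter.Eventually.of_forall fun x => ?_)
  show Real.exp (-u ^ 2 / 2) * ((-2 * x * l x - l x ^ 2) * (gauss x * Real.exp (u * x)) +
    2 * u * (l x * (gauss x * Real.exp (u * x)))) = (-2 * (x - u) * l x - l x ^ 2) * gauss (x - u)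
  rw [fm6_gauss_shift x u]
  ring

end FisherMin
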