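import Mathlib
import Pool.Agent.H494.FM3

set_option autoImplicit false
open MeasureTheory Set Filter Topology
open scoped ENNReal

namespace FisherMin

/- proved by helper67 (jobs board) -/

/-! auxiliary lemmas -/

theorem aux_int_gauss (G : Measure ℝ) [IsFiniteMeasure G] (x : ℝ) :
    Integrable (fun u => gauss (x - u)) G := by
  refine Integrable.of_bound (C := 1) ?_ ?_
  · exact (gauss_cont.comp (by fun_prop : Continuous fun u : ℝ => x - u)).aestronglyMeasurable
  · filter_upwards with u
    rw [Real.norm_eq_abs, abs_of_pos (gauss_pos _)]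
    exact gauss_le_one _

theorem aux_abs_mul_exp (v : ℝ) : |v| * Real.exp (-v ^ 2 / 2) ≤ 1 := by
  have h1 : |v| ≤ Real.exp (v ^ 2 / 2) := by
    have h2 := Real.add_one_le_exp (v ^ 2 / 2)
    have h3 : |v| ≤ v ^ 2 / 2 + 1 := by
      rw [← sq_abs v]
      nlinarith [sq_nonneg (|v| - 1)]
    linarith
  have h4 : Real.exp (-v ^ 2 / 2) = (Real.exp (v ^ 2 / 2))⁻¹ := by
    rw [← Real.exp_neg]
    congr 1
    ring
  rw [h4, ← div_eq_mul_inv, div_le_one (Real.exp_pos _)]
  exact h1

theorem aux_int_gaussD (G : Measure ℝ) [IsFiniteMeasure G] (x : ℝ) :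
    Integrable (fun u => -(x - u) * gauss (x - u)) G := by
  refine Integrable.of_bound (C := (Real.sqrt (2 * Real.pi))⁻¹) ?_ ?_
  · refine Continuous.aestronglyMeasurable ?_
    have := gauss_cont.comp (by fun_prop : Continuous fun u : ℝ => x - u)
    exact (by fun_prop : Continuous fun u : ℝ => -(x - u)).mul this
  · filter_upwards with u
    rw [Real.norm_eq_abs, abs_mul, abs_neg, abs_of_pos (gauss_pos _)]
    unfold gauss
    have h := aux_abs_mul_exp (x - u)
    have hc : 0 ≤ (Real.sqrt (2 * Real.pi))⁻¹ := by positivity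
    calc |x - u| * ((Real.sqrt (2 * Real.pi))⁻¹ * Real.exp (-(x - u) ^ 2 / 2))
        = (Real.sqrt (2 * Real.pi))⁻¹ * (|x - u| * Real.exp (-(x - u) ^ 2 / 2)) := by ring
      _ ≤ (Real.sqrt (2 * Real.pi))⁻¹ * 1 := mul_le_mul_of_nonneg_left h hc
      _ = _ := mul_one _

theorem aux_half_toReal : ((1 / 2 : ℝ≥0∞)).toReal = 1 / 2 := by
  simp

theorem aux_finite_half (G : Measure ℝ) [IsFiniteMeasure G] :
    IsFiniteMeasure ((1 / 2 : ℝ≥0∞) • G) :=
  Measure.smul_finite G (by simp)

theorem aux_dens_mid (G1 G2 : Measure ℝ) [IsFiniteMeasure G1] [IsFiniteMeasure G2] (x : ℝ) :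
    dens ((1 / 2 : ℝ≥0∞) • G1 + (1 / 2 : ℝ≥0∞) • G2) x = (dens G1 x + dens G2 x) / 2 := by
  unfold dens
  rw [integral_add_measure ((aux_int_gauss G1 x).smul_measure (by simp))
    ((aux_int_gauss G2 x).smul_measure (by simp)), integral_smul_measure, integral_smul_measure,
    aux_half_toReal]
  simp only [smul_eq_mul]
  ring

theorem aux_densD_mid (G1 G2 : Measure ℝ) [IsFiniteMeasure G1] [IsFiniteMeasure G2] (x : ℝ) :
    densD ((1 / 2 : ℝ≥0∞) • G1 + (1 / 2 : ℝ≥0∞) • G2) x = (densD G1 x + densD G2 x) / 2 := by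
  unfold densD
  rw [integral_add_measure ((aux_int_gaussD G1 x).smul_measure (by simp))
    ((aux_int_gaussD G2 x).smul_measure (by simp)), integral_smul_measure, integral_smul_measure,
    aux_half_toReal]
  simp only [smul_eq_mul]
  ring

/-- the Gaussian weight -/
noncomputable def wt (u : ℝ) : ℝ≥0∞ := ENNReal.ofReal (Real.exp (-u ^ 2 / 2))

theorem wt_meas : Measurable wt := by
  unfold wt
  fun_prop

theorem wt_toReal (u : ℝ) : (wt u).toReal = Real.exp (-u ^ 2 / 2) :=
  ENNReal.toReal_ofReal (Real.exp_pos _).le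

theorem wt_ne_zero (u : ℝ) : wt u ≠ 0 := by
  unfold wt
  rw [Ne, ENNReal.ofReal_eq_zero, not_le]
  exact Real.exp_pos _

theorem wt_lt_top (u : ℝ) : wt u < ∞ := ENNReal.ofReal_lt_top

theorem aux_exp_bound (t u : ℝ) : Real.exp (-u ^ 2 / 2) * Real.exp (t * u) ≤
    Real.exp (t ^ 2 / 2) := by
  rw [← Real.exp_add]
  apply Real.exp_le_exp.mpr
  nlinarith [sq_nonneg (u - t)]

theorem aux_int_exp (G : Measure ℝ) [IsFiniteMeasure G] (t : ℝ) :
    Integrable (fun u => Real.exp (t * id u)) (G.withDensity wt) := by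
  rw [integrable_withDensity_iff_integrable_smul' wt_meas (ae_of_all _ wt_lt_top)]
  refine Integrable.of_bound (C := Real.exp (t ^ 2 / 2)) ?_ ?_
  · refine Measurable.aestronglyMeasurable ?_
    exact (wt_meas.ennreal_toReal).smul (by fun_prop)
  · filter_upwards with u
    rw [wt_toReal, smul_eq_mul, Real.norm_eq_abs, abs_of_pos (by positivity)]
    exact aux_exp_bound t u

theorem aux_mgf (G : Measure ℝ) [IsFiniteMeasure G] (t : ℝ) :
    ProbabilityTheory.mgf id (G.withDensity wt) t = dens G t / gauss t := by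
  unfold ProbabilityTheory.mgf dens
  rw [integral_withDensity_eq_integral_toReal_smul wt_meas (ae_of_all _ wt_lt_top),
    eq_div_iff (gauss_pos t).ne', ← integral_mul_const]
  refine integral_congr_ae (ae_of_all _ fun u => ?_)
  simp only [id, smul_eq_mul]
  rw [wt_toReal, gauss_shift, ← Real.exp_add]
  rw [mul_comm]
  congr 2
  ring

theorem aux_finite_wt (G : Measure ℝ) [IsFiniteMeasure G] : IsFiniteMeasure (G.withDensity wt) := by
  refine isFiniteMeasure_withDensity_ofReal ?_
  refine HasFiniteIntegral.of_bounded (C := 1) ?_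
  filter_upwards with u
  rw [Real.norm_eq_abs, abs_of_pos (Real.exp_pos _), Real.exp_le_one_iff]
  nlinarith [sq_nonneg u]

theorem eq_of_dens_eq (G1 G2 : Measure ℝ) [IsFiniteMeasure G1] [IsFiniteMeasure G2]
    (h : ∀ x, dens G1 x = dens G2 x) : G1 = G2 := by
  haveI := aux_finite_wt G1
  haveI := aux_finite_wt G2
  have hm : ProbabilityTheory.mgf id (G1.withDensity wt) =
      ProbabilityTheory.mgf id (G2.withDensity wt) := by
    funext t
    rw [aux_mgf, aux_mgf, h]
  have h0 : (G1.withDensity wt).real univ = (G2.withDensity wt).real univ := by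
    have := congrFun hm 0
    rwa [ProbabilityTheory.mgf_zero', ProbabilityTheory.mgf_zero'] at this
  have hz : G1.withDensity wt = 0 ↔ G2.withDensity wt = 0 := by
    rw [← Measure.measure_univ_eq_zero, ← Measure.measure_univ_eq_zero]
    rw [← measureReal_eq_zero_iff, ← measureReal_eq_zero_iff, h0]
  have hset : ProbabilityTheory.integrableExpSet id (G1.withDensity wt) = univ := by
    ext t
    simp only [mem_univ, iff_true]
    exact aux_int_exp G1 t
  have hE := ProbabilityTheory.eqOn_complexMGF_of_mgf' hm hz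
  rw [hset, interior_univ] at hE
  have hν : G1.withDensity wt = G2.withDensity wt := by
    apply Measure.ext_of_complexMGF_id_eq
    funext z
    exact hE (by simp)
  rw [← withDensity_inv_same (μ := G1) wt_meas (ae_of_all _ wt_ne_zero)
    (ae_of_all _ fun u => (wt_lt_top u).ne), hν,
    withDensity_inv_same (μ := G2) wt_meas (ae_of_all _ wt_ne_zero)
    (ae_of_all _ fun u => (wt_lt_top u).ne)]

/-! TARGET -/

/-- strict convexity of the Fisher information -/
theorem unique_of_mid (G1 G2 : Measure ℝ) [IsFiniteMeasure G1] [IsFiniteMeasure G2] {α : ℝ}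
    (hα : 0 < α) (h1 : ENNReal.ofReal α ≤ G1 {0}) (h2 : ENNReal.ofReal α ≤ G2 {0})
    (hmass : G1 univ = G2 univ)
    (hmid : (FI G1 + FI G2) / 2 ≤ FI ((1 / 2 : ℝ≥0∞) • G1 + (1 / 2 : ℝ≥0∞) • G2)) :
    G1 = G2 := by
  have p1 := dens_pos G1 hα h1
  have p2 := dens_pos G2 hα h2
  have c1 := dens_cont G1
  have c2 := dens_cont G2
  have d1 := densD_cont G1
  have d2 := densD_cont G2
  haveI := aux_finite_half G1
  haveI := aux_finite_half G2
  have h3 : ENNReal.ofReal α ≤ ((1 / 2 : ℝ≥0∞) • G1 + (1 / 2 : ℝ≥0∞) • G2) {0} := by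
    rw [Measure.add_apply, Measure.smul_apply, Measure.smul_apply, smul_eq_mul, smul_eq_mul]
    calc ENNReal.ofReal α = 1 / 2 * ENNReal.ofReal α + 1 / 2 * ENNReal.ofReal α := by
          rw [← add_mul, ENNReal.add_halves, one_mul]
      _ ≤ _ := by gcongr
  have i1 := FI_integrable G1 hα h1
  have i2 := FI_integrable G2 hα h2
  have i3 := FI_integrable _ hα h3
  set D : ℝ → ℝ := fun x => (densD G1 x * dens G2 x - densD G2 x * dens G1 x) ^ 2 /
    (2 * dens G1 x * dens G2 x * (dens G1 x + dens G2 x)) with hD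
  have hDnn : ∀ x, 0 ≤ D x := fun x => by
    have := p1 x
    have := p2 x
    simp only [hD]
    positivity
  have hDc : Continuous D := by
    simp only [hD]
    refine Continuous.div (by fun_prop) (by fun_prop) fun x => ?_
    have := p1 x
    have := p2 x
    positivity
  have hDeq : ∀ x, D x = (densD G1 x ^ 2 / dens G1 x + densD G2 x ^ 2 / dens G2 x) / 2 -
      densD ((1 / 2 : ℝ≥0∞) • G1 + (1 / 2 : ℝ≥0∞) • G2) x ^ 2 /
        dens ((1 / 2 : ℝ≥0∞) • G1 + (1 / 2 : ℝ≥0∞) • G2) x := fun x => by
    have q1 := (p1 x).ne'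
    have q2 := (p2 x).ne'
    have q3 : dens G1 x + dens G2 x ≠ 0 := by
      have := p1 x
      have := p2 x
      positivity
    rw [aux_dens_mid, aux_densD_mid]
    simp only [hD]
    field_simp
    ring
  have hDi : Integrable D := by
    have := ((i1.add i2).div_const 2).sub i3
    refine this.congr (ae_of_all _ fun x => ?_)
    rw [hDeq]
    simp
  have hDint : ∫ x, D x = (FI G1 + FI G2) / 2 -
      FI ((1 / 2 : ℝ≥0∞) • G1 + (1 / 2 : ℝ≥0∞) • G2) := by
    simp_rw [hDeq]
    have i12 : Integrable (fun x => (densD G1 x ^ 2 / dens G1 x +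
        densD G2 x ^ 2 / dens G2 x) / 2) := (i1.add i2).div_const 2
    rw [integral_sub i12 i3, integral_div, integral_add i1 i2]
    rfl
  have hD0 : ∫ x, D x = 0 := le_antisymm (by linarith) (integral_nonneg hDnn)
  have hDae : D =ᵐ[volume] 0 := (integral_eq_zero_iff_of_nonneg hDnn hDi).mp hD0
  have hDz : D = 0 := (hDc.ae_eq_iff_eq volume continuous_zero).mp hDae
  have key : ∀ x, densD G1 x * dens G2 x - dens G1 x * densD G2 x = 0 := fun x => by
    have h := congrFun hDz x
    simp only [hD, Pi.zero_apply] at h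
    have := p1 x
    have := p2 x
    rcases div_eq_zero_iff.mp h with h | h
    · have h' := pow_eq_zero_iff (two_ne_zero) |>.mp h
      linarith
    · exact absurd h (by positivity)
  have hder : ∀ x, HasDerivAt (fun x => dens G1 x / dens G2 x) 0 x := fun x => by
    have := (hasDerivAt_dens G1 x).div (hasDerivAt_dens G2 x) (p2 x).ne'
    rw [key x, zero_div] at this
    exact this
  have hconst : ∀ x, dens G1 x / dens G2 x = dens G1 0 / dens G2 0 := fun x =>
    is_const_of_deriv_eq_zero (fun x => (hder x).differentiableAt) (fun x => (hder x).deriv) x 0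
  have hprop : ∀ x, dens G1 x = (dens G1 0 / dens G2 0) * dens G2 x := fun x => by
    rw [← hconst x, div_mul_cancel₀ _ (p2 x).ne']
  have hI1 := integral_dens G1
  have hI2 := integral_dens G2
  have hm2 : 0 < G2.real univ := lt_of_lt_of_le hα (mass_lower G2 hα h2)
  have hm12 : G1.real univ = G2.real univ := by
    unfold Measure.real
    rw [hmass]
  have hc1 : dens G1 0 / dens G2 0 = 1 := by
    have e : ∫ x, dens G1 x = (dens G1 0 / dens G2 0) * ∫ x, dens G2 x := by
      rw [← integral_const_mul]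
      exact integral_congr_ae (ae_of_all _ hprop)
    rw [hI1, hI2, hm12] at e
    have : (dens G1 0 / dens G2 0 - 1) * G2.real univ = 0 := by linarith
    rcases mul_eq_zero.mp this with h | h
    · linarith
    · exact absurd h hm2.ne'
  refine eq_of_dens_eq G1 G2 fun x => ?_
  rw [hprop x, hc1, one_mul]

end FisherMin
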