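import Mathlib
import Pool.Agent.H494.FM3

set_option autoImplicit false
open MeasureTheory Set Filter Topology
open scoped ENNReal

namespace FisherMin

/- proved by helper814 (jobs board) -/

/-- `-2 f''/f + (f'/f)^2` -/
noncomputable def QQ (G : Measure ℝ) (x : ℝ) : ℝ :=
  -2 * (sqm G x - dens G x) / dens G x + lam G x ^ 2

/-- the conjectured explicit form: mass `α` at `0` and `c p^j` at `± j g`, `j ≥ 1` -/
noncomputable def Glat (α c p g : ℝ) : Measure ℝ :=
  ENNReal.ofReal α • Measure.dirac 0 + Measure.sum (fun j : ℕ =>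
    ENNReal.ofReal (c * p ^ (j + 1)) •
      (Measure.dirac (((j : ℝ) + 1) * g) + Measure.dirac (-(((j : ℝ) + 1) * g))))


namespace Lat

/-- the kernels `u^k γ(u)` -/
noncomputable def Kk (k : ℕ) (u : ℝ) : ℝ := u ^ k * gauss u

theorem Kk_cont (k : ℕ) : Continuous (Kk k) := (continuous_pow k).mul gauss_cont

theorem gauss_const_le : (Real.sqrt (2 * Real.pi))⁻¹ ≤ 1 / 2 := by
  rw [inv_le_comm₀ (by positivity) (by norm_num)]
  rw [Real.le_sqrt' (by norm_num)]
  have := Real.pi_gt_three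
  norm_num
  linarith

theorem sq_gauss_le (u : ℝ) : u ^ 2 * gauss u ≤ 1 := by
  have h1 := Real.add_one_le_exp (u ^ 2 / 2)
  have h2 : Real.exp (-u ^ 2 / 2) * Real.exp (u ^ 2 / 2) = 1 := by
    rw [← Real.exp_add]
    have : -u ^ 2 / 2 + u ^ 2 / 2 = 0 := by ring
    rw [this, Real.exp_zero]
  have h3 : u ^ 2 * Real.exp (-u ^ 2 / 2) ≤ 2 := by
    have hpos := Real.exp_pos (-u ^ 2 / 2)
    have : u ^ 2 ≤ 2 * Real.exp (u ^ 2 / 2) := by linarith
    calc u ^ 2 * Real.exp (-u ^ 2 / 2) ≤ (2 * Real.exp (u ^ 2 / 2)) * Real.exp (-u ^ 2 / 2) :=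
          mul_le_mul_of_nonneg_right this hpos.le
      _ = 2 * (Real.exp (-u ^ 2 / 2) * Real.exp (u ^ 2 / 2)) := by ring
      _ = 2 := by rw [h2, mul_one]
  unfold gauss
  have h4 : 0 ≤ u ^ 2 * Real.exp (-u ^ 2 / 2) := by positivity
  calc u ^ 2 * ((Real.sqrt (2 * Real.pi))⁻¹ * Real.exp (-u ^ 2 / 2))
      = (Real.sqrt (2 * Real.pi))⁻¹ * (u ^ 2 * Real.exp (-u ^ 2 / 2)) := by ring
    _ ≤ (1 / 2) * (u ^ 2 * Real.exp (-u ^ 2 / 2)) :=
        mul_le_mul_of_nonneg_right gauss_const_le h4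
    _ ≤ (1 / 2) * 2 := by linarith
    _ = 1 := by norm_num

theorem abs_Kk_le (k : ℕ) (hk : k ≤ 2) (u : ℝ) : |Kk k u| ≤ 1 := by
  have hg := gauss_pos u
  have hg1 := gauss_le_one u
  have h2 := sq_gauss_le u
  unfold Kk
  rw [abs_mul, abs_of_pos hg, abs_pow]
  interval_cases k
  · simpa using hg1
  · rw [pow_one]
    have h3 : |u| ≤ (1 + u ^ 2) / 2 := by
      have := sq_nonneg (|u| - 1)
      have h4 : |u| ^ 2 = u ^ 2 := sq_abs u
      nlinarith
    calc |u| * gauss u ≤ ((1 + u ^ 2) / 2) * gauss u := mul_le_mul_of_nonneg_right h3 hg.le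
      _ = (gauss u + u ^ 2 * gauss u) / 2 := by ring
      _ ≤ 1 := by linarith
  · rw [sq_abs]; exact h2

theorem Kk_ratio (k : ℕ) (hk : k ≤ 2) (y a : ℝ) (hy : 2 ≤ y) (ha : 0 ≤ a) :
    Kk k (y + a) ≤ Real.exp (-((y - 1) * a)) * Kk k y := by
  have hy0 : 0 < y := by linarith
  have h1 : gauss (y + a) ≤ gauss y * Real.exp (-(y * a)) := by
    have h := gauss_shift y (-a)
    rw [sub_neg_eq_add] at h
    rw [h]
    apply mul_le_mul_of_nonneg_left _ (gauss_pos y).le
    apply Real.exp_le_exp.mpr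
    nlinarith [sq_nonneg a]
  have h2 : (y + a) ^ k ≤ y ^ k * Real.exp a := by
    have h3 : y + a ≤ y * Real.exp (a / y) := by
      have := Real.add_one_le_exp (a / y)
      calc y + a = y * (a / y + 1) := by field_simp; ring
        _ ≤ _ := mul_le_mul_of_nonneg_left this hy0.le
    calc (y + a) ^ k ≤ (y * Real.exp (a / y)) ^ k := pow_le_pow_left₀ (by positivity) h3 k
      _ = y ^ k * Real.exp (k * (a / y)) := by rw [mul_pow, ← Real.exp_nat_mul]
      _ ≤ y ^ k * Real.exp a := by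
        apply mul_le_mul_of_nonneg_left _ (by positivity)
        apply Real.exp_le_exp.mpr
        have hk' : (k : ℝ) ≤ y := by
          have : (k : ℝ) ≤ 2 := by exact_mod_cast hk
          linarith
        rw [← mul_div_assoc, div_le_iff₀ hy0]
        nlinarith
  unfold Kk
  calc (y + a) ^ k * gauss (y + a) ≤ (y ^ k * Real.exp a) * (gauss y * Real.exp (-(y * a))) :=
        mul_le_mul h2 h1 (gauss_pos _).le (by positivity)
    _ = (Real.exp a * Real.exp (-(y * a))) * (y ^ k * gauss y) := by ring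
    _ = _ := by
      rw [← Real.exp_add]
      congr 2
      ring

variable {α c p g : ℝ}

theorem summable_geo (hp : 0 < p) (hp1 : p < 1) : Summable (fun j : ℕ => c * p ^ (j + 1)) := by
  have := (summable_geometric_of_lt_one hp.le hp1).mul_left (c * p)
  refine this.congr (fun j => ?_)
  rw [pow_succ]; ring

theorem glat_finite (hc : 0 < c) (hp : 0 < p) (hp1 : p < 1) :
    IsFiniteMeasure (Glat α c p g) := by
  refine ⟨?_⟩
  unfold Glat
  rw [Measure.add_apply, Measure.sum_apply _ MeasurableSet.univ]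
  simp only [Measure.smul_apply, Measure.add_apply, measure_univ, smul_eq_mul, mul_one]
  rw [ENNReal.tsum_mul_right, ← ENNReal.ofReal_tsum_of_nonneg (fun j => by positivity)
    (summable_geo hp hp1)]
  exact ENNReal.add_lt_top.mpr ⟨ENNReal.ofReal_lt_top,
    ENNReal.mul_lt_top ENNReal.ofReal_lt_top (by norm_num)⟩

theorem glat_zero : ENNReal.ofReal α ≤ Glat α c p g {0} := by
  unfold Glat
  rw [Measure.add_apply]
  refine le_trans ?_ (self_le_add_right _ _)
  simp

theorem glat_integral (hα : 0 < α) (hc : 0 < c) (hp : 0 < p) (hp1 : p < 1)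
    (K : ℝ → ℝ) (hK : Continuous K) (hB : ∀ u, |K u| ≤ 1) (x : ℝ) :
    HasSum (fun j : ℕ => c * p ^ (j + 1) *
      (K (x - ((j : ℝ) + 1) * g) + K (x + ((j : ℝ) + 1) * g)))
      ((∫ u, K (x - u) ∂(Glat α c p g)) - α * K x) := by
  have hfin := glat_finite (α := α) (g := g) hc hp hp1
  have hint : Integrable (fun u => K (x - u)) (Glat α c p g) := by
    apply Integrable.of_bound (C := 1)
    · exact (hK.comp (continuous_const.sub continuous_id)).aestronglyMeasurable
    · exact Filter.Eventually.of_forall (fun u => by rw [Real.norm_eq_abs]; exact hB _)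
  have hint' := hint
  unfold Glat at hint'
  rw [integrable_add_measure] at hint'
  obtain ⟨hi1, hi2⟩ := hint'
  have hsum := hasSum_integral_measure hi2
  have htot : (∫ u, K (x - u) ∂(Glat α c p g)) - α * K x =
      ∫ u, K (x - u) ∂(Measure.sum (fun j : ℕ =>
    ENNReal.ofReal (c * p ^ (j + 1)) •
      (Measure.dirac (((j : ℝ) + 1) * g) + Measure.dirac (-(((j : ℝ) + 1) * g))))) := by
    unfold Glat
    rw [integral_add_measure hi1 hi2, integral_smul_measure, integral_dirac,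
      ENNReal.toReal_ofReal hα.le]
    simp
  rw [htot]
  refine hsum.congr_fun ?_ |> fun h => h
  intro j
  rw [integral_smul_measure, integral_add_measure (by
      apply integrable_dirac; exact enorm_lt_top) (by
      apply integrable_dirac; exact enorm_lt_top), integral_dirac, integral_dirac,
    ENNReal.toReal_ofReal (by positivity)]
  simp

/-- the transforms -/
noncomputable def FK (α c p g : ℝ) (k : ℕ) (x : ℝ) : ℝ := ∫ u, Kk k (x - u) ∂(Glat α c p g)

theorem dens_eq (x : ℝ) : dens (Glat α c p g) x = FK α c p g 0 x := by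
  unfold dens FK Kk
  simp

theorem sqm_eq (x : ℝ) : sqm (Glat α c p g) x = FK α c p g 2 x := by
  unfold sqm FK Kk
  rfl

theorem densD_eq (x : ℝ) : densD (Glat α c p g) x = -FK α c p g 1 x := by
  unfold densD FK Kk
  rw [← integral_neg]
  congr 1
  ext u
  ring

theorem summable_left (hc : 0 < c) (hp : 0 < p) (hp1 : p < 1) (k : ℕ) (hk : k ≤ 2)
    (b : ℕ → ℝ) : Summable (fun j : ℕ => c * p ^ (j + 1) * Kk k (b j)) := by
  apply Summable.of_norm_bounded (summable_geo (c := c) hp hp1)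
  intro j
  rw [Real.norm_eq_abs, abs_mul]
  have h1 : 0 ≤ c * p ^ (j + 1) := by positivity
  rw [abs_of_nonneg h1]
  have := abs_Kk_le k hk (b j)
  nlinarith

theorem FK_formula (hα : 0 < α) (hc : 0 < c) (hp : 0 < p) (hp1 : p < 1)
    (k : ℕ) (hk : k ≤ 2) (x : ℝ) :
    FK α c p g k x = α * Kk k x + ∑' j : ℕ, c * p ^ (j + 1) * Kk k (x - ((j : ℝ) + 1) * g) +
      ∑' j : ℕ, c * p ^ (j + 1) * Kk k (x + ((j : ℝ) + 1) * g) := by
  have h := glat_integral (g := g) hα hc hp hp1 (Kk k) (Kk_cont k) (abs_Kk_le k hk) x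
  have h1 := summable_left (c := c) hc hp hp1 k hk (fun j => x - ((j : ℝ) + 1) * g)
  have h2 := summable_left (c := c) hc hp hp1 k hk (fun j => x + ((j : ℝ) + 1) * g)
  have h3 := h1.hasSum.add h2.hasSum
  have h4 : (fun j : ℕ => c * p ^ (j + 1) *
      (Kk k (x - ((j : ℝ) + 1) * g) + Kk k (x + ((j : ℝ) + 1) * g))) =
      (fun j : ℕ => c * p ^ (j + 1) * Kk k (x - ((j : ℝ) + 1) * g) +
        c * p ^ (j + 1) * Kk k (x + ((j : ℝ) + 1) * g)) := by
    ext j; ring
  rw [h4] at h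
  have h5 := h.unique h3
  unfold FK
  linarith

/-- the tail -/
noncomputable def TT (c p : ℝ) (k : ℕ) (b : ℕ → ℝ) : ℝ :=
  ∑' j : ℕ, (c * p ^ (j + 1) - p ^ 2 * (c * p ^ (j + 1))) * Kk k (b j)

theorem shift (hα : 0 < α) (hc : 0 < c) (hp : 0 < p) (hp1 : p < 1)
    (k : ℕ) (hk : k ≤ 2) (x : ℝ) :
    FK α c p g k (x + g) - p * FK α c p g k x = p * (c - α) * Kk k x +
      (α - c * p ^ 2) * Kk k (x + g) + TT c p k (fun j => x + ((j : ℝ) + 2) * g) := by
  rw [FK_formula hα hc hp hp1 k hk, FK_formula hα hc hp hp1 k hk]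
  -- left sum at `x + g`
  have hL : ∑' j : ℕ, c * p ^ (j + 1) * Kk k (x + g - ((j : ℝ) + 1) * g) =
      c * p * Kk k x + p * ∑' j : ℕ, c * p ^ (j + 1) * Kk k (x - ((j : ℝ) + 1) * g) := by
    rw [(summable_left (c := c) hc hp hp1 k hk (fun j => x + g - ((j : ℝ) + 1) * g)).tsum_eq_zero_add,
      ← tsum_mul_left]
    congr 1
    · simp
    · congr 1
      ext j
      have : x + g - (((j + 1 : ℕ) : ℝ) + 1) * g = x - ((j : ℝ) + 1) * g := by
        push_cast; ring
      rw [this, pow_succ]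
      ring
  have hR : p * ∑' j : ℕ, c * p ^ (j + 1) * Kk k (x + ((j : ℝ) + 1) * g) =
      c * p ^ 2 * Kk k (x + g) +
        ∑' j : ℕ, p ^ 2 * (c * p ^ (j + 1) * Kk k (x + ((j : ℝ) + 2) * g)) := by
    rw [(summable_left (c := c) hc hp hp1 k hk (fun j => x + ((j : ℝ) + 1) * g)).tsum_eq_zero_add,
      mul_add, ← tsum_mul_left]
    congr 1
    · simp; ring
    · congr 1
      ext j
      have : x + (((j + 1 : ℕ) : ℝ) + 1) * g = x + ((j : ℝ) + 2) * g := by
        push_cast; ring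
      rw [this, pow_succ p (j + 1)]
      ring
  have hR2 : ∑' j : ℕ, c * p ^ (j + 1) * Kk k (x + g + ((j : ℝ) + 1) * g) =
      ∑' j : ℕ, c * p ^ (j + 1) * Kk k (x + ((j : ℝ) + 2) * g) := by
    congr 1
    ext j
    have : x + g + ((j : ℝ) + 1) * g = x + ((j : ℝ) + 2) * g := by ring
    rw [this]
  have hs := summable_left (c := c) hc hp hp1 k hk (fun j => x + ((j : ℝ) + 2) * g)
  have hT : TT c p k (fun j => x + ((j : ℝ) + 2) * g) =
      ∑' j : ℕ, c * p ^ (j + 1) * Kk k (x + ((j : ℝ) + 2) * g) -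
      ∑' j : ℕ, p ^ 2 * (c * p ^ (j + 1) * Kk k (x + ((j : ℝ) + 2) * g)) := by
    rw [← hs.tsum_sub (hs.mul_left _)]
    unfold TT
    congr 1
    ext j
    ring
  rw [hL, hR2, hT, mul_add, mul_add, hR]
  ring

theorem Kk_nonneg (k : ℕ) (y : ℝ) (hy : 0 ≤ y) : 0 ≤ Kk k y :=
  mul_nonneg (pow_nonneg hy k) (gauss_pos y).le

theorem tail_bound (hc : 0 < c) (hp : 0 < p) (hp1 : p < 1) (hg : 0 < g)
    (k : ℕ) (hk : k ≤ 2) (y : ℝ) (hy : 2 ≤ y) (b : ℕ → ℝ) (hb : ∀ j, g ≤ b j - y) :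
    |TT c p k b| ≤ c / (1 - p) * Real.exp (-((y - 1) * g)) * Kk k y := by
  have hgeo : HasSum (fun j : ℕ => c * p ^ j * (Real.exp (-((y - 1) * g)) * Kk k y))
      (c / (1 - p) * Real.exp (-((y - 1) * g)) * Kk k y) := by
    have h := ((hasSum_geometric_of_lt_one hp.le hp1).mul_left c).mul_right
      (Real.exp (-((y - 1) * g)) * Kk k y)
    have e : c / (1 - p) * Real.exp (-((y - 1) * g)) * Kk k y =
        c * (1 - p)⁻¹ * (Real.exp (-((y - 1) * g)) * Kk k y) := by ring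
    rw [e]
    exact h
  have hle : ∀ j : ℕ, ‖(c * p ^ (j + 1) - p ^ 2 * (c * p ^ (j + 1))) * Kk k (b j)‖ ≤
      c * p ^ j * (Real.exp (-((y - 1) * g)) * Kk k y) := by
    intro j
    have h1 : |c * p ^ (j + 1) - p ^ 2 * (c * p ^ (j + 1))| ≤ c * p ^ j := by
      have e : c * p ^ (j + 1) - p ^ 2 * (c * p ^ (j + 1)) = c * p ^ j * (p * (1 - p ^ 2)) := by
        ring
      have h2 : 0 ≤ p * (1 - p ^ 2) := by
        have : p ^ 2 ≤ 1 := pow_le_one₀ hp.le hp1.le
        apply mul_nonneg hp.le; linarith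
      have h3 : p * (1 - p ^ 2) ≤ 1 := by nlinarith [sq_nonneg p]
      rw [e, abs_mul, abs_of_nonneg h2, abs_of_nonneg (by positivity)]
      exact mul_le_of_le_one_right (by positivity) h3
    have hbj := hb j
    have h4 : Kk k (b j) ≤ Real.exp (-((y - 1) * g)) * Kk k y := by
      have := Kk_ratio k hk y (b j - y) hy (by linarith)
      rw [add_sub_cancel] at this
      refine this.trans ?_
      apply mul_le_mul_of_nonneg_right _ (Kk_nonneg k y (by linarith))
      apply Real.exp_le_exp.mpr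
      nlinarith
    have h5 : 0 ≤ Kk k (b j) := Kk_nonneg k _ (by linarith)
    rw [Real.norm_eq_abs, abs_mul, abs_of_nonneg h5]
    exact mul_le_mul h1 h4 h5 (by positivity)
  have := tsum_of_norm_bounded hgeo hle
  rw [Real.norm_eq_abs] at this
  exact this

/-- the leading term -/
theorem leading (hα : 0 < α) (hc : 0 < c) (hp : 0 < p) (hp1 : p < 1) (hg : 0 < g) :
    ∃ v W d : ℝ, v ≠ 0 ∧ 0 ≤ W ∧ 0 ≤ d ∧ ∀ x : ℝ, 2 ≤ x → ∀ k ≤ 2,
      |FK α c p g k (x + g) - p * FK α c p g k x - v * Kk k (x + d)| ≤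
        W * Real.exp (-((x + d - 1) * g)) * Kk k (x + d) := by
  have hp1' : 0 < 1 - p := by linarith
  by_cases hαc : α = c
  · refine ⟨α - c * p ^ 2, c / (1 - p), g, ?_, by positivity, hg.le, ?_⟩
    · rw [hαc]
      have : c - c * p ^ 2 = c * (1 - p ^ 2) := by ring
      rw [this]
      have h2 : p ^ 2 < 1 := pow_lt_one₀ hp.le hp1 (by norm_num)
      have : 0 < c * (1 - p ^ 2) := mul_pos hc (by linarith)
      exact this.ne'
    · intro x hx k hk
      rw [shift hα hc hp hp1 k hk x]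
      have e : p * (c - α) * Kk k x + (α - c * p ^ 2) * Kk k (x + g) +
          TT c p k (fun j => x + ((j : ℝ) + 2) * g) - (α - c * p ^ 2) * Kk k (x + g) =
          TT c p k (fun j => x + ((j : ℝ) + 2) * g) := by
        rw [hαc]; ring
      rw [e]
      apply tail_bound hc hp hp1 hg k hk (x + g) (by linarith)
      intro j
      have : (0 : ℝ) ≤ (j : ℝ) := Nat.cast_nonneg j
      nlinarith
  · refine ⟨p * (c - α), |α - c * p ^ 2| + c / (1 - p), 0, ?_, by positivity, le_rfl, ?_⟩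
    · exact mul_ne_zero hp.ne' (sub_ne_zero.mpr (Ne.symm hαc))
    · intro x hx k hk
      rw [shift hα hc hp hp1 k hk x, add_zero]
      have e : p * (c - α) * Kk k x + (α - c * p ^ 2) * Kk k (x + g) +
          TT c p k (fun j => x + ((j : ℝ) + 2) * g) - p * (c - α) * Kk k x =
          (α - c * p ^ 2) * Kk k (x + g) + TT c p k (fun j => x + ((j : ℝ) + 2) * g) := by
        ring
      rw [e]
      refine (abs_add_le _ _).trans ?_
      have h1 := tail_bound hc hp hp1 hg k hk x hx (fun j => x + ((j : ℝ) + 2) * g) (by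
        intro j
        have : (0 : ℝ) ≤ (j : ℝ) := Nat.cast_nonneg j
        nlinarith)
      have h2 := Kk_ratio k hk x g hx hg.le
      have h3 : 0 ≤ Kk k (x + g) := Kk_nonneg k _ (by linarith)
      have h4 : |(α - c * p ^ 2) * Kk k (x + g)| ≤
          |α - c * p ^ 2| * (Real.exp (-((x - 1) * g)) * Kk k x) := by
        rw [abs_mul, abs_of_nonneg h3]
        exact mul_le_mul_of_nonneg_left h2 (abs_nonneg _)
      linarith

/-- lower bound of the density -/
theorem dens_low (hα : 0 < α) (hc : 0 < c) (hp : 0 < p) (hp1 : p < 1) (hg : 0 < g)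
    (x : ℝ) (hx : g ≤ x) :
    c * gauss g * Real.exp (x / g * Real.log p) ≤ FK α c p g 0 x := by
  rw [FK_formula hα hc hp hp1 0 (by norm_num)]
  have hK : ∀ u, 0 ≤ Kk 0 u := fun u => by
    unfold Kk; rw [pow_zero, one_mul]; exact (gauss_pos u).le
  have h2 : 0 ≤ ∑' j : ℕ, c * p ^ (j + 1) * Kk 0 (x + ((j : ℝ) + 1) * g) :=
    tsum_nonneg (fun j => mul_nonneg (by positivity) (hK _))
  have h1 : 0 ≤ α * Kk 0 x := mul_nonneg hα.le (hK _)
  have hxg : 1 ≤ x / g := by rw [le_div_iff₀ hg]; linarith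
  set j := ⌊x / g⌋₊ - 1 with hj
  have hfl : 1 ≤ ⌊x / g⌋₊ := by
    apply Nat.le_floor
    simpa using hxg
  have hj1 : (j : ℝ) + 1 = (⌊x / g⌋₊ : ℝ) := by
    have : j + 1 = ⌊x / g⌋₊ := by omega
    exact_mod_cast this
  have hfl1 : (⌊x / g⌋₊ : ℝ) ≤ x / g := Nat.floor_le (by linarith)
  have hfl2 : x / g < (⌊x / g⌋₊ : ℝ) + 1 := Nat.lt_floor_add_one _
  have h3 : c * p ^ (j + 1) * Kk 0 (x - ((j : ℝ) + 1) * g) ≤
      ∑' j : ℕ, c * p ^ (j + 1) * Kk 0 (x - ((j : ℝ) + 1) * g) :=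
    (summable_left (c := c) hc hp hp1 0 (by norm_num) (fun j => x - ((j : ℝ) + 1) * g)).le_tsum j
      (fun i _ => mul_nonneg (by positivity) (hK _))
  have h4 : Real.exp (x / g * Real.log p) ≤ p ^ (j + 1) := by
    have hlog : Real.log p < 0 := Real.log_neg hp hp1
    have : p ^ (j + 1) = Real.exp (((j : ℝ) + 1) * Real.log p) := by
      have h5 : p ^ (j + 1) = Real.exp (Real.log p) ^ (j + 1) := by rw [Real.exp_log hp]
      rw [h5, ← Real.exp_nat_mul]
      push_cast
      ring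
    rw [this, hj1]
    apply Real.exp_le_exp.mpr
    nlinarith
  have h5 : gauss g ≤ Kk 0 (x - ((j : ℝ) + 1) * g) := by
    unfold Kk
    rw [pow_zero, one_mul, hj1]
    unfold gauss
    apply mul_le_mul_of_nonneg_left _ (by positivity)
    apply Real.exp_le_exp.mpr
    have e1 : (⌊x / g⌋₊ : ℝ) * g ≤ x := by
      calc (⌊x / g⌋₊ : ℝ) * g ≤ (x / g) * g := mul_le_mul_of_nonneg_right hfl1 hg.le
        _ = x := by field_simp
    have e2 : x ≤ (⌊x / g⌋₊ : ℝ) * g + g := by
      calc x = (x / g) * g := by field_simp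
        _ ≤ ((⌊x / g⌋₊ : ℝ) + 1) * g := mul_le_mul_of_nonneg_right hfl2.le hg.le
        _ = _ := by ring
    nlinarith
  have hgg := gauss_pos g
  calc c * gauss g * Real.exp (x / g * Real.log p) ≤
      c * Kk 0 (x - ((j : ℝ) + 1) * g) * p ^ (j + 1) := by
        apply mul_le_mul (mul_le_mul_of_nonneg_left h5 hc.le) h4 (Real.exp_pos _).le
        exact mul_nonneg hc.le (hK _)
    _ = c * p ^ (j + 1) * Kk 0 (x - ((j : ℝ) + 1) * g) := by ring
    _ ≤ _ := by linarith

/-- growth of the posterior second moment -/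
theorem q_growth (hα : 0 < α) (hc : 0 < c) (hp : 0 < p) (hp1 : p < 1) (hg : 0 < g) :
    ∃ A B : ℝ, ∀ x : ℝ, g ≤ x →
      sqm (Glat α c p g) x / dens (Glat α c p g) x ≤ A + B * x := by
  have hfin := glat_finite (α := α) (g := g) hc hp hp1
  have hpos := dens_pos (Glat α c p g) hα glat_zero
  set M : ℝ := (Glat α c p g).real univ * (Real.sqrt (2 * Real.pi))⁻¹ with hM
  have hMpos : 0 < M := by
    have := mass_lower (Glat α c p g) hα glat_zero
    have h2 : 0 < (Glat α c p g).real univ := by linarith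
    positivity
  refine ⟨2 * (Real.log M - Real.log (c * gauss g)), -2 * Real.log p / g, ?_⟩
  intro x hx
  have h1 := sqm_le_log (Glat α c p g) hα glat_zero x
  have h2 := dens_low hα hc hp hp1 hg x hx
  rw [← dens_eq] at h2
  have hfx := hpos x
  rw [div_le_iff₀ hfx, mul_comm]
  refine h1.trans ?_
  apply mul_le_mul_of_nonneg_left _ hfx.le
  rw [← hM, Real.log_div hMpos.ne' hfx.ne']
  have hgg := gauss_pos g
  have h3 : Real.log (c * gauss g) + x / g * Real.log p ≤ Real.log (dens (Glat α c p g) x) := by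
    have h4 : Real.log (c * gauss g * Real.exp (x / g * Real.log p)) =
        Real.log (c * gauss g) + x / g * Real.log p := by
      rw [Real.log_mul (by positivity) (Real.exp_pos _).ne', Real.log_exp]
    rw [← h4]
    exact Real.log_le_log (by positivity) h2
  have h5 : -2 * Real.log p / g * x = -2 * (x / g * Real.log p) := by
    field_simp
  rw [h5]
  linarith

theorem lin_le_sq (A B e : ℝ) (he : 0 < e) : ∃ X : ℝ, ∀ x, X ≤ x → A + B * x ≤ e * x ^ 2 := by
  refine ⟨max 1 ((|A| + |B|) / e), fun x hx => ?_⟩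
  have h1 : 1 ≤ x := le_trans (le_max_left _ _) hx
  have h2 : (|A| + |B|) / e ≤ x := le_trans (le_max_right _ _) hx
  rw [div_le_iff₀ he] at h2
  have h3 : A ≤ |A| := le_abs_self A
  have h4 : B * x ≤ |B| * x := mul_le_mul_of_nonneg_right (le_abs_self B) (by linarith)
  have h5 : |A| ≤ |A| * x := le_mul_of_one_le_right (abs_nonneg A) h1
  calc A + B * x ≤ (|A| + |B|) * x := by linarith
    _ ≤ (x * e) * x := mul_le_mul_of_nonneg_right h2 (by linarith)
    _ = e * x ^ 2 := by ring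

theorem exp_small (W g e : ℝ) (hW : 0 ≤ W) (hg : 0 < g) (he : 0 < e) :
    ∃ X : ℝ, ∀ x, X ≤ x → W * Real.exp (-((x - 1) * g)) ≤ e := by
  refine ⟨1 + W / (e * g), fun x hx => ?_⟩
  have h1 : W / (e * g) ≤ x - 1 := by linarith
  rw [div_le_iff₀ (by positivity)] at h1
  rw [Real.exp_neg, ← div_eq_mul_inv, div_le_iff₀ (Real.exp_pos _)]
  have h2 := Real.add_one_le_exp ((x - 1) * g)
  have h3 : W ≤ e * ((x - 1) * g) := by linarith
  have h4 : e * ((x - 1) * g) ≤ e * Real.exp ((x - 1) * g) :=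
    mul_le_mul_of_nonneg_left (by linarith) he.le
  linarith

/-- the final inequality, for real numbers -/
theorem final_ineq (v V δ y γ E0 E1 E2 q l l' : ℝ) (hv : v ≠ 0) (hV : |v| * (5 / 4) ≤ V)
    (hδ : 0 < δ) (hδ1 : δ ≤ 1) (hδV : 6 * δ * V ≤ |v| / 2) (hy : 1 ≤ y) (hγ : 0 < γ)
    (h0 : |E0 - v * γ| ≤ |v| / 4 * γ) (h1 : |E1 - v * (y * γ)| ≤ |v| / 4 * (y * γ))
    (h2 : |E2 - v * (y ^ 2 * γ)| ≤ |v| / 4 * (y ^ 2 * γ))
    (hq0 : 0 ≤ q) (hq : q ≤ δ ^ 2 * y ^ 2) (hl : |l| ≤ δ * y) (hl' : |l'| ≤ δ * y) (s : ℝ)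
    (hs : s * v = -|v|) (hs1 : |s| = 1) :
    0 < s * (-2 * E2 + 2 * q * E0 - (E1 + l * E0) * (l' + l)) := by
  have hvpos : 0 < |v| := abs_pos.mpr hv
  have hVpos : 0 < V := by linarith
  have hE0 : |E0| ≤ V * γ := by
    calc |E0| = |(E0 - v * γ) + v * γ| := by ring_nf
      _ ≤ |E0 - v * γ| + |v * γ| := abs_add_le _ _
      _ ≤ |v| / 4 * γ + |v| * γ := by rw [abs_mul v, abs_of_pos hγ]; linarith
      _ = |v| * (5 / 4) * γ := by ring
      _ ≤ V * γ := mul_le_mul_of_nonneg_right hV hγ.le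
  have hyγ : 0 < y * γ := by positivity
  have hE1 : |E1| ≤ V * (y * γ) := by
    calc |E1| = |(E1 - v * (y * γ)) + v * (y * γ)| := by ring_nf
      _ ≤ |E1 - v * (y * γ)| + |v * (y * γ)| := abs_add_le _ _
      _ ≤ |v| / 4 * (y * γ) + |v| * (y * γ) := by rw [abs_mul v, abs_of_pos hyγ]; linarith
      _ = |v| * (5 / 4) * (y * γ) := by ring
      _ ≤ V * (y * γ) := mul_le_mul_of_nonneg_right hV hyγ.le
  have hδy : 0 ≤ δ * y := by positivity
  -- the three error terms
  have t1 : |2 * q * E0| ≤ 2 * δ * V * (y ^ 2 * γ) := by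
    rw [abs_mul, abs_of_nonneg (by positivity : 0 ≤ 2 * q)]
    calc 2 * q * |E0| ≤ 2 * (δ ^ 2 * y ^ 2) * (V * γ) :=
          mul_le_mul (by linarith) hE0 (abs_nonneg _) (by positivity)
      _ = (δ * δ) * (2 * V * (y ^ 2 * γ)) := by ring
      _ ≤ (δ * 1) * (2 * V * (y ^ 2 * γ)) := by
          apply mul_le_mul_of_nonneg_right _ (by positivity)
          exact mul_le_mul_of_nonneg_left hδ1 hδ.le
      _ = _ := by ring
  have t2 : |E1 + l * E0| ≤ 2 * V * (y * γ) := by
    calc |E1 + l * E0| ≤ |E1| + |l * E0| := abs_add_le _ _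
      _ = |E1| + |l| * |E0| := by rw [abs_mul]
      _ ≤ V * (y * γ) + (δ * y) * (V * γ) :=
          add_le_add hE1 (mul_le_mul hl hE0 (abs_nonneg _) hδy)
      _ = V * (y * γ) + δ * (V * (y * γ)) := by ring
      _ ≤ V * (y * γ) + 1 * (V * (y * γ)) := by
          have : δ * (V * (y * γ)) ≤ 1 * (V * (y * γ)) :=
            mul_le_mul_of_nonneg_right hδ1 (by positivity)
          linarith
      _ = _ := by ring
  have t3 : |l' + l| ≤ 2 * (δ * y) := by
    calc |l' + l| ≤ |l'| + |l| := abs_add_le _ _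
      _ ≤ _ := by linarith
  have t4 : |(E1 + l * E0) * (l' + l)| ≤ 4 * δ * V * (y ^ 2 * γ) := by
    rw [abs_mul]
    calc |E1 + l * E0| * |l' + l| ≤ (2 * V * (y * γ)) * (2 * (δ * y)) :=
          mul_le_mul t2 t3 (abs_nonneg _) (by positivity)
      _ = _ := by ring
  have hK : 0 < y ^ 2 * γ := by positivity
  have m : s * (-2 * E2 + 2 * q * E0 - (E1 + l * E0) * (l' + l)) =
      2 * |v| * (y ^ 2 * γ) + (-2 * (s * (E2 - v * (y ^ 2 * γ))) + s * (2 * q * E0) -
        s * ((E1 + l * E0) * (l' + l))) := by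
    have : 2 * |v| * (y ^ 2 * γ) = -2 * (s * v) * (y ^ 2 * γ) := by rw [hs]; ring
    rw [this]; ring
  rw [m]
  have b1 : |s * (E2 - v * (y ^ 2 * γ))| ≤ |v| / 4 * (y ^ 2 * γ) := by
    rw [abs_mul, hs1, one_mul]; exact h2
  have b2 : |s * (2 * q * E0)| ≤ 2 * δ * V * (y ^ 2 * γ) := by
    rw [abs_mul, hs1, one_mul]; exact t1
  have b3 : |s * ((E1 + l * E0) * (l' + l))| ≤ 4 * δ * V * (y ^ 2 * γ) := by
    rw [abs_mul s, hs1, one_mul]; exact t4
  have c1 := (abs_le.mp b1).2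
  have c2 := (abs_le.mp b2).1
  have c3 := (abs_le.mp b3).2
  have c4 : 6 * δ * V * (y ^ 2 * γ) ≤ |v| / 2 * (y ^ 2 * γ) :=
    mul_le_mul_of_nonneg_right hδV hK.le
  have c5 : 0 < |v| * (y ^ 2 * γ) := by positivity
  linarith

end Lat

/-! TARGET -/

theorem lattice_sign (α c p g : ℝ) (hα : 0 < α) (hc : 0 < c) (hp : 0 < p) (hp1 : p < 1)
    (hg : 0 < g) :
    ∃ s : ℝ, (s = 1 ∨ s = -1) ∧ ∃ X : ℝ, ∀ x, X ≤ x →
      0 < s * (QQ (Glat α c p g) (x + g) - QQ (Glat α c p g) x) := by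
  have hfin := Lat.glat_finite (α := α) (g := g) hc hp hp1
  have hz : ENNReal.ofReal α ≤ Glat α c p g {0} := Lat.glat_zero
  obtain ⟨v, W, d, hv, hW, hd, hlead⟩ := Lat.leading hα hc hp hp1 hg
  obtain ⟨A, B, hAB⟩ := Lat.q_growth hα hc hp hp1 hg
  have hvpos : 0 < |v| := abs_pos.mpr hv
  set V : ℝ := |v| * (5 / 4) with hV
  have hVpos : 0 < V := by positivity
  set δ : ℝ := min 1 (|v| / (12 * V)) with hδ
  have hδpos : 0 < δ := lt_min one_pos (by positivity)
  have hδ1 : δ ≤ 1 := min_le_left _ _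
  have hδV : 6 * δ * V ≤ |v| / 2 := by
    have : δ ≤ |v| / (12 * V) := min_le_right _ _
    rw [le_div_iff₀ (by positivity)] at this
    linarith
  obtain ⟨X1, hX1⟩ := Lat.lin_le_sq A B (δ ^ 2) (by positivity)
  obtain ⟨X2, hX2⟩ := Lat.lin_le_sq (A + B * g) B (δ ^ 2) (by positivity)
  obtain ⟨X3, hX3⟩ := Lat.exp_small W g (|v| / 4) hW hg (by positivity)
  have hs : ∃ s : ℝ, (s = 1 ∨ s = -1) ∧ s * v = -|v| ∧ |s| = 1 := by
    rcases lt_or_gt_of_ne hv with h | h
    · exact ⟨1, Or.inl rfl, by rw [abs_of_neg h]; ring, by norm_num⟩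
    · exact ⟨-1, Or.inr rfl, by rw [abs_of_pos h]; ring, by norm_num⟩
  obtain ⟨s, hs1, hsv, hsa⟩ := hs
  refine ⟨s, hs1, max (max X1 X2) (max X3 (max 2 g)), fun x hx => ?_⟩
  have hx1 : X1 ≤ x := le_trans (le_trans (le_max_left _ _) (le_max_left _ _)) hx
  have hx2 : X2 ≤ x := le_trans (le_trans (le_max_right _ _) (le_max_left _ _)) hx
  have hx3 : X3 ≤ x := le_trans (le_trans (le_max_left _ _) (le_max_right _ _)) hx
  have hx4 : 2 ≤ x := le_trans (le_trans (le_max_left _ _)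
    (le_trans (le_max_right _ _) (le_max_right _ _))) hx
  have hx5 : g ≤ x := le_trans (le_trans (le_max_right _ _)
    (le_trans (le_max_right _ _) (le_max_right _ _))) hx
  have hy1 : 1 ≤ x + d := by linarith
  have hγ : 0 < gauss (x + d) := gauss_pos _
  have hlead' : ∀ k ≤ 2, |Lat.FK α c p g k (x + g) - p * Lat.FK α c p g k x -
      v * Lat.Kk k (x + d)| ≤ |v| / 4 * Lat.Kk k (x + d) := by
    intro k hk
    refine (hlead x hx4 k hk).trans ?_
    exact mul_le_mul_of_nonneg_right (hX3 (x + d) (by linarith))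
      (Lat.Kk_nonneg k _ (by linarith))
  have hf := dens_pos (Glat α c p g) hα hz x
  have hf' := dens_pos (Glat α c p g) hα hz (x + g)
  set f := dens (Glat α c p g) x with hfdef
  set f' := dens (Glat α c p g) (x + g) with hf'def
  have hq0 : 0 ≤ sqm (Glat α c p g) x / f :=
    div_nonneg (sqm_nonneg _ _) hf.le
  have hxd : δ ^ 2 * x ^ 2 ≤ δ ^ 2 * (x + d) ^ 2 := by
    apply mul_le_mul_of_nonneg_left _ (by positivity)
    apply pow_le_pow_left₀ (by linarith)
    linarith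
  have hq : sqm (Glat α c p g) x / f ≤ δ ^ 2 * (x + d) ^ 2 :=
    (hAB x hx5).trans ((hX1 x hx1).trans hxd)
  have hq' : sqm (Glat α c p g) (x + g) / f' ≤ δ ^ 2 * (x + d) ^ 2 := by
    refine (hAB (x + g) (by linarith)).trans (le_trans ?_ ((hX2 x hx2).trans hxd))
    linarith
  have hl : |lam (Glat α c p g) x| ≤ δ * (x + d) := by
    apply abs_le_of_sq_le_sq _ (by positivity)
    rw [mul_pow]
    exact (lam_sq_le_div (Glat α c p g) hα hz x).trans hq
  have hl' : |lam (Glat α c p g) (x + g)| ≤ δ * (x + d) := by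
    apply abs_le_of_sq_le_sq _ (by positivity)
    rw [mul_pow]
    exact (lam_sq_le_div (Glat α c p g) hα hz (x + g)).trans hq'
  have key := Lat.final_ineq v V δ (x + d) (gauss (x + d))
    (f' - p * f)
    (-densD (Glat α c p g) (x + g) + p * densD (Glat α c p g) x)
    (sqm (Glat α c p g) (x + g) - p * sqm (Glat α c p g) x)
    (sqm (Glat α c p g) x / f) (lam (Glat α c p g) x) (lam (Glat α c p g) (x + g))
    hv le_rfl hδpos hδ1 hδV hy1 hγ
    (by
      have := hlead' 0 (by norm_num)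
      rw [← Lat.dens_eq, ← Lat.dens_eq] at this
      unfold Lat.Kk at this
      simpa using this)
    (by
      have := hlead' 1 (by norm_num)
      unfold Lat.Kk at this
      rw [pow_one] at this
      rw [Lat.densD_eq, Lat.densD_eq]
      convert this using 2
      ring)
    (by
      have := hlead' 2 (by norm_num)
      rw [← Lat.sqm_eq, ← Lat.sqm_eq] at this
      exact this)
    hq0 hq hl hl' s hsv hsa
  have e : s * (QQ (Glat α c p g) (x + g) - QQ (Glat α c p g) x) =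
      (s * (-2 * (sqm (Glat α c p g) (x + g) - p * sqm (Glat α c p g) x) +
        2 * (sqm (Glat α c p g) x / f) * (f' - p * f) -
        ((-densD (Glat α c p g) (x + g) + p * densD (Glat α c p g) x) +
          lam (Glat α c p g) x * (f' - p * f)) *
          (lam (Glat α c p g) (x + g) + lam (Glat α c p g) x))) / f' := by
    unfold QQ lam
    rw [← hfdef, ← hf'def]
    field_simp
    ring
  rw [e]
  exact div_pos key hf'


end FisherMin
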