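import Mathlib
import Pool.Agent.H494.FMJ8c

set_option autoImplicit false
open MeasureTheory Set Filter Topology
open scoped ENNReal

namespace FisherMin

/- proved by helper504 (jobs board) -/


theorem hasDerivAt_gauss (u : ℝ) : HasDerivAt gauss (-u * gauss u) u := by
  have h1 : HasDerivAt (fun u : ℝ => -u ^ 2 / 2) (-u) u := by
    have h2 := ((hasDerivAt_pow 2 u).neg).div_const 2
    exact h2.congr_deriv (by norm_num; ring)
  have h3 := (h1.exp).const_mul (Real.sqrt (2 * Real.pi))⁻¹
  exact h3.congr_deriv (by unfold gauss; ring)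

theorem integrable_poly_gauss (R : ℝ → ℝ) (hR : Continuous R) (C : ℝ)
    (hC : ∀ x, |R x| ≤ C * (1 + x ^ 2)) (u : ℝ) : Integrable (fun x => R x * gauss (x - u)) := by
  have hC0 : 0 ≤ C := by
    have h1 := hC 0
    have h2 := abs_nonneg (R 0)
    nlinarith
  have hg1 : Integrable (fun x : ℝ => gauss (x - u)) := integrable_gauss.comp_sub_right u
  have hg2 : Integrable (fun x : ℝ => (x - u) ^ 2 * gauss (x - u)) :=
    integrable_sq_gauss.comp_sub_right u
  have hdom : Integrable (fun x : ℝ => C * (1 + 2 * u ^ 2) * gauss (x - u) +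
      2 * C * ((x - u) ^ 2 * gauss (x - u))) := (hg1.const_mul _).add (hg2.const_mul _)
  refine hdom.mono' ?_ ?_
  · exact (hR.mul (gauss_cont.comp (continuous_id.sub continuous_const))).aestronglyMeasurable
  · refine Filter.Eventually.of_forall (fun x => ?_)
    rw [Real.norm_eq_abs, abs_mul, abs_of_pos (gauss_pos (x - u))]
    have h1 := mul_le_mul_of_nonneg_right (hC x) (gauss_pos (x - u)).le
    have h2 : C * (1 + x ^ 2) ≤ C * (1 + 2 * u ^ 2) + 2 * C * (x - u) ^ 2 := by
      have h3 : x ^ 2 ≤ 2 * u ^ 2 + 2 * (x - u) ^ 2 := by nlinarith [sq_nonneg (x - 2 * u)]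
      nlinarith
    have h3 := mul_le_mul_of_nonneg_right h2 (gauss_pos (x - u)).le
    nlinarith

/-! TARGETS -/

theorem log_mass_nonneg (G : Measure ℝ) [IsFiniteMeasure G] {α : ℝ} (hα : 0 < α)
    (hG : ENNReal.ofReal α ≤ G {0}) : 0 ≤ 2 * Real.log (G.real univ / α) := by
  have h1 := mass_lower G hα hG
  have h2 : 1 ≤ G.real univ / α := by
    rw [le_div_iff₀ hα]; linarith
  have h3 := Real.log_nonneg h2
  linarith

theorem QQ_bound (G : Measure ℝ) [IsFiniteMeasure G] {α : ℝ} (hα : 0 < α)
    (hG : ENNReal.ofReal α ≤ G {0}) : ∃ C : ℝ, ∀ x, |QQ G x| ≤ C * (1 + x ^ 2) := by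
  set K : ℝ := 2 * Real.log (G.real univ / α) with hK
  have hK0 : 0 ≤ K := log_mass_nonneg G hα hG
  refine ⟨3 * K + 3, fun x => ?_⟩
  have hd := dens_pos G hα hG x
  have h1 := sqm_div_le G hα hG x
  have h2 := lam_sq_le G hα hG x
  rw [← hK] at h1 h2
  have h3 : QQ G x = -2 * (sqm G x / dens G x) + 2 + lam G x ^ 2 := by
    unfold QQ
    field_simp
    ring
  have h4 : 0 ≤ sqm G x / dens G x := div_nonneg (sqm_nonneg G x) hd.le
  have h5 : 0 ≤ lam G x ^ 2 := sq_nonneg _
  rw [h3, abs_le]
  constructor <;> nlinarith [sq_nonneg x, mul_nonneg hK0 (sq_nonneg x)]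

theorem QQ_cont (G : Measure ℝ) [IsFiniteMeasure G] {α : ℝ} (hα : 0 < α)
    (hG : ENNReal.ofReal α ≤ G {0}) : Continuous (QQ G) := by
  unfold QQ
  exact ((continuous_const.mul ((sqm_cont G).sub (dens_cont G))).div (dens_cont G)
    (fun x => (dens_pos G hα hG x).ne')).add ((lam_cont G hα hG).pow 2)

/-- integration by parts -/
theorem KK_eq (G : Measure ℝ) [IsFiniteMeasure G] {α : ℝ} (hα : 0 < α)
    (hG : ENNReal.ofReal α ≤ G {0}) (u : ℝ) :
    KK G u = ∫ x, QQ G x * gauss (x - u) := by
  set K : ℝ := 2 * Real.log (G.real univ / α) with hK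
  have hK0 : 0 ≤ K := log_mass_nonneg G hα hG
  have hlc := lam_cont G hα hG
  have hder : ∀ x, HasDerivAt (lam G) ((sqm G x - dens G x) / dens G x - lam G x ^ 2) x := by
    intro x
    have hd := dens_pos G hα hG x
    have h1 := (hasDerivAt_densD G x).div (hasDerivAt_dens G x) hd.ne'
    exact h1.congr_deriv (by unfold lam; field_simp)
  have hv : ∀ x, HasDerivAt (fun x => gauss (x - u)) (-(x - u) * gauss (x - u)) x := by
    intro x
    have h1 := (hasDerivAt_gauss (x - u)).comp x ((hasDerivAt_id' x).sub_const u)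
    exact h1.congr_deriv (by ring)
  have hd0 : ∀ x, dens G x ≠ 0 := fun x => (dens_pos G hα hG x).ne'
  have hD'c : Continuous (fun x => (sqm G x - dens G x) / dens G x - lam G x ^ 2) :=
    (((sqm_cont G).sub (dens_cont G)).div (dens_cont G) hd0).sub (hlc.pow 2)
  have i1 : Integrable (lam G * fun x => -(x - u) * gauss (x - u)) := by
    have h1 := integrable_poly_gauss (fun x => lam G x * (-(x - u)))
      (hlc.mul (by fun_prop)) (3 + K + 2 * u ^ 2) (fun x => ?_) u
    · refine h1.congr (Filter.Eventually.of_forall (fun x => ?_))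
      simp only [Pi.mul_apply]
      ring
    · have h2 := lam_sq_le G hα hG x
      rw [← hK] at h2
      rw [abs_le]
      constructor <;> nlinarith [sq_nonneg (lam G x - (x - u)), sq_nonneg (lam G x + (x - u)),
        sq_nonneg (x + u), sq_nonneg (x - u), mul_nonneg hK0 (sq_nonneg x), sq_nonneg (u * x),
        sq_nonneg x]
  have i2 : Integrable ((fun x => (sqm G x - dens G x) / dens G x - lam G x ^ 2) *
      fun x => gauss (x - u)) := by
    refine integrable_poly_gauss _ hD'c (2 * K + 3) (fun x => ?_) u
    have h1 := sqm_div_le G hα hG x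
    have h2 := lam_sq_le G hα hG x
    rw [← hK] at h1 h2
    have hd := dens_pos G hα hG x
    have h4 : 0 ≤ sqm G x / dens G x := div_nonneg (sqm_nonneg G x) hd.le
    have h5 : 0 ≤ lam G x ^ 2 := sq_nonneg _
    have h6 : (sqm G x - dens G x) / dens G x = sqm G x / dens G x - 1 := by
      field_simp
    rw [h6, abs_le]
    constructor <;> nlinarith [sq_nonneg x, mul_nonneg hK0 (sq_nonneg x)]
  have i3 : Integrable (lam G * fun x => gauss (x - u)) := by
    refine integrable_poly_gauss _ hlc (1 + K) (fun x => ?_) u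
    have h2 := lam_sq_le G hα hG x
    rw [← hK] at h2
    rw [abs_le]
    constructor <;> nlinarith [sq_nonneg (lam G x - 1), sq_nonneg (lam G x + 1), sq_nonneg x,
      mul_nonneg hK0 (sq_nonneg x)]
  have hparts := integral_mul_deriv_eq_deriv_mul_of_integrable (u := lam G)
    (v := fun x => gauss (x - u)) (fun x _ => hder x) (fun x _ => hv x) i1 i2 i3
  have i4 : Integrable (fun x => lam G x ^ 2 * gauss (x - u)) := by
    refine integrable_poly_gauss (fun x => lam G x ^ 2) (hlc.pow 2) (1 + K) (fun x => ?_) u
    have h2 := lam_sq_le G hα hG x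
    rw [← hK] at h2
    rw [abs_of_nonneg (sq_nonneg _)]
    nlinarith [sq_nonneg x, mul_nonneg hK0 (sq_nonneg x)]
  have e1 : KK G u = 2 * (∫ x, lam G x * (-(x - u) * gauss (x - u))) -
      ∫ x, lam G x ^ 2 * gauss (x - u) := by
    unfold KK
    have i1' : Integrable (fun x => 2 * (lam G x * (-(x - u) * gauss (x - u)))) := i1.const_mul 2
    rw [← integral_const_mul, ← integral_sub i1' i4]
    refine integral_congr_ae (Filter.Eventually.of_forall (fun x => ?_))
    simp only
    ring
  rw [e1, hparts]
  have e2 : ∫ x, QQ G x * gauss (x - u) =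
      (-2) * (∫ x, ((sqm G x - dens G x) / dens G x - lam G x ^ 2) * gauss (x - u)) -
      ∫ x, lam G x ^ 2 * gauss (x - u) := by
    have i2' : Integrable (fun x => (-2) * (((sqm G x - dens G x) / dens G x - lam G x ^ 2) *
      gauss (x - u))) := i2.const_mul (-2)
    rw [← integral_const_mul, ← integral_sub i2' i4]
    refine integral_congr_ae (Filter.Eventually.of_forall (fun x => ?_))
    simp only
    unfold QQ
    ring
  rw [e2]
  ring

/-- a function that is eventually positive cannot have all these moments equal to zero -/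
theorem moment_sign (R : ℝ → ℝ) (hR : Continuous R) (C : ℝ) (hC : ∀ x, |R x| ≤ C * (1 + x ^ 2))
    (X : ℝ) (hX : ∀ x, X ≤ x → 0 < R x) (g : ℝ) (hg : 0 < g)
    (h : ∀ j : ℕ, 1 ≤ j → ∫ x, R x * gauss (x - j * g) = 0) : False := by
  set F : ℝ → ℝ := fun x => R x * gauss x with hF
  have hFc : Continuous F := hR.mul gauss_cont
  have hFi : Integrable F := by
    have := integrable_poly_gauss R hR C hC 0
    simpa using this
  set m : ℝ := ∫ x in Ioc (X + 1) (X + 2), F x with hm
  have hmpos : 0 < m := by
    have h1 : 0 < ∫ x in (X + 1)..(X + 2), F x := by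
      apply intervalIntegral.intervalIntegral_pos_of_pos_on
      · exact hFc.intervalIntegrable _ _
      · intro x hx
        exact mul_pos (hX x (by linarith [hx.1])) (gauss_pos x)
      · linarith
    rwa [intervalIntegral.integral_of_le (by linarith)] at h1
  set I : ℝ := ∫ x, |F x| with hI
  have key : ∀ j : ℕ, 1 ≤ j → Real.exp (j * g) * m ≤ I := by
    intro j hj
    set c : ℝ := j * g with hc
    have hc0 : 0 ≤ c := by positivity
    have hsh : ∀ x, R x * gauss (x - c) * Real.exp (c ^ 2 / 2) = F x * Real.exp (c * x) := by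
      intro x
      rw [gauss_shift, hF]
      simp only
      rw [show R x * (gauss x * Real.exp (x * c - c ^ 2 / 2)) * Real.exp (c ^ 2 / 2) =
        R x * gauss x * (Real.exp (x * c - c ^ 2 / 2) * Real.exp (c ^ 2 / 2)) by ring,
        ← Real.exp_add]
      congr 2
      ring
    have hhi : Integrable (fun x => F x * Real.exp (c * x)) := by
      have h1 := (integrable_poly_gauss R hR C hC c).mul_const (Real.exp (c ^ 2 / 2))
      refine h1.congr (Filter.Eventually.of_forall (fun x => ?_))
      exact hsh x
    have hzero : ∫ x, F x * Real.exp (c * x) = 0 := by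
      have h1 : ∫ x, F x * Real.exp (c * x) =
          (∫ x, R x * gauss (x - c)) * Real.exp (c ^ 2 / 2) := by
        rw [← integral_mul_const]
        refine integral_congr_ae (Filter.Eventually.of_forall (fun x => ?_))
        exact (hsh x).symm
      rw [h1, h j hj, zero_mul]
    have hsplit := integral_add_compl (μ := volume) (s := Iio X) measurableSet_Iio hhi
    rw [hzero, compl_Iio] at hsplit
    have hright : Real.exp (c * (X + 1)) * m ≤ ∫ x in Ici X, F x * Real.exp (c * x) := by
      have h1 : ∫ x in Ioc (X + 1) (X + 2), F x * Real.exp (c * x) ≤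
          ∫ x in Ici X, F x * Real.exp (c * x) := by
        apply setIntegral_mono_set hhi.integrableOn
        · rw [Filter.EventuallyLE, ae_restrict_iff' measurableSet_Ici]
          refine Filter.Eventually.of_forall (fun x hx => ?_)
          have := mul_pos (hX x hx) (gauss_pos x)
          exact mul_nonneg this.le (Real.exp_pos _).le
        · have hsub : Ioc (X + 1) (X + 2) ⊆ Ici X := by
            intro x hx
            rw [mem_Ici]
            linarith [hx.1]
          exact Filter.Eventually.of_forall (fun x hx => hsub hx)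
      refine le_trans ?_ h1
      rw [hm, ← integral_const_mul]
      apply setIntegral_mono_on (hFi.integrableOn.const_mul _) hhi.integrableOn measurableSet_Ioc
      intro x hx
      have h2 := mul_pos (hX x (by linarith [hx.1])) (gauss_pos x)
      have h3 : Real.exp (c * (X + 1)) ≤ Real.exp (c * x) := by
        apply Real.exp_le_exp.mpr
        apply mul_le_mul_of_nonneg_left _ hc0
        exact hx.1.le
      have h4 : 0 < F x := h2
      nlinarith
    have hleft : -(Real.exp (c * X) * I) ≤ ∫ x in Iio X, F x * Real.exp (c * x) := by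
      have h1 : ∫ x in Iio X, (-(Real.exp (c * X))) * |F x| ≤
          ∫ x in Iio X, F x * Real.exp (c * x) := by
        apply setIntegral_mono_on (hFi.abs.integrableOn.const_mul _) hhi.integrableOn
          measurableSet_Iio
        intro x hx
        have h3 : Real.exp (c * x) ≤ Real.exp (c * X) := by
          apply Real.exp_le_exp.mpr
          apply mul_le_mul_of_nonneg_left _ hc0
          exact (le_of_lt hx)
        have h4 : -|F x| ≤ F x := neg_abs_le _
        have h5 : 0 < Real.exp (c * x) := Real.exp_pos _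
        have h6 : 0 ≤ |F x| := abs_nonneg _
        nlinarith
      refine le_trans ?_ h1
      rw [integral_const_mul]
      have h2 : ∫ x in Iio X, |F x| ≤ I := by
        rw [hI]
        exact setIntegral_le_integral hFi.abs (Filter.Eventually.of_forall (fun x => abs_nonneg _))
      have h3 : 0 < Real.exp (c * X) := Real.exp_pos _
      nlinarith
    have h1 : Real.exp (c * (X + 1)) * m ≤ Real.exp (c * X) * I := by linarith
    have h2 : Real.exp (c * (X + 1)) = Real.exp (c * X) * Real.exp c := by
      rw [← Real.exp_add]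
      congr 1
      ring
    rw [h2, mul_assoc] at h1
    exact le_of_mul_le_mul_left h1 (Real.exp_pos _)
  obtain ⟨j, hj⟩ := exists_nat_gt (I / (m * g))
  have h1 := key (j + 1) (by omega)
  have h2 : I / (m * g) < (j + 1 : ℝ) := by linarith
  rw [div_lt_iff₀ (by positivity)] at h2
  have h3 := Real.add_one_le_exp (((j + 1 : ℕ) : ℝ) * g)
  push_cast at h1 h3
  nlinarith

end FisherMin
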