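import Mathlib

set_option autoImplicit false
open MeasureTheory Set Filter Topology
open scoped ENNReal

namespace FisherMin

lemma enum_set (A : Set ℝ) (hpos : ∀ x ∈ A, 0 < x) (hfin : ∀ R : ℝ, (A ∩ Iic R).Finite)
    (hunb : ∀ R : ℝ, ∃ x ∈ A, R < x) :
    ∃ a : ℕ → ℝ, StrictMono a ∧ Tendsto a atTop atTop ∧ Set.range a = A := by
  have step : ∀ x : ℝ, ∃ y, y ∈ A ∧ x < y ∧ ∀ z ∈ A, x < z → y ≤ z := by
    intro x
    obtain ⟨r, hr, hxr⟩ := hunb x
    have hf : (A ∩ Ioc x r).Finite := (hfin r).subset (by
      intro y hy; exact ⟨hy.1, hy.2.2⟩)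
    obtain ⟨y, hy, hy'⟩ := hf.exists_minimal (s := A ∩ Ioc x r) ⟨r, hr, hxr, le_rfl⟩ |>.imp
      (fun y hy => (⟨hy.1, hy⟩ : y ∈ A ∩ Ioc x r ∧ Minimal (· ∈ A ∩ Ioc x r) y))
    refine ⟨y, hy.1, hy.2.1, ?_⟩
    intro z hz hxz
    by_contra hlt
    push Not at hlt
    have hz' : z ∈ A ∩ Ioc x r := ⟨hz, hxz, hlt.le.trans hy.2.2⟩
    exact absurd (hy'.2 hz' hlt.le) (not_le.2 hlt)
  choose nx h1 h2 h3 using step
  let a : ℕ → ℝ := fun n => Nat.rec (nx 0) (fun _ x => nx x) n
  have a0 : a 0 = nx 0 := rfl
  have aS : ∀ n, a (n + 1) = nx (a n) := fun n => rfl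
  have hmem : ∀ n, a n ∈ A := by
    intro n
    cases n with
    | zero => exact h1 0
    | succ n => exact h1 _
  have hmono : StrictMono a := strictMono_nat_of_lt_succ (fun n => by rw [aS]; exact h2 _)
  have hunbd : ∀ R : ℝ, ∃ n, R < a n := by
    intro R
    by_contra hcon
    push Not at hcon
    have : Set.range a ⊆ A ∩ Iic R := by
      rintro _ ⟨n, rfl⟩
      exact ⟨hmem n, hcon n⟩
    exact (Set.infinite_range_of_injective hmono.injective) ((hfin R).subset this)
  refine ⟨a, hmono, ?_, ?_⟩
  · apply tendsto_atTop_atTop_of_monotone hmono.monotone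
    intro R
    obtain ⟨n, hn⟩ := hunbd R
    exact ⟨n, hn.le⟩
  · apply Set.Subset.antisymm
    · rintro _ ⟨n, rfl⟩
      exact hmem n
    · intro y hy
      by_contra hcon
      have : ∀ n, a n < y := by
        intro n
        induction n with
        | zero =>
          refine lt_of_le_of_ne (h3 0 y hy (hpos y hy)) ?_
          intro h; exact hcon ⟨0, h⟩
        | succ n ih =>
          refine lt_of_le_of_ne (h3 _ y hy ih) ?_
          intro h; exact hcon ⟨n + 1, h⟩
      obtain ⟨n, hn⟩ := hunbd y
      exact absurd (this n) (not_lt.2 hn.le)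

/-- a symmetric finite measure carried by a locally finite set, with unbounded support, is a
step function: atoms at `0` and at `± a_j`, `0 < a_0 < a_1 < ... → ∞` -/
theorem enumerate_atoms (G : Measure ℝ) [IsFiniteMeasure G] (hsym : G.map (fun u => -u) = G)
    (Z : Set ℝ) (hZ : ∀ R : ℝ, (Z ∩ Icc (-R) R).Finite) (hGZ : G Zᶜ = 0)
    (hunb : ∀ R : ℝ, G (Ioi R) ≠ 0) :
    ∃ (a w : ℕ → ℝ), 0 < a 0 ∧ StrictMono a ∧ Tendsto a atTop atTop ∧ (∀ j, 0 < w j) ∧
      G = G {0} • Measure.dirac 0 + Measure.sum (fun j =>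
        ENNReal.ofReal (w j) • (Measure.dirac (a j) + Measure.dirac (-(a j)))) := by
  have hZc : Z.Countable := by
    have : Z = ⋃ n : ℕ, Z ∩ Icc (-(n : ℝ)) n := by
      ext x
      simp only [mem_iUnion, mem_inter_iff, mem_Icc, exists_and_left]
      constructor
      · intro hx
        obtain ⟨n, hn⟩ := exists_nat_ge |x|
        exact ⟨hx, n, abs_le.1 hn⟩
      · exact fun h => h.1
    rw [this]
    exact countable_iUnion (fun n => (hZ n).countable)
  have hmemZ : ∀ x, G {x} ≠ 0 → x ∈ Z := by
    intro x hx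
    by_contra hxZ
    apply hx
    refine measure_mono_null ?_ hGZ
    rintro y rfl
    exact hxZ
  have hsing : ∀ x, G {-x} = G {x} := by
    intro x
    conv_rhs => rw [← hsym]
    rw [Measure.map_apply measurable_neg (measurableSet_singleton x)]
    congr 1
    ext y
    simp [neg_eq_iff_eq_neg]
  -- sets missing all atoms are null
  have hnull : ∀ s : Set ℝ, (∀ x ∈ s, G {x} = 0) → G s = 0 := by
    intro s hs
    have h1 : G (s ∩ Z) = 0 := by
      have hc : (s ∩ Z).Countable := hZc.mono inter_subset_right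
      rw [← biUnion_of_singleton (s ∩ Z)]
      rw [measure_biUnion_null_iff hc]
      intro x hx
      exact hs x hx.1
    refine le_antisymm ?_ bot_le
    calc G s ≤ G ((s ∩ Z) ∪ Zᶜ) := measure_mono (by
            intro x hx
            by_cases hxZ : x ∈ Z
            · exact Or.inl ⟨hx, hxZ⟩
            · exact Or.inr hxZ)
      _ ≤ G (s ∩ Z) + G Zᶜ := measure_union_le _ _
      _ = 0 := by rw [h1, hGZ, add_zero]
  let A : Set ℝ := {x | 0 < x ∧ G {x} ≠ 0}
  obtain ⟨a, hmono, htend, hrange⟩ := enum_set A (fun x hx => hx.1)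
    (by
      intro R
      refine (hZ R).subset ?_
      rintro x ⟨hx, hxR⟩
      refine ⟨hmemZ x hx.2, ?_, hxR⟩
      have h1 : 0 < x := hx.1
      have h2 : x ≤ R := hxR
      linarith)
    (by
      intro R
      by_contra hcon
      push Not at hcon
      apply hunb (max R 0)
      apply hnull
      intro x hx
      by_contra hx0
      have hx1 : max R 0 < x := hx
      have : x ∈ A := ⟨lt_of_le_of_lt (le_max_right _ _) hx1, hx0⟩
      have := hcon x this
      exact absurd (lt_of_le_of_lt (le_max_left R 0) hx1) (not_lt.2 this))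
  have hA : ∀ j, a j ∈ A := fun j => hrange ▸ mem_range_self j
  have hapos : ∀ j, 0 < a j := fun j => (hA j).1
  have hw : ∀ j, ENNReal.ofReal (G {a j}).toReal = G {a j} := fun j =>
    ENNReal.ofReal_toReal (measure_ne_top G _)
  refine ⟨a, fun j => (G {a j}).toReal, hapos 0, hmono, htend, ?_, ?_⟩
  · intro j
    exact ENNReal.toReal_pos (hA j).2 (measure_ne_top G _)
  · ext s hs
    simp only [Measure.coe_add, Pi.add_apply, Measure.smul_apply, smul_eq_mul,
      Measure.sum_apply _ hs, hw]
    -- dirac masses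
    have hd : ∀ x, G {x} * Measure.dirac x s = G (s ∩ {x}) := by
      intro x
      rw [Measure.dirac_apply' x hs]
      by_cases hx : x ∈ s
      · rw [indicator_of_mem hx, inter_eq_self_of_subset_right (singleton_subset_iff.2 hx)]
        simp
      · rw [indicator_of_notMem hx, inter_singleton_eq_empty.2 hx]
        simp
    have hd2 : ∀ j, G {a j} * (Measure.dirac (a j) s + Measure.dirac (-(a j)) s)
        = G (s ∩ {a j}) + G (s ∩ {-(a j)}) := by
      intro j
      rw [mul_add, hd, ← hsing (a j), hd]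
    simp only [hd2]
    rw [ENNReal.tsum_add, hd]
    have hm : ∀ x, MeasurableSet (s ∩ {x}) := fun x => hs.inter (measurableSet_singleton x)
    have e1 : ∑' j, G (s ∩ {a j}) = G (⋃ j, s ∩ {a j}) := by
      rw [measure_iUnion _ (fun j => hm _)]
      intro i j hij
      refine Set.disjoint_left.2 ?_
      rintro x ⟨_, hx⟩ ⟨_, hy⟩
      have : a i = a j := (mem_singleton_iff.1 hx).symm.trans (mem_singleton_iff.1 hy)
      exact hij (hmono.injective this)
    have e2 : ∑' j, G (s ∩ {-(a j)}) = G (⋃ j, s ∩ {-(a j)}) := by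
      rw [measure_iUnion _ (fun j => hm _)]
      intro i j hij
      refine Set.disjoint_left.2 ?_
      rintro x ⟨_, hx⟩ ⟨_, hy⟩
      have : -(a i) = -(a j) := (mem_singleton_iff.1 hx).symm.trans (mem_singleton_iff.1 hy)
      exact hij (hmono.injective (neg_injective this))
    rw [e1, e2, ← measure_union _ (MeasurableSet.iUnion fun j => hm _), ← measure_union _ ((MeasurableSet.iUnion fun j => hm _).union (MeasurableSet.iUnion fun j => hm _))]
    · -- G s = G (s ∩ C)
      set T : Set ℝ := (s ∩ {0}) ∪ ((⋃ j, s ∩ {a j}) ∪ ⋃ j, s ∩ {-(a j)}) with hT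
      have hTs : T ⊆ s := by
        rintro x (hx | hx | hx)
        · exact hx.1
        · obtain ⟨j, hj⟩ := mem_iUnion.1 hx; exact hj.1
        · obtain ⟨j, hj⟩ := mem_iUnion.1 hx; exact hj.1
      have hTm : MeasurableSet T := (hm 0).union ((MeasurableSet.iUnion fun j => hm _).union (MeasurableSet.iUnion fun j => hm _))
      have hdiff : G (s \ T) = 0 := by
        apply hnull
        rintro x ⟨hxs, hxT⟩
        by_contra hx0
        apply hxT
        rcases lt_trichotomy x 0 with hneg | h0 | hpos
        · have : -x ∈ A := ⟨by linarith, by rw [hsing]; exact hx0⟩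
          rw [← hrange] at this
          obtain ⟨j, hj⟩ := this
          right; right
          refine mem_iUnion.2 ⟨j, hxs, ?_⟩
          rw [mem_singleton_iff, hj, neg_neg]
        · left; exact ⟨hxs, h0⟩
        · have : x ∈ A := ⟨hpos, hx0⟩
          rw [← hrange] at this
          obtain ⟨j, hj⟩ := this
          right; left
          exact mem_iUnion.2 ⟨j, hxs, hj.symm⟩
      have := measure_diff_add_inter (μ := G) s hTm
      rw [hdiff, zero_add, inter_eq_self_of_subset_right hTs] at this
      exact this.symm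
    · refine Set.disjoint_left.2 ?_
      rintro x ⟨_, hx⟩ hy
      rw [mem_singleton_iff] at hx
      subst hx
      rcases hy with hy | hy
      · obtain ⟨j, hj⟩ := mem_iUnion.1 hy
        have := mem_singleton_iff.1 hj.2
        exact (hapos j).ne this
      · obtain ⟨j, hj⟩ := mem_iUnion.1 hy
        have := mem_singleton_iff.1 hj.2
        have := hapos j
        linarith
    · refine Set.disjoint_left.2 ?_
      intro x hx hy
      obtain ⟨j, hj⟩ := mem_iUnion.1 hx
      obtain ⟨k, hk⟩ := mem_iUnion.1 hy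
      have h1 := mem_singleton_iff.1 hj.2
      have h2 := mem_singleton_iff.1 hk.2
      have := hapos j
      have := hapos k
      linarith

end FisherMin

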