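import Mathlib
import Pool.Agent.H494.FM3
import Pool.Agent.H494.FMJ2
import Pool.Agent.H494.FMJ4
import Pool.Agent.H494.FMJ5
import Pool.Agent.H494.FMJ6
import Pool.Agent.H494.FMJ7
import Pool.Agent.H494.FMJ8c
import Pool.Agent.H494.FMJ8a
import Pool.Agent.H494.FMJ9
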