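import Mathlib
import Pool.Agent.H494.FMGiven

set_option autoImplicit false
open MeasureTheory Set Filter Topology
open scoped ENNReal

namespace FisherMin

/-- the relaxed class: symmetric sub-probability measures with an atom of mass at least `α` at 0 -/
def Relaxed (α : ℝ) (G : Measure ℝ) : Prop :=
  G univ ≤ 1 ∧ G.map (fun u => -u) = G ∧ ENNReal.ofReal α ≤ G {0}

theorem Relaxed.fin {α : ℝ} {G : Measure ℝ} (h : Relaxed α G) : IsFiniteMeasure G :=
  ⟨lt_of_le_of_lt h.1 ENNReal.one_lt_top⟩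

theorem relaxed_mix {α : ℝ} {G G' : Measure ℝ} (h : Relaxed α G) (h' : Relaxed α G') (t : ℝ)
    (ht0 : 0 ≤ t) (ht1 : t ≤ 1) :
    Relaxed α (ENNReal.ofReal (1 - t) • G + ENNReal.ofReal t • G') := by
  have hs : ENNReal.ofReal (1 - t) + ENNReal.ofReal t = 1 := by
    rw [← ENNReal.ofReal_add (by linarith) ht0]; simp
  refine ⟨?_, ?_, ?_⟩
  · simp only [Measure.coe_add, Measure.coe_smul, Pi.add_apply, Pi.smul_apply, smul_eq_mul]
    calc ENNReal.ofReal (1 - t) * G univ + ENNReal.ofReal t * G' univ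
        ≤ ENNReal.ofReal (1 - t) * 1 + ENNReal.ofReal t * 1 := by gcongr; exacts [h.1, h'.1]
      _ = 1 := by rw [mul_one, mul_one, hs]
  · rw [Measure.map_add _ _ (by fun_prop), Measure.map_smul, Measure.map_smul, h.2.1, h'.2.1]
  · simp only [Measure.coe_add, Measure.coe_smul, Pi.add_apply, Pi.smul_apply, smul_eq_mul]
    calc ENNReal.ofReal α = ENNReal.ofReal (1 - t) * ENNReal.ofReal α + ENNReal.ofReal t * ENNReal.ofReal α := by
          rw [← add_mul, hs, one_mul]
      _ ≤ _ := by gcongr; exacts [h.2.2, h'.2.2]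

theorem relaxed_three (α b : ℝ) (h0 : 0 < α) (hb : 0 ≤ b) (hab : α + 2 * b ≤ 1) (u : ℝ) :
    Relaxed α (ENNReal.ofReal α • Measure.dirac 0 +
      ENNReal.ofReal b • (Measure.dirac u + Measure.dirac (-u))) := by
  refine ⟨?_, ?_, ?_⟩
  · simp only [Measure.coe_add, Measure.coe_smul, Pi.add_apply, Pi.smul_apply, smul_eq_mul,
      measure_univ, mul_one]
    rw [show (1 : ℝ≥0∞) + 1 = ENNReal.ofReal 2 by norm_num, ← ENNReal.ofReal_mul hb,
      ← ENNReal.ofReal_add h0.le (by positivity)]
    rw [ENNReal.ofReal_le_one]; linarith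
  · rw [Measure.map_add _ _ (by fun_prop), Measure.map_smul, Measure.map_smul,
      Measure.map_add _ _ (by fun_prop), Measure.map_dirac' measurable_neg,
      Measure.map_dirac' measurable_neg, Measure.map_dirac' measurable_neg, neg_zero, neg_neg, add_comm (Measure.dirac (-u))]
  · simp only [Measure.coe_add, Measure.coe_smul, Pi.add_apply, Pi.smul_apply, smul_eq_mul]
    rw [Measure.dirac_apply_of_mem (mem_singleton 0), mul_one]
    exact le_self_add

theorem three_supp (α b u : ℝ) : (ENNReal.ofReal α • Measure.dirac (0 : ℝ) +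
      ENNReal.ofReal b • (Measure.dirac u + Measure.dirac (-u))) (Icc (-|u|) |u|)ᶜ = 0 := by
  simp only [Measure.coe_add, Measure.coe_smul, Pi.add_apply, Pi.smul_apply, smul_eq_mul]
  have hm : MeasurableSet (Icc (-|u|) |u|)ᶜ := measurableSet_Icc.compl
  rw [Measure.dirac_apply' _ hm, Measure.dirac_apply' _ hm, Measure.dirac_apply' _ hm]
  have h0 : (0 : ℝ) ∈ Icc (-|u|) |u| := ⟨by simp, abs_nonneg u⟩
  have h1 : u ∈ Icc (-|u|) |u| := ⟨neg_abs_le u, le_abs_self u⟩
  have h2 : -u ∈ Icc (-|u|) |u| := ⟨by linarith [le_abs_self u], neg_le_abs u⟩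
  simp [h0, h1, h2]

theorem FI_nonneg (G : Measure ℝ) : 0 ≤ FI G := by
  unfold FI
  refine integral_nonneg fun x => ?_
  have : 0 ≤ dens G x := integral_nonneg fun u => (gauss_pos _).le
  simp only [Pi.zero_apply]; positivity

theorem FI_pos (G : Measure ℝ) [IsFiniteMeasure G] {α : ℝ} (hα : 0 < α)
    (hG : ENNReal.ofReal α ≤ G {0}) : 0 < FI G := by
  refine lt_of_le_of_ne (FI_nonneg G) (fun h => ?_)
  have hi := FI_integrable G hα hG
  have hn : ∀ x, 0 ≤ densD G x ^ 2 / dens G x := fun x => by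
    have := dens_pos G hα hG x; positivity
  unfold FI at h
  have h2 := (integral_eq_zero_iff_of_nonneg (fun x => hn x) hi).mp h.symm
  have hc : Continuous (fun x => densD G x ^ 2 / dens G x) :=
    ((densD_cont G).pow 2).div (dens_cont G) fun x => (dens_pos G hα hG x).ne'
  have h3 : (fun x => densD G x ^ 2 / dens G x) = fun _ => 0 :=
    (hc.ae_eq_iff_eq volume continuous_const).mp h2
  have h4 : ∀ x, densD G x = 0 := fun x => by
    have := congrFun h3 x
    simp only [div_eq_zero_iff, pow_eq_zero_iff, ne_eq, OfNat.ofNat_ne_zero, not_false_eq_true] at this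
    rcases this with h | h
    · exact h
    · exact absurd h (dens_pos G hα hG x).ne'
  have h5 : ∀ x, dens G x = dens G 0 := fun x =>
    is_const_of_deriv_eq_zero (fun y => (hasDerivAt_dens G y).differentiableAt)
      (fun y => by rw [(hasDerivAt_dens G y).deriv, h4]) x 0
  have h6 := integrable_dens G
  have h7 : dens G = fun _ => dens G 0 := funext h5
  rw [h7, integrable_const_iff] at h6
  rcases h6 with h | h
  · exact (dens_pos G hα hG 0).ne' h
  · have := h.measure_univ_lt_top
    simp at this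

theorem lam_quad (G : Measure ℝ) [IsFiniteMeasure G] {α : ℝ} (hα : 0 < α)
    (hG : ENNReal.ofReal α ≤ G {0}) :
    ∀ x, lam G x ^ 2 ≤ (1 + |2 * Real.log (G.real univ / α)|) * (1 + x ^ 2) := by
  intro x
  have h := lam_sq_le G hα hG x
  set L := 2 * Real.log (G.real univ / α)
  nlinarith [le_abs_self L, abs_nonneg L, sq_nonneg x, mul_nonneg (abs_nonneg L) (sq_nonneg x)]

/-- the optimality conditions -/
theorem core (α : ℝ) (h0 : 0 < α) (h1 : α < 1) (G : Measure ℝ) (hr : Relaxed α G)
    (hmin : ∀ G', Relaxed α G' → FI G ≤ FI G') :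
    ∃ κ : ℝ, κ < 0 ∧ (∀ u, κ ≤ KK G u) ∧ κ < KK G 0 ∧ G univ = 1 ∧ G {0} = ENNReal.ofReal α ∧
      G {u | u ≠ 0 ∧ KK G u ≠ κ} = 0 := by
  have hfin := hr.fin
  have hG := hr.2.2
  set I := FI G with hI
  have hIpos : 0 < I := FI_pos G h0 hG
  have test : ∀ b : ℝ, 0 ≤ b → α + 2 * b ≤ 1 → ∀ u : ℝ, I ≤ α * KK G 0 + b * (KK G u + KK G (-u)) := by
    intro b hb hab u
    have hr1 := relaxed_three α b h0 hb hab u
    have hfin1 := hr1.fin
    have := first_order G _ h0 hG hr1.2.2 |u| (three_supp α b u) (fun t ht0 ht1 =>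
      hmin _ (relaxed_mix hr hr1 t ht0.le ht1.le))
    rw [var_dirac G h0 hG α b h0.le hb u] at this
    exact this
  set K0 := KK G 0 with hK0
  have t1 : I ≤ α * K0 := by
    have := test 0 le_rfl (by linarith) 0
    linarith
  have t2 : ∀ u, I ≤ α * K0 + (1 - α) * KK G u := by
    intro u
    have := test ((1 - α) / 2) (by linarith) (by linarith) u
    rw [KK_even G hr.2.1] at this
    linarith
  set κ := (I - α * K0) / (1 - α) with hκ
  have h1α : 0 < 1 - α := by linarith
  have hκ0 : κ ≤ 0 := div_nonpos_of_nonpos_of_nonneg (by linarith) h1α.le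
  have hκI : I = α * K0 + (1 - α) * κ := by rw [hκ]; field_simp; ring
  have hKκ : ∀ u, κ ≤ KK G u := by
    intro u
    rw [hκ, div_le_iff₀ h1α]
    linarith [t2 u]
  obtain ⟨hKi, hKe⟩ := KK_int G h0 hG
  rw [← hI] at hKe
  have hmass : G.real univ ≤ 1 := by
    unfold Measure.real
    exact ENNReal.toReal_le_of_le_ofReal (by norm_num) (by simpa using hr.1)
  have hNi : Integrable (fun u => KK G u - κ) G := hKi.sub (integrable_const _)
  have hNe : ∫ u, (KK G u - κ) ∂G = α * (K0 - κ) + κ * (1 - G.real univ) := by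
    rw [integral_sub hKi (integrable_const _), hKe, integral_const, smul_eq_mul]
    rw [hκI]; ring
  have ha0 : α ≤ G.real {0} := by
    unfold Measure.real
    rw [← ENNReal.ofReal_le_iff_le_toReal (by finiteness)]
    exact hG
  have hsplit : ∫ u, (KK G u - κ) ∂G = (∫ u in ({0} : Set ℝ), (KK G u - κ) ∂G) +
      ∫ u in ({0} : Set ℝ)ᶜ, (KK G u - κ) ∂G :=
    (integral_add_compl (measurableSet_singleton 0) hNi).symm
  rw [integral_singleton, smul_eq_mul, ← hK0] at hsplit
  have hN0 : 0 ≤ K0 - κ := by linarith [hKκ 0]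
  have hc0 : 0 ≤ ∫ u in ({0} : Set ℝ)ᶜ, (KK G u - κ) ∂G :=
    integral_nonneg fun u => by simp only [Pi.zero_apply]; linarith [hKκ u]
  have hprod1 : 0 ≤ (G.real {0} - α) * (K0 - κ) := mul_nonneg (by linarith) hN0
  have hprod2 : κ * (1 - G.real univ) ≤ 0 := mul_nonpos_of_nonpos_of_nonneg hκ0 (by linarith)
  have eqs : (G.real {0} - α) * (K0 - κ) = 0 ∧ κ * (1 - G.real univ) = 0 ∧
      ∫ u in ({0} : Set ℝ)ᶜ, (KK G u - κ) ∂G = 0 := by
    have : (G.real {0} - α) * (K0 - κ) + ∫ u in ({0} : Set ℝ)ᶜ, (KK G u - κ) ∂G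
        = κ * (1 - G.real univ) := by
      have := hNe.symm.trans hsplit
      linarith
    refine ⟨by linarith, by linarith, by linarith⟩
  have hlam := lam_quad G h0 hG
  have hκneg : κ < 0 := by
    refine lt_of_le_of_ne hκ0 (fun h => ?_)
    have hz := riccati_zero (lam G) (lam_cont G h0 hG).measurable _ hlam (fun u => by
      have := hKκ u
      rw [h] at this
      exact this)
    have : I = 0 := by
      rw [hI]; unfold FI
      rw [integral_eq_zero_of_ae]
      filter_upwards [hz] with x hx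
      rw [← lamsq_dens_eq G h0 hG, hx]; simp
    linarith
  have hK0κ : κ < K0 := by
    refine lt_of_le_of_ne (hKκ 0) (fun h => ?_)
    have : I = κ := by rw [hκI, ← h]; ring
    linarith
  have hm1 : G.real univ = 1 := by
    rcases mul_eq_zero.mp eqs.2.1 with h | h
    · exact absurd h hκneg.ne
    · linarith
  have ha1 : G.real {0} = α := by
    rcases mul_eq_zero.mp eqs.1 with h | h
    · linarith
    · linarith
  refine ⟨κ, hκneg, hKκ, hK0κ, ?_, ?_, ?_⟩
  · rw [← ENNReal.ofReal_toReal (measure_ne_top G univ)]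
    unfold Measure.real at hm1
    rw [hm1]; simp
  · rw [← ENNReal.ofReal_toReal (measure_ne_top G {0})]
    unfold Measure.real at ha1
    rw [ha1]
  · have hz := (integral_eq_zero_iff_of_nonneg (μ := G.restrict ({0} : Set ℝ)ᶜ)
      (f := fun u => KK G u - κ) (fun u => by simp only [Pi.zero_apply]; linarith [hKκ u])
      hNi.integrableOn).mp eqs.2.2
    have hz2 : ∀ᵐ u ∂(G.restrict ({0} : Set ℝ)ᶜ), KK G u = κ := by
      filter_upwards [hz] with u hu
      simp only [Pi.zero_apply] at hu; linarith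
    rw [ae_restrict_iff' (measurableSet_singleton 0).compl, ae_iff] at hz2
    refine measure_mono_null ?_ hz2
    rintro u ⟨hu0, huK⟩
    simp only [mem_setOf_eq, Classical.not_imp]
    exact ⟨hu0, huK⟩

end FisherMin
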