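import Mathlib
import Pool.Agent.H494.FMGiven
import Pool.Agent.H494.FMA

set_option autoImplicit false
open MeasureTheory Set Filter Topology
open scoped ENNReal

namespace FisherMin

/-- the coincidence set is locally finite -/
theorem coin_finite (G : Measure ℝ) [IsFiniteMeasure G] {α : ℝ} (hα : 0 < α)
    (hG : ENNReal.ofReal α ≤ G {0}) (κ : ℝ) (hκ : κ < KK G 0) (R : ℝ) :
    ({u | KK G u = κ} ∩ Icc (-R) R).Finite := by
  by_contra hinf
  have hinf' : ({u | KK G u = κ} ∩ Icc (-R) R).Infinite := hinf
  obtain ⟨x, -, hx⟩ := hinf'.exists_accPt_of_subset_isCompact isCompact_Icc inter_subset_right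
  have hfr : ∃ᶠ z in 𝓝[≠] x, KK G z = κ := by
    rw [accPt_iff_frequently_nhdsNE] at hx
    exact hx.mono fun z hz => hz.1
  have han : AnalyticOnNhd ℝ (KK G) univ :=
    kernel_analytic (lam G) (lam_cont G hα hG).measurable _ (lam_quad G hα hG)
  have := han.eqOn_of_preconnected_of_frequently_eq analyticOnNhd_const isPreconnected_univ
    (mem_univ x) hfr (mem_univ 0)
  exact hκ.ne this.symm

theorem int1 (R u : ℝ) : ∫ x, (R - x) * gauss (x - u) = R - u := by
  have h := integral_sub_right_eq_self (fun y => (R - (y + u)) * gauss y) u (μ := volume)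
  simp only [sub_add_cancel] at h
  rw [h]
  have e : (fun y => (R - (y + u)) * gauss y) = fun y => (R - u) * gauss y - y * gauss y := by
    funext y; ring
  have hi1 : Integrable (fun y : ℝ => y * gauss y) := by
    have := integrable_pow_gauss 1
    refine this.mono' (by have := gauss_cont; fun_prop) (Eventually.of_forall fun y => ?_)
    rw [Real.norm_eq_abs, abs_mul, abs_of_pos (gauss_pos y), pow_one]
  rw [e, integral_sub (integrable_gauss.const_mul _) hi1, integral_const_mul, integral_gauss]
  have h0 : ∫ y : ℝ, y * gauss y = 0 := by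
    have := integral_neg_eq_self (fun y : ℝ => y * gauss y) volume
    simp only [gauss_even, neg_mul, integral_neg] at this
    linarith
  rw [h0]; ring

theorem lam_gauss_int (G : Measure ℝ) [IsFiniteMeasure G] {α : ℝ} (hα : 0 < α)
    (hG : ENNReal.ofReal α ≤ G {0}) (u : ℝ) : Integrable (fun x => lam G x * gauss (x - u)) := by
  have h2 := lamsq_gauss_int G hα hG u
  have h0 : Integrable (fun x : ℝ => gauss (x - u)) := integrable_gauss.comp_sub_right u
  refine (h0.add h2).mono' ?_ (Eventually.of_forall fun x => ?_)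
  · have := gauss_cont
    have := lam_cont G hα hG
    exact (by fun_prop : Continuous fun x => lam G x * gauss (x - u)).aestronglyMeasurable
  · rw [Real.norm_eq_abs, abs_mul, abs_of_pos (gauss_pos _)]
    simp only [Pi.add_apply]
    have := gauss_pos (x - u)
    have h3 : |lam G x| ≤ 1 + lam G x ^ 2 := by
      rw [← sq_abs]; nlinarith [sq_nonneg (|lam G x| - 1), abs_nonneg (lam G x)]
    nlinarith

/-- the support is unbounded -/
theorem unbounded (G : Measure ℝ) [IsFiniteMeasure G] {α : ℝ} (hα : 0 < α)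
    (hG : ENNReal.ofReal α ≤ G {0}) (κ : ℝ) (hκ : κ < 0) (hK : ∀ u, κ ≤ KK G u) (R : ℝ) :
    G (Ioi R) ≠ 0 := by
  intro h
  have hae : ∀ᵐ u ∂G, u ≤ R := by
    rw [ae_iff]
    simpa [Set.Ioi] using h
  have hlam : ∀ x, lam G x ≤ R - x := by
    intro x
    unfold lam
    rw [div_le_iff₀ (dens_pos G hα hG x)]
    unfold densD dens
    rw [← integral_const_mul]
    refine integral_mono_ae ?_ ?_ ?_
    · exact conv_int G (fun y => -y * gauss y) c1 4 hgc1 x
    · exact (conv_int G gauss gauss_cont 4 hgc x).const_mul _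
    · filter_upwards [hae] with u hu
      have := gauss_pos (x - u)
      nlinarith
  have hr := riccati (lam G) (lam_cont G hα hG).measurable _ (lam_quad G hα hG) (-κ) (by linarith)
    (fun u => by have := hK u; unfold KK at this; linarith) (R + Real.sqrt (-κ) + 1)
  set u := R + Real.sqrt (-κ) + 1 with hu
  have hle : ∫ x, lam G x * gauss (x - u) ≤ R - u := by
    rw [← int1 R u]
    refine integral_mono (lam_gauss_int G hα hG u) ?_ fun x => ?_
    · have hi1 : Integrable (fun x : ℝ => |x - u| ^ 1 * gauss (x - u)) := shift_int 1 u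
      have hi0 : Integrable (fun x : ℝ => |R - u| * gauss (x - u)) :=
        (integrable_gauss.comp_sub_right u).const_mul _
      refine (hi0.add hi1).mono' ?_ (Eventually.of_forall fun x => ?_)
      · have := gauss_cont
        exact (by fun_prop : Continuous fun x => (R - x) * gauss (x - u)).aestronglyMeasurable
      · rw [Real.norm_eq_abs, abs_mul, abs_of_pos (gauss_pos _)]
        simp only [Pi.add_apply, pow_one]
        rw [← add_mul]
        have := gauss_pos (x - u)
        have h3 : |R - x| ≤ |R - u| + |x - u| := by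
          have := abs_sub_le R u x
          rwa [abs_sub_comm u x] at this
        gcongr
    · have := gauss_pos (x - u)
      have := hlam x
      gcongr
  have hs := Real.sq_sqrt (show (0 : ℝ) ≤ -κ by linarith)
  have hs0 := Real.sqrt_nonneg (-κ)
  have h4 : (∫ x, lam G x * gauss (x - u)) ≤ -(Real.sqrt (-κ) + 1) := by
    refine hle.trans ?_
    rw [hu]; linarith
  nlinarith

/-- the optimality conditions force a step function -/
theorem step_form (α : ℝ) (h0 : 0 < α) (h1 : α < 1) (G : Measure ℝ) (hr : Relaxed α G)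
    (hmin : ∀ G', Relaxed α G' → FI G ≤ FI G') :
    ∃ (a w : ℕ → ℝ), 0 < a 0 ∧ StrictMono a ∧ Tendsto a atTop atTop ∧ (∀ j, 0 < w j) ∧
      G = ENNReal.ofReal α • Measure.dirac 0 + Measure.sum (fun j =>
        ENNReal.ofReal (w j) • (Measure.dirac (a j) + Measure.dirac (-(a j)))) := by
  have hfin := hr.fin
  obtain ⟨κ, hκ, hK, hK0, -, ha, hsupp⟩ := core α h0 h1 G hr hmin
  have hZ : ∀ R : ℝ, (({0} ∪ {u | KK G u = κ}) ∩ Icc (-R) R).Finite := by
    intro R
    rw [union_inter_distrib_right]
    exact ((finite_singleton 0).inter_of_left _).union (coin_finite G h0 hr.2.2 κ hK0 R)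
  obtain ⟨a, w, h1, h2, h3, h4, h5⟩ := enumerate_atoms G hr.2.1 ({0} ∪ {u | KK G u = κ}) hZ (by
    refine measure_mono_null ?_ hsupp
    intro u hu
    simp only [mem_compl_iff, mem_union, mem_singleton_iff, mem_setOf_eq, not_or] at hu
    exact hu) (unbounded G h0 hr.2.2 κ hκ hK)
  refine ⟨a, w, h1, h2, h3, h4, ?_⟩
  rw [ha] at h5
  exact h5

theorem Glat_atom (α c p g : ℝ) (hc : 0 < c) (hp : 0 < p) (j : ℕ) :
    Glat α c p g {((j : ℝ) + 1) * g} ≠ 0 := by
  unfold Glat
  rw [Measure.add_apply]
  refine (lt_of_lt_of_le ?_ le_add_self).ne'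
  rw [Measure.sum_apply _ (measurableSet_singleton _)]
  refine lt_of_lt_of_le ?_ (ENNReal.le_tsum j)
  rw [Measure.smul_apply, Measure.add_apply, smul_eq_mul]
  rw [Measure.dirac_apply_of_mem (mem_singleton _)]
  have : (0 : ℝ≥0∞) < ENNReal.ofReal (c * p ^ (j + 1)) := by
    rw [ENNReal.ofReal_pos]; positivity
  refine ENNReal.mul_pos this.ne' ?_
  simp

/-- the explicit form fails -/
theorem not_lattice (α : ℝ) (h0 : 0 < α) (h1 : α < 1) (c p g : ℝ) (hc : 0 < c) (hp : 0 < p)
    (hp1 : p < 1) (hg : 0 < g) (hr : Relaxed α (Glat α c p g))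
    (hmin : ∀ G', Relaxed α G' → FI (Glat α c p g) ≤ FI G') : False := by
  have hfin := hr.fin
  obtain ⟨κ, hκ, hK, hK0, -, ha, hsupp⟩ := core α h0 h1 _ hr hmin
  set G := Glat α c p g with hG
  have hKj : ∀ j : ℕ, 1 ≤ j → KK G (j * g) = κ := by
    intro j hj
    obtain ⟨i, rfl⟩ : ∃ i, j = i + 1 := ⟨j - 1, by omega⟩
    by_contra hne
    have hat := Glat_atom α c p g hc hp i
    rw [← hG] at hat
    refine hat (measure_mono_null ?_ hsupp)
    rintro u hu
    rw [mem_singleton_iff] at hu
    subst hu
    refine ⟨by positivity, ?_⟩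
    push_cast at hne
    exact hne
  have hQi : ∀ u, Integrable (fun x => QQ G x * gauss (x - u)) := by
    intro u
    obtain ⟨C, hC⟩ := QQ_bound G h0 hr.2.2
    have hC0 : 0 ≤ C := by
      have := hC 0
      have h3 := abs_nonneg (QQ G 0)
      simp only [ne_eq, OfNat.ofNat_ne_zero, not_false_eq_true, zero_pow, add_zero, mul_one] at this
      linarith
    have hi0 : Integrable (fun x : ℝ => |x - u| ^ 0 * gauss (x - u)) := shift_int 0 u
    have hi2 : Integrable (fun x : ℝ => |x - u| ^ 2 * gauss (x - u)) := shift_int 2 u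
    refine ((hi0.const_mul (C * (1 + 2 * u ^ 2))).add (hi2.const_mul (2 * C))).mono' ?_
      (Eventually.of_forall fun x => ?_)
    · have := gauss_cont
      have := QQ_cont G h0 hr.2.2
      exact (by fun_prop : Continuous fun x => QQ G x * gauss (x - u)).aestronglyMeasurable
    · rw [Real.norm_eq_abs, abs_mul, abs_of_pos (gauss_pos _)]
      simp only [Pi.add_apply, pow_zero, one_mul, sq_abs]
      have hg' := gauss_pos (x - u)
      have h3 : |QQ G x| ≤ C * (1 + 2 * u ^ 2) + 2 * C * (x - u) ^ 2 := by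
        refine (hC x).trans ?_
        have : 0 ≤ C * (x - 2 * u) ^ 2 := by positivity
        nlinarith
      calc |QQ G x| * gauss (x - u) ≤ (C * (1 + 2 * u ^ 2) + 2 * C * (x - u) ^ 2) * gauss (x - u) := by
            gcongr
        _ = _ := by ring
  obtain ⟨s, hs, X, hX⟩ := lattice_sign α c p g h0 hc hp hp1 hg
  obtain ⟨C, hC⟩ := QQ_bound G h0 hr.2.2
  have hC0 : 0 ≤ C := by
    have := hC 0
    have h3 := abs_nonneg (QQ G 0)
    simp only [ne_eq, OfNat.ofNat_ne_zero, not_false_eq_true, zero_pow, add_zero, mul_one] at this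
    linarith
  have hQc := QQ_cont G h0 hr.2.2
  refine moment_sign (fun x => s * (QQ G (x + g) - QQ G x)) (by fun_prop) (C * (3 + 2 * g ^ 2)) ?_ X
    (fun x hx => hX x hx) g hg ?_
  · intro x
    have hs1 : |s| = 1 := by rcases hs with h | h <;> rw [h] <;> simp
    simp only [abs_mul, hs1, one_mul]
    have h3 := hC (x + g)
    have h4 := hC x
    have h5 : |QQ G (x + g) - QQ G x| ≤ |QQ G (x + g)| + |QQ G x| := abs_sub _ _
    have h6 : C * (1 + (x + g) ^ 2) ≤ C * (1 + 2 * x ^ 2 + 2 * g ^ 2) :=
      mul_le_mul_of_nonneg_left (by nlinarith [sq_nonneg (x - g)]) hC0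
    have h7 : 0 ≤ C * (g ^ 2 * x ^ 2) := by positivity
    nlinarith [h7]
  · intro j hj
    have e : (fun x => s * (QQ G (x + g) - QQ G x) * gauss (x - j * g)) =
        fun x => s * (QQ G (x + g) * gauss (x - j * g) - QQ G x * gauss (x - j * g)) := by
      funext x; ring
    have hi1 : Integrable (fun x => QQ G (x + g) * gauss (x - j * g)) := by
      have := (hQi ((j + 1 : ℕ) * g)).comp_add_right g
      refine this.congr (Eventually.of_forall fun x => ?_)
      simp only
      congr 2
      push_cast; ring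
    rw [e, integral_const_mul, integral_sub hi1 (hQi _), ← KK_eq G h0 hr.2.2, hKj j hj]
    have h3 : ∫ x, QQ G (x + g) * gauss (x - j * g) = KK G ((j + 1 : ℕ) * g) := by
      rw [KK_eq G h0 hr.2.2,
        ← integral_add_right_eq_self (fun y => QQ G y * gauss (y - ((j + 1 : ℕ) : ℝ) * g)) g]
      congr 1
      funext x
      congr 2
      push_cast; ring
    rw [h3, hKj (j + 1) (by omega)]
    ring

end FisherMin
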