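import Mathlib
import Pool.Agent.H494.FMB

set_option autoImplicit false
open MeasureTheory Set Filter Topology
open scoped ENNReal

namespace FisherMin

section suff
variable (G : Measure ℝ) [IsFiniteMeasure G] {α : ℝ} (hα : 0 < α) (hG : ENNReal.ofReal α ≤ G {0})
include hα hG

/-- a lower bound of the kernel bounds the mean square score uniformly -/
theorem A_bound (κ : ℝ) (hK : ∀ u, κ ≤ KK G u) (u : ℝ) :
    ∫ x, lam G x ^ 2 * gauss (x - u) ≤ 4 - 2 * κ := by
  have h1 := hK u
  have h2 : KK G u ≤ ∫ x, (2 * ((x - u) ^ 2 * gauss (x - u)) - 1 / 2 * (lam G x ^ 2 * gauss (x - u))) := by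
    unfold KK
    refine integral_mono (KK_integrand_int G hα hG u) ?_ fun x => ?_
    · exact ((integrable_sq_gauss.comp_sub_right u).const_mul 2).sub
        ((lamsq_gauss_int G hα hG u).const_mul (1 / 2))
    · have := gauss_pos (x - u)
      have h3 : -2 * (x - u) * lam G x - lam G x ^ 2 ≤ 2 * (x - u) ^ 2 - 1 / 2 * lam G x ^ 2 := by
        nlinarith [sq_nonneg (2 * (x - u) + lam G x)]
      calc (-2 * (x - u) * lam G x - lam G x ^ 2) * gauss (x - u)
          ≤ (2 * (x - u) ^ 2 - 1 / 2 * lam G x ^ 2) * gauss (x - u) := by gcongr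
        _ = _ := by ring
  rw [integral_sub ((integrable_sq_gauss.comp_sub_right u).const_mul 2)
        ((lamsq_gauss_int G hα hG u).const_mul (1 / 2)), integral_const_mul, integral_const_mul] at h2
  have h4 : ∫ x, (x - u) ^ 2 * gauss (x - u) = 1 := by
    rw [integral_sub_right_eq_self (fun y => y ^ 2 * gauss y) u]
    exact integral_sq_gauss
  rw [h4] at h2
  linarith

theorem lamsq_dens_int (κ : ℝ) (hK : ∀ u, κ ≤ KK G u) (H : Measure ℝ) [IsFiniteMeasure H] :
    Integrable (fun x => lam G x ^ 2 * dens H x) := by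
  have hlc := lam_cont G hα hG
  have hcont : Continuous (fun p : ℝ × ℝ => lam G p.1 ^ 2 * gauss (p.1 - p.2)) := by
    have h1 : Continuous (fun p : ℝ × ℝ => lam G p.1) := hlc.comp continuous_fst
    have h2 : Continuous (fun p : ℝ × ℝ => gauss (p.1 - p.2)) := gauss_cont.comp (by fun_prop)
    exact (h1.pow 2).mul h2
  have hp : Integrable (fun p : ℝ × ℝ => lam G p.1 ^ 2 * gauss (p.1 - p.2))
      ((volume : Measure ℝ).prod H) := by
    rw [integrable_prod_iff' hcont.aestronglyMeasurable]
    refine ⟨Eventually.of_forall fun u => lamsq_gauss_int G hα hG u, ?_⟩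
    refine Integrable.of_bound (C := 4 - 2 * κ) ?_ (Eventually.of_forall fun u => ?_)
    · exact (hcont.norm.stronglyMeasurable.integral_prod_left
        (f := fun x u : ℝ => ‖lam G x ^ 2 * gauss (x - u)‖)).aestronglyMeasurable
    · rw [Real.norm_of_nonneg (integral_nonneg fun u => norm_nonneg _)]
      refine le_trans (le_of_eq ?_) (A_bound G hα hG κ hK u)
      refine integral_congr_ae (Eventually.of_forall fun x => ?_)
      exact Real.norm_of_nonneg (mul_nonneg (sq_nonneg _) (gauss_pos _).le)
  have := hp.integral_prod_left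
  refine this.congr (Eventually.of_forall fun x => ?_)
  simp only
  rw [integral_const_mul]
  rfl

theorem KK_prod_int' (H : Measure ℝ) [IsFiniteMeasure H]
    (hi : Integrable (fun x => lam G x ^ 2 * dens H x)) : Integrable (fun p : ℝ × ℝ =>
    (-2 * (p.1 - p.2) * lam G p.1 - lam G p.1 ^ 2) * gauss (p.1 - p.2))
    ((volume : Measure ℝ).prod H) := by
  have hlc := lam_cont G hα hG
  have hcont : Continuous (fun p : ℝ × ℝ =>
      (-2 * (p.1 - p.2) * lam G p.1 - lam G p.1 ^ 2) * gauss (p.1 - p.2)) := by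
    have h1 : Continuous (fun p : ℝ × ℝ => lam G p.1) := hlc.comp continuous_fst
    have h2 : Continuous (fun p : ℝ × ℝ => gauss (p.1 - p.2)) := gauss_cont.comp (by fun_prop)
    exact (((by fun_prop : Continuous fun p : ℝ × ℝ => -2 * (p.1 - p.2)).mul h1).sub (h1.pow 2)).mul h2
  have hb : ∀ x u : ℝ, ‖(-2 * (x - u) * lam G x - lam G x ^ 2) * gauss (x - u)‖
      ≤ (x - u) ^ 2 * gauss (x - u) + 2 * (lam G x ^ 2 * gauss (x - u)) := by
    intro x u
    rw [norm_mul, Real.norm_of_nonneg (gauss_pos (x - u)).le, Real.norm_eq_abs]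
    have : |-2 * (x - u) * lam G x - lam G x ^ 2| ≤ (x - u) ^ 2 + 2 * lam G x ^ 2 := by
      rw [abs_le]; constructor <;> nlinarith [sq_nonneg (x - u + lam G x), sq_nonneg (x - u - lam G x)]
    calc _ ≤ ((x - u) ^ 2 + 2 * lam G x ^ 2) * gauss (x - u) :=
          mul_le_mul_of_nonneg_right this (gauss_pos _).le
      _ = _ := by ring
  rw [integrable_prod_iff hcont.aestronglyMeasurable]
  have hbu : ∀ x, Integrable (fun u => (x - u) ^ 2 * gauss (x - u) + 2 * (lam G x ^ 2 * gauss (x - u))) H := by
    intro x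
    exact (conv_int H (fun y => y ^ 2 * gauss y) c2 4 hgc2 x).add
      (((conv_int H gauss gauss_cont 4 hgc x).const_mul _).const_mul _)
  have hcu : ∀ x : ℝ, Continuous (fun u : ℝ => (-2 * (x - u) * lam G x - lam G x ^ 2) * gauss (x - u)) := by
    intro x
    exact (by fun_prop : Continuous fun u : ℝ => (-2 * (x - u) * lam G x - lam G x ^ 2)).mul
      (gauss_cont.comp (by fun_prop))
  constructor
  · refine Eventually.of_forall fun x => ?_
    exact (hbu x).mono' (hcu x).aestronglyMeasurable (Eventually.of_forall fun u => hb x u)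
  · have h3 : Integrable (fun x => sqm H x + 2 * (lam G x ^ 2 * dens H x)) :=
      (integrable_sqm H).add (hi.const_mul 2)
    refine h3.mono' ?_ (Eventually.of_forall fun x => ?_)
    · exact (hcont.norm.stronglyMeasurable.integral_prod_right
        (f := fun x u : ℝ => ‖(-2 * (x - u) * lam G x - lam G x ^ 2) * gauss (x - u)‖)).aestronglyMeasurable
    · rw [Real.norm_of_nonneg (integral_nonneg fun u => norm_nonneg _)]
      calc ∫ u, ‖(-2 * (x - u) * lam G x - lam G x ^ 2) * gauss (x - u)‖ ∂H
          ≤ ∫ u, ((x - u) ^ 2 * gauss (x - u) + 2 * (lam G x ^ 2 * gauss (x - u))) ∂H :=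
            integral_mono_of_nonneg (Eventually.of_forall fun u => norm_nonneg _) (hbu x)
              (Eventually.of_forall fun u => hb x u)
        _ = sqm H x + 2 * (lam G x ^ 2 * dens H x) := by
            rw [integral_add (conv_int H (fun y => y ^ 2 * gauss y) c2 4 hgc2 x)
              (((conv_int H gauss gauss_cont 4 hgc x).const_mul _).const_mul _),
              integral_const_mul, integral_const_mul]
            rfl

theorem KK_int' (H : Measure ℝ) [IsFiniteMeasure H]
    (hi : Integrable (fun x => lam G x ^ 2 * dens H x)) : Integrable (KK G) H ∧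
      Integrable (fun x => 2 * densD H x * lam G x - dens H x * lam G x ^ 2) ∧
      ∫ u, KK G u ∂H = ∫ x, (2 * densD H x * lam G x - dens H x * lam G x ^ 2) := by
  have hp := KK_prod_int' G hα hG H hi
  have key : ∀ x, ∫ u, (-2 * (x - u) * lam G x - lam G x ^ 2) * gauss (x - u) ∂H =
      2 * densD H x * lam G x - dens H x * lam G x ^ 2 := by
    intro x
    have i1 := conv_int H (fun y => -y * gauss y) c1 4 hgc1 x
    have i0 := conv_int H gauss gauss_cont 4 hgc x
    have : ∀ u, (-2 * (x - u) * lam G x - lam G x ^ 2) * gauss (x - u)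
        = 2 * lam G x * (-(x - u) * gauss (x - u)) - lam G x ^ 2 * gauss (x - u) := by
      intro u; ring
    simp_rw [this]
    rw [integral_sub (i1.const_mul _) (i0.const_mul _), integral_const_mul, integral_const_mul]
    have e1 : ∫ u, -(x - u) * gauss (x - u) ∂H = densD H x := rfl
    have e2 : ∫ u, gauss (x - u) ∂H = dens H x := rfl
    rw [e1, e2]; ring
  refine ⟨hp.integral_prod_right, ?_, ?_⟩
  · refine hp.integral_prod_left.congr (Eventually.of_forall fun x => ?_)
    exact key x
  · unfold KK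
    rw [← integral_integral_swap hp]
    exact integral_congr_ae (Eventually.of_forall fun x => key x)

/-- sufficiency of the optimality conditions -/
theorem opt_suff (κ : ℝ) (hK : ∀ u, κ ≤ KK G u) (hGa : G {0} = ENNReal.ofReal α)
    (hG1 : G univ = 1) (hsupp : G {u | u ≠ 0 ∧ KK G u ≠ κ} = 0)
    (H : Measure ℝ) [IsFiniteMeasure H] (hHa : H {0} = ENNReal.ofReal α) (hH1 : H univ = 1) :
    FI G ≤ FI H := by
  have hHa' : ENNReal.ofReal α ≤ H {0} := hHa.ge
  obtain ⟨h1, h2, h3⟩ := KK_int' G hα hG H (lamsq_dens_int G hα hG κ hK H)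
  obtain ⟨h4, h5⟩ := KK_int G hα hG
  have h6 : ∫ x, (2 * densD H x * lam G x - dens H x * lam G x ^ 2) ≤ FI H := by
    unfold FI
    refine integral_mono h2 (FI_integrable H hα hHa') fun x => ?_
    have hd := dens_pos H hα hHa' x
    simp only
    rw [le_div_iff₀ hd]
    nlinarith [sq_nonneg (densD H x - dens H x * lam G x)]
  refine le_trans ?_ (h3 ▸ h6)
  rw [← h5]
  -- compare the integrals of `K`
  have split : ∀ (M : Measure ℝ) [IsFiniteMeasure M], M {0} = ENNReal.ofReal α → M univ = 1 →
      Integrable (KK G) M → ∫ u, KK G u ∂M = α * (KK G 0 - κ) + κ +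
        ∫ u in ({0} : Set ℝ)ᶜ, (KK G u - κ) ∂M := by
    intro M _ hMa hM1 hMi
    have hNi : Integrable (fun u => KK G u - κ) M := hMi.sub (integrable_const _)
    have e1 := (integral_add_compl (measurableSet_singleton (0 : ℝ)) hNi)
    rw [integral_singleton, smul_eq_mul, integral_sub hMi (integrable_const _), integral_const,
      smul_eq_mul] at e1
    unfold Measure.real at e1
    rw [hMa, hM1, ENNReal.toReal_ofReal hα.le, ENNReal.toReal_one] at e1
    linarith
  rw [split G hGa hG1 h4, split H hHa hH1 h1]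
  have hz : ∫ u in ({0} : Set ℝ)ᶜ, (KK G u - κ) ∂G = 0 := by
    rw [integral_eq_zero_of_ae]
    rw [Filter.EventuallyEq, ae_restrict_iff' (measurableSet_singleton 0).compl, ae_iff]
    refine measure_mono_null ?_ hsupp
    intro u hu
    simp only [mem_setOf_eq, Classical.not_imp, mem_compl_iff, mem_singleton_iff, Pi.zero_apply] at hu
    exact ⟨hu.1, fun h => hu.2 (by linarith)⟩
  have hnn : 0 ≤ ∫ u in ({0} : Set ℝ)ᶜ, (KK G u - κ) ∂H :=
    integral_nonneg fun u => by simp only [Pi.zero_apply]; linarith [hK u]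
  rw [hz]; linarith

end suff

end FisherMin
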