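import Mathlib

set_option autoImplicit false
open MeasureTheory Set
open scoped Interval ENNReal

namespace H494.Mix

noncomputable def fc (x : ℝ) : ℝ := Real.exp (-(max 0 (|x| - 3 / 2)))
noncomputable def f0 (x : ℝ) : ℝ := if |x| ≤ 11 / 2 then fc x else 0
/-- density of `(1+ε)X+(1-ε)Y` (up to the normalisation of `f0`) -/
noncomputable def W (ε z : ℝ) : ℝ := ∫ x, f0 x * f0 ((z - (1 + ε) * x) / (1 - ε)) / (1 - ε)
noncomputable def m : ℝ := 5 - 2 * Real.exp (-4)

theorem fc_pos (x : ℝ) : 0 < fc x := Real.exp_pos _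

theorem fc_le_one (x : ℝ) : fc x ≤ 1 := by
  unfold fc; rw [Real.exp_le_one_iff]; simp

theorem fc_cont : Continuous fc := by unfold fc; fun_prop

theorem f0_meas : Measurable f0 := by
  unfold f0
  exact Measurable.ite (measurableSet_le (by fun_prop) (by fun_prop)) fc_cont.measurable
    measurable_const

theorem f0_nonneg (x : ℝ) : 0 ≤ f0 x := by
  unfold f0; split_ifs
  · exact (fc_pos x).le
  · exact le_rfl

theorem f0_le_one (x : ℝ) : f0 x ≤ 1 := by
  unfold f0; split_ifs
  · exact fc_le_one x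
  · norm_num

theorem f0_out {x : ℝ} (hx : 11 / 2 < |x|) : f0 x = 0 := by
  unfold f0; rw [if_neg (not_le.mpr hx)]

theorem f0_even (x : ℝ) : f0 (-x) = f0 x := by
  unfold f0 fc; rw [abs_neg]

theorem f0_integrable : Integrable f0 := by
  have h1 : Integrable (indicator (Icc (-(11 / 2) : ℝ) (11 / 2)) (fun _ => (1 : ℝ))) := by
    rw [integrable_indicator_iff measurableSet_Icc]
    exact integrableOn_const (by simp) (by simp)
  refine h1.mono' f0_meas.aestronglyMeasurable (Filter.Eventually.of_forall fun x => ?_)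
  rw [Real.norm_of_nonneg (f0_nonneg x)]
  by_cases hx : x ∈ Icc (-(11 / 2) : ℝ) (11 / 2)
  · rw [indicator_of_mem hx]; exact f0_le_one x
  · rw [indicator_of_notMem hx]
    refine (f0_out ?_).le
    by_contra hc
    exact hx (abs_le.mp (not_lt.mp hc))

theorem m_pos : 0 < m := by
  unfold m
  have : Real.exp (-4) < 1 := by rw [Real.exp_lt_one_iff]; norm_num
  linarith

end H494.Mix
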