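import Mathlib
import Pool.Agent.H494.MixDefs

set_option autoImplicit false
open MeasureTheory Set
open scoped Interval

-- proofs of the explicit formulas by helper916
namespace H494.Mix

lemma fc_in {x : ℝ} (h1 : -(3/2) ≤ x) (h2 : x ≤ 3/2) : fc x = 1 := by
  unfold fc
  rw [max_eq_left]
  · simp
  · have := abs_le.2 ⟨h1, h2⟩
    linarith

lemma fc_right {x : ℝ} (h : 3/2 ≤ x) : fc x = Real.exp (3/2 - x) := by
  unfold fc
  rw [abs_of_nonneg (by linarith), max_eq_right (by linarith)]
  congr 1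
  ring

lemma fc_left {x : ℝ} (h : x ≤ -(3/2)) : fc x = Real.exp (3/2 + x) := by
  unfold fc
  rw [abs_of_nonpos (by linarith), max_eq_right (by linarith)]
  congr 1
  ring

/-- restriction to the support -/
lemma to_interval (s : ℝ) (hs0 : 0 ≤ s) (hs : s ≤ 11) (w : ℝ → ℝ) (hw : Continuous w)
    (hsym : ∀ x, w (s - x) = w x) :
    ∫ x, w x * (f0 x * f0 (s - x)) = 2 * ∫ x in (s/2)..(11/2), w x * (fc x * fc (s - x)) := by
  have hcont : Continuous fun x => w x * (fc x * fc (s - x)) :=
    hw.mul (fc_cont.mul (fc_cont.comp (by fun_prop)))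
  have h1 : (fun x => w x * (f0 x * f0 (s - x))) =
      (Icc (s - 11/2) (11/2)).indicator (fun x => w x * (fc x * fc (s - x))) := by
    funext x
    unfold f0
    by_cases hx : x ∈ Icc (s - 11/2) (11/2)
    · rw [indicator_of_mem hx]
      rw [mem_Icc] at hx
      rw [if_pos, if_pos]
      · rw [abs_le]; constructor <;> linarith [hx.1, hx.2]
      · rw [abs_le]; constructor <;> linarith [hx.1, hx.2]
    · rw [indicator_of_notMem hx]
      rw [mem_Icc, not_and_or] at hx
      rcases hx with hx | hx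
      · have : ¬ |s - x| ≤ 11/2 := by
          rw [abs_le]; intro h; apply hx; linarith [h.2]
        rw [if_neg this]; simp
      · have : ¬ |x| ≤ 11/2 := by
          rw [abs_le]; intro h; exact hx h.2
        rw [if_neg this]; simp
  rw [h1, integral_indicator measurableSet_Icc, integral_Icc_eq_integral_Ioc,
    ← intervalIntegral.integral_of_le (by linarith)]
  rw [← intervalIntegral.integral_add_adjacent_intervals (b := s/2)
    (hcont.intervalIntegrable _ _) (hcont.intervalIntegrable _ _)]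
  have h2 : ∫ x in (s - 11/2)..(s/2), w x * (fc x * fc (s - x)) =
      ∫ x in (s/2)..(11/2), w x * (fc x * fc (s - x)) := by
    have := intervalIntegral.integral_comp_sub_left
      (fun x => w x * (fc x * fc (s - x))) s (a := s/2) (b := 11/2)
    rw [show s - s/2 = s/2 by ring] at this
    rw [← this]
    congr 1
    funext x
    rw [hsym, sub_sub_cancel]
    ring
  rw [h2]
  ring

lemma piece (s a b : ℝ) (hab : a ≤ b) (w E F : ℝ → ℝ) (hw : Continuous w) (hE : Continuous E)
    (heq : ∀ x, a ≤ x → x ≤ b → fc x * fc (s - x) = E x)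
    (hF : ∀ x, HasDerivAt F (w x * E x) x) :
    ∫ x in a..b, w x * (fc x * fc (s - x)) = F b - F a := by
  rw [← intervalIntegral.integral_eq_sub_of_hasDerivAt (fun x _ => hF x)
    ((hw.mul hE).intervalIntegrable _ _)]
  apply intervalIntegral.integral_congr
  intro x hx
  rw [uIcc_of_le hab] at hx
  simp only
  rw [heq x hx.1 hx.2]

/-- the generic computation -/
theorem generic (s : ℝ) (w F1 F2 F3 F4 : ℝ → ℝ) (hw : Continuous w)
    (hsym : ∀ x, w (s - x) = w x)
    (hF1 : ∀ x, HasDerivAt F1 (w x * 1) x)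
    (hF2 : ∀ x, HasDerivAt F2 (w x * Real.exp (3/2 - x)) x)
    (hF3 : ∀ x, HasDerivAt F3 (w x * Real.exp (3 + s - 2 * x)) x)
    (hF4 : ∀ x, HasDerivAt F4 (w x * Real.exp (3 - s)) x) :
    (s ∈ Icc (0 : ℝ) 3 → ∫ x, w x * (f0 x * f0 (s - x)) =
      2 * ((F1 (3/2) - F1 (s/2)) + (F2 (s+3/2) - F2 (3/2)) + (F3 (11/2) - F3 (s + 3/2)))) ∧
    (s ∈ Icc (3 : ℝ) 4 → ∫ x, w x * (f0 x * f0 (s - x)) =
      2 * ((F4 (s-3/2) - F4 (s/2)) + (F2 (s+3/2) - F2 (s-3/2)) + (F3 (11/2) - F3 (s + 3/2)))) ∧
    (s ∈ Icc (4 : ℝ) 7 → ∫ x, w x * (f0 x * f0 (s - x)) =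
      2 * ((F4 (s-3/2) - F4 (s/2)) + (F2 (11/2) - F2 (s-3/2)))) ∧
    (s ∈ Icc (7 : ℝ) 11 → ∫ x, w x * (f0 x * f0 (s - x)) =
      2 * (F4 (11/2) - F4 (s/2))) := by
  have hcont : Continuous fun x => w x * (fc x * fc (s - x)) :=
    hw.mul (fc_cont.mul (fc_cont.comp (by fun_prop)))
  have hii : ∀ a b : ℝ, IntervalIntegrable (fun x => w x * (fc x * fc (s - x))) volume a b :=
    fun a b => hcont.intervalIntegrable a b
  refine ⟨?_, ?_, ?_, ?_⟩
  · rintro ⟨h1, h2⟩
    rw [to_interval s h1 (by linarith) w hw hsym]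
    congr 1
    rw [← intervalIntegral.integral_add_adjacent_intervals (hii (s/2) (s+3/2)) (hii (s+3/2) (11/2)),
      ← intervalIntegral.integral_add_adjacent_intervals (hii (s/2) (3/2)) (hii (3/2) (s+3/2))]
    rw [piece s _ _ (by linarith) w _ F1 hw continuous_const ?_ hF1,
      piece s _ _ (by linarith) w _ F2 hw (by fun_prop) ?_ hF2,
      piece s _ _ (by linarith) w _ F3 hw (by fun_prop) ?_ hF3]
    · intro x hx1 hx2
      rw [fc_right (by linarith), fc_left (by linarith), ← Real.exp_add]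
      congr 1; ring
    · intro x hx1 hx2
      rw [fc_right (by linarith), fc_in (by linarith) (by linarith), mul_one]
    · intro x hx1 hx2
      rw [fc_in (by linarith) (by linarith), fc_in (by linarith) (by linarith), mul_one]
  · rintro ⟨h1, h2⟩
    rw [to_interval s (by linarith) (by linarith) w hw hsym]
    congr 1
    rw [← intervalIntegral.integral_add_adjacent_intervals (hii (s/2) (s+3/2)) (hii (s+3/2) (11/2)),
      ← intervalIntegral.integral_add_adjacent_intervals (hii (s/2) (s-3/2))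
        (hii (s-3/2) (s+3/2))]
    rw [piece s _ _ (by linarith) w _ F4 hw continuous_const ?_ hF4,
      piece s _ _ (by linarith) w _ F2 hw (by fun_prop) ?_ hF2,
      piece s _ _ (by linarith) w _ F3 hw (by fun_prop) ?_ hF3]
    · intro x hx1 hx2
      rw [fc_right (by linarith), fc_left (by linarith), ← Real.exp_add]
      congr 1; ring
    · intro x hx1 hx2
      rw [fc_right (by linarith), fc_in (by linarith) (by linarith), mul_one]
    · intro x hx1 hx2
      rw [fc_right (by linarith), fc_right (by linarith), ← Real.exp_add]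
      congr 1; ring
  · rintro ⟨h1, h2⟩
    rw [to_interval s (by linarith) (by linarith) w hw hsym]
    congr 1
    rw [← intervalIntegral.integral_add_adjacent_intervals (hii (s/2) (s-3/2)) (hii (s-3/2) (11/2))]
    rw [piece s _ _ (by linarith) w _ F4 hw continuous_const ?_ hF4,
      piece s _ _ (by linarith) w _ F2 hw (by fun_prop) ?_ hF2]
    · intro x hx1 hx2
      rw [fc_right (by linarith), fc_in (by linarith) (by linarith), mul_one]
    · intro x hx1 hx2
      rw [fc_right (by linarith), fc_right (by linarith), ← Real.exp_add]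
      congr 1; ring
  · rintro ⟨h1, h2⟩
    rw [to_interval s (by linarith) (by linarith) w hw hsym]
    congr 1
    rw [piece s _ _ (by linarith) w _ F4 hw continuous_const ?_ hF4]
    · intro x hx1 hx2
      rw [fc_right (by linarith), fc_right (by linarith), ← Real.exp_add]
      congr 1; ring

/-- the total mass -/
theorem integral_f0 : ∫ x, f0 x = 5 - 2 * Real.exp (-4) := by
  have h1 : f0 = (Icc (-(11/2)) (11/2 : ℝ)).indicator fc := by
    funext x
    unfold f0
    by_cases hx : x ∈ Icc (-(11/2)) (11/2 : ℝ)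
    · rw [indicator_of_mem hx, if_pos (abs_le.2 hx)]
    · rw [indicator_of_notMem hx, if_neg (fun h => hx (abs_le.1 h))]
  have hii : ∀ a b : ℝ, IntervalIntegrable fc volume a b :=
    fun a b => fc_cont.intervalIntegrable a b
  rw [h1, integral_indicator measurableSet_Icc, integral_Icc_eq_integral_Ioc,
    ← intervalIntegral.integral_of_le (by norm_num)]
  rw [← intervalIntegral.integral_add_adjacent_intervals (hii (-(11/2)) (3/2)) (hii (3/2) (11/2)),
    ← intervalIntegral.integral_add_adjacent_intervals (hii (-(11/2)) (-(3/2)))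
      (hii (-(3/2)) (3/2))]
  have e1 : ∫ x in (-(11/2):ℝ)..(-(3/2)), fc x = 1 - Real.exp (-4) := by
    rw [intervalIntegral.integral_congr (g := fun x => Real.exp (3/2 + x))]
    · rw [intervalIntegral.integral_eq_sub_of_hasDerivAt (f := fun x => Real.exp (3/2 + x))]
      · norm_num
      · intro x _
        simpa using ((hasDerivAt_id x).const_add (3/2)).exp
      · exact (by fun_prop : Continuous fun x : ℝ => Real.exp (3/2 + x)).intervalIntegrable _ _
    · intro x hx
      rw [uIcc_of_le (by norm_num)] at hx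
      exact fc_left hx.2
  have e2 : ∫ x in (-(3/2):ℝ)..(3/2), fc x = 3 := by
    rw [intervalIntegral.integral_congr (g := fun x => (1:ℝ))]
    · simp
      try norm_num
    · intro x hx
      rw [uIcc_of_le (by norm_num)] at hx
      exact fc_in hx.1 hx.2
  have e3 : ∫ x in (3/2:ℝ)..(11/2), fc x = 1 - Real.exp (-4) := by
    rw [intervalIntegral.integral_congr (g := fun x => Real.exp (3/2 - x))]
    · rw [intervalIntegral.integral_eq_sub_of_hasDerivAt (f := fun x => -Real.exp (3/2 - x))]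
      · norm_num
        try ring
      · intro x _
        simpa using (((hasDerivAt_id x).const_sub (3/2)).exp).fun_neg
      · exact (by fun_prop : Continuous fun x : ℝ => Real.exp (3/2 - x)).intervalIntegrable _ _
    · intro x hx
      rw [uIcc_of_le (by norm_num)] at hx
      exact fc_right hx.1
  rw [e1, e2, e3]
  ring

lemma hd1 (s x : ℝ) : HasDerivAt (fun x : ℝ => 2 * x - s) 2 x := by
  simpa using ((hasDerivAt_id x).const_mul 2).sub_const s

lemma he1 (x : ℝ) : HasDerivAt (fun x : ℝ => Real.exp (3/2 - x)) (-Real.exp (3/2 - x)) x := by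
  simpa using ((hasDerivAt_id x).const_sub (3/2)).exp

lemma he2 (s x : ℝ) : HasDerivAt (fun x : ℝ => Real.exp (3 + s - 2 * x))
    (-2 * Real.exp (3 + s - 2 * x)) x := by
  have := (((hasDerivAt_id x).const_mul 2).const_sub (3 + s)).exp
  simp only [id, mul_one] at this
  rw [mul_comm]
  exact this

/-- the self-convolution of `f0`, piece by piece -/
theorem conv_formula (s : ℝ) :
    (s ∈ Icc (0 : ℝ) 3 → ∫ x, f0 x * f0 (s - x) = 5 - s - Real.exp (-s) - Real.exp (s - 8)) ∧
    (s ∈ Icc (3 : ℝ) 4 → ∫ x, f0 x * f0 (s - x) =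
      (s - 1) * Real.exp (3 - s) - Real.exp (-s) - Real.exp (s - 8)) ∧
    (s ∈ Icc (4 : ℝ) 7 → ∫ x, f0 x * f0 (s - x) =
      (s - 1) * Real.exp (3 - s) - 2 * Real.exp (-4)) ∧
    (s ∈ Icc (7 : ℝ) 11 → ∫ x, f0 x * f0 (s - x) = (11 - s) * Real.exp (3 - s)) := by
  obtain ⟨g1, g2, g3, g4⟩ := generic s (fun _ => 1) (fun x => x) (fun x => -Real.exp (3/2 - x))
    (fun x => -Real.exp (3 + s - 2 * x) / 2) (fun x => x * Real.exp (3 - s)) continuous_const
    (fun _ => rfl)
    (fun x => by simpa using hasDerivAt_id' x)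
    (fun x => by simpa using (he1 x).fun_neg)
    (fun x => by
      have := ((he2 s x).fun_neg).div_const 2
      refine this.congr_deriv ?_
      ring)
    (fun x => by simpa using (hasDerivAt_id' x).mul_const (Real.exp (3 - s)))
  simp only [one_mul] at g1 g2 g3 g4
  have x1 : (3/2 : ℝ) - (s + 3/2) = -s := by ring
  have x2 : (3/2 : ℝ) - 3/2 = 0 := by ring
  have x3 : (3 : ℝ) + s - 2 * (11/2) = s - 8 := by ring
  have x4 : (3 : ℝ) + s - 2 * (s + 3/2) = -s := by ring
  have x5 : (3/2 : ℝ) - (s - 3/2) = 3 - s := by ring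
  have x6 : (3/2 : ℝ) - 11/2 = -4 := by norm_num
  rw [x1, x2, x3, x4, Real.exp_zero] at g1
  rw [x1, x3, x4, x5] at g2
  rw [x5, x6] at g3
  refine ⟨fun h => ?_, fun h => ?_, fun h => ?_, fun h => ?_⟩
  · rw [g1 h]; ring
  · rw [g2 h]; ring
  · rw [g3 h]; ring
  · rw [g4 h]; ring

/-- the same with the weight `(2x-s)^2` -/
theorem conv_sq_formula (s : ℝ) :
    (s ∈ Icc (0 : ℝ) 3 → ∫ x, (2 * x - s) ^ 2 * (f0 x * f0 (s - x)) =
      (3 - s) ^ 3 / 3 + 2 * (3 - s) ^ 2 + 8 * (3 - s) + 16
        - ((3 + s) ^ 2 + 6 * (3 + s) + 14) * Real.exp (-s)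
        - ((11 - s) ^ 2 + 2 * (11 - s) + 2) * Real.exp (s - 8)) ∧
    (s ∈ Icc (3 : ℝ) 4 → ∫ x, (2 * x - s) ^ 2 * (f0 x * f0 (s - x)) =
      ((s - 3) ^ 3 / 3 + 2 * (s - 3) ^ 2 + 8 * (s - 3) + 16) * Real.exp (3 - s)
        - ((3 + s) ^ 2 + 6 * (3 + s) + 14) * Real.exp (-s)
        - ((11 - s) ^ 2 + 2 * (11 - s) + 2) * Real.exp (s - 8)) ∧
    (s ∈ Icc (4 : ℝ) 7 → ∫ x, (2 * x - s) ^ 2 * (f0 x * f0 (s - x)) =
      ((s - 3) ^ 3 / 3 + 2 * (s - 3) ^ 2 + 8 * (s - 3) + 16) * Real.exp (3 - s)
        - (2 * (11 - s) ^ 2 + 8 * (11 - s) + 16) * Real.exp (-4)) ∧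
    (s ∈ Icc (7 : ℝ) 11 → ∫ x, (2 * x - s) ^ 2 * (f0 x * f0 (s - x)) =
      (11 - s) ^ 3 / 3 * Real.exp (3 - s)) := by
  obtain ⟨g1, g2, g3, g4⟩ := generic s (fun x => (2 * x - s) ^ 2)
    (fun x => (2 * x - s) ^ 3 / 6)
    (fun x => -Real.exp (3/2 - x) * ((2 * x - s) ^ 2 + 4 * (2 * x - s) + 8))
    (fun x => -Real.exp (3 + s - 2 * x) * ((2 * x - s) ^ 2 / 2 + (2 * x - s) + 1))
    (fun x => (2 * x - s) ^ 3 / 6 * Real.exp (3 - s)) (by fun_prop)
    (fun x => by ring)
    (fun x => by
      have := ((hd1 s x).fun_pow 3).div_const 6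
      refine this.congr_deriv ?_
      push_cast
      ring)
    (fun x => by
      have := (he1 x).fun_neg.fun_mul ((((hd1 s x).fun_pow 2).fun_add ((hd1 s x).const_mul 4)).add_const 8)
      refine this.congr_deriv ?_
      push_cast
      ring)
    (fun x => by
      have := (he2 s x).fun_neg.fun_mul (((((hd1 s x).fun_pow 2).div_const 2).fun_add (hd1 s x)).add_const 1)
      refine this.congr_deriv ?_
      push_cast
      ring)
    (fun x => by
      have := (((hd1 s x).fun_pow 3).div_const 6).mul_const (Real.exp (3 - s))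
      refine this.congr_deriv ?_
      push_cast
      ring)
  have x1 : (3/2 : ℝ) - (s + 3/2) = -s := by ring
  have x2 : (3/2 : ℝ) - 3/2 = 0 := by ring
  have x3 : (3 : ℝ) + s - 2 * (11/2) = s - 8 := by ring
  have x4 : (3 : ℝ) + s - 2 * (s + 3/2) = -s := by ring
  have x5 : (3/2 : ℝ) - (s - 3/2) = 3 - s := by ring
  have x6 : (3/2 : ℝ) - 11/2 = -4 := by norm_num
  simp only [x1, x2, x3, x4, Real.exp_zero] at g1
  simp only [x1, x3, x4, x5] at g2
  simp only [x5, x6] at g3
  refine ⟨fun h => ?_, fun h => ?_, fun h => ?_, fun h => ?_⟩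
  · rw [g1 h]; ring
  · rw [g2 h]; ring
  · rw [g3 h]; ring
  · rw [g4 h]; ring

end H494.Mix
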