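import Mathlib
import Pool.Agent.H494.MixDefs

set_option autoImplicit false
open MeasureTheory Set Filter
open scoped Interval ENNReal

namespace H494.Mix

/-- real density of `αX+βY` -/
noncomputable def dens (f : ℝ → ℝ) (α β z : ℝ) : ℝ := ∫ x, f x * f ((z - α * x) / β) / β

theorem dens_meas (f : ℝ → ℝ) (hf : Measurable f) (α β : ℝ) : Measurable (dens f α β) := by
  unfold dens
  have : StronglyMeasurable (fun z : ℝ => ∫ x, f x * f ((z - α * x) / β) / β) := by
    apply StronglyMeasurable.integral_prod_right (f := fun z x : ℝ => f x * f ((z - α * x) / β) / β)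
    apply Measurable.stronglyMeasurable
    apply Measurable.div_const
    apply Measurable.mul (hf.comp measurable_snd)
    exact hf.comp (by fun_prop)
  exact this.measurable

theorem lin_subst (F : ℝ → ℝ≥0∞) (hF : Measurable F) (β c : ℝ) (hβ : 0 < β) :
    ∫⁻ y, F (c + β * y) = ENNReal.ofReal (1 / β) * ∫⁻ z, F z := by
  have h1 : ∫⁻ y, F (c + β * y) = ∫⁻ z, F (c + z) ∂(Measure.map (fun y => β * y) volume) := by
    rw [lintegral_map (by fun_prop) (by fun_prop)]
  rw [h1, Real.map_volume_mul_left hβ.ne', lintegral_smul_measure,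
    lintegral_add_left_eq_self (μ := volume) F c, abs_of_pos (by positivity)]
  simp

theorem map_density (f : ℝ → ℝ) (hf : Measurable f) (h0 : ∀ x, 0 ≤ f x) (C : ℝ)
    (hC : ∀ x, f x ≤ C) (hint : Integrable f) (α β : ℝ) (hβ : 0 < β) :
    (((volume : Measure ℝ).withDensity (fun x => ENNReal.ofReal (f x))).prod
      ((volume : Measure ℝ).withDensity (fun x => ENNReal.ofReal (f x)))).map
      (fun p : ℝ × ℝ => α * p.1 + β * p.2)
    = volume.withDensity (fun z => ENNReal.ofReal (dens f α β z)) := by
  have hfo : Measurable (fun x => ENNReal.ofReal (f x)) := hf.ennreal_ofReal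
  have hsf : SFinite ((volume : Measure ℝ).withDensity (fun x => ENNReal.ofReal (f x))) :=
    inferInstance
  refine Measure.ext_of_lintegral _ (fun φ hφ => ?_)
  rw [lintegral_map hφ (by fun_prop), lintegral_withDensity_eq_lintegral_mul _
    (dens_meas f hf α β).ennreal_ofReal hφ, lintegral_prod _ (by fun_prop),
    lintegral_withDensity_eq_lintegral_mul _ hfo (by fun_prop)]
  have hd : ∀ z, ENNReal.ofReal (dens f α β z)
      = ∫⁻ x, ENNReal.ofReal (f x) * (ENNReal.ofReal (f ((z - α * x) / β)) * ENNReal.ofReal (1 / β)) := by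
    intro z
    unfold dens
    rw [ofReal_integral_eq_lintegral_ofReal]
    · refine lintegral_congr (fun x => ?_)
      rw [← ENNReal.ofReal_mul (h0 _), ← ENNReal.ofReal_mul (h0 _)]
      congr 1; ring
    · have : Integrable (fun x => (C / β) * f x) := hint.const_mul _
      refine this.mono' ?_ (Eventually.of_forall fun x => ?_)
      · apply Measurable.aestronglyMeasurable
        apply Measurable.div_const
        exact hf.mul (hf.comp (by fun_prop))
      · rw [Real.norm_of_nonneg (by have := h0 x; have := h0 ((z - α * x) / β); positivity)]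
        have := mul_le_mul_of_nonneg_left (hC ((z - α * x) / β)) (h0 x)
        calc f x * f ((z - α * x) / β) / β ≤ f x * C / β := by gcongr
          _ = C / β * f x := by ring
    · refine Eventually.of_forall fun x => ?_
      have := h0 x; have := h0 ((z - α * x) / β); simp only [Pi.zero_apply]; positivity
  have e1 : ∀ x, (∫⁻ y, φ (α * x + β * y) ∂(volume.withDensity (fun x => ENNReal.ofReal (f x))))
      = ∫⁻ z, ENNReal.ofReal (1 / β) * ENNReal.ofReal (f ((z - α * x) / β)) * φ z := by
    intro x
    rw [lintegral_withDensity_eq_lintegral_mul _ hfo (by fun_prop)]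
    have e2 := lin_subst (fun z => ENNReal.ofReal (f ((z - α * x) / β)) * φ z) (by
      apply Measurable.mul
      · exact (hf.comp (by fun_prop)).ennreal_ofReal
      · exact hφ) β (α * x) hβ
    rw [← lintegral_const_mul] at e2
    · rw [show (fun z => ENNReal.ofReal (1 / β) * ENNReal.ofReal (f ((z - α * x) / β)) * φ z)
        = fun z => ENNReal.ofReal (1 / β) * (ENNReal.ofReal (f ((z - α * x) / β)) * φ z) from by
          ext z; ring, ← e2]
      refine lintegral_congr (fun y => ?_)
      simp only [Pi.mul_apply]
      congr 3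
      field_simp
      ring
    · apply Measurable.mul
      · exact (hf.comp (by fun_prop)).ennreal_ofReal
      · exact hφ
  simp only [Pi.mul_apply]
  simp_rw [e1, hd]
  rw [show (∫⁻ x, ENNReal.ofReal (f x) * ∫⁻ z, ENNReal.ofReal (1 / β) *
      ENNReal.ofReal (f ((z - α * x) / β)) * φ z) = ∫⁻ x, ∫⁻ z, ENNReal.ofReal (f x) *
      (ENNReal.ofReal (1 / β) * ENNReal.ofReal (f ((z - α * x) / β)) * φ z) from by
      refine lintegral_congr (fun x => ?_)
      rw [lintegral_const_mul]
      exact ((measurable_const.mul (hf.comp (by fun_prop)).ennreal_ofReal).mul hφ)]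
  rw [lintegral_lintegral_swap]
  · refine lintegral_congr (fun z => ?_)
    rw [← lintegral_mul_const]
    · refine lintegral_congr (fun x => ?_)
      ring
    · exact hfo.mul ((hf.comp (by fun_prop)).ennreal_ofReal.mul measurable_const)
  · apply Measurable.aemeasurable
    apply Measurable.mul (hfo.comp measurable_fst)
    exact ((measurable_const.mul (hf.comp (by fun_prop)).ennreal_ofReal).mul (hφ.comp measurable_snd))

theorem entropy_eq (f : ℝ → ℝ) (hf : Measurable f) (h0 : ∀ x, 0 ≤ f x) (C : ℝ)
    (hC : ∀ x, f x ≤ C) (hint : Integrable f) (α β : ℝ) (hβ : 0 < β) :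
    ∫ z, Real.negMulLog ((((((volume : Measure ℝ).withDensity (fun x => ENNReal.ofReal (f x))).prod
      ((volume : Measure ℝ).withDensity (fun x => ENNReal.ofReal (f x)))).map
      (fun p : ℝ × ℝ => α * p.1 + β * p.2)).rnDeriv volume z).toReal)
    = ∫ z, Real.negMulLog (dens f α β z) := by
  rw [map_density f hf h0 C hC hint α β hβ]
  refine integral_congr_ae ?_
  filter_upwards [Measure.rnDeriv_withDensity volume (dens_meas f hf α β).ennreal_ofReal] with z hz
  rw [hz, ENNReal.toReal_ofReal]
  unfold dens
  refine integral_nonneg (fun x => ?_)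
  have := h0 x; have := h0 ((z - α * x) / β); simp only [Pi.zero_apply]; positivity

end H494.Mix
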