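import Mathlib
import Pool.Agent.H494.MixDens

set_option autoImplicit false
open MeasureTheory Set Filter
open scoped Interval ENNReal

namespace H494.Mix

theorem W_eq_dens (ε z : ℝ) : W ε z = dens f0 (1 + ε) (1 - ε) z := rfl

theorem W_meas (ε : ℝ) : Measurable (W ε) := dens_meas f0 f0_meas _ _

theorem W_nonneg (ε z : ℝ) (h1 : ε < 1) : 0 ≤ W ε z := by
  unfold W
  refine integral_nonneg (fun x => ?_)
  have := f0_nonneg x; have := f0_nonneg ((z - (1 + ε) * x) / (1 - ε))
  have : 0 < 1 - ε := by linarith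
  simp only [Pi.zero_apply]; positivity

theorem W_integrand_le (ε z x : ℝ) (h1 : ε < 1) :
    f0 x * f0 ((z - (1 + ε) * x) / (1 - ε)) / (1 - ε) ≤ 1 / (1 - ε) * f0 x := by
  have h2 := f0_nonneg x; have := f0_nonneg ((z - (1 + ε) * x) / (1 - ε))
  have h3 : 0 < 1 - ε := by linarith
  have h4 := mul_le_mul_of_nonneg_left (f0_le_one ((z - (1 + ε) * x) / (1 - ε))) h2
  calc f0 x * f0 ((z - (1 + ε) * x) / (1 - ε)) / (1 - ε) ≤ f0 x * 1 / (1 - ε) := by gcongr
    _ = _ := by ring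

theorem W_integrand_int (ε z : ℝ) (h1 : ε < 1) :
    Integrable (fun x => f0 x * f0 ((z - (1 + ε) * x) / (1 - ε)) / (1 - ε)) := by
  refine (f0_integrable.const_mul (1 / (1 - ε))).mono' ?_ (Eventually.of_forall fun x => ?_)
  · apply Measurable.aestronglyMeasurable
    apply Measurable.div_const
    exact f0_meas.mul (f0_meas.comp (by fun_prop))
  · have h2 := f0_nonneg x; have := f0_nonneg ((z - (1 + ε) * x) / (1 - ε))
    have h3 : 0 < 1 - ε := by linarith
    rw [Real.norm_of_nonneg (by positivity)]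
    exact W_integrand_le ε z x h1

theorem W_le (ε z : ℝ) (h1 : ε < 1) : W ε z ≤ 1 / (1 - ε) * ∫ x, f0 x := by
  unfold W
  rw [← integral_const_mul]
  exact integral_mono (W_integrand_int ε z h1) (f0_integrable.const_mul _)
    (fun x => W_integrand_le ε z x h1)

theorem W_out (ε z : ℝ) (h0 : 0 ≤ ε) (h1 : ε < 1) (hz : 11 < |z|) : W ε z = 0 := by
  unfold W
  rw [integral_eq_zero_of_ae]
  refine Eventually.of_forall fun x => ?_
  simp only [Pi.zero_apply]
  by_cases hx : |x| ≤ 11 / 2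
  · rw [f0_out (x := (z - (1 + ε) * x) / (1 - ε))]
    · simp
    · have h3 : 0 < 1 - ε := by linarith
      rw [abs_div, abs_of_pos h3, lt_div_iff₀ h3]
      have := abs_sub_abs_le_abs_sub z ((1 + ε) * x)
      rw [abs_mul, abs_of_pos (by linarith : 0 < 1 + ε)] at this
      nlinarith
  · rw [f0_out (not_le.mp hx)]; simp

theorem W_integrable (ε : ℝ) (h0 : 0 ≤ ε) (h1 : ε < 1) (Φ : ℝ → ℝ) (hΦ : Measurable Φ)
    (h00 : Φ 0 = 0) (C : ℝ)
    (hC : ∀ w, 0 ≤ w → w ≤ 1 / (1 - ε) * ∫ x, f0 x → |Φ w| ≤ C) :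
    Integrable (fun z => Φ (W ε z)) := by
  have h2 : Integrable (indicator (Icc (-11 : ℝ) 11) (fun _ => C)) := by
    rw [integrable_indicator_iff measurableSet_Icc]
    exact integrableOn_const (by simp) (by simp)
  refine h2.mono' (hΦ.comp (W_meas ε)).aestronglyMeasurable (Eventually.of_forall fun z => ?_)
  by_cases hz : z ∈ Icc (-11 : ℝ) 11
  · rw [indicator_of_mem hz, Real.norm_eq_abs]
    exact hC _ (W_nonneg ε z h1) (W_le ε z h1)
  · rw [indicator_of_notMem hz]
    have : 11 < |z| := by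
      by_contra hc
      exact hz (abs_le.mp (not_lt.mp hc))
    simp [W_out ε z h0 h1 this, h00]

theorem W_int (ε : ℝ) (h0 : 0 ≤ ε) (h1 : ε < 1) : Integrable (W ε) := by
  refine W_integrable ε h0 h1 (fun w => w) measurable_id rfl (1 / (1 - ε) * ∫ x, f0 x) ?_
  intro w hw hw2
  rwa [abs_of_nonneg hw]

theorem W_mass (ε : ℝ) (h0 : 0 ≤ ε) (h1 : ε < 1) : ∫ z, W ε z = (∫ x, f0 x) ^ 2 := by
  have hβ : 0 < 1 - ε := by linarith
  have h := map_density f0 f0_meas f0_nonneg 1 f0_le_one f0_integrable (1 + ε) (1 - ε) hβ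
  have h2 := congrArg (fun μ : Measure ℝ => μ univ) h
  beta_reduce at h2
  rw [Measure.map_apply (by fun_prop) MeasurableSet.univ, preimage_univ,
    ← univ_prod_univ, Measure.prod_prod, withDensity_apply _ MeasurableSet.univ,
    withDensity_apply _ MeasurableSet.univ, Measure.restrict_univ] at h2
  rw [← ofReal_integral_eq_lintegral_ofReal f0_integrable (Eventually.of_forall f0_nonneg)] at h2
  have h3 : ∀ z, dens f0 (1 + ε) (1 - ε) z = W ε z := fun z => rfl
  simp_rw [h3] at h2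
  rw [← ofReal_integral_eq_lintegral_ofReal (W_int ε h0 h1)
    (Eventually.of_forall fun z => W_nonneg ε z h1)] at h2
  have hp : 0 ≤ ∫ x, f0 x := integral_nonneg f0_nonneg
  rw [← ENNReal.ofReal_mul hp] at h2
  have h4 := (ENNReal.ofReal_eq_ofReal_iff (by positivity)
    (integral_nonneg fun z => W_nonneg ε z h1)).mp h2
  rw [← h4]; ring

theorem W_negMulLog_int (ε : ℝ) (h0 : 0 ≤ ε) (h1 : ε < 1) (c : ℝ) :
    Integrable (fun z => Real.negMulLog (W ε z / c)) := by
  have hcont : Continuous (fun w : ℝ => Real.negMulLog (w / c)) := by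
    exact Real.continuous_negMulLog.comp (by fun_prop)
  obtain ⟨C, hC⟩ := (isCompact_Icc (a := (0 : ℝ)) (b := 1 / (1 - ε) * ∫ x, f0 x)).exists_bound_of_continuousOn
    hcont.continuousOn
  refine W_integrable ε h0 h1 (fun w => Real.negMulLog (w / c)) hcont.measurable (by simp) C ?_
  intro w hw hw2
  exact hC w ⟨hw, hw2⟩

/-- entropy of `√l X + √(1-l) Y` for the normalised density, `l = (1+ε)²/(2(1+ε²))` -/
theorem dens_eq (M : ℝ) (hM : 0 < M) (ε κ z : ℝ) (h1 : ε < 1) (hκ : 0 < κ) :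
    dens (fun x => f0 x / M) (κ * (1 + ε)) (κ * (1 - ε)) z = (κ⁻¹) * (W ε (κ⁻¹ * z) / M ^ 2) := by
  unfold dens W
  rw [← integral_div, ← integral_const_mul]
  refine integral_congr_ae (Eventually.of_forall fun x => ?_)
  have h3 : 1 - ε ≠ 0 := by linarith
  have e : (z - κ * (1 + ε) * x) / (κ * (1 - ε)) = (κ⁻¹ * z - (1 + ε) * x) / (1 - ε) := by
    field_simp
  simp only [e]
  field_simp

theorem ent_scale (M : ℝ) (hM : 0 < M) (hMi : ∫ x, f0 x = M) (ε κ : ℝ) (h0 : 0 ≤ ε) (h1 : ε < 1)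
    (hκ : 0 < κ) :
    ∫ z, Real.negMulLog (dens (fun x => f0 x / M) (κ * (1 + ε)) (κ * (1 - ε)) z)
    = Real.log κ + ∫ z, Real.negMulLog (W ε z / M ^ 2) := by
  simp_rw [dens_eq M hM ε κ _ h1 hκ]
  rw [Measure.integral_comp_mul_left (fun u => Real.negMulLog (κ⁻¹ * (W ε u / M ^ 2))) κ⁻¹]
  simp_rw [Real.negMulLog_mul]
  rw [integral_add, integral_mul_const, integral_const_mul, integral_div, W_mass ε h0 h1, hMi]
  · rw [abs_of_pos (by positivity), inv_inv]
    simp only [Real.negMulLog, smul_eq_mul, Real.log_inv]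
    field_simp
  · exact ((W_int ε h0 h1).div_const _).mul_const _
  · exact (W_negMulLog_int ε h0 h1 _).const_mul _

end H494.Mix
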