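import Mathlib
import Pool.Agent.H494.MixEnt

set_option autoImplicit false
open MeasureTheory Set Filter
open scoped Interval ENNReal

namespace H494.Mix

theorem D_conv (x y t : ℝ) (ht0 : 0 ≤ t) (ht1 : t ≤ 1) :
    max 0 (|t * x + (1 - t) * y| - 3 / 2) ≤
      t * max 0 (|x| - 3 / 2) + (1 - t) * max 0 (|y| - 3 / 2) := by
  have h1 : |t * x + (1 - t) * y| ≤ t * |x| + (1 - t) * |y| := by
    calc |t * x + (1 - t) * y| ≤ |t * x| + |(1 - t) * y| := abs_add_le _ _
      _ = t * |x| + (1 - t) * |y| := by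
        rw [abs_mul, abs_mul, abs_of_nonneg ht0, abs_of_nonneg (a := 1 - t) (by linarith)]
  have a1 := le_max_left 0 (|x| - 3 / 2)
  have a2 := le_max_right 0 (|x| - 3 / 2)
  have b1 := le_max_left 0 (|y| - 3 / 2)
  have b2 := le_max_right 0 (|y| - 3 / 2)
  have h3 : 0 ≤ 1 - t := by linarith
  apply max_le
  · positivity
  · nlinarith [mul_le_mul_of_nonneg_left a2 ht0, mul_le_mul_of_nonneg_left b2 h3]

theorem logconc (M : ℝ) (hM : 0 < M) (x y t : ℝ) (ht0 : 0 ≤ t) (ht1 : t ≤ 1) :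
    (f0 x / M) ^ t * (f0 y / M) ^ (1 - t) ≤ f0 (t * x + (1 - t) * y) / M := by
  rcases eq_or_lt_of_le ht0 with rfl | ht0'
  · simp
  rcases eq_or_lt_of_le ht1 with rfl | ht1'
  · simp
  have hR : 0 ≤ f0 (t * x + (1 - t) * y) / M := div_nonneg (f0_nonneg _) hM.le
  by_cases hx : |x| ≤ 11 / 2
  swap
  · rw [f0_out (not_le.mp hx), zero_div, Real.zero_rpow ht0'.ne', zero_mul]; exact hR
  by_cases hy : |y| ≤ 11 / 2
  swap
  · rw [f0_out (not_le.mp hy), zero_div, Real.zero_rpow (by linarith), mul_zero]; exact hR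
  have hz : |t * x + (1 - t) * y| ≤ 11 / 2 := by
    calc |t * x + (1 - t) * y| ≤ |t * x| + |(1 - t) * y| := abs_add_le _ _
      _ = t * |x| + (1 - t) * |y| := by
        rw [abs_mul, abs_mul, abs_of_nonneg ht0, abs_of_nonneg (a := 1 - t) (by linarith)]
      _ ≤ 11 / 2 := by nlinarith
  have key : ∀ u : ℝ, |u| ≤ 11 / 2 →
      f0 u / M = Real.exp (-(max 0 (|u| - 3 / 2)) - Real.log M) := by
    intro u hu
    rw [Real.exp_sub, Real.exp_log hM]
    unfold f0 fc
    rw [if_pos hu]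
  rw [key x hx, key y hy, key _ hz, ← Real.exp_mul, ← Real.exp_mul, ← Real.exp_add,
    Real.exp_le_exp]
  have := D_conv x y t ht0 ht1
  nlinarith

/-- the inequality asserted by the problem -/
def MainIneq : Prop :=
    ∀ f : ℝ → ℝ, Measurable f → (∀ x, 0 ≤ f x) → (∫ x, f x = 1) →
      (∀ x y : ℝ, ∀ t : ℝ, 0 ≤ t → t ≤ 1 →
          f x ^ t * f y ^ (1 - t) ≤ f (t * x + (1 - t) * y)) →
      ∀ l : ℝ, 0 ≤ l → l ≤ 1 →
        ∫ z, Real.negMulLog
            (((((volume : Measure ℝ).withDensity (fun x => ENNReal.ofReal (f x))).prod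
                ((volume : Measure ℝ).withDensity (fun x => ENNReal.ofReal (f x)))).map
                (fun p : ℝ × ℝ => Real.sqrt l * p.1 + Real.sqrt (1 - l) * p.2)).rnDeriv
                volume z).toReal
          ≤
        ∫ z, Real.negMulLog
            (((((volume : Measure ℝ).withDensity (fun x => ENNReal.ofReal (f x))).prod
                ((volume : Measure ℝ).withDensity (fun x => ENNReal.ofReal (f x)))).map
                (fun p : ℝ × ℝ => Real.sqrt (1 / 2 : ℝ) * p.1 + Real.sqrt (1 - (1 / 2 : ℝ)) * p.2)).rnDeriv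
                volume z).toReal

theorem reduction (H : MainIneq) (M : ℝ) (hM : 0 < M) (hMi : ∫ x, f0 x = M) (ε : ℝ) (h0 : 0 ≤ ε)
    (h1 : ε < 1) :
    (∫ z, Real.negMulLog (W ε z / M ^ 2)) - (∫ z, Real.negMulLog (W 0 z / M ^ 2)) ≤ ε ^ 2 / 2 := by
  have hf : Measurable (fun x => f0 x / M) := f0_meas.div_const _
  have hf0 : ∀ x, 0 ≤ f0 x / M := fun x => div_nonneg (f0_nonneg x) hM.le
  have hf1 : ∀ x, f0 x / M ≤ 1 / M := fun x => by gcongr; exact f0_le_one x
  have hfi : Integrable (fun x => f0 x / M) := f0_integrable.div_const _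
  have hfm : ∫ x, f0 x / M = 1 := by rw [integral_div, hMi, div_self hM.ne']
  set l : ℝ := (1 + ε) ^ 2 / (2 * (1 + ε ^ 2)) with hl
  set κ : ℝ := (Real.sqrt (2 * (1 + ε ^ 2)))⁻¹ with hκ
  have hpos : 0 < 2 * (1 + ε ^ 2) := by positivity
  have hκp : 0 < κ := by positivity
  have hκ2 : κ ^ 2 = (2 * (1 + ε ^ 2))⁻¹ := by
    rw [hκ, inv_pow, Real.sq_sqrt hpos.le]
  have hl0 : 0 ≤ l := by positivity
  have hl1 : 1 - l = (1 - ε) ^ 2 / (2 * (1 + ε ^ 2)) := by rw [hl]; field_simp; ring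
  have hl1' : l ≤ 1 := by
    have : 0 ≤ 1 - l := by rw [hl1]; positivity
    linarith
  have s1 : Real.sqrt l = κ * (1 + ε) := by
    rw [show l = (κ * (1 + ε)) ^ 2 by rw [mul_pow, hκ2, hl]; field_simp]
    exact Real.sqrt_sq (by positivity)
  have s2 : Real.sqrt (1 - l) = κ * (1 - ε) := by
    rw [show 1 - l = (κ * (1 - ε)) ^ 2 by rw [mul_pow, hκ2, hl1]; field_simp]
    exact Real.sqrt_sq (mul_nonneg hκp.le (by linarith))
  set κ0 : ℝ := (Real.sqrt 2)⁻¹ with hκ0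
  have hκ0p : 0 < κ0 := by positivity
  have s3 : Real.sqrt (1 / 2 : ℝ) = κ0 * (1 + 0) := by
    rw [hκ0]; rw [one_div, Real.sqrt_inv]; ring
  have s4 : Real.sqrt (1 - (1 / 2 : ℝ)) = κ0 * (1 - 0) := by
    rw [show (1 : ℝ) - 1 / 2 = 1 / 2 by norm_num, s3]; ring
  have h := H (fun x => f0 x / M) hf hf0 hfm (fun x y t ht0 ht1 => logconc M hM x y t ht0 ht1)
    l hl0 hl1'
  rw [s1, s2, s3, s4, entropy_eq _ hf hf0 (1 / M) hf1 hfi _ _ (mul_pos hκp (by linarith)),
    entropy_eq _ hf hf0 (1 / M) hf1 hfi _ _ (mul_pos hκ0p (by norm_num)),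
    ent_scale M hM hMi ε κ h0 h1 hκp, ent_scale M hM hMi 0 κ0 le_rfl one_pos hκ0p] at h
  have e1 : Real.log κ = -(Real.log 2 + Real.log (1 + ε ^ 2)) / 2 := by
    rw [hκ, Real.log_inv, Real.log_sqrt hpos.le, Real.log_mul (by norm_num) (by positivity)]; ring
  have e2 : Real.log κ0 = -(Real.log 2) / 2 := by
    rw [hκ0, Real.log_inv, Real.log_sqrt (by norm_num)]; ring
  have e3 : Real.log (1 + ε ^ 2) ≤ ε ^ 2 := by
    have := Real.log_le_sub_one_of_pos (show 0 < 1 + ε ^ 2 by positivity)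
    linarith
  rw [e1, e2] at h
  linarith

end H494.Mix
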