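import Mathlib
import Pool.Agent.H494.MixRed
import Pool.Agent.H494.PL

set_option autoImplicit false
open MeasureTheory Set Filter
open scoped Interval ENNReal

namespace H494.Mix

theorem W0_eq (z : ℝ) : W 0 z = ∫ x, f0 x * f0 (z - x) := by
  unfold W; simp

theorem conv_int (s : ℝ) : Integrable (fun x => f0 x * f0 (s - x)) := by
  have := W_integrand_int 0 s one_pos
  simpa using this

theorem f0_mid (x y : ℝ) : f0 x * f0 y ≤ f0 ((x + y) / 2) ^ 2 := by
  by_cases hx : |x| ≤ 11 / 2
  swap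
  · rw [f0_out (not_le.mp hx), zero_mul]; positivity
  by_cases hy : |y| ≤ 11 / 2
  swap
  · rw [f0_out (not_le.mp hy), mul_zero]; positivity
  have hz : |(x + y) / 2| ≤ 11 / 2 := by
    rw [abs_le] at *
    constructor <;> linarith [hx.1, hx.2, hy.1, hy.2]
  have h := D_conv x y (1 / 2) (by norm_num) (by norm_num)
  rw [show 1 / 2 * x + (1 - 1 / 2) * y = (x + y) / 2 by ring] at h
  unfold f0 fc
  rw [if_pos hx, if_pos hy, if_pos hz, ← Real.exp_add, ← Real.exp_nat_mul, Real.exp_le_exp]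
  push_cast
  linarith

theorem W0_mid (s η : ℝ) : W 0 (s + η) * W 0 (s - η) ≤ W 0 s ^ 2 := by
  have hm : ∀ c : ℝ, Measurable (fun x => f0 x * f0 (c - x)) := fun c =>
    f0_meas.mul (f0_meas.comp (by fun_prop))
  have hn : ∀ c x : ℝ, 0 ≤ f0 x * f0 (c - x) := fun c x => mul_nonneg (f0_nonneg _) (f0_nonneg _)
  have h := PL.pl1 (fun x => ENNReal.ofReal (f0 x * f0 (s + η - x)))
    (fun x => ENNReal.ofReal (f0 x * f0 (s - η - x)))
    (fun x => ENNReal.ofReal (f0 x * f0 (s - x)))
    (hm _).ennreal_ofReal (hm _).ennreal_ofReal (hm _).ennreal_ofReal (by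
      intro x y
      rw [← ENNReal.ofReal_mul (hn _ _), ← ENNReal.ofReal_pow (hn _ _)]
      apply ENNReal.ofReal_le_ofReal
      have h1 := f0_mid x y
      have h2 := f0_mid (s + η - x) (s - η - y)
      rw [show (s + η - x + (s - η - y)) / 2 = s - (x + y) / 2 by ring] at h2
      have p1 := f0_nonneg x
      have p2 := f0_nonneg y
      have p3 := f0_nonneg (s + η - x)
      have p4 := f0_nonneg (s - η - y)
      calc f0 x * f0 (s + η - x) * (f0 y * f0 (s - η - y))
          = (f0 x * f0 y) * (f0 (s + η - x) * f0 (s - η - y)) := by ring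
        _ ≤ f0 ((x + y) / 2) ^ 2 * f0 (s - (x + y) / 2) ^ 2 := by gcongr
        _ = _ := by ring)
  rw [← ofReal_integral_eq_lintegral_ofReal (conv_int _) (Eventually.of_forall (hn _)),
    ← ofReal_integral_eq_lintegral_ofReal (conv_int _) (Eventually.of_forall (hn _)),
    ← ofReal_integral_eq_lintegral_ofReal (conv_int _) (Eventually.of_forall (hn _)),
    ← W0_eq, ← W0_eq, ← W0_eq, ← ENNReal.ofReal_mul (W_nonneg 0 _ one_pos),
    ← ENNReal.ofReal_pow (W_nonneg 0 _ one_pos)] at h
  exact (ENNReal.ofReal_le_ofReal_iff (sq_nonneg _)).mp h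

/-- second difference of `-log W0` is nonnegative -/
theorem psi_second_diff (s η : ℝ) (h0 : 0 < W 0 s) (h1 : 0 < W 0 (s + η)) (h2 : 0 < W 0 (s - η)) :
    0 ≤ -Real.log (W 0 (s + η)) + -Real.log (W 0 (s - η)) - 2 * -Real.log (W 0 s) := by
  have h := W0_mid s η
  have h3 := Real.log_le_log (mul_pos h1 h2) h
  rw [Real.log_mul h1.ne' h2.ne', Real.log_pow] at h3
  push_cast at h3
  linarith

end H494.Mix
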