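import Mathlib

set_option autoImplicit false
open MeasureTheory Set Filter Topology
open scoped Interval

-- bounds for the mixed density, by helper600
namespace H494.MixX

noncomputable def fc (x : ℝ) : ℝ := Real.exp (-(max 0 (|x| - 3 / 2)))
noncomputable def f0 (x : ℝ) : ℝ := if |x| ≤ 11 / 2 then fc x else 0
/-- density of `(1+ε)X+(1-ε)Y` (up to the normalisation of `f0`) -/
noncomputable def W (ε z : ℝ) : ℝ := ∫ x, f0 x * f0 ((z - (1 + ε) * x) / (1 - ε)) / (1 - ε)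

theorem fc_nonneg (x : ℝ) : 0 ≤ fc x := (Real.exp_pos _).le

theorem fc_le_one (x : ℝ) : fc x ≤ 1 := by
  unfold fc
  rw [Real.exp_le_one_iff]
  have := le_max_left (0:ℝ) (|x| - 3/2)
  linarith

theorem fc_lower (x : ℝ) (h : |x| ≤ 11/2) : Real.exp (-4) ≤ fc x := by
  unfold fc
  apply Real.exp_le_exp.2
  have : max 0 (|x| - 3/2) ≤ 4 := max_le (by norm_num) (by linarith)
  linarith

theorem fc_continuous : Continuous fc := by
  unfold fc
  fun_prop

theorem fc_even (x : ℝ) : fc (-x) = fc x := by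
  unfold fc
  rw [abs_neg]

theorem exp_aux (a b : ℝ) (ha : 0 ≤ a) (hab : a ≤ b) :
    |Real.exp (-a) - Real.exp (-b)| ≤ b - a := by
  have h1 : Real.exp (-b) = Real.exp (-a) * Real.exp (-(b - a)) := by
    rw [← Real.exp_add]; congr 1; ring
  have h2 : -(b - a) + 1 ≤ Real.exp (-(b - a)) := Real.add_one_le_exp _
  have h3 : Real.exp (-a) ≤ 1 := by rw [Real.exp_le_one_iff]; linarith
  have h4 : 0 < Real.exp (-a) := Real.exp_pos _
  have h5 : Real.exp (-b) ≤ Real.exp (-a) := Real.exp_le_exp.2 (by linarith)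
  rw [abs_of_nonneg (by linarith), h1]
  nlinarith

theorem exp_aux' (a b : ℝ) (ha : 0 ≤ a) (hb : 0 ≤ b) :
    |Real.exp (-a) - Real.exp (-b)| ≤ |a - b| := by
  rcases le_total a b with h | h
  · rw [abs_sub_comm a b, abs_of_nonneg (by linarith : (0:ℝ) ≤ b - a)]
    exact exp_aux a b ha h
  · rw [abs_of_nonneg (by linarith : (0:ℝ) ≤ a - b), abs_sub_comm]
    exact exp_aux b a hb h

theorem fc_lip (x y : ℝ) : |fc x - fc y| ≤ |x - y| := by
  unfold fc
  refine (exp_aux' _ _ (le_max_left _ _) (le_max_left _ _)).trans ?_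
  have h1 : |max 0 (|x| - 3 / 2) - max 0 (|y| - 3 / 2)| ≤ |(|x| - 3/2) - (|y| - 3/2)| := by
    have := abs_max_sub_max_le_abs (|x| - 3/2) (|y| - 3/2) 0
    rwa [max_comm _ (0:ℝ), max_comm _ (0:ℝ)] at this
  refine h1.trans ?_
  have : (|x| - 3/2) - (|y| - 3/2) = |x| - |y| := by ring
  rw [this]
  exact abs_abs_sub_abs_le x y

theorem fc_diff (x : ℝ) (h1 : x ≠ 3/2) (h2 : x ≠ -(3/2)) : DifferentiableAt ℝ fc x := by
  rcases lt_or_ge |x| (3/2) with h | h
  · have : fc =ᶠ[𝓝 x] fun _ => (1:ℝ) := by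
      have ho : IsOpen {y : ℝ | |y| < 3/2} := isOpen_lt continuous_abs continuous_const
      filter_upwards [ho.mem_nhds h] with y hy
      have hy' : |y| < 3/2 := hy
      unfold fc
      rw [max_eq_left (by linarith)]
      simp
    exact (differentiableAt_const _).congr_of_eventuallyEq this
  · have hne : |x| ≠ 3/2 := by
      intro he
      rcases (abs_eq (by norm_num : (0:ℝ) ≤ 3/2)).1 he with h' | h'
      · exact h1 h'
      · exact h2 h'
    have hgt : 3/2 < |x| := lt_of_le_of_ne h (Ne.symm hne)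
    have hx0 : x ≠ 0 := by
      rintro rfl
      simp at hgt
      linarith
    have : fc =ᶠ[𝓝 x] fun y => Real.exp (-(|y| - 3/2)) := by
      have ho : IsOpen {y : ℝ | 3/2 < |y|} := isOpen_lt continuous_const continuous_abs
      filter_upwards [ho.mem_nhds hgt] with y hy
      have hy' : 3/2 < |y| := hy
      unfold fc
      rw [max_eq_right (by linarith)]
    refine DifferentiableAt.congr_of_eventuallyEq ?_ this
    have h3 : DifferentiableAt ℝ (fun y : ℝ => |y|) x := differentiableAt_abs hx0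
    exact ((h3.sub_const _).neg).exp

theorem f0_eq (x : ℝ) (h : |x| ≤ 11/2) : f0 x = fc x := if_pos h
theorem f0_zero (x : ℝ) (h : 11/2 < |x|) : f0 x = 0 := if_neg (not_le.2 h)
theorem f0_nonneg (x : ℝ) : 0 ≤ f0 x := by
  unfold f0; split_ifs; exacts [fc_nonneg x, le_rfl]
theorem f0_le_one (x : ℝ) : f0 x ≤ 1 := by
  unfold f0; split_ifs; exacts [fc_le_one x, zero_le_one]
theorem f0_even (x : ℝ) : f0 (-x) = f0 x := by
  unfold f0; rw [abs_neg, fc_even]
theorem f0_measurable : Measurable f0 := by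
  unfold f0
  exact Measurable.ite (measurableSet_le measurable_norm measurable_const) fc_continuous.measurable
    measurable_const

theorem W_even (ε z : ℝ) (h0 : 0 ≤ ε) (h1 : ε < 1) : W ε (-z) = W ε z := by
  unfold W
  rw [← integral_neg_eq_self]
  congr 1
  ext x
  rw [f0_even]
  have : (-z - (1 + ε) * -x) / (1 - ε) = -((z - (1 + ε) * x) / (1 - ε)) := by ring
  rw [this, f0_even]

theorem W_abs (ε z : ℝ) (h0 : 0 ≤ ε) (h1 : ε < 1) : W ε z = W ε |z| := by
  rcases abs_cases z with ⟨h, -⟩ | ⟨h, -⟩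
  · rw [h]
  · rw [h, W_even ε z h0 h1]

theorem W_zero_out (ε z : ℝ) (h0 : 0 ≤ ε) (h1 : ε < 1) (hz : 11 ≤ |z|) : W ε z = 0 := by
  rw [W_abs ε z h0 h1]
  unfold W
  have hne : ∀ᵐ x : ℝ, x ≠ 11/2 := by
    rw [ae_iff]
    simp
  have : (fun x => f0 x * f0 ((|z| - (1 + ε) * x) / (1 - ε)) / (1 - ε)) =ᵐ[volume] fun _ => (0:ℝ) := by
    filter_upwards [hne] with x hx
    rcases lt_or_ge (11/2) |x| with h | h
    · rw [f0_zero x h]; simp
    · have hxl : x < 11/2 := lt_of_le_of_ne ((abs_le.1 h).2) hx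
      have h2 : 11/2 < (|z| - (1 + ε) * x) / (1 - ε) := by
        rw [lt_div_iff₀ (by linarith)]
        nlinarith
      rw [f0_zero ((|z| - (1 + ε) * x) / (1 - ε)) (lt_of_lt_of_le h2 (le_abs_self _))]
      simp
  rw [integral_congr_ae this]
  simp

/-- substitution `x = 11/2 - (11-z)(1-τ)/(1+ε)` -/
theorem W_formula (ε z : ℝ) (h0 : 0 ≤ ε) (h1 : ε < 1) (hz0 : 0 ≤ z) (hz : z < 11) :
    W ε z = (11 - z) / (1 - ε ^ 2) * ∫ τ in (0 : ℝ)..1,
      f0 (11 / 2 - (11 - z) * (1 - τ) / (1 + ε)) * f0 (11 / 2 - (11 - z) * τ / (1 - ε)) := by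
  set c : ℝ := (11 - z) / (1 + ε) with hc
  have hcpos : 0 < c := div_pos (by linarith) (by linarith)
  have he1 : (1:ℝ) - ε ≠ 0 := by linarith
  have he2 : (1:ℝ) + ε ≠ 0 := by linarith
  unfold W
  set F : ℝ → ℝ := fun x => f0 x * f0 ((z - (1 + ε) * x) / (1 - ε)) / (1 - ε) with hF
  -- change of variables on the line
  have h2 : ∫ τ, F (c * τ + (11/2 - c)) = |c⁻¹| • ∫ x, F x := by
    have h3 : ∫ τ, (fun y => F (y + (11/2 - c))) (c * τ) = |c⁻¹| • ∫ y, F (y + (11/2 - c)) :=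
      Measure.integral_comp_mul_left (fun y => F (y + (11/2 - c))) c
    rw [integral_add_right_eq_self] at h3
    exact h3
  have h4 : ∫ x, F x = c * ∫ τ, F (c * τ + (11/2 - c)) := by
    rw [h2, abs_of_pos (inv_pos.2 hcpos), smul_eq_mul]
    field_simp
  rw [h4]
  have hx : ∀ τ : ℝ, c * τ + (11/2 - c) = 11 / 2 - (11 - z) * (1 - τ) / (1 + ε) := by
    intro τ
    rw [hc]
    field_simp
    ring
  have hy : ∀ τ : ℝ, (z - (1 + ε) * (c * τ + (11/2 - c))) / (1 - ε) = 11 / 2 - (11 - z) * τ / (1 - ε) := by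
    intro τ
    rw [hc]
    field_simp
    ring
  have h5 : ∀ τ : ℝ, F (c * τ + (11/2 - c)) =
      f0 (11 / 2 - (11 - z) * (1 - τ) / (1 + ε)) * f0 (11 / 2 - (11 - z) * τ / (1 - ε)) / (1 - ε) := by
    intro τ
    simp only [hF]
    rw [hy, hx]
  simp_rw [h5]
  rw [integral_div]
  have h6 : ∫ τ, f0 (11 / 2 - (11 - z) * (1 - τ) / (1 + ε)) * f0 (11 / 2 - (11 - z) * τ / (1 - ε))
      = ∫ τ in (0 : ℝ)..1, f0 (11 / 2 - (11 - z) * (1 - τ) / (1 + ε)) *
          f0 (11 / 2 - (11 - z) * τ / (1 - ε)) := by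
    rw [intervalIntegral.integral_of_le zero_le_one, ← integral_Icc_eq_integral_Ioc]
    symm
    apply setIntegral_eq_integral_of_forall_compl_eq_zero
    intro τ hτ
    rw [mem_Icc, not_and_or, not_le, not_le] at hτ
    rcases hτ with h | h
    · have : 11/2 < 11 / 2 - (11 - z) * τ / (1 - ε) := by
        have : (11 - z) * τ / (1 - ε) < 0 := div_neg_of_neg_of_pos (mul_neg_of_pos_of_neg (by linarith) h) (by linarith)
        linarith
      rw [f0_zero (11 / 2 - (11 - z) * τ / (1 - ε)) (lt_of_lt_of_le this (le_abs_self _)), mul_zero]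
    · have : 11/2 < 11 / 2 - (11 - z) * (1 - τ) / (1 + ε) := by
        have : (11 - z) * (1 - τ) / (1 + ε) < 0 := div_neg_of_neg_of_pos (mul_neg_of_pos_of_neg (by linarith) (by linarith)) (by linarith)
        linarith
      rw [f0_zero (11 / 2 - (11 - z) * (1 - τ) / (1 + ε)) (lt_of_lt_of_le this (le_abs_self _)), zero_mul]
  rw [h6, hc]
  have h7 : (1:ℝ) - ε ^ 2 ≠ 0 := by nlinarith
  have h8 : (1:ℝ) - ε ^ 2 = (1 - ε) * (1 + ε) := by ring
  rw [h8]
  field_simp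

/-- the integrand of `W_formula` -/
noncomputable def Gi (ε z τ : ℝ) : ℝ :=
  f0 (11 / 2 - (11 - z) * (1 - τ) / (1 + ε)) * f0 (11 / 2 - (11 - z) * τ / (1 - ε))

theorem Gi_nonneg (ε z τ : ℝ) : 0 ≤ Gi ε z τ := mul_nonneg (f0_nonneg _) (f0_nonneg _)
theorem Gi_le_one (ε z τ : ℝ) : Gi ε z τ ≤ 1 :=
  mul_le_one₀ (f0_le_one _) (f0_nonneg _) (f0_le_one _)
theorem Gi_measurable (ε z : ℝ) : Measurable (Gi ε z) := by
  unfold Gi
  have h1 : Measurable fun τ : ℝ => 11 / 2 - (11 - z) * (1 - τ) / (1 + ε) := by fun_prop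
  have h2 : Measurable fun τ : ℝ => 11 / 2 - (11 - z) * τ / (1 - ε) := by fun_prop
  exact (f0_measurable.comp h1).mul (f0_measurable.comp h2)
theorem Gi_int (ε z a b : ℝ) : IntervalIntegrable (Gi ε z) volume a b := by
  refine (intervalIntegrable_const (c := (1:ℝ))).mono_fun
    (Gi_measurable ε z).aestronglyMeasurable ?_
  filter_upwards with τ
  rw [Real.norm_of_nonneg (Gi_nonneg ε z τ)]
  simpa using Gi_le_one ε z τ

theorem W_form (ε z : ℝ) (h0 : 0 ≤ ε) (h1 : ε < 1) (hz0 : 0 ≤ z) (hz : z < 11) :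
    W ε z = (11 - z) / (1 - ε ^ 2) * ∫ τ in (0 : ℝ)..1, Gi ε z τ := W_formula ε z h0 h1 hz0 hz

theorem Gi_integral_le (ε z : ℝ) : ∫ τ in (0 : ℝ)..1, Gi ε z τ ≤ 1 := by
  have := intervalIntegral.integral_mono_on (zero_le_one) (Gi_int ε z 0 1)
    (intervalIntegrable_const (c := (1:ℝ))) (fun τ _ => Gi_le_one ε z τ)
  simpa using this

theorem Gi_integral_nonneg (ε z : ℝ) : 0 ≤ ∫ τ in (0 : ℝ)..1, Gi ε z τ :=
  intervalIntegral.integral_nonneg zero_le_one (fun τ _ => Gi_nonneg ε z τ)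

theorem W_upper (ε z : ℝ) (h0 : 0 ≤ ε) (h1 : ε ≤ 1 / 2) (hz : |z| ≤ 11) :
    W ε z ≤ 2 * (11 - |z|) := by
  rcases eq_or_lt_of_le hz with h | h
  · rw [W_zero_out ε z h0 (by linarith) h.ge, h]
    norm_num
  · rw [W_abs ε z h0 (by linarith), W_form ε |z| h0 (by linarith) (abs_nonneg z) h]
    have h2 : (11 - |z|) / (1 - ε ^ 2) ≤ 2 * (11 - |z|) := by
      rw [div_le_iff₀ (by nlinarith)]
      have h5 : (0:ℝ) < 11 - |z| := by linarith
      have h6 : (1:ℝ)/2 ≤ 1 - ε ^ 2 := by nlinarith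
      nlinarith
    have h3 := Gi_integral_le ε |z|
    have h4 : 0 ≤ (11 - |z|) / (1 - ε ^ 2) := div_nonneg (by linarith) (by nlinarith)
    calc (11 - |z|) / (1 - ε ^ 2) * ∫ τ in (0 : ℝ)..1, Gi ε |z| τ
        ≤ (11 - |z|) / (1 - ε ^ 2) * 1 := mul_le_mul_of_nonneg_left h3 h4
      _ ≤ 2 * (11 - |z|) := by linarith

theorem Gi_lower (z τ : ℝ) (hz : |z| < 11) (hτ : τ ∈ Icc (0:ℝ) 1) :
    Real.exp (-8) ≤ Gi 0 |z| τ := by
  have hz0 := abs_nonneg z
  have h1 : |11 / 2 - (11 - |z|) * (1 - τ) / (1 + 0)| ≤ 11/2 := by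
    have ha : 0 ≤ (11 - |z|) * (1 - τ) := mul_nonneg (by linarith) (by linarith [hτ.2])
    have hb : (11 - |z|) * (1 - τ) ≤ 11 := by nlinarith [hτ.1, hτ.2]
    rw [abs_le]
    constructor
    · rw [add_zero, div_one]; linarith
    · rw [add_zero, div_one]; linarith
  have h2 : |11 / 2 - (11 - |z|) * τ / (1 - 0)| ≤ 11/2 := by
    have ha : 0 ≤ (11 - |z|) * τ := mul_nonneg (by linarith) (by linarith [hτ.1])
    have hb : (11 - |z|) * τ ≤ 11 := by nlinarith [hτ.1, hτ.2]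
    rw [abs_le]
    constructor
    · rw [sub_zero, div_one]; linarith
    · rw [sub_zero, div_one]; linarith
  unfold Gi
  rw [f0_eq _ h1, f0_eq _ h2]
  calc Real.exp (-8) = Real.exp (-4) * Real.exp (-4) := by rw [← Real.exp_add]; norm_num
    _ ≤ _ := mul_le_mul (fc_lower _ h1) (fc_lower _ h2) (Real.exp_pos _).le (fc_nonneg _)

theorem W0_lower (z : ℝ) (hz : |z| ≤ 11) :
    Real.exp (-8) * (11 - |z|) ≤ W 0 z := by
  rcases eq_or_lt_of_le hz with h | h
  · rw [W_zero_out 0 z le_rfl (by norm_num) h.ge, h]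
    norm_num
  · rw [W_abs 0 z le_rfl (by norm_num), W_form 0 |z| le_rfl (by norm_num) (abs_nonneg z) h]
    have h1 : Real.exp (-8) ≤ ∫ τ in (0 : ℝ)..1, Gi 0 |z| τ := by
      have := intervalIntegral.integral_mono_on (zero_le_one)
        (intervalIntegrable_const (c := Real.exp (-8))) (Gi_int 0 |z| 0 1)
        (fun τ hτ => Gi_lower z τ h hτ)
      simpa using this
    have h2 : (11 - |z|) / (1 - 0 ^ 2) = 11 - |z| := by norm_num
    rw [h2, mul_comm]
    exact mul_le_mul_of_nonneg_left h1 (by linarith)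

theorem mul_diff (a b c d p q : ℝ) (ha : |a| ≤ 1) (hd : |d| ≤ 1)
    (h1 : |a - c| ≤ p) (h2 : |b - d| ≤ q) : |a * b - c * d| ≤ p + q := by
  have : a * b - c * d = a * (b - d) + (a - c) * d := by ring
  rw [this]
  refine (abs_add_le _ _).trans ?_
  rw [abs_mul, abs_mul]
  have h3 : |a| * |b - d| ≤ 1 * |b - d| := mul_le_mul_of_nonneg_right ha (abs_nonneg _)
  have h4 : |a - c| * |d| ≤ |a - c| * 1 := mul_le_mul_of_nonneg_left hd (abs_nonneg _)
  linarith

theorem Gi_diff (ε z τ : ℝ) (h0 : 0 ≤ ε) (h1 : ε ≤ 1/2) (hz0 : 0 ≤ z) (hz : z < 11)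
    (hτ : τ ∈ Icc (0:ℝ) 1) :
    |Gi ε z τ - Gi 0 z τ| ≤ 33 * ε + (Ioi (1 - ε)).indicator (fun _ => (1:ℝ)) τ := by
  by_cases hc : τ ≤ 1 - ε
  · have hin : τ ∉ Ioi (1 - ε) := by simpa using hc
    rw [indicator_of_notMem hin, add_zero]
    have hz' : 0 < 11 - z := by linarith
    have hτ0 := hτ.1
    have hτ1 := hτ.2
    have k1 : 0 ≤ (11 - z) * (1 - τ) := mul_nonneg hz'.le (by linarith)
    have k2 : 0 ≤ (11 - z) * τ := mul_nonneg hz'.le hτ0
    have k3 : (11 - z) * (1 - τ) ≤ 11 := by nlinarith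
    have k4 : (11 - z) * τ ≤ 11 := by nlinarith
    have hx : |11 / 2 - (11 - z) * (1 - τ) / (1 + ε)| ≤ 11/2 := by
      have ha : 0 ≤ (11 - z) * (1 - τ) / (1 + ε) := div_nonneg k1 (by linarith)
      have hb : (11 - z) * (1 - τ) / (1 + ε) ≤ 11 := by
        rw [div_le_iff₀ (by linarith)]; nlinarith
      rw [abs_le]; constructor <;> linarith
    have hy : |11 / 2 - (11 - z) * τ / (1 - ε)| ≤ 11/2 := by
      have ha : 0 ≤ (11 - z) * τ / (1 - ε) := div_nonneg k2 (by linarith)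
      have hb : (11 - z) * τ / (1 - ε) ≤ 11 := by
        rw [div_le_iff₀ (by linarith)]; nlinarith
      rw [abs_le]; constructor <;> linarith
    have hx0 : |11 / 2 - (11 - z) * (1 - τ) / (1 + 0)| ≤ 11/2 := by
      rw [add_zero, div_one, abs_le]; constructor <;> linarith
    have hy0 : |11 / 2 - (11 - z) * τ / (1 - 0)| ≤ 11/2 := by
      rw [sub_zero, div_one, abs_le]; constructor <;> linarith
    unfold Gi
    rw [f0_eq _ hx, f0_eq _ hy, f0_eq _ hx0, f0_eq _ hy0]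
    have e1 : |fc (11 / 2 - (11 - z) * (1 - τ) / (1 + ε)) - fc (11 / 2 - (11 - z) * (1 - τ) / (1 + 0))|
        ≤ 11 * ε := by
      refine (fc_lip _ _).trans ?_
      have : (11 / 2 - (11 - z) * (1 - τ) / (1 + ε)) - (11 / 2 - (11 - z) * (1 - τ) / (1 + 0))
          = (11 - z) * (1 - τ) * ε / (1 + ε) := by
        have : (1:ℝ) + ε ≠ 0 := by linarith
        field_simp
        ring
      rw [this, abs_of_nonneg (div_nonneg (mul_nonneg k1 h0) (by linarith)), div_le_iff₀ (by linarith)]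
      nlinarith
    have e2 : |fc (11 / 2 - (11 - z) * τ / (1 - ε)) - fc (11 / 2 - (11 - z) * τ / (1 - 0))|
        ≤ 22 * ε := by
      refine (fc_lip _ _).trans ?_
      have : (11 / 2 - (11 - z) * τ / (1 - ε)) - (11 / 2 - (11 - z) * τ / (1 - 0))
          = -((11 - z) * τ * ε / (1 - ε)) := by
        have : (1:ℝ) - ε ≠ 0 := by linarith
        field_simp
        ring
      rw [this, abs_neg, abs_of_nonneg (div_nonneg (mul_nonneg k2 h0) (by linarith)), div_le_iff₀ (by linarith)]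
      nlinarith
    have := mul_diff _ _ _ _ _ _ (by rw [abs_of_nonneg (fc_nonneg _)]; exact fc_le_one _)
      (by rw [abs_of_nonneg (fc_nonneg _)]; exact fc_le_one _) e1 e2
    linarith
  · have hin : τ ∈ Ioi (1 - ε) := by simpa using hc
    rw [indicator_of_mem hin]
    have a1 := Gi_nonneg ε z τ
    have a2 := Gi_nonneg 0 z τ
    have a3 := Gi_le_one ε z τ
    have a4 := Gi_le_one 0 z τ
    rw [abs_le]; constructor <;> linarith

theorem ind_integral (ε : ℝ) (h0 : 0 ≤ ε) (h1 : ε ≤ 1/2) :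
    ∫ τ in (0:ℝ)..1, (33 * ε + (Ioi (1 - ε)).indicator (fun _ => (1:ℝ)) τ) = 34 * ε := by
  have hi : IntervalIntegrable ((Ioi (1 - ε)).indicator (fun _ => (1:ℝ))) volume 0 1 := by
    refine (intervalIntegrable_const (c := (1:ℝ))).mono_fun
      ((measurable_const.indicator measurableSet_Ioi).aestronglyMeasurable) ?_
    filter_upwards with τ
    by_cases h : τ ∈ Ioi (1 - ε)
    · rw [indicator_of_mem h]
    · rw [indicator_of_notMem h]; simp
  rw [intervalIntegral.integral_add intervalIntegrable_const hi]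
  rw [intervalIntegral.integral_of_le (f := (Ioi (1 - ε)).indicator (fun _ => (1:ℝ))) zero_le_one,
    setIntegral_indicator measurableSet_Ioi]
  have : Ioc (0:ℝ) 1 ∩ Ioi (1 - ε) = Ioc (1 - ε) 1 := by
    ext x
    simp only [mem_inter_iff, mem_Ioc, mem_Ioi]
    constructor
    · rintro ⟨⟨_, h2⟩, h3⟩; exact ⟨h3, h2⟩
    · rintro ⟨h2, h3⟩; exact ⟨⟨by linarith, h3⟩, h2⟩
  rw [this]
  simp
  rw [max_eq_left h0]
  ring

theorem Gi_integral_diff (ε z : ℝ) (h0 : 0 ≤ ε) (h1 : ε ≤ 1/2) (hz0 : 0 ≤ z) (hz : z < 11) :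
    |(∫ τ in (0:ℝ)..1, Gi ε z τ) - ∫ τ in (0:ℝ)..1, Gi 0 z τ| ≤ 34 * ε := by
  rw [← intervalIntegral.integral_sub (Gi_int ε z 0 1) (Gi_int 0 z 0 1)]
  have hi : IntervalIntegrable (fun τ => (33 * ε + (Ioi (1 - ε)).indicator (fun _ => (1:ℝ)) τ)) volume 0 1 := by
    refine intervalIntegrable_const.add ?_
    refine (intervalIntegrable_const (c := (1:ℝ))).mono_fun
      ((measurable_const.indicator measurableSet_Ioi).aestronglyMeasurable) ?_
    filter_upwards with τ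
    by_cases h : τ ∈ Ioi (1 - ε)
    · rw [indicator_of_mem h]
    · rw [indicator_of_notMem h]; simp
  rw [← ind_integral ε h0 h1]
  calc |∫ τ in (0:ℝ)..1, (Gi ε z τ - Gi 0 z τ)|
      ≤ ∫ τ in (0:ℝ)..1, |Gi ε z τ - Gi 0 z τ| :=
        intervalIntegral.abs_integral_le_integral_abs zero_le_one
    _ ≤ _ := intervalIntegral.integral_mono_on zero_le_one
        ((Gi_int ε z 0 1).sub (Gi_int 0 z 0 1)).abs hi
        (fun τ hτ => Gi_diff ε z τ h0 h1 hz0 hz hτ)

theorem W_lip' (ε z : ℝ) (h0 : 0 ≤ ε) (h1 : ε ≤ 1/2) (hz : |z| ≤ 11) :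
    |W ε z - W 0 z| ≤ 70 * ε * (11 - |z|) := by
  rcases eq_or_lt_of_le hz with h | h
  · rw [W_zero_out ε z h0 (by linarith) h.ge, W_zero_out 0 z le_rfl (by norm_num) h.ge, h]
    norm_num
  · have hz0 := abs_nonneg z
    rw [W_abs ε z h0 (by linarith), W_abs 0 z le_rfl (by norm_num),
      W_form ε |z| h0 (by linarith) hz0 h, W_form 0 |z| le_rfl (by norm_num) hz0 h]
    have e := Gi_integral_diff ε |z| h0 h1 hz0 h
    have e1 := Gi_integral_nonneg ε |z|
    have e2 := Gi_integral_le ε |z|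
    set I := ∫ τ in (0:ℝ)..1, Gi ε |z| τ
    set J := ∫ τ in (0:ℝ)..1, Gi 0 |z| τ
    have hk : (11 - |z|) / (1 - 0 ^ 2) = 11 - |z| := by norm_num
    rw [hk]
    have hpos : 0 < 11 - |z| := by linarith
    have hq : (1:ℝ)/2 ≤ 1 - ε ^ 2 := by nlinarith
    have : (11 - |z|) / (1 - ε ^ 2) * I - (11 - |z|) * J =
        (11 - |z|) * ((I - J) + I * (ε ^ 2 / (1 - ε ^ 2))) := by
      have : (1:ℝ) - ε ^ 2 ≠ 0 := by linarith
      field_simp
      ring
    rw [this, abs_mul, abs_of_pos hpos]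
    have e3 : ε ^ 2 / (1 - ε ^ 2) ≤ ε := by
      rw [div_le_iff₀ (by linarith)]; nlinarith
    have e4 : 0 ≤ ε ^ 2 / (1 - ε ^ 2) := div_nonneg (sq_nonneg _) (by linarith)
    have e5 : |(I - J) + I * (ε ^ 2 / (1 - ε ^ 2))| ≤ 35 * ε := by
      refine (abs_add_le _ _).trans ?_
      rw [abs_of_nonneg (mul_nonneg e1 e4)]
      nlinarith
    nlinarith

theorem W_lip : ∃ K : ℝ, ∀ ε z : ℝ, 0 ≤ ε → ε ≤ 1 / 2 → |z| ≤ 11 →
    |W ε z - W 0 z| ≤ K * ε * (11 - |z|) := ⟨70, fun ε z h0 h1 hz => W_lip' ε z h0 h1 hz⟩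

/-- the integrand without truncation -/
noncomputable def Hi (z τ e : ℝ) : ℝ :=
  fc (11 / 2 - (11 - z) * (1 - τ) / (1 + e)) * fc (11 / 2 - (11 - z) * τ / (1 - e))

theorem Hi_eq (ε z τ : ℝ) (h0 : 0 ≤ ε) (h1 : ε ≤ 1/2) (h2 : ε ≤ z / 11) (hz0 : 0 < z) (hz : z < 11)
    (hτ : τ ∈ Icc (0:ℝ) 1) : Gi ε z τ = Hi z τ ε := by
  have hz' : 0 < 11 - z := by linarith
  have hτ0 := hτ.1
  have hτ1 := hτ.2
  have k1 : 0 ≤ (11 - z) * (1 - τ) := mul_nonneg hz'.le (by linarith)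
  have k2 : 0 ≤ (11 - z) * τ := mul_nonneg hz'.le hτ0
  have k3 : (11 - z) * (1 - τ) ≤ 11 := by nlinarith
  have k4 : (11 - z) * τ ≤ 11 - z := by nlinarith
  have h3 : 11 * ε ≤ z := by linarith
  have hx : |11 / 2 - (11 - z) * (1 - τ) / (1 + ε)| ≤ 11/2 := by
    have ha : 0 ≤ (11 - z) * (1 - τ) / (1 + ε) := div_nonneg k1 (by linarith)
    have hb : (11 - z) * (1 - τ) / (1 + ε) ≤ 11 := by
      rw [div_le_iff₀ (by linarith)]; nlinarith
    rw [abs_le]; constructor <;> linarith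
  have hy : |11 / 2 - (11 - z) * τ / (1 - ε)| ≤ 11/2 := by
    have ha : 0 ≤ (11 - z) * τ / (1 - ε) := div_nonneg k2 (by linarith)
    have hb : (11 - z) * τ / (1 - ε) ≤ 11 := by
      rw [div_le_iff₀ (by linarith)]; nlinarith
    rw [abs_le]; constructor <;> linarith
  unfold Gi Hi
  rw [f0_eq _ hx, f0_eq _ hy]

theorem Hi_lip (z τ e : ℝ) (h1 : |e| ≤ 1/2) (hz0 : 0 ≤ z) (hz : z < 11) (hτ : τ ∈ Icc (0:ℝ) 1) :
    |Hi z τ e - Hi z τ 0| ≤ 44 * |e| := by
  have hz' : 0 < 11 - z := by linarith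
  have hτ0 := hτ.1
  have hτ1 := hτ.2
  have k1 : 0 ≤ (11 - z) * (1 - τ) := mul_nonneg hz'.le (by linarith)
  have k2 : 0 ≤ (11 - z) * τ := mul_nonneg hz'.le hτ0
  have k3 : (11 - z) * (1 - τ) ≤ 11 := by nlinarith
  have k4 : (11 - z) * τ ≤ 11 := by nlinarith
  obtain ⟨he1, he2⟩ := abs_le.1 h1
  have hp : (1:ℝ)/2 ≤ 1 + e := by linarith
  have hq : (1:ℝ)/2 ≤ 1 - e := by linarith
  have e0 := abs_nonneg e
  unfold Hi
  have e1 : |fc (11 / 2 - (11 - z) * (1 - τ) / (1 + e)) - fc (11 / 2 - (11 - z) * (1 - τ) / (1 + 0))|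
      ≤ 22 * |e| := by
    refine (fc_lip _ _).trans ?_
    have : (11 / 2 - (11 - z) * (1 - τ) / (1 + e)) - (11 / 2 - (11 - z) * (1 - τ) / (1 + 0))
        = (11 - z) * (1 - τ) * e / (1 + e) := by
      have : (1:ℝ) + e ≠ 0 := by linarith
      field_simp
      ring
    rw [this, abs_div, abs_mul, abs_of_nonneg k1, abs_of_nonneg (by linarith : (0:ℝ) ≤ 1 + e),
      div_le_iff₀ (by linarith)]
    nlinarith
  have e2 : |fc (11 / 2 - (11 - z) * τ / (1 - e)) - fc (11 / 2 - (11 - z) * τ / (1 - 0))|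
      ≤ 22 * |e| := by
    refine (fc_lip _ _).trans ?_
    have : (11 / 2 - (11 - z) * τ / (1 - e)) - (11 / 2 - (11 - z) * τ / (1 - 0))
        = -((11 - z) * τ * e / (1 - e)) := by
      have : (1:ℝ) - e ≠ 0 := by linarith
      field_simp
      ring
    rw [this, abs_neg, abs_div, abs_mul, abs_of_nonneg k2, abs_of_nonneg (by linarith : (0:ℝ) ≤ 1 - e),
      div_le_iff₀ (by linarith)]
    nlinarith
  have := mul_diff _ _ _ _ _ _ (by rw [abs_of_nonneg (fc_nonneg _)]; exact fc_le_one _)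
    (by rw [abs_of_nonneg (fc_nonneg _)]; exact fc_le_one _) e1 e2
  linarith

theorem Hi_swap (z τ e : ℝ) : Hi z (1 - τ) e = Hi z τ (-e) := by
  unfold Hi
  rw [mul_comm]
  congr 2
  · ring

theorem Hi_cont (z e : ℝ) : Continuous fun τ => Hi z τ e := by
  unfold Hi
  have h1 : Continuous fun τ : ℝ => 11 / 2 - (11 - z) * (1 - τ) / (1 + e) := by fun_prop
  have h2 : Continuous fun τ : ℝ => 11 / 2 - (11 - z) * τ / (1 - e) := by fun_prop
  exact (fc_continuous.comp h1).mul (fc_continuous.comp h2)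

theorem Hi_int_even (z e : ℝ) : ∫ τ in (0:ℝ)..1, Hi z τ (-e) = ∫ τ in (0:ℝ)..1, Hi z τ e := by
  have h1 : ∫ τ in (0:ℝ)..1, (fun t => Hi z t e) (1 - τ) = ∫ τ in (1 - 1 : ℝ)..(1 - 0), Hi z τ e :=
    intervalIntegral.integral_comp_sub_left (fun t => Hi z t e) 1
  simp only [Hi_swap] at h1
  rw [h1]
  norm_num

theorem sym_slope (g : ℝ → ℝ) (hg : DifferentiableAt ℝ g 0) :
    Tendsto (fun e : ℝ => (g e + g (-e) - 2 * g 0) / e) (𝓝[>] 0) (𝓝 0) := by
  have h1 : HasDerivAt g (deriv g 0) 0 := hg.hasDerivAt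
  have h2 : HasDerivAt (fun e : ℝ => g (-e)) (deriv g 0 * (-1)) 0 := by
    have h3 : HasDerivAt g (deriv g 0) (-(0:ℝ)) := by rw [neg_zero]; exact h1
    exact h3.comp (0:ℝ) (hasDerivAt_neg (0:ℝ))
  have h4 := h1.add h2
  have h5 := h4.tendsto_slope_zero_right
  have h6 : deriv g 0 + deriv g 0 * (-1) = 0 := by ring
  rw [h6] at h5
  refine h5.congr ?_
  intro e
  simp only [Pi.add_apply, zero_add, neg_zero, smul_eq_mul]
  ring

theorem Hi_diff (z τ : ℝ) (h1 : 11 / 2 - (11 - z) * (1 - τ) ≠ 3/2)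
    (h2 : 11 / 2 - (11 - z) * (1 - τ) ≠ -(3/2)) (h3 : 11 / 2 - (11 - z) * τ ≠ 3/2)
    (h4 : 11 / 2 - (11 - z) * τ ≠ -(3/2)) : DifferentiableAt ℝ (Hi z τ) 0 := by
  unfold Hi
  have a1 : DifferentiableAt ℝ (fun e : ℝ => 11 / 2 - (11 - z) * (1 - τ) / (1 + e)) 0 := by
    apply DifferentiableAt.const_sub
    apply DifferentiableAt.div (differentiableAt_const _)
    · fun_prop
    · norm_num
  have a2 : DifferentiableAt ℝ (fun e : ℝ => 11 / 2 - (11 - z) * τ / (1 - e)) 0 := by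
    apply DifferentiableAt.const_sub
    apply DifferentiableAt.div (differentiableAt_const _)
    · fun_prop
    · norm_num
  apply DifferentiableAt.mul
  · apply DifferentiableAt.comp (g := fc) (f := fun e : ℝ => 11 / 2 - (11 - z) * (1 - τ) / (1 + e)) 0 _ a1
    rw [add_zero, div_one]
    exact fc_diff _ h1 h2
  · apply DifferentiableAt.comp (g := fc) (f := fun e : ℝ => 11 / 2 - (11 - z) * τ / (1 - e)) 0 _ a2
    rw [sub_zero, div_one]
    exact fc_diff _ h3 h4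

theorem ae_ne (c : ℝ) : ∀ᵐ x : ℝ, x ≠ c := by
  rw [ae_iff]
  simp

theorem Q_lim (z : ℝ) (hz0 : 0 < z) (hz : z < 11) :
    Tendsto (fun e : ℝ => ((∫ τ in (0:ℝ)..1, Hi z τ e) - ∫ τ in (0:ℝ)..1, Hi z τ 0) / e)
      (𝓝[>] 0) (𝓝 0) := by
  have key : Tendsto (fun e : ℝ => ∫ τ in (0:ℝ)..1, (Hi z τ e + Hi z τ (-e) - 2 * Hi z τ 0) / e)
      (𝓝[>] 0) (𝓝 (∫ τ in (0:ℝ)..1, (0:ℝ))) := by
    refine intervalIntegral.tendsto_integral_filter_of_dominated_convergence
      (fun _ => (88:ℝ)) ?_ ?_ intervalIntegrable_const ?_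
    · filter_upwards with e
      refine Continuous.aestronglyMeasurable ?_
      exact (((Hi_cont z e).add (Hi_cont z (-e))).sub (continuous_const.mul (Hi_cont z 0))).div_const _
    · have hmem : Ioc (0:ℝ) (1/2) ∈ 𝓝[>] (0:ℝ) := Ioc_mem_nhdsGT (by norm_num)
      filter_upwards [hmem] with e he
      filter_upwards with τ hτ
      rw [uIoc_of_le zero_le_one] at hτ
      have hτ' : τ ∈ Icc (0:ℝ) 1 := ⟨hτ.1.le, hτ.2⟩
      have hepos : 0 < e := he.1
      have b1 := Hi_lip z τ e (by rw [abs_of_pos hepos]; exact he.2) hz0.le hz hτ'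
      have b2 := Hi_lip z τ (-e) (by rw [abs_neg, abs_of_pos hepos]; exact he.2) hz0.le hz hτ'
      rw [abs_neg] at b2
      rw [abs_of_pos hepos] at b1 b2
      rw [Real.norm_eq_abs, abs_div, abs_of_pos hepos, div_le_iff₀ hepos]
      have : Hi z τ e + Hi z τ (-e) - 2 * Hi z τ 0 =
        (Hi z τ e - Hi z τ 0) + (Hi z τ (-e) - Hi z τ 0) := by ring
      rw [this]
      refine (abs_add_le _ _).trans ?_
      linarith
    · have hp : (11:ℝ) - z ≠ 0 := by linarith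
      filter_upwards [ae_ne (1 - 4 / (11 - z)), ae_ne (1 - 7 / (11 - z)), ae_ne (4 / (11 - z)),
        ae_ne (7 / (11 - z))] with τ h1 h2 h3 h4 _
      refine sym_slope (Hi z τ) (Hi_diff z τ ?_ ?_ ?_ ?_)
      · intro h; apply h1; field_simp; linarith
      · intro h; apply h2; field_simp; linarith
      · intro h; apply h3; field_simp; linarith
      · intro h; apply h4; field_simp; linarith
  rw [intervalIntegral.integral_zero] at key
  have key2 := key.const_mul (1/2)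
  rw [mul_zero] at key2
  refine key2.congr ?_
  intro e
  rw [intervalIntegral.integral_div]
  have hi := fun e' : ℝ => (Hi_cont z e').intervalIntegrable (μ := volume) 0 1
  rw [intervalIntegral.integral_sub ((hi e).add (hi (-e))) ((hi 0).const_mul 2),
    intervalIntegral.integral_add (hi e) (hi (-e)), intervalIntegral.integral_const_mul, Hi_int_even]
  ring

theorem W_deriv (z : ℝ) (hz0 : z ≠ 0) (hz : |z| < 11) :
    Tendsto (fun ε : ℝ => (W ε z - W 0 z) / ε) (𝓝[>] 0) (𝓝 0) := by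
  have hp : 0 < |z| := abs_pos.2 hz0
  set Q : ℝ → ℝ := fun e => ∫ τ in (0:ℝ)..1, Hi |z| τ e with hQ
  have h1 : Tendsto (fun e : ℝ => (Q e - Q 0) / e) (𝓝[>] 0) (𝓝 0) := Q_lim |z| hp hz
  have hid : Tendsto (fun e : ℝ => e) (𝓝[>] 0) (𝓝 0) := tendsto_nhdsWithin_of_tendsto_nhds tendsto_id
  have h2 : Tendsto (fun e : ℝ => (11 - |z|) * ((Q e - Q 0) / e / (1 - e ^ 2) + Q 0 * (e / (1 - e ^ 2))))
      (𝓝[>] 0) (𝓝 0) := by
    have h3 : Tendsto (fun e : ℝ => 1 - e ^ 2) (𝓝[>] 0) (𝓝 1) := by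
      have := (hid.pow 2).const_sub 1
      simpa using this
    have h4 := h1.div h3 one_ne_zero
    have h5 := (hid.div h3 one_ne_zero).const_mul (Q 0)
    have h6 := (h4.add h5).const_mul (11 - |z|)
    simpa using h6
  refine h2.congr' ?_
  have hmem : Ioc (0:ℝ) (min (1/2) (|z| / 11)) ∈ 𝓝[>] (0:ℝ) :=
    Ioc_mem_nhdsGT (lt_min (by norm_num) (by positivity))
  filter_upwards [hmem] with e he
  have he0 : 0 < e := he.1
  have he1 : e ≤ 1/2 := he.2.trans (min_le_left _ _)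
  have he2 : e ≤ |z| / 11 := he.2.trans (min_le_right _ _)
  rw [W_abs e z he0.le (by linarith), W_abs 0 z le_rfl (by norm_num),
    W_form e |z| he0.le (by linarith) hp.le hz, W_form 0 |z| le_rfl (by norm_num) hp.le hz]
  have i1 : ∫ τ in (0:ℝ)..1, Gi e |z| τ = Q e := by
    apply intervalIntegral.integral_congr
    intro τ hτ
    rw [uIcc_of_le zero_le_one] at hτ
    exact Hi_eq e |z| τ he0.le he1 he2 hp hz hτ
  have i2 : ∫ τ in (0:ℝ)..1, Gi 0 |z| τ = Q 0 := by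
    apply intervalIntegral.integral_congr
    intro τ hτ
    rw [uIcc_of_le zero_le_one] at hτ
    exact Hi_eq 0 |z| τ le_rfl (by norm_num) (by positivity) hp hz hτ
  rw [i1, i2]
  have hne : (1:ℝ) - e ^ 2 ≠ 0 := by nlinarith
  have hne2 : (1:ℝ) - 0 ^ 2 = 1 := by norm_num
  rw [hne2]
  field_simp
  ring

theorem W_measurable (ε : ℝ) : Measurable (W ε) := by
  unfold W
  have h1 : Measurable (fun p : ℝ × ℝ => f0 p.2 * f0 ((p.1 - (1 + ε) * p.2) / (1 - ε)) / (1 - ε)) := by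
    have a1 : Measurable fun p : ℝ × ℝ => (p.1 - (1 + ε) * p.2) / (1 - ε) := by fun_prop
    exact ((f0_measurable.comp measurable_snd).mul (f0_measurable.comp a1)).div_const _
  exact (h1.stronglyMeasurable.integral_prod_right').measurable

/-- the chi-square distance is `o(ε²)` -/
theorem chi_limit :
    Tendsto (fun ε : ℝ => (∫ z in Ioo (-11 : ℝ) 11, (W ε z - W 0 z) ^ 2 / W 0 z) / ε ^ 2)
      (𝓝[>] 0) (𝓝 0) := by
  have key : Tendsto (fun ε : ℝ => ∫ z in Ioo (-11 : ℝ) 11, ((W ε z - W 0 z) / ε) ^ 2 / W 0 z)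
      (𝓝[>] 0) (𝓝 (∫ z in Ioo (-11 : ℝ) 11, (0:ℝ))) := by
    refine tendsto_integral_filter_of_dominated_convergence
      (fun _ => 53900 * Real.exp 8) ?_ ?_ ?_ ?_
    · filter_upwards with e
      exact (((((W_measurable e).sub (W_measurable 0)).div_const e).pow_const 2).div
        (W_measurable 0)).aestronglyMeasurable
    · have hmem : Ioc (0:ℝ) (1/2) ∈ 𝓝[>] (0:ℝ) := Ioc_mem_nhdsGT (by norm_num)
      filter_upwards [hmem] with e he
      filter_upwards [ae_restrict_mem measurableSet_Ioo] with z hz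
      have hz' : |z| < 11 := abs_lt.2 hz
      have b1 := W_lip' e z he.1.le he.2 hz'.le
      have b2 := W0_lower z hz'.le
      have he0 : 0 < e := he.1
      have hpos : 0 < 11 - |z| := by linarith
      have hW : 0 < W 0 z := lt_of_lt_of_le (mul_pos (Real.exp_pos _) hpos) b2
      have b3 : |(W e z - W 0 z) / e| ≤ 70 * (11 - |z|) := by
        rw [abs_div, abs_of_pos he0, div_le_iff₀ he0]
        linarith
      rw [Real.norm_eq_abs, abs_div, abs_of_pos hW, abs_of_nonneg (sq_nonneg _), div_le_iff₀ hW]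
      have b4 : ((W e z - W 0 z) / e) ^ 2 ≤ (70 * (11 - |z|)) ^ 2 := by
        rw [← sq_abs]
        exact pow_le_pow_left₀ (abs_nonneg _) b3 2
      have b5 : Real.exp 8 * Real.exp (-8) = 1 := by rw [← Real.exp_add]; norm_num
      have b6 : 53900 * Real.exp 8 * (Real.exp (-8) * (11 - |z|)) ≤ 53900 * Real.exp 8 * W 0 z :=
        mul_le_mul_of_nonneg_left b2 (by positivity)
      have b7 : 53900 * Real.exp 8 * (Real.exp (-8) * (11 - |z|)) = 53900 * (11 - |z|) := by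
        rw [show 53900 * Real.exp 8 * (Real.exp (-8) * (11 - |z|)) =
          53900 * (Real.exp 8 * Real.exp (-8)) * (11 - |z|) by ring, b5]
        ring
      have b8 : 11 - |z| ≤ 11 := by linarith [abs_nonneg z]
      nlinarith
    · exact integrable_const _
    · have h0 : ∀ᵐ z ∂(volume.restrict (Ioo (-11 : ℝ) 11)), z ≠ 0 := ae_restrict_of_ae (ae_ne 0)
      filter_upwards [ae_restrict_mem measurableSet_Ioo, h0] with z hz hz0
      have hz' : |z| < 11 := abs_lt.2 hz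
      have h1 := ((W_deriv z hz0 hz').pow 2).div_const (W 0 z)
      simpa using h1
  rw [integral_zero] at key
  refine key.congr ?_
  intro e
  rw [← integral_div]
  congr 1
  ext z
  ring

end H494.MixX
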