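import Mathlib
import Pool.Agent.H494.MixDefs
import Pool.Agent.H494.MixXsol

set_option autoImplicit false
open MeasureTheory Set Filter Topology
open scoped Interval

namespace H494.Mix

theorem W_even (ε z : ℝ) (h0 : 0 ≤ ε) (h1 : ε < 1) : W ε (-z) = W ε z := 
  H494.MixX.W_even ε z h0 h1

theorem W_zero_out (ε z : ℝ) (h0 : 0 ≤ ε) (h1 : ε < 1) (hz : 11 ≤ |z|) : W ε z = 0 := 
  H494.MixX.W_zero_out ε z h0 h1 hz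

/-- substitution `x = 11/2 - (11-z)(1-τ)/(1+ε)` -/
theorem W_formula (ε z : ℝ) (h0 : 0 ≤ ε) (h1 : ε < 1) (hz0 : 0 ≤ z) (hz : z < 11) :
    W ε z = (11 - z) / (1 - ε ^ 2) * ∫ τ in (0 : ℝ)..1,
      f0 (11 / 2 - (11 - z) * (1 - τ) / (1 + ε)) * f0 (11 / 2 - (11 - z) * τ / (1 - ε)) := 
  H494.MixX.W_formula ε z h0 h1 hz0 hz

theorem W_upper (ε z : ℝ) (h0 : 0 ≤ ε) (h1 : ε ≤ 1 / 2) (hz : |z| ≤ 11) :
    W ε z ≤ 2 * (11 - |z|) := 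
  H494.MixX.W_upper ε z h0 h1 hz

theorem W0_lower (z : ℝ) (hz : |z| ≤ 11) :
    Real.exp (-8) * (11 - |z|) ≤ W 0 z := 
  H494.MixX.W0_lower z hz

theorem W_lip : ∃ K : ℝ, ∀ ε z : ℝ, 0 ≤ ε → ε ≤ 1 / 2 → |z| ≤ 11 →
    |W ε z - W 0 z| ≤ K * ε * (11 - |z|) := 
  H494.MixX.W_lip

theorem W_deriv (z : ℝ) (hz0 : z ≠ 0) (hz : |z| < 11) :
    Tendsto (fun ε : ℝ => (W ε z - W 0 z) / ε) (𝓝[>] 0) (𝓝 0) := 
  H494.MixX.W_deriv z hz0 hz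

/-- the chi-square distance is `o(ε²)` -/
theorem chi_limit :
    Tendsto (fun ε : ℝ => (∫ z in Ioo (-11 : ℝ) 11, (W ε z - W 0 z) ^ 2 / W 0 z) / ε ^ 2)
      (𝓝[>] 0) (𝓝 0) := 
  H494.MixX.chi_limit

end H494.Mix
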