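import Mathlib
import Pool.Agent.H494.MixMid
import Pool.Agent.H494.MixX

set_option autoImplicit false
open MeasureTheory Set Filter
open scoped Interval ENNReal

namespace H494.Mix

noncomputable def psi (z : ℝ) : ℝ := -Real.log (W 0 z)
noncomputable def chi (ε : ℝ) : ℝ := ∫ z in Ioo (-11 : ℝ) 11, (W ε z - W 0 z) ^ 2 / W 0 z
noncomputable def Dd (ε : ℝ) (p : ℝ × ℝ) : ℝ :=
  psi ((p.1 + p.2) + ε * (p.1 - p.2)) + psi ((p.1 + p.2) - ε * (p.1 - p.2)) - 2 * psi (p.1 + p.2)
noncomputable def μ0 : Measure ℝ := volume.withDensity (fun x => ENNReal.ofReal (f0 x))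

instance : SFinite μ0 := by unfold μ0; infer_instance

theorem psi_meas : Measurable psi := ((W_meas 0).log).neg

theorem law (ε : ℝ) (h1 : ε < 1) :
    (μ0.prod μ0).map (fun p : ℝ × ℝ => (1 + ε) * p.1 + (1 - ε) * p.2)
      = volume.withDensity (fun z => ENNReal.ofReal (W ε z)) :=
  map_density f0 f0_meas f0_nonneg 1 f0_le_one f0_integrable (1 + ε) (1 - ε) (by linarith)

theorem abs_log_le (x : ℝ) (hx : 0 < x) : |Real.log x| ≤ x + 1 / x := by
  have h1 := Real.log_le_sub_one_of_pos hx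
  have h2 := Real.one_sub_inv_le_log_of_pos hx
  have h3 : 0 < 1 / x := by positivity
  rw [← one_div] at h2
  rw [abs_le]; constructor <;> linarith

theorem bdd_int (Φ : ℝ → ℝ) (hΦ : Measurable Φ) (C : ℝ)
    (hin : ∀ z, |z| < 11 → |Φ z| ≤ C) (hout : ∀ z, 11 ≤ |z| → Φ z = 0) : Integrable Φ := by
  have h2 : Integrable (indicator (Icc (-11 : ℝ) 11) (fun _ => C)) := by
    rw [integrable_indicator_iff measurableSet_Icc]
    exact integrableOn_const (by simp) (by simp)
  refine h2.mono' hΦ.aestronglyMeasurable (Eventually.of_forall fun z => ?_)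
  by_cases hz : |z| < 11
  · rw [indicator_of_mem (show z ∈ Icc (-11 : ℝ) 11 from abs_le.mp hz.le), Real.norm_eq_abs]
    exact hin z hz
  · rw [hout z (not_lt.mp hz), norm_zero]
    apply indicator_nonneg
    intro _ _
    have := hin 0 (by norm_num)
    exact (abs_nonneg _).trans this

theorem W0_pos (z : ℝ) (hz : |z| < 11) : 0 < W 0 z := by
  have h := W0_lower z hz.le
  have : 0 < Real.exp (-8) * (11 - |z|) := mul_pos (Real.exp_pos _) (by linarith)
  linarith

theorem Wpsi_int (ε : ℝ) (h0 : 0 ≤ ε) (h1 : ε ≤ 1 / 2) : Integrable (fun z => W ε z * psi z) := by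
  refine bdd_int _ ((W_meas ε).mul psi_meas) (44 * 11 + 2 * Real.exp 8) (fun z hz => ?_)
    (fun z hz => ?_)
  · have hp := W0_pos z hz
    have hl := W0_lower z hz.le
    have hu := W_upper ε z h0 h1 hz.le
    have hu0 := W_upper 0 z le_rfl (by norm_num) hz.le
    have hn := W_nonneg ε z (by linarith)
    have ha := abs_nonneg z
    have hlog := abs_log_le _ hp
    rw [abs_mul, abs_of_nonneg hn]
    unfold psi
    rw [abs_neg]
    have h3 : 1 / W 0 z ≤ Real.exp 8 / (11 - |z|) := by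
      rw [div_le_div_iff₀ hp (by linarith)]
      have : Real.exp 8 * (Real.exp (-8) * (11 - |z|)) ≤ Real.exp 8 * W 0 z := by gcongr
      rw [← mul_assoc, ← Real.exp_add] at this
      simpa using this
    have h4 : 0 < 11 - |z| := by linarith
    have h5 : 2 * (11 - |z|) * (Real.exp 8 / (11 - |z|)) = 2 * Real.exp 8 := by
      field_simp
    calc W ε z * |Real.log (W 0 z)| ≤ (2 * (11 - |z|)) * (2 * (11 - |z|) + Real.exp 8 / (11 - |z|)) := by
          gcongr
          linarith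
      _ = 4 * (11 - |z|) * (11 - |z|) + 2 * Real.exp 8 := by rw [mul_add, h5]; ring
      _ ≤ 44 * 11 + 2 * Real.exp 8 := by nlinarith
  · rw [W_zero_out ε z h0 (by linarith) hz, zero_mul]

theorem psi_int_law (ε : ℝ) (h0 : 0 ≤ ε) (h1 : ε ≤ 1 / 2) :
    Integrable (fun p : ℝ × ℝ => psi ((p.1 + p.2) + ε * (p.1 - p.2))) (μ0.prod μ0) ∧
    ∫ p : ℝ × ℝ, psi ((p.1 + p.2) + ε * (p.1 - p.2)) ∂(μ0.prod μ0) = ∫ z, W ε z * psi z := by
  have hfun : (fun p : ℝ × ℝ => psi ((p.1 + p.2) + ε * (p.1 - p.2)))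
      = psi ∘ (fun p : ℝ × ℝ => (1 + ε) * p.1 + (1 - ε) * p.2) := by
    ext p; simp only [Function.comp]; congr 1; ring
  have hm : Measurable (fun p : ℝ × ℝ => (1 + ε) * p.1 + (1 - ε) * p.2) := by fun_prop
  have hn : ∀ z, (ENNReal.ofReal (W ε z)).toReal = W ε z := fun z =>
    ENNReal.toReal_ofReal (W_nonneg ε z (by linarith))
  constructor
  · rw [hfun, ← integrable_map_measure psi_meas.aestronglyMeasurable hm.aemeasurable, law ε (by linarith)]
    rw [integrable_withDensity_iff_integrable_smul' (W_meas ε).ennreal_ofReal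
      (Eventually.of_forall fun z => ENNReal.ofReal_lt_top)]
    simp_rw [hn, smul_eq_mul]
    exact Wpsi_int ε h0 h1
  · rw [show (∫ p : ℝ × ℝ, psi ((p.1 + p.2) + ε * (p.1 - p.2)) ∂(μ0.prod μ0))
        = ∫ p : ℝ × ℝ, psi ((1 + ε) * p.1 + (1 - ε) * p.2) ∂(μ0.prod μ0) from by
        refine integral_congr_ae (Eventually.of_forall fun p => ?_)
        simp only; congr 1; ring]
    rw [← integral_map hm.aemeasurable psi_meas.aestronglyMeasurable, law ε (by linarith),
      integral_withDensity_eq_integral_toReal_smul (W_meas ε).ennreal_ofReal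
      (Eventually.of_forall fun z => ENNReal.ofReal_lt_top)]
    simp_rw [hn, smul_eq_mul]

theorem psi_int_law' (ε : ℝ) (h0 : 0 ≤ ε) (h1 : ε ≤ 1 / 2) :
    Integrable (fun p : ℝ × ℝ => psi ((p.1 + p.2) - ε * (p.1 - p.2))) (μ0.prod μ0) ∧
    ∫ p : ℝ × ℝ, psi ((p.1 + p.2) - ε * (p.1 - p.2)) ∂(μ0.prod μ0) = ∫ z, W ε z * psi z := by
  obtain ⟨hi, he⟩ := psi_int_law ε h0 h1
  have hfun : (fun p : ℝ × ℝ => psi ((p.1 + p.2) - ε * (p.1 - p.2)))
      = (fun p : ℝ × ℝ => psi ((p.1 + p.2) + ε * (p.1 - p.2))) ∘ Prod.swap := by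
    ext p; simp only [Function.comp, Prod.fst_swap, Prod.snd_swap]; congr 1; ring
  constructor
  · rw [hfun]; exact hi.swap
  · rw [← he, ← integral_prod_swap]
    refine integral_congr_ae (Eventually.of_forall fun p => ?_)
    simp only [Prod.fst_swap, Prod.snd_swap]; congr 1; ring

theorem Dd_int (ε : ℝ) (h0 : 0 ≤ ε) (h1 : ε ≤ 1 / 2) :
    Integrable (Dd ε) (μ0.prod μ0) ∧
    ∫ p, Dd ε p ∂(μ0.prod μ0) = 2 * (∫ z, W ε z * psi z) - 2 * (∫ z, W 0 z * psi z) := by
  obtain ⟨hi, he⟩ := psi_int_law ε h0 h1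
  obtain ⟨hi', he'⟩ := psi_int_law' ε h0 h1
  obtain ⟨hi0, he0⟩ := psi_int_law 0 le_rfl (by norm_num)
  simp only [zero_mul, add_zero] at hi0 he0
  have h2 : Integrable (fun p : ℝ × ℝ => 2 * psi (p.1 + p.2)) (μ0.prod μ0) := hi0.const_mul 2
  constructor
  · exact (hi.add hi').sub h2
  · unfold Dd
    have h3 : Integrable (fun p : ℝ × ℝ => psi ((p.1 + p.2) + ε * (p.1 - p.2)) +
      psi ((p.1 + p.2) - ε * (p.1 - p.2))) (μ0.prod μ0) := hi.add hi'
    rw [integral_sub h3 h2, integral_add hi hi', he, he', integral_const_mul, he0]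
    ring

theorem chi_int (ε : ℝ) (h0 : 0 ≤ ε) (h1 : ε ≤ 1 / 2) :
    Integrable (fun z => (W ε z - W 0 z) ^ 2 / W 0 z) := by
  refine bdd_int _ ((((W_meas ε).sub (W_meas 0)).pow_const 2).div (W_meas 0)) (88 * Real.exp 8)
    (fun z hz => ?_) (fun z hz => ?_)
  · have hp := W0_pos z hz
    have hl := W0_lower z hz.le
    have hu := W_upper ε z h0 h1 hz.le
    have hu0 := W_upper 0 z le_rfl (by norm_num) hz.le
    have hn := W_nonneg ε z (by linarith)
    have ha := abs_nonneg z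
    have h4 : 0 < 11 - |z| := by linarith
    rw [abs_of_nonneg (by positivity), div_le_iff₀ hp]
    have h5 : (W ε z - W 0 z) ^ 2 ≤ 4 * (11 - |z|) ^ 2 := by
      have : |W ε z - W 0 z| ≤ 2 * (11 - |z|) := by
        rw [abs_le]; constructor <;> linarith
      calc (W ε z - W 0 z) ^ 2 = |W ε z - W 0 z| ^ 2 := (sq_abs _).symm
        _ ≤ (2 * (11 - |z|)) ^ 2 := by gcongr
        _ = _ := by ring
    calc (W ε z - W 0 z) ^ 2 ≤ 4 * (11 - |z|) ^ 2 := h5
      _ ≤ 88 * (11 - |z|) := by nlinarith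
      _ = 88 * (Real.exp 8 * Real.exp (-8)) * (11 - |z|) := by rw [← Real.exp_add]; norm_num
      _ = 88 * Real.exp 8 * (Real.exp (-8) * (11 - |z|)) := by ring
      _ ≤ 88 * Real.exp 8 * W 0 z := by gcongr
  · rw [W_zero_out ε z h0 (by linarith) hz, W_zero_out 0 z le_rfl one_pos hz]; simp

theorem chi_eq (ε : ℝ) (h0 : 0 ≤ ε) (h1 : ε ≤ 1 / 2) :
    chi ε = ∫ z, (W ε z - W 0 z) ^ 2 / W 0 z := by
  unfold chi
  refine setIntegral_eq_integral_of_forall_compl_eq_zero (fun z hz => ?_)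
  have : 11 ≤ |z| := by
    by_contra hc
    exact hz (abs_lt.mp (not_le.mp hc))
  rw [W_zero_out ε z h0 (by linarith) this, W_zero_out 0 z le_rfl one_pos this]; simp

theorem ptwise (w w0 : ℝ) (hw : 0 ≤ w) (hw0 : 0 < w0) :
    (w - w0) * (-Real.log w0) - (w - w0) ^ 2 / w0 - (w - w0)
      ≤ Real.negMulLog w - Real.negMulLog w0 := by
  unfold Real.negMulLog
  rcases eq_or_lt_of_le hw with rfl | hw
  · simp only [Real.log_zero]
    have : (0 - w0) ^ 2 / w0 = w0 := by field_simp; ring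
    rw [this]; linarith
  · have h := Real.log_le_sub_one_of_pos (div_pos hw hw0)
    rw [Real.log_div hw.ne' hw0.ne'] at h
    have h2 : (w - w0) ^ 2 / w0 + (w - w0) = w * (w / w0 - 1) := by field_simp; ring
    have h3 := mul_le_mul_of_nonneg_left h hw.le
    nlinarith

theorem gibbs (ε : ℝ) (h0 : 0 ≤ ε) (h1 : ε ≤ 1 / 2) :
    (∫ p, Dd ε p ∂(μ0.prod μ0)) / 2 - chi ε ≤
      (∫ z, Real.negMulLog (W ε z)) - ∫ z, Real.negMulLog (W 0 z) := by
  rw [(Dd_int ε h0 h1).2, chi_eq ε h0 h1]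
  have i1 := Wpsi_int ε h0 h1
  have i2 := Wpsi_int 0 le_rfl (by norm_num)
  have i3 := chi_int ε h0 h1
  have i4 := W_int ε h0 (by linarith)
  have i5 := W_int 0 le_rfl one_pos
  have i6 : Integrable (fun z => Real.negMulLog (W ε z)) := by
    simpa using W_negMulLog_int ε h0 (by linarith) 1
  have i7 : Integrable (fun z => Real.negMulLog (W 0 z)) := by
    simpa using W_negMulLog_int 0 le_rfl one_pos 1
  have hmass : (∫ z, W ε z) - ∫ z, W 0 z = 0 := by
    rw [W_mass ε h0 (by linarith), W_mass 0 le_rfl one_pos]; ring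
  have hmain : (∫ z, (((W ε z * psi z - W 0 z * psi z) - (W ε z - W 0 z) ^ 2 / W 0 z)
      - (W ε z - W 0 z))) ≤ ∫ z, (Real.negMulLog (W ε z) - Real.negMulLog (W 0 z)) := by
    refine integral_mono (((i1.sub i2).sub i3).sub (i4.sub i5)) (i6.sub i7) (fun z => ?_)
    simp only
    by_cases hz : |z| < 11
    · have := ptwise (W ε z) (W 0 z) (W_nonneg ε z (by linarith)) (W0_pos z hz)
      unfold psi
      linarith
    · rw [W_zero_out ε z h0 (by linarith) (not_lt.mp hz), W_zero_out 0 z le_rfl one_pos (not_lt.mp hz)]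
      simp
  have j1 : Integrable (fun z => W ε z * psi z - W 0 z * psi z) := i1.sub i2
  have j2 : Integrable (fun z => (W ε z * psi z - W 0 z * psi z) - (W ε z - W 0 z) ^ 2 / W 0 z) :=
    j1.sub i3
  have j3 : Integrable (fun z => W ε z - W 0 z) := i4.sub i5
  rw [integral_sub i6 i7, integral_sub j2 j3, integral_sub j1 i3,
    integral_sub i1 i2, integral_sub i4 i5, hmass] at hmain
  linarith

end H494.Mix
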