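import Mathlib

set_option autoImplicit false
open MeasureTheory Set
open scoped Interval

-- numeric certificate by helper54
namespace H494.MixNum

/-- explicit pieces of a log-concave function `g` (and derivatives `G'`, `G''`) -/
noncomputable def G1 (s : ℝ) : ℝ := 5 - s - Real.exp (-s) - Real.exp (s - 8)
noncomputable def G1' (s : ℝ) : ℝ := -1 + Real.exp (-s) - Real.exp (s - 8)
noncomputable def G1'' (s : ℝ) : ℝ := -Real.exp (-s) - Real.exp (s - 8)
noncomputable def G2 (s : ℝ) : ℝ := (s - 1) * Real.exp (3 - s) - Real.exp (-s) - Real.exp (s - 8)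
noncomputable def G2' (s : ℝ) : ℝ := -(s - 2) * Real.exp (3 - s) + Real.exp (-s) - Real.exp (s - 8)
noncomputable def G2'' (s : ℝ) : ℝ := (s - 3) * Real.exp (3 - s) - Real.exp (-s) - Real.exp (s - 8)
noncomputable def G3 (s : ℝ) : ℝ := (s - 1) * Real.exp (3 - s) - 2 * Real.exp (-4)
noncomputable def G3' (s : ℝ) : ℝ := -(s - 2) * Real.exp (3 - s)
noncomputable def G3'' (s : ℝ) : ℝ := (s - 3) * Real.exp (3 - s)

noncomputable def B1 (s : ℝ) : ℝ :=
  (3 - s) ^ 3 / 3 + 2 * (3 - s) ^ 2 + 8 * (3 - s) + 16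
    - ((3 + s) ^ 2 + 6 * (3 + s) + 14) * Real.exp (-s)
    - ((11 - s) ^ 2 + 2 * (11 - s) + 2) * Real.exp (s - 8)
noncomputable def B2 (s : ℝ) : ℝ :=
  ((s - 3) ^ 3 / 3 + 2 * (s - 3) ^ 2 + 8 * (s - 3) + 16) * Real.exp (3 - s)
    - ((3 + s) ^ 2 + 6 * (3 + s) + 14) * Real.exp (-s)
    - ((11 - s) ^ 2 + 2 * (11 - s) + 2) * Real.exp (s - 8)
noncomputable def B3 (s : ℝ) : ℝ :=
  ((s - 3) ^ 3 / 3 + 2 * (s - 3) ^ 2 + 8 * (s - 3) + 16) * Real.exp (3 - s)
    - (2 * (11 - s) ^ 2 + 8 * (11 - s) + 16) * Real.exp (-4)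

/-! ### cells -/

theorem cont_integrand (G G' G'' B : ℝ → ℝ) (x y : ℝ) (hxy : x ≤ y)
    (hG : ∀ s, HasDerivAt G (G' s) s) (hG' : ∀ s, HasDerivAt G' (G'' s) s)
    (hcG : Continuous G'') (hcB : Continuous B) (hpos : ∀ s ∈ Icc x y, 0 < G s) :
    IntervalIntegrable (fun s => (G' s ^ 2 - G s * G'' s) / G s ^ 2 * B s) volume x y := by
  apply ContinuousOn.intervalIntegrable
  rw [uIcc_of_le hxy]
  have c1 : Continuous G := continuous_iff_continuousAt.2 fun s => (hG s).continuousAt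
  have c2 : Continuous G' := continuous_iff_continuousAt.2 fun s => (hG' s).continuousAt
  refine ContinuousOn.mul (ContinuousOn.div (by fun_prop) (by fun_prop) ?_) hcB.continuousOn
  intro s hs
  have := hpos s hs
  positivity

theorem cell (G G' G'' B : ℝ → ℝ) (M x y : ℝ) (hM : 0 ≤ M) (hxy : x < y)
    (hG : ∀ s, HasDerivAt G (G' s) s) (hG' : ∀ s, HasDerivAt G' (G'' s) s)
    (hcG : Continuous G'') (hcB : Continuous B)
    (hpos : ∀ s ∈ Icc x y, 0 < G s) (hconv : ∀ s ∈ Icc x y, 0 ≤ G' s ^ 2 - G s * G'' s)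
    (hB : ConcaveOn ℝ (Icc x y) (fun s => B s - M / 2 * s ^ 2)) :
    (-G' y / G y) * (B y - M * (y - x) ^ 2 / 8) - (-G' x / G x) * (B x - M * (y - x) ^ 2 / 8)
      + (B x - B y) / (y - x) * (Real.log (G x) - Real.log (G y)) ≤
      ∫ s in x..y, (G' s ^ 2 - G s * G'' s) / G s ^ 2 * B s := by
  have hyx : 0 < y - x := sub_pos.2 hxy
  set δ := M * (y - x) ^ 2 / 8 with hδ
  set m := (B y - B x) / (y - x) with hm
  set c : ℝ → ℝ := fun s => B x - δ + m * (s - x) with hc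
  have hle : ∀ s ∈ Icc x y, c s ≤ B s := by
    intro s hs
    have h1 : 0 ≤ (y - s) / (y - x) := div_nonneg (by linarith [hs.2]) hyx.le
    have h2 : 0 ≤ (s - x) / (y - x) := div_nonneg (by linarith [hs.1]) hyx.le
    have h3 : (y - s) / (y - x) + (s - x) / (y - x) = 1 := by field_simp; ring
    have h4 := hB.2 (left_mem_Icc.2 hxy.le) (right_mem_Icc.2 hxy.le) h1 h2 h3
    have h5 : ((y - s) / (y - x)) • x + ((s - x) / (y - x)) • y = s := by
      simp only [smul_eq_mul]; field_simp; ring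
    rw [h5] at h4
    simp only [smul_eq_mul] at h4
    have h6 : (y - s) / (y - x) * (B x - M / 2 * x ^ 2) + (s - x) / (y - x) * (B y - M / 2 * y ^ 2)
        = B x + m * (s - x) - M / 2 * (s ^ 2 + (s - x) * (y - s)) := by
      rw [hm]; field_simp; ring
    rw [h6] at h4
    have h7 : (s - x) * (y - s) ≤ (y - x) ^ 2 / 4 := by nlinarith [sq_nonneg (2 * s - x - y)]
    simp only [hc, hδ]
    nlinarith [mul_le_mul_of_nonneg_left h7 hM]
  have c1 : Continuous G := continuous_iff_continuousAt.2 fun s => (hG s).continuousAt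
  have c2 : Continuous G' := continuous_iff_continuousAt.2 fun s => (hG' s).continuousAt
  have hcc : Continuous c := by simp only [hc]; fun_prop
  have hint := cont_integrand G G' G'' c x y hxy.le hG hG' hcG hcc hpos
  have hF : ∫ s in x..y, (G' s ^ 2 - G s * G'' s) / G s ^ 2 * c s
      = ((-G' y / G y) * c y + m * Real.log (G y)) - ((-G' x / G x) * c x + m * Real.log (G x)) := by
    refine intervalIntegral.integral_eq_sub_of_hasDerivAt (f := fun s => (-G' s / G s) * c s + m * Real.log (G s)) ?_ hint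
    intro s hs
    rw [uIcc_of_le hxy.le] at hs
    have hp := hpos s hs
    have d1 : HasDerivAt (fun s => -G' s / G s) ((-G'' s * G s - -G' s * G' s) / G s ^ 2) s :=
      (hG' s).neg.div (hG s) hp.ne'
    have d2 : HasDerivAt c m s := by
      simp only [hc]
      simpa using ((hasDerivAt_id s).sub_const x).const_mul m |>.const_add (B x - δ)
    have d3 : HasDerivAt (fun s => m * Real.log (G s)) (m * (G' s / G s)) s :=
      ((hG s).log hp.ne').const_mul m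
    have d4 := (d1.mul d2).add d3
    refine d4.congr_deriv ?_
    field_simp
    ring
  have hmono : ∫ s in x..y, (G' s ^ 2 - G s * G'' s) / G s ^ 2 * c s ≤
      ∫ s in x..y, (G' s ^ 2 - G s * G'' s) / G s ^ 2 * B s := by
    refine intervalIntegral.integral_mono_on hxy.le hint
      (cont_integrand G G' G'' B x y hxy.le hG hG' hcG hcB hpos) ?_
    intro s hs
    exact mul_le_mul_of_nonneg_left (hle s hs) (div_nonneg (hconv s hs) (by positivity))
  rw [hF] at hmono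
  have e1 : c x = B x - δ := by simp [hc]
  have e2 : c y = B y - δ := by
    simp only [hc, hm]; field_simp; ring
  rw [e1, e2] at hmono
  have e3 : (B x - B y) / (y - x) = -m := by rw [hm]; ring
  rw [e3]
  linarith

/-! ### numerical part -/

theorem cell_num (Gx Gy Bx By cG cB : ℝ) (gl gu gl2 gu2 bl bu2 : ℤ)
    (hcG : 0 < cG) (hcB : 0 < cB) (h1 : (gl : ℝ) ≤ cG * Gx) (h2 : cG * Gx ≤ gu)
    (h3 : (gl2 : ℝ) ≤ cG * Gy) (h4 : cG * Gy ≤ gu2) (h5 : (bl : ℝ) ≤ cB * Bx)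
    (h6 : cB * By ≤ bu2) (hb : 0 ≤ bl - bu2) (hg : 0 ≤ gl - gu2) (hg2 : 0 < gl2) :
    2 * (((bl - bu2) * (gl - gu2) / (gu + gu2) : ℤ) : ℝ) / cB ≤
      (Bx - By) * (Real.log Gx - Real.log Gy) := by
  have hgR : (0 : ℝ) ≤ (gl : ℝ) - gu2 := by exact_mod_cast hg
  have hbR : (0 : ℝ) ≤ (bl : ℝ) - bu2 := by exact_mod_cast hb
  have hg2R : (0 : ℝ) < gl2 := by exact_mod_cast hg2
  have hGy : 0 < Gy := by
    by_contra h
    push Not at h
    nlinarith
  have hGxy : Gy ≤ Gx := by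
    by_contra h
    push Not at h
    nlinarith
  have hGx : 0 < Gx := hGy.trans_le hGxy
  have hsum : (0 : ℝ) < gu + gu2 := by
    have : 0 < cG * Gx := by positivity
    have : 0 < cG * Gy := by positivity
    linarith
  have hlog : 2 * (Gx - Gy) / (Gx + Gy) ≤ Real.log Gx - Real.log Gy := by
    have := Real.le_log_one_add_of_nonneg (x := Gx / Gy - 1)
      (by rw [sub_nonneg, le_div_iff₀ hGy]; linarith)
    rw [← Real.log_div hGx.ne' hGy.ne']
    have e : 1 + (Gx / Gy - 1) = Gx / Gy := by ring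
    rw [e] at this
    refine le_trans (le_of_eq ?_) this
    have hne : Gx + Gy ≠ 0 := by positivity
    have e6 : Gx / Gy - 1 + 2 = (Gx + Gy) / Gy := by field_simp; ring
    rw [e6]
    field_simp
  have hlog2 : 2 * ((gl : ℝ) - gu2) / (gu + gu2) ≤ Real.log Gx - Real.log Gy := by
    refine le_trans ?_ hlog
    have e : 2 * (Gx - Gy) / (Gx + Gy) = 2 * (cG * Gx - cG * Gy) / (cG * Gx + cG * Gy) := by
      field_simp
    rw [e]
    have hp : 0 < cG * Gx + cG * Gy := by positivity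
    rw [div_le_div_iff₀ hsum hp]
    have n1 : (gl : ℝ) - gu2 ≤ cG * Gx - cG * Gy := by linarith
    have n2 : cG * Gx + cG * Gy ≤ gu + gu2 := by linarith
    have := mul_le_mul n1 n2 hp.le (by linarith)
    linarith
  have hB : ((bl : ℝ) - bu2) / cB ≤ Bx - By := by
    rw [div_le_iff₀ hcB]; linarith
  have hfl : (((bl - bu2) * (gl - gu2) / (gu + gu2) : ℤ) : ℝ)
      ≤ ((bl : ℝ) - bu2) * (gl - gu2) / (gu + gu2) := by
    rw [le_div_iff₀ hsum]
    have hs' : 0 < gu + gu2 := by exact_mod_cast hsum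
    have := Int.ediv_mul_le ((bl - bu2) * (gl - gu2)) hs'.ne'
    exact_mod_cast this
  calc 2 * (((bl - bu2) * (gl - gu2) / (gu + gu2) : ℤ) : ℝ) / cB
      ≤ 2 * (((bl : ℝ) - bu2) * (gl - gu2) / (gu + gu2)) / cB := by gcongr
    _ = (((bl : ℝ) - bu2) / cB) * (2 * ((gl : ℝ) - gu2) / (gu + gu2)) := by ring
    _ ≤ (Bx - By) * (Real.log Gx - Real.log Gy) := by
        have : 0 ≤ ((bl : ℝ) - bu2) / cB := by positivity
        have h0 : 0 ≤ 2 * ((gl : ℝ) - gu2) / (gu + gu2) := by positivity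
        exact mul_le_mul hB hlog2 h0 (this.trans hB)

def tsum (gl gu bl bu : ℕ → ℤ) (i0 : ℕ) : ℕ → ℤ
  | 0 => 0
  | n + 1 => tsum gl gu bl bu i0 n +
      (bl (i0 + n) - bu (i0 + n + 1)) * (gl (i0 + n) - gu (i0 + n + 1)) /
        (gu (i0 + n) + gu (i0 + n + 1))

def tchk (gl gu bl bu : ℕ → ℤ) (i0 : ℕ) : ℕ → Bool
  | 0 => true
  | n + 1 => tchk gl gu bl bu i0 n && (decide (0 ≤ bl (i0 + n) - bu (i0 + n + 1)) &&
      (decide (0 ≤ gl (i0 + n) - gu (i0 + n + 1)) && decide (0 < gl (i0 + n + 1))))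

theorem piece (G G' G'' B : ℝ → ℝ) (M cG cB : ℝ) (hM : 0 ≤ M) (hcG0 : 0 < cG) (hcB0 : 0 < cB)
    (i0 N : ℕ) (gl gu bl bu : ℕ → ℤ)
    (hG : ∀ s, HasDerivAt G (G' s) s) (hG' : ∀ s, HasDerivAt G' (G'' s) s)
    (hcG : Continuous G'') (hcB : Continuous B)
    (hpos : ∀ s ∈ Icc ((i0 : ℝ) / 32) (((i0 + N : ℕ) : ℝ) / 32), 0 < G s)
    (hconv : ∀ s ∈ Icc ((i0 : ℝ) / 32) (((i0 + N : ℕ) : ℝ) / 32), 0 ≤ G' s ^ 2 - G s * G'' s)
    (hB : ConcaveOn ℝ (Icc ((i0 : ℝ) / 32) (((i0 + N : ℕ) : ℝ) / 32)) (fun s => B s - M / 2 * s ^ 2))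
    (hgl : ∀ n ≤ N, (gl (i0 + n) : ℝ) ≤ cG * G (((i0 + n : ℕ) : ℝ) / 32))
    (hgu : ∀ n ≤ N, cG * G (((i0 + n : ℕ) : ℝ) / 32) ≤ gu (i0 + n))
    (hbl : ∀ n ≤ N, (bl (i0 + n) : ℝ) ≤ cB * B (((i0 + n : ℕ) : ℝ) / 32))
    (hbu : ∀ n ≤ N, cB * B (((i0 + n : ℕ) : ℝ) / 32) ≤ bu (i0 + n))
    (n : ℕ) (hn : n ≤ N) (hchk : tchk gl gu bl bu i0 n = true) :
    (-G' (((i0 + n : ℕ) : ℝ) / 32) / G (((i0 + n : ℕ) : ℝ) / 32)) *
        (B (((i0 + n : ℕ) : ℝ) / 32) - M * (1 / 32) ^ 2 / 8)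
      - (-G' ((i0 : ℝ) / 32) / G ((i0 : ℝ) / 32)) * (B ((i0 : ℝ) / 32) - M * (1 / 32) ^ 2 / 8)
      + 64 * (tsum gl gu bl bu i0 n : ℝ) / cB ≤
      ∫ s in ((i0 : ℝ) / 32)..(((i0 + n : ℕ) : ℝ) / 32), (G' s ^ 2 - G s * G'' s) / G s ^ 2 * B s := by
  induction n with
  | zero => simp [tsum]
  | succ n ih =>
    rw [tchk, Bool.and_eq_true, Bool.and_eq_true, Bool.and_eq_true, decide_eq_true_eq,
      decide_eq_true_eq, decide_eq_true_eq] at hchk
    obtain ⟨hc1, hc2, hc3, hc4⟩ := hchk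
    have ih' := ih (by omega) hc1
    set x : ℝ := ((i0 + n : ℕ) : ℝ) / 32 with hx
    have hy : (((i0 + (n + 1) : ℕ) : ℝ) / 32) = x + 1 / 32 := by
      rw [hx]; push_cast; ring
    have hx0 : (i0 : ℝ) / 32 ≤ x := by rw [hx]; push_cast; linarith [(Nat.cast_nonneg n : (0:ℝ) ≤ n)]
    have hyN : x + 1 / 32 ≤ (((i0 + N : ℕ) : ℝ) / 32) := by
      rw [← hy]
      have : ((i0 + (n + 1) : ℕ) : ℝ) ≤ ((i0 + N : ℕ) : ℝ) := by exact_mod_cast (by omega)
      linarith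
    have hsub : Icc x (x + 1 / 32) ⊆ Icc ((i0 : ℝ) / 32) (((i0 + N : ℕ) : ℝ) / 32) :=
      Icc_subset_Icc hx0 hyN
    have hcell := cell G G' G'' B M x (x + 1 / 32) hM (by linarith) hG hG' hcG hcB
      (fun s hs => hpos s (hsub hs)) (fun s hs => hconv s (hsub hs))
      (hB.subset hsub (convex_Icc _ _))
    have hnum := cell_num (G x) (G (x + 1 / 32)) (B x) (B (x + 1 / 32)) cG cB
      (gl (i0 + n)) (gu (i0 + n)) (gl (i0 + n + 1)) (gu (i0 + n + 1)) (bl (i0 + n)) (bu (i0 + n + 1))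
      hcG0 hcB0 (hgl n (by omega)) (hgu n (by omega))
      (by rw [← hy]; exact hgl (n + 1) hn) (by rw [← hy]; exact hgu (n + 1) hn)
      (hbl n (by omega)) (by rw [← hy]; exact hbu (n + 1) hn) hc2 hc3 hc4
    have hadd := intervalIntegral.integral_add_adjacent_intervals
      (cont_integrand G G' G'' B ((i0 : ℝ) / 32) x hx0 hG hG' hcG hcB
        (fun s hs => hpos s ⟨hs.1, hs.2.trans (by linarith)⟩))
      (cont_integrand G G' G'' B x (x + 1 / 32) (by linarith) hG hG' hcG hcB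
        (fun s hs => hpos s (hsub hs)))
    rw [hy, ← hadd]
    have e1 : x + 1 / 32 - x = 1 / 32 := by ring
    rw [e1] at hcell
    have e2 : (B x - B (x + 1 / 32)) / (1 / 32) * (Real.log (G x) - Real.log (G (x + 1 / 32)))
        = 32 * ((B x - B (x + 1 / 32)) * (Real.log (G x) - Real.log (G (x + 1 / 32)))) := by ring
    rw [e2] at hcell
    have e3 : 64 * (tsum gl gu bl bu i0 (n + 1) : ℝ) / cB = 64 * (tsum gl gu bl bu i0 n : ℝ) / cB
      + 32 * (2 * (((bl (i0 + n) - bu (i0 + n + 1)) * (gl (i0 + n) - gu (i0 + n + 1)) /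
        (gu (i0 + n) + gu (i0 + n + 1)) : ℤ) : ℝ) / cB) := by
      rw [tsum]; push_cast; ring
    rw [e3]
    linarith

/-! ### integer bounds for `2^60 * exp (-j/32)` -/

def S : ℕ := 2 ^ 60
def aa : ℕ := 1117449839007427528
def lo (i : ℕ) : ℤ := ((aa ^ i * S / S ^ i : ℕ) : ℤ)
def hi (i : ℕ) : ℤ := (((aa + 1) ^ i * S / S ^ i + 1 : ℕ) : ℤ)

noncomputable def E (j : ℕ) : ℝ := Real.exp (-(j : ℝ) / 32)

theorem exp_bounds : (aa : ℝ) / S ≤ Real.exp (-1 / 32) ∧ Real.exp (-1 / 32) ≤ ((aa + 1 : ℕ) : ℝ) / S := by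
  have h := Real.exp_bound (x := -1 / 32) (by rw [abs_le]; constructor <;> norm_num) (n := 12) (by norm_num)
  rw [abs_le] at h
  obtain ⟨h1, h2⟩ := h
  simp only [Finset.sum_range_succ, Finset.sum_range_zero, aa, S] at *
  norm_num [Nat.factorial, abs_of_neg] at h1 h2 ⊢
  constructor
  · linarith
  · linarith

theorem E_eq (j : ℕ) : E j = Real.exp (-1 / 32) ^ j := by
  rw [E, ← Real.exp_nat_mul]; congr 1; ring

theorem lo_le (j : ℕ) : (lo j : ℝ) ≤ S * E j := by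
  have hS : (0 : ℝ) < S := by norm_num [S]
  have h1 : ((aa ^ j * S / S ^ j : ℕ) : ℝ) ≤ ((aa ^ j * S : ℕ) : ℝ) / ((S ^ j : ℕ) : ℝ) := Nat.cast_div_le
  have h2 : ((aa : ℝ) / S) ^ j ≤ Real.exp (-1 / 32) ^ j :=
    pow_le_pow_left₀ (by positivity) exp_bounds.1 j
  rw [E_eq]
  calc (lo j : ℝ) = ((aa ^ j * S / S ^ j : ℕ) : ℝ) := by rw [lo, Int.cast_natCast]
    _ ≤ ((aa ^ j * S : ℕ) : ℝ) / ((S ^ j : ℕ) : ℝ) := h1
    _ = S * ((aa : ℝ) / S) ^ j := by push_cast; rw [div_pow]; ring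
    _ ≤ _ := by gcongr

theorem le_hi (j : ℕ) : S * E j ≤ (hi j : ℝ) := by
  have hS : (0 : ℝ) < S := by norm_num [S]
  have hSj : 0 < S ^ j := pow_pos (by norm_num [S]) j
  have h1 : (((aa + 1) ^ j * S : ℕ) : ℝ) / ((S ^ j : ℕ) : ℝ) ≤ (((aa + 1) ^ j * S / S ^ j + 1 : ℕ) : ℝ) := by
    rw [div_le_iff₀ (by exact_mod_cast hSj)]
    exact_mod_cast (Nat.lt_mul_of_div_lt (Nat.lt_succ_self _) hSj).le
  have h2 : Real.exp (-1 / 32) ^ j ≤ (((aa + 1 : ℕ) : ℝ) / S) ^ j :=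
    pow_le_pow_left₀ (Real.exp_pos _).le exp_bounds.2 j
  rw [E_eq]
  calc S * Real.exp (-1 / 32) ^ j ≤ S * (((aa + 1 : ℕ) : ℝ) / S) ^ j := by gcongr
    _ = (((aa + 1) ^ j * S : ℕ) : ℝ) / ((S ^ j : ℕ) : ℝ) := by push_cast; rw [div_pow]; ring
    _ ≤ _ := h1
    _ = _ := by rw [hi, Int.cast_natCast]

def c1 (i : ℕ) : ℤ := (96 + i) ^ 2 + 192 * (96 + i) + 14336
def c2 (i : ℕ) : ℤ := (352 - i) ^ 2 + 64 * (352 - i) + 2048
def pp (i : ℕ) : ℤ := ((i : ℤ) - 96) ^ 3 + 192 * ((i : ℤ) - 96) ^ 2 + 24576 * ((i : ℤ) - 96) + 1572864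
def c3 (i : ℕ) : ℤ := 96 * (2 * (352 - i) ^ 2 + 256 * (352 - i) + 16384)

def g1l (i : ℕ) : ℤ := 5 * 2 ^ 60 - i * 2 ^ 55 - hi i - hi (256 - i)
def g1u (i : ℕ) : ℤ := 5 * 2 ^ 60 - i * 2 ^ 55 - lo i - lo (256 - i)
def base1 (i : ℕ) : ℤ := 2 ^ 55 * (96 - i) ^ 3 + 6 * 2 ^ 60 * (96 - i) ^ 2 + 768 * 2 ^ 60 * (96 - i) + 49152 * 2 ^ 60
def b1l (i : ℕ) : ℤ := base1 i - 3 * c1 i * hi i - 3 * c2 i * hi (256 - i)
def b1u (i : ℕ) : ℤ := base1 i - 3 * c1 i * lo i - 3 * c2 i * lo (256 - i)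

def g2l (i : ℕ) : ℤ := (i - 32) * lo (i - 96) - 32 * hi i - 32 * hi (256 - i)
def g2u (i : ℕ) : ℤ := (i - 32) * hi (i - 96) - 32 * lo i - 32 * lo (256 - i)
def b2l (i : ℕ) : ℤ := pp i * lo (i - 96) - 96 * c1 i * hi i - 96 * c2 i * hi (256 - i)
def b2u (i : ℕ) : ℤ := pp i * hi (i - 96) - 96 * c1 i * lo i - 96 * c2 i * lo (256 - i)

def g3l (i : ℕ) : ℤ := (i - 32) * lo (i - 96) - 64 * hi 128
def g3u (i : ℕ) : ℤ := (i - 32) * hi (i - 96) - 64 * lo 128
def b3l (i : ℕ) : ℤ := pp i * lo (i - 96) - c3 i * hi 128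
def b3u (i : ℕ) : ℤ := pp i * hi (i - 96) - c3 i * lo 128

theorem chk1 : tchk g1l g1u b1l b1u 0 96 = true := by decide +kernel
theorem chk2 : tchk g2l g2u b2l b2u 96 32 = true := by decide +kernel
theorem chk3 : tchk g3l g3u b3l b3u 128 96 = true := by decide +kernel
theorem sum1 : 218933263531492456029 ≤ tsum g1l g1u b1l b1u 0 96 := by decide +kernel
theorem sum2 : 4852819142961206760194 ≤ tsum g2l g2u b2l b2u 96 32 := by decide +kernel
theorem sum3 : 9068391409084082311261 ≤ tsum g3l g3u b3l b3u 128 96 := by decide +kernel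

/-! ### real identities -/

theorem Scast : (S : ℝ) = 2 ^ 60 := by norm_num [S]

theorem lo_le' (j : ℕ) : (lo j : ℝ) ≤ 2 ^ 60 * E j := by rw [← Scast]; exact lo_le j
theorem le_hi' (j : ℕ) : 2 ^ 60 * E j ≤ (hi j : ℝ) := by rw [← Scast]; exact le_hi j

theorem exp1 (i : ℕ) : Real.exp (-((i : ℝ) / 32)) = E i := by rw [E]; congr 1; ring
theorem exp2 (i : ℕ) (h : i ≤ 256) : Real.exp ((i : ℝ) / 32 - 8) = E (256 - i) := by
  rw [E]; congr 1; push_cast [Nat.cast_sub h]; ring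
theorem exp3 (i : ℕ) (h : 96 ≤ i) : Real.exp (3 - (i : ℝ) / 32) = E (i - 96) := by
  rw [E]; congr 1; push_cast [Nat.cast_sub h]; ring
theorem exp4 : Real.exp (-4) = E 128 := by
  rw [E]; congr 1; norm_num

theorem c1_nonneg (i : ℕ) : (0 : ℝ) ≤ (c1 i : ℝ) := by
  simp only [c1]; push_cast; positivity
theorem c2_nonneg (i : ℕ) (h : i ≤ 256) : (0 : ℝ) ≤ (c2 i : ℝ) := by
  have : (i : ℝ) ≤ 256 := by exact_mod_cast h
  simp only [c2]; push_cast; nlinarith
theorem c3_nonneg (i : ℕ) (h : i ≤ 256) : (0 : ℝ) ≤ (c3 i : ℝ) := by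
  have : (i : ℝ) ≤ 256 := by exact_mod_cast h
  simp only [c3]; push_cast; nlinarith
theorem pp_nonneg (i : ℕ) (h : 96 ≤ i) : (0 : ℝ) ≤ (pp i : ℝ) := by
  have h1 : (96 : ℝ) ≤ i := by exact_mod_cast h
  have : (0 : ℝ) ≤ (i : ℝ) - 96 := by linarith
  simp only [pp]; push_cast; positivity

theorem g1_eq (i : ℕ) (h : i ≤ 256) : 2 ^ 60 * G1 ((i : ℝ) / 32) =
    5 * 2 ^ 60 - i * 2 ^ 55 - 2 ^ 60 * E i - 2 ^ 60 * E (256 - i) := by
  rw [G1, exp1, exp2 i h]; ring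
theorem b1_eq (i : ℕ) (h : i ≤ 256) : (3072 * 2 ^ 60) * B1 ((i : ℝ) / 32) =
    (base1 i : ℝ) - 3 * c1 i * (2 ^ 60 * E i) - 3 * c2 i * (2 ^ 60 * E (256 - i)) := by
  rw [B1, exp1, exp2 i h]; simp only [base1, c1, c2]; push_cast; ring
theorem g2_eq (i : ℕ) (h : i ≤ 256) (h' : 96 ≤ i) : (32 * 2 ^ 60) * G2 ((i : ℝ) / 32) =
    (i - 32) * (2 ^ 60 * E (i - 96)) - 32 * (2 ^ 60 * E i) - 32 * (2 ^ 60 * E (256 - i)) := by
  rw [G2, exp1, exp2 i h, exp3 i h']; ring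
theorem b2_eq (i : ℕ) (h : i ≤ 256) (h' : 96 ≤ i) : (98304 * 2 ^ 60) * B2 ((i : ℝ) / 32) =
    (pp i : ℝ) * (2 ^ 60 * E (i - 96)) - 96 * c1 i * (2 ^ 60 * E i)
      - 96 * c2 i * (2 ^ 60 * E (256 - i)) := by
  rw [B2, exp1, exp2 i h, exp3 i h']; simp only [pp, c1, c2]; push_cast; ring
theorem g3_eq (i : ℕ) (h' : 96 ≤ i) : (32 * 2 ^ 60) * G3 ((i : ℝ) / 32) =
    (i - 32) * (2 ^ 60 * E (i - 96)) - 64 * (2 ^ 60 * E 128) := by
  rw [G3, exp3 i h', exp4]; ring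
theorem b3_eq (i : ℕ) (h' : 96 ≤ i) : (98304 * 2 ^ 60) * B3 ((i : ℝ) / 32) =
    (pp i : ℝ) * (2 ^ 60 * E (i - 96)) - c3 i * (2 ^ 60 * E 128) := by
  rw [B3, exp3 i h', exp4]; simp only [pp, c3]; push_cast; ring

/-! ### derivatives -/

theorem d_exp_neg (s : ℝ) : HasDerivAt (fun s => Real.exp (-s)) (-Real.exp (-s)) s := by
  have := (hasDerivAt_id s).neg.exp
  simpa using this
theorem d_exp_8 (s : ℝ) : HasDerivAt (fun s => Real.exp (s - 8)) (Real.exp (s - 8)) s := by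
  have := ((hasDerivAt_id s).sub_const 8).exp
  simpa using this
theorem d_exp_3 (s : ℝ) : HasDerivAt (fun s => Real.exp (3 - s)) (-Real.exp (3 - s)) s := by
  have := ((hasDerivAt_id s).const_sub 3).exp
  simpa using this

theorem dG1 (s : ℝ) : HasDerivAt G1 (G1' s) s := by
  have := (((hasDerivAt_id s).const_sub 5).sub (d_exp_neg s)).sub (d_exp_8 s)
  refine this.congr_deriv ?_
  rw [G1']; ring
theorem dG1' (s : ℝ) : HasDerivAt G1' (G1'' s) s := by
  have := ((d_exp_neg s).const_add (-1)).sub (d_exp_8 s)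
  refine this.congr_deriv ?_
  rw [G1'']
theorem dG2 (s : ℝ) : HasDerivAt G2 (G2' s) s := by
  have := ((((hasDerivAt_id s).sub_const 1).mul (d_exp_3 s)).sub (d_exp_neg s)).sub (d_exp_8 s)
  refine this.congr_deriv ?_
  rw [G2']; simp only [id]; ring
theorem dG2' (s : ℝ) : HasDerivAt G2' (G2'' s) s := by
  have := ((((hasDerivAt_id s).sub_const 2).neg.mul (d_exp_3 s)).add (d_exp_neg s)).sub (d_exp_8 s)
  refine this.congr_deriv ?_
  rw [G2'']; simp only [id, Pi.neg_apply]; ring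
theorem dG3 (s : ℝ) : HasDerivAt G3 (G3' s) s := by
  have := (((hasDerivAt_id s).sub_const 1).mul (d_exp_3 s)).sub_const (2 * Real.exp (-4))
  refine this.congr_deriv ?_
  rw [G3']; simp only [id]; ring
theorem dG3' (s : ℝ) : HasDerivAt G3' (G3'' s) s := by
  have := ((hasDerivAt_id s).sub_const 2).neg.mul (d_exp_3 s)
  refine this.congr_deriv ?_
  rw [G3'']; simp only [id, Pi.neg_apply]; ring

noncomputable def B1' (s : ℝ) : ℝ := -(3 - s) ^ 2 - 4 * (3 - s) - 8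
  + ((3 + s) ^ 2 + 4 * (3 + s) + 8) * Real.exp (-s) - (11 - s) ^ 2 * Real.exp (s - 8)
noncomputable def B2' (s : ℝ) : ℝ :=
  (-(s - 3) ^ 3 / 3 - (s - 3) ^ 2 - 4 * (s - 3) - 8) * Real.exp (3 - s)
  + ((3 + s) ^ 2 + 4 * (3 + s) + 8) * Real.exp (-s) - (11 - s) ^ 2 * Real.exp (s - 8)
noncomputable def B3' (s : ℝ) : ℝ :=
  (-(s - 3) ^ 3 / 3 - (s - 3) ^ 2 - 4 * (s - 3) - 8) * Real.exp (3 - s)
  + (4 * (11 - s) + 8) * Real.exp (-4)

theorem dB1 (s : ℝ) : HasDerivAt B1 (B1' s) s := by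
  have h3 : HasDerivAt (fun s : ℝ => 3 - s) (-1) s := (hasDerivAt_id s).const_sub 3
  have h3p : HasDerivAt (fun s : ℝ => 3 + s) 1 s := (hasDerivAt_id s).const_add 3
  have h11 : HasDerivAt (fun s : ℝ => 11 - s) (-1) s := (hasDerivAt_id s).const_sub 11
  have := ((((((h3.pow 3).div_const 3).add ((h3.pow 2).const_mul 2)).add (h3.const_mul 8)).add_const 16).sub
    ((((h3p.pow 2).add (h3p.const_mul 6)).add_const 14).mul (d_exp_neg s))).sub
    ((((h11.pow 2).add (h11.const_mul 2)).add_const 2).mul (d_exp_8 s))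
  refine this.congr_deriv ?_
  rw [B1']; simp only [Pi.add_apply, Pi.pow_apply]; push_cast; ring
theorem dB1' (s : ℝ) : HasDerivAt B1' (2 * (3 - s) + 4 - ((3 + s) ^ 2 + 2 * (3 + s) + 4) * Real.exp (-s)
    + (2 * (11 - s) - (11 - s) ^ 2) * Real.exp (s - 8)) s := by
  have h3 : HasDerivAt (fun s : ℝ => 3 - s) (-1) s := (hasDerivAt_id s).const_sub 3
  have h3p : HasDerivAt (fun s : ℝ => 3 + s) 1 s := (hasDerivAt_id s).const_add 3
  have h11 : HasDerivAt (fun s : ℝ => 11 - s) (-1) s := (hasDerivAt_id s).const_sub 11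
  have := ((((h3.pow 2).neg.sub (h3.const_mul 4)).sub_const 8).add
    ((((h3p.pow 2).add (h3p.const_mul 4)).add_const 8).mul (d_exp_neg s))).sub
    ((h11.pow 2).mul (d_exp_8 s))
  refine this.congr_deriv ?_
  simp only [Pi.add_apply, Pi.pow_apply]; push_cast; ring
theorem dB2 (s : ℝ) : HasDerivAt B2 (B2' s) s := by
  have h3 : HasDerivAt (fun s : ℝ => s - 3) 1 s := (hasDerivAt_id s).sub_const 3
  have h3p : HasDerivAt (fun s : ℝ => 3 + s) 1 s := (hasDerivAt_id s).const_add 3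
  have h11 : HasDerivAt (fun s : ℝ => 11 - s) (-1) s := (hasDerivAt_id s).const_sub 11
  have := (((((((h3.pow 3).div_const 3).add ((h3.pow 2).const_mul 2)).add (h3.const_mul 8)).add_const 16).mul
    (d_exp_3 s)).sub
    ((((h3p.pow 2).add (h3p.const_mul 6)).add_const 14).mul (d_exp_neg s))).sub
    ((((h11.pow 2).add (h11.const_mul 2)).add_const 2).mul (d_exp_8 s))
  refine this.congr_deriv ?_
  rw [B2']; simp only [Pi.add_apply, Pi.pow_apply]; push_cast; ring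
theorem dB2' (s : ℝ) : HasDerivAt B2' (((s - 3) ^ 3 / 3 + 2 * (s - 3) + 4) * Real.exp (3 - s)
    - ((3 + s) ^ 2 + 2 * (3 + s) + 4) * Real.exp (-s)
    + (2 * (11 - s) - (11 - s) ^ 2) * Real.exp (s - 8)) s := by
  have h3 : HasDerivAt (fun s : ℝ => s - 3) 1 s := (hasDerivAt_id s).sub_const 3
  have h3p : HasDerivAt (fun s : ℝ => 3 + s) 1 s := (hasDerivAt_id s).const_add 3
  have h11 : HasDerivAt (fun s : ℝ => 11 - s) (-1) s := (hasDerivAt_id s).const_sub 11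
  have := (((((((h3.pow 3).neg.div_const 3).sub (h3.pow 2)).sub (h3.const_mul 4)).sub_const 8).mul
    (d_exp_3 s)).add
    ((((h3p.pow 2).add (h3p.const_mul 4)).add_const 8).mul (d_exp_neg s))).sub
    ((h11.pow 2).mul (d_exp_8 s))
  refine this.congr_deriv ?_
  simp only [Pi.add_apply, Pi.pow_apply, Pi.neg_apply, Pi.sub_apply]; push_cast; ring
theorem dB3 (s : ℝ) : HasDerivAt B3 (B3' s) s := by
  have h3 : HasDerivAt (fun s : ℝ => s - 3) 1 s := (hasDerivAt_id s).sub_const 3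
  have h11 : HasDerivAt (fun s : ℝ => 11 - s) (-1) s := (hasDerivAt_id s).const_sub 11
  have := ((((((h3.pow 3).div_const 3).add ((h3.pow 2).const_mul 2)).add (h3.const_mul 8)).add_const 16).mul
    (d_exp_3 s)).sub
    (((((h11.pow 2).const_mul 2).add (h11.const_mul 8)).add_const 16).mul_const (Real.exp (-4)))
  refine this.congr_deriv ?_
  rw [B3']; simp only [Pi.add_apply, Pi.pow_apply]; push_cast; ring
theorem dB3' (s : ℝ) : HasDerivAt B3' (((s - 3) ^ 3 / 3 + 2 * (s - 3) + 4) * Real.exp (3 - s)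
    - 4 * Real.exp (-4)) s := by
  have h3 : HasDerivAt (fun s : ℝ => s - 3) 1 s := (hasDerivAt_id s).sub_const 3
  have h11 : HasDerivAt (fun s : ℝ => 11 - s) (-1) s := (hasDerivAt_id s).const_sub 11
  have := ((((((h3.pow 3).neg.div_const 3).sub (h3.pow 2)).sub (h3.const_mul 4)).sub_const 8).mul
    (d_exp_3 s)).add
    (((h11.const_mul 4).add_const 8).mul_const (Real.exp (-4)))
  refine this.congr_deriv ?_
  simp only [Pi.pow_apply, Pi.neg_apply, Pi.sub_apply]; push_cast; ring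

theorem concave_aux (B B' B'' : ℝ → ℝ) (M a b : ℝ) (h1 : ∀ s, HasDerivAt B (B' s) s)
    (h2 : ∀ s, HasDerivAt B' (B'' s) s) (h3 : ∀ s ∈ Icc a b, B'' s ≤ M) :
    ConcaveOn ℝ (Icc a b) (fun s => B s - M / 2 * s ^ 2) := by
  refine concaveOn_of_hasDerivWithinAt2_nonpos (convex_Icc a b) (f' := fun s => B' s - M * s)
    (f'' := fun s => B'' s - M) ?_ ?_ ?_ ?_
  · have : Continuous B := continuous_iff_continuousAt.2 fun s => (h1 s).continuousAt
    exact (this.sub (by fun_prop)).continuousOn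
  · intro s _
    have := (h1 s).sub (((hasDerivAt_id s).pow 2).const_mul (M / 2))
    refine (this.congr_deriv ?_).hasDerivWithinAt
    simp; ring
  · intro s _
    have := (h2 s).sub ((hasDerivAt_id s).const_mul M)
    refine (this.congr_deriv ?_).hasDerivWithinAt
    simp
  · intro s hs
    have := h3 s (interior_subset hs)
    linarith

theorem concB1 : ConcaveOn ℝ (Icc (((0 : ℕ) : ℝ) / 32) (((0 + 96 : ℕ) : ℝ) / 32))
    (fun s => B1 s - 10 / 2 * s ^ 2) := by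
  refine concave_aux B1 B1' _ 10 _ _ dB1 dB1' ?_
  intro s hs
  have hs1 : 0 ≤ s := by have := hs.1; push_cast at this; linarith
  have hs2 : s ≤ 3 := by have := hs.2; push_cast at this; linarith
  have e1 : 0 ≤ ((3 + s) ^ 2 + 2 * (3 + s) + 4) * Real.exp (-s) := by positivity
  have e2 : (2 * (11 - s) - (11 - s) ^ 2) * Real.exp (s - 8) ≤ 0 :=
    mul_nonpos_of_nonpos_of_nonneg (by nlinarith) (Real.exp_pos _).le
  linarith

theorem poly_exp_le (s : ℝ) (h1 : 3 ≤ s) (h2 : s ≤ 8) :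
    ((s - 3) ^ 3 / 3 + 2 * (s - 3) + 4) * Real.exp (3 - s) ≤ 4 := by
  have h := Real.quadratic_le_exp_of_nonneg (x := s - 3) (by linarith)
  have e : Real.exp (3 - s) = (Real.exp (s - 3))⁻¹ := by rw [← Real.exp_neg]; congr 1; ring
  rw [e, ← div_eq_mul_inv, div_le_iff₀ (Real.exp_pos _)]
  have h3 : 0 ≤ s - 3 := by linarith
  nlinarith [mul_nonneg h3 h3, mul_nonneg (mul_nonneg h3 h3) (by linarith : 0 ≤ 8 - s)]

theorem concB2 : ConcaveOn ℝ (Icc (((96 : ℕ) : ℝ) / 32) (((96 + 32 : ℕ) : ℝ) / 32))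
    (fun s => B2 s - 4 / 2 * s ^ 2) := by
  refine concave_aux B2 B2' _ 4 _ _ dB2 dB2' ?_
  intro s hs
  have hs1 : 3 ≤ s := by have := hs.1; push_cast at this; linarith
  have hs2 : s ≤ 4 := by have := hs.2; push_cast at this; linarith
  have e1 : 0 ≤ ((3 + s) ^ 2 + 2 * (3 + s) + 4) * Real.exp (-s) := by positivity
  have e2 : (2 * (11 - s) - (11 - s) ^ 2) * Real.exp (s - 8) ≤ 0 :=
    mul_nonpos_of_nonpos_of_nonneg (by nlinarith) (Real.exp_pos _).le
  have e3 := poly_exp_le s hs1 (by linarith)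
  linarith

theorem concB3 : ConcaveOn ℝ (Icc (((128 : ℕ) : ℝ) / 32) (((128 + 96 : ℕ) : ℝ) / 32))
    (fun s => B3 s - 4 / 2 * s ^ 2) := by
  refine concave_aux B3 B3' _ 4 _ _ dB3 dB3' ?_
  intro s hs
  have hs1 : 4 ≤ s := by have := hs.1; push_cast at this; linarith
  have hs2 : s ≤ 7 := by have := hs.2; push_cast at this; linarith
  have e1 : 0 ≤ 4 * Real.exp (-4) := by positivity
  have e3 := poly_exp_le s (by linarith) (by linarith)
  linarith

theorem contG1'' : Continuous G1'' := by unfold G1''; fun_prop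
theorem contG2'' : Continuous G2'' := by unfold G2''; fun_prop
theorem contG3'' : Continuous G3'' := by unfold G3''; fun_prop
theorem contB1 : Continuous B1 := by unfold B1; fun_prop
theorem contB2 : Continuous B2 := by unfold B2; fun_prop
theorem contB3 : Continuous B3 := by unfold B3; fun_prop

/-! ### positivity and log-concavity -/

theorem posG1 (s : ℝ) (h0 : 0 ≤ s) (h3 : s ≤ 3) : 0 < G1 s := by
  have e1 : Real.exp (-s) ≤ 1 := Real.exp_le_one_iff.2 (by linarith)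
  have e2 : Real.exp (s - 8) < 1 := by rw [Real.exp_lt_one_iff]; linarith
  rw [G1]; linarith
theorem convG1 (s : ℝ) (h0 : 0 ≤ s) (h3 : s ≤ 3) : 0 ≤ G1' s ^ 2 - G1 s * G1'' s := by
  have h1 := (posG1 s h0 h3).le
  have h2 : G1'' s ≤ 0 := by
    rw [G1'']; linarith [Real.exp_pos (-s), Real.exp_pos (s - 8)]
  nlinarith [mul_nonneg h1 (neg_nonneg.2 h2), sq_nonneg (G1' s)]
theorem posG2 (s : ℝ) (h3 : 3 ≤ s) (h4 : s ≤ 4) : 0 < G2 s := by
  have e1 : Real.exp (-s) < Real.exp (3 - s) := Real.exp_lt_exp.2 (by linarith)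
  have e2 : Real.exp (s - 8) < Real.exp (3 - s) := Real.exp_lt_exp.2 (by linarith)
  have e3 := Real.exp_pos (3 - s)
  rw [G2]; nlinarith
theorem convG2 (s : ℝ) (h3 : 3 ≤ s) (h4 : s ≤ 4) : 0 ≤ G2' s ^ 2 - G2 s * G2'' s := by
  have e1 : Real.exp (-s) < Real.exp (3 - s) := Real.exp_lt_exp.2 (by linarith)
  have e3 := Real.exp_pos (3 - s)
  have e4 := Real.exp_pos (s - 8)
  have e5 : 0 ≤ (s - 2) * Real.exp (3 - s) - Real.exp (-s) := by nlinarith
  have : G2' s ^ 2 - G2 s * G2'' s = Real.exp (3 - s) ^ 2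
      + 4 * Real.exp (s - 8) * ((s - 2) * Real.exp (3 - s) - Real.exp (-s)) := by
    rw [G2, G2', G2'']; ring
  rw [this]; positivity
theorem posG3 (s : ℝ) (h3 : 4 ≤ s) (_h4 : s ≤ 7) : 0 < G3 s := by
  have e1 : Real.exp (-4) ≤ Real.exp (3 - s) := Real.exp_le_exp.2 (by linarith)
  have e3 := Real.exp_pos (-4)
  rw [G3]; nlinarith
theorem convG3 (s : ℝ) (h3 : 4 ≤ s) (_h4 : s ≤ 7) : 0 ≤ G3' s ^ 2 - G3 s * G3'' s := by
  have : G3' s ^ 2 - G3 s * G3'' s = Real.exp (3 - s) ^ 2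
      + 2 * Real.exp (-4) * ((s - 3) * Real.exp (3 - s)) := by
    rw [G3, G3', G3'']; ring
  have h : 0 ≤ s - 3 := by linarith
  rw [this]; positivity

/-! ### the three pieces -/

theorem mono3 (c x y : ℝ) (hc : 0 ≤ c) (h : x ≤ y) : c * x ≤ c * y := mul_le_mul_of_nonneg_left h hc

theorem p1 : (-G1' 3 / G1 3) * (B1 3 - 10 * (1 / 32) ^ 2 / 8)
      - (-G1' 0 / G1 0) * (B1 0 - 10 * (1 / 32) ^ 2 / 8)
      + 64 * (218933263531492456029 : ℝ) / (3072 * 2 ^ 60) ≤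
      ∫ s in (0 : ℝ)..3, (G1' s ^ 2 - G1 s * G1'' s) / G1 s ^ 2 * B1 s := by
  have hD : ∀ s ∈ Icc (((0 : ℕ) : ℝ) / 32) (((0 + 96 : ℕ) : ℝ) / 32), 0 ≤ s ∧ s ≤ 3 := by
    intro s hs
    constructor
    · have := hs.1; push_cast at this; linarith
    · have := hs.2; push_cast at this; linarith
  have h := piece G1 G1' G1'' B1 10 (2 ^ 60) (3072 * 2 ^ 60) (by norm_num) (by norm_num) (by norm_num)
    0 96 g1l g1u b1l b1u dG1 dG1' contG1'' contB1
    (fun s hs => posG1 s (hD s hs).1 (hD s hs).2) (fun s hs => convG1 s (hD s hs).1 (hD s hs).2)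
    concB1
    (fun n hn => by
      rw [g1_eq _ (by omega)]; simp only [g1l]; push_cast
      linarith [le_hi' (0 + n), le_hi' (256 - (0 + n))])
    (fun n hn => by
      rw [g1_eq _ (by omega)]; simp only [g1u]; push_cast
      linarith [lo_le' (0 + n), lo_le' (256 - (0 + n))])
    (fun n hn => by
      rw [b1_eq _ (by omega)]; simp only [b1l]; push_cast
      have a1 := mono3 _ _ _ (c1_nonneg (0 + n)) (le_hi' (0 + n))
      have a2 := mono3 _ _ _ (c2_nonneg (0 + n) (by omega)) (le_hi' (256 - (0 + n)))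
      linarith)
    (fun n hn => by
      rw [b1_eq _ (by omega)]; simp only [b1u]; push_cast
      have a1 := mono3 _ _ _ (c1_nonneg (0 + n)) (lo_le' (0 + n))
      have a2 := mono3 _ _ _ (c2_nonneg (0 + n) (by omega)) (lo_le' (256 - (0 + n)))
      linarith)
    96 le_rfl chk1
  have e0 : (((0 : ℕ) : ℝ) / 32) = 0 := by norm_num
  have e1 : (((0 + 96 : ℕ) : ℝ) / 32) = 3 := by norm_num
  rw [e0, e1] at h
  have hs : (218933263531492456029 : ℝ) ≤ (tsum g1l g1u b1l b1u 0 96 : ℝ) := by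
    exact_mod_cast sum1
  refine le_trans ?_ h
  gcongr

theorem p2 : (-G2' 4 / G2 4) * (B2 4 - 4 * (1 / 32) ^ 2 / 8)
      - (-G2' 3 / G2 3) * (B2 3 - 4 * (1 / 32) ^ 2 / 8)
      + 64 * (4852819142961206760194 : ℝ) / (98304 * 2 ^ 60) ≤
      ∫ s in (3 : ℝ)..4, (G2' s ^ 2 - G2 s * G2'' s) / G2 s ^ 2 * B2 s := by
  have hD : ∀ s ∈ Icc (((96 : ℕ) : ℝ) / 32) (((96 + 32 : ℕ) : ℝ) / 32), 3 ≤ s ∧ s ≤ 4 := by
    intro s hs
    constructor
    · have := hs.1; push_cast at this; linarith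
    · have := hs.2; push_cast at this; linarith
  have h := piece G2 G2' G2'' B2 4 (32 * 2 ^ 60) (98304 * 2 ^ 60) (by norm_num) (by norm_num) (by norm_num)
    96 32 g2l g2u b2l b2u dG2 dG2' contG2'' contB2
    (fun s hs => posG2 s (hD s hs).1 (hD s hs).2) (fun s hs => convG2 s (hD s hs).1 (hD s hs).2)
    concB2
    (fun n hn => by
      rw [g2_eq _ (by omega) (by omega)]; simp only [g2l]; push_cast
      have a0 : (0 : ℝ) ≤ 96 + (n : ℝ) - 32 := by linarith [(Nat.cast_nonneg n : (0:ℝ) ≤ n)]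
      have a1 := mono3 _ _ _ a0 (lo_le' (96 + n - 96))
      linarith [le_hi' (96 + n), le_hi' (256 - (96 + n))])
    (fun n hn => by
      rw [g2_eq _ (by omega) (by omega)]; simp only [g2u]; push_cast
      have a0 : (0 : ℝ) ≤ 96 + (n : ℝ) - 32 := by linarith [(Nat.cast_nonneg n : (0:ℝ) ≤ n)]
      have a1 := mono3 _ _ _ a0 (le_hi' (96 + n - 96))
      linarith [lo_le' (96 + n), lo_le' (256 - (96 + n))])
    (fun n hn => by
      rw [b2_eq _ (by omega) (by omega)]; simp only [b2l]; push_cast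
      have a0 := mono3 _ _ _ (pp_nonneg (96 + n) (by omega)) (lo_le' (96 + n - 96))
      have a1 := mono3 _ _ _ (c1_nonneg (96 + n)) (le_hi' (96 + n))
      have a2 := mono3 _ _ _ (c2_nonneg (96 + n) (by omega)) (le_hi' (256 - (96 + n)))
      linarith)
    (fun n hn => by
      rw [b2_eq _ (by omega) (by omega)]; simp only [b2u]; push_cast
      have a0 := mono3 _ _ _ (pp_nonneg (96 + n) (by omega)) (le_hi' (96 + n - 96))
      have a1 := mono3 _ _ _ (c1_nonneg (96 + n)) (lo_le' (96 + n))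
      have a2 := mono3 _ _ _ (c2_nonneg (96 + n) (by omega)) (lo_le' (256 - (96 + n)))
      linarith)
    32 le_rfl chk2
  have e0 : (((96 : ℕ) : ℝ) / 32) = 3 := by norm_num
  have e1 : (((96 + 32 : ℕ) : ℝ) / 32) = 4 := by norm_num
  rw [e0, e1] at h
  have hs : (4852819142961206760194 : ℝ) ≤ (tsum g2l g2u b2l b2u 96 32 : ℝ) := by
    exact_mod_cast sum2
  refine le_trans ?_ h
  gcongr

theorem p3 : (-G3' 7 / G3 7) * (B3 7 - 4 * (1 / 32) ^ 2 / 8)
      - (-G3' 4 / G3 4) * (B3 4 - 4 * (1 / 32) ^ 2 / 8)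
      + 64 * (9068391409084082311261 : ℝ) / (98304 * 2 ^ 60) ≤
      ∫ s in (4 : ℝ)..7, (G3' s ^ 2 - G3 s * G3'' s) / G3 s ^ 2 * B3 s := by
  have hD : ∀ s ∈ Icc (((128 : ℕ) : ℝ) / 32) (((128 + 96 : ℕ) : ℝ) / 32), 4 ≤ s ∧ s ≤ 7 := by
    intro s hs
    constructor
    · have := hs.1; push_cast at this; linarith
    · have := hs.2; push_cast at this; linarith
  have h := piece G3 G3' G3'' B3 4 (32 * 2 ^ 60) (98304 * 2 ^ 60) (by norm_num) (by norm_num) (by norm_num)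
    128 96 g3l g3u b3l b3u dG3 dG3' contG3'' contB3
    (fun s hs => posG3 s (hD s hs).1 (hD s hs).2) (fun s hs => convG3 s (hD s hs).1 (hD s hs).2)
    concB3
    (fun n hn => by
      rw [g3_eq _ (by omega)]; simp only [g3l]; push_cast
      have a0 : (0 : ℝ) ≤ 128 + (n : ℝ) - 32 := by linarith [(Nat.cast_nonneg n : (0:ℝ) ≤ n)]
      have a1 := mono3 _ _ _ a0 (lo_le' (128 + n - 96))
      linarith [le_hi' 128])
    (fun n hn => by
      rw [g3_eq _ (by omega)]; simp only [g3u]; push_cast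
      have a0 : (0 : ℝ) ≤ 128 + (n : ℝ) - 32 := by linarith [(Nat.cast_nonneg n : (0:ℝ) ≤ n)]
      have a1 := mono3 _ _ _ a0 (le_hi' (128 + n - 96))
      linarith [lo_le' 128])
    (fun n hn => by
      rw [b3_eq _ (by omega)]; simp only [b3l]; push_cast
      have a0 := mono3 _ _ _ (pp_nonneg (128 + n) (by omega)) (lo_le' (128 + n - 96))
      have a1 := mono3 _ _ _ (c3_nonneg (128 + n) (by omega)) (le_hi' 128)
      linarith)
    (fun n hn => by
      rw [b3_eq _ (by omega)]; simp only [b3u]; push_cast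
      have a0 := mono3 _ _ _ (pp_nonneg (128 + n) (by omega)) (le_hi' (128 + n - 96))
      have a1 := mono3 _ _ _ (c3_nonneg (128 + n) (by omega)) (lo_le' 128)
      linarith)
    96 le_rfl chk3
  have e0 : (((128 : ℕ) : ℝ) / 32) = 4 := by norm_num
  have e1 : (((128 + 96 : ℕ) : ℝ) / 32) = 7 := by norm_num
  rw [e0, e1] at h
  have hs : (9068391409084082311261 : ℝ) ≤ (tsum g3l g3u b3l b3u 128 96 : ℝ) := by
    exact_mod_cast sum3
  refine le_trans ?_ h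
  gcongr

theorem e4_lo : (0.018315638 : ℝ) ≤ Real.exp (-4) := by
  have h : (21116493000000000 : ℤ) ≤ lo 128 := by decide +kernel
  have h1 := lo_le' 128
  have h2 : (21116493000000000 : ℝ) ≤ (lo 128 : ℝ) := by exact_mod_cast h
  rw [exp4]
  nlinarith

theorem e4_hi : Real.exp (-4) ≤ (0.018315640 : ℝ) := by
  have h : hi 128 ≤ (21116495000000000 : ℤ) := by decide +kernel
  have h1 := le_hi' 128
  have h2 : (hi 128 : ℝ) ≤ (21116495000000000 : ℝ) := by exact_mod_cast h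
  rw [exp4]
  nlinarith

theorem cd_fact : 3 * Real.exp (-5) ≤ Real.exp (-3) := by
  have : Real.exp (-3) = Real.exp 2 * Real.exp (-5) := by
    rw [← Real.exp_add]; congr 1; norm_num
  have h2 := Real.add_one_le_exp (2 : ℝ)
  have h3 : 0 < Real.exp (-5) := Real.exp_pos _
  rw [this]; nlinarith

theorem c_half : Real.exp (-3) ≤ 1 / 2 := by
  have h2 := Real.add_one_le_exp (3 : ℝ)
  have h4 : Real.exp (-3) * Real.exp 3 = 1 := by rw [← Real.exp_add]; norm_num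
  have h3 : 0 < Real.exp (-3) := Real.exp_pos _
  nlinarith

theorem psi0_fact (a : ℝ) (h0 : 0 < a) (h1 : a ≤ 0.018315640) :
    a ^ 2 ≤ 0.018315640 ^ 2 ∧ -(-a ^ 2) / (4 - a ^ 2) ≤ 0.0000840 ∧ 0 ≤ -(-a ^ 2) / (4 - a ^ 2) := by
  have h2 : a ^ 2 ≤ 0.018315640 ^ 2 := pow_le_pow_left₀ h0.le h1 2
  have h3 : a ^ 2 ≤ 0.000335463 := by norm_num at h2 ⊢; linarith
  refine ⟨h2, ?_, ?_⟩
  · rw [neg_neg, div_le_iff₀ (by linarith)]; norm_num at h3 ⊢; linarith
  · rw [neg_neg]; exact div_nonneg (by positivity) (by linarith)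

/-- `12.3223... > 12.3175...`, the difference is 0.00487 -/
theorem numeric :
    (5 - 2 * Real.exp (-4)) ^ 2 / 2 <
      (∫ s in (0 : ℝ)..3, (G1' s ^ 2 - G1 s * G1'' s) / G1 s ^ 2 * B1 s)
      + (∫ s in (3 : ℝ)..4, (G2' s ^ 2 - G2 s * G2'' s) / G2 s ^ 2 * B2 s)
      + (∫ s in (4 : ℝ)..7, (G3' s ^ 2 - G3 s * G3'' s) / G3 s ^ 2 * B3 s)
      + Real.exp (-4) * (3 + Real.exp (-4)) / 3 := by
  have q1 := p1
  have q2 := p2
  have q3 := p3
  have al := e4_lo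
  have ah := e4_hi
  set a := Real.exp (-4) with ha
  have hb : Real.exp (0 - 8) = a ^ 2 := by rw [ha, ← Real.exp_nat_mul]; congr 1; norm_num
  set c := Real.exp (-3) with hc
  set d := Real.exp (-5) with hd
  have hd' : Real.exp (3 - 8) = d := by rw [hd]; congr 1; norm_num
  have h0 : Real.exp (3 - 3) = 1 := by norm_num
  have h00 : Real.exp (-0) = 1 := by norm_num
  set f := Real.exp (-1) with hf
  have hf' : Real.exp (3 - 4) = f := by rw [hf]; congr 1; norm_num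
  have h48 : Real.exp (4 - 8) = a := by rw [ha]; congr 1; norm_num
  have h37 : Real.exp (3 - 7) = a := by rw [ha]; congr 1; norm_num
  have v1 : G1 0 = 4 - a ^ 2 := by rw [G1, hb, h00]; ring
  have v2 : G1' 0 = -a ^ 2 := by rw [G1', hb, h00]; ring
  have v3 : B1 0 = 26 - 145 * a ^ 2 := by rw [B1, hb, h00]; ring
  have v4 : G1 3 = 2 - c - d := by rw [G1, hd']; ring
  have v5 : G1' 3 = -1 + c - d := by rw [G1', hd']
  have v6 : B1 3 = 16 - 86 * c - 82 * d := by rw [B1, hd']; ring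
  have v7 : G2 3 = 2 - c - d := by rw [G2, hd', h0]; ring
  have v8 : G2' 3 = -1 + c - d := by rw [G2', hd', h0]; ring
  have v9 : B2 3 = 16 - 86 * c - 82 * d := by rw [B2, hd', h0]; ring
  have v10 : G2 4 = 3 * f - 2 * a := by rw [G2, hf', h48]; ring
  have v11 : G2' 4 = -2 * f := by rw [G2', hf', h48]; ring
  have v12 : B2 4 = 79 / 3 * f - 170 * a := by rw [B2, hf', h48]; ring
  have v13 : G3 4 = 3 * f - 2 * a := by rw [G3, hf']; ring
  have v14 : G3' 4 = -2 * f := by rw [G3', hf']; ring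
  have v15 : B3 4 = 79 / 3 * f - 170 * a := by rw [B3, hf']; ring
  have v16 : G3 7 = 4 * a := by rw [G3, h37]; ring
  have v17 : G3' 7 = -5 * a := by rw [G3', h37]; ring
  have v18 : B3 7 = 64 / 3 * a := by rw [B3, h37]; ring
  rw [v1, v2, v3, v4, v5, v6] at q1
  rw [v7, v8, v9, v10, v11, v12] at q2
  rw [v13, v14, v15, v16, v17, v18] at q3
  have hapos : 0 < a := Real.exp_pos _
  have hr7 : -(-5 * a) / (4 * a) = 5 / 4 := by field_simp
  rw [hr7] at q3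
  have hcd : 3 * d ≤ c := cd_fact
  have hc1 : c ≤ 1 / 2 := c_half
  have hdpos : 0 < d := Real.exp_pos _
  have hpsi3 : -(-1 + c - d) / (2 - c - d) ≤ 1 / 2 := by
    rw [div_le_iff₀ (by linarith)]; linarith
  obtain ⟨t2, hpsi0, hpsi0'⟩ := psi0_fact a hapos ah
  set P := -(-1 + c - d) / (2 - c - d)
  set Q := -(-a ^ 2) / (4 - a ^ 2)
  set R := -(-2 * f) / (3 * f - 2 * a)
  have t1 : Q * (26 - 145 * a ^ 2 - 10 * (1 / 32) ^ 2 / 8) ≤ 0.0000840 * 26 := by
    have h5 : 26 - 145 * a ^ 2 - 10 * (1 / 32) ^ 2 / 8 ≤ 26 := by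
      have : 0 ≤ a ^ 2 := sq_nonneg a
      linarith
    calc Q * (26 - 145 * a ^ 2 - 10 * (1 / 32) ^ 2 / 8) ≤ Q * 26 :=
          mul_le_mul_of_nonneg_left h5 hpsi0'
      _ ≤ _ := mul_le_mul_of_nonneg_right hpsi0 (by norm_num)
  have tot : (P * (16 - 86 * c - 82 * d - 10 * (1 / 32) ^ 2 / 8)
      - Q * (26 - 145 * a ^ 2 - 10 * (1 / 32) ^ 2 / 8)
      + 64 * (218933263531492456029 : ℝ) / (3072 * 2 ^ 60))
      + (R * (79 / 3 * f - 170 * a - 4 * (1 / 32) ^ 2 / 8)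
      - P * (16 - 86 * c - 82 * d - 4 * (1 / 32) ^ 2 / 8)
      + 64 * (4852819142961206760194 : ℝ) / (98304 * 2 ^ 60))
      + (5 / 4 * (64 / 3 * a - 4 * (1 / 32) ^ 2 / 8)
      - R * (79 / 3 * f - 170 * a - 4 * (1 / 32) ^ 2 / 8)
      + 64 * (9068391409084082311261 : ℝ) / (98304 * 2 ^ 60)) =
      - 6 / 8192 * P - Q * (26 - 145 * a ^ 2 - 10 * (1 / 32) ^ 2 / 8)
      + 5 / 4 * (64 / 3 * a - 4 / 8192)
      + (64 * (218933263531492456029 : ℝ) / (3072 * 2 ^ 60)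
        + 64 * (4852819142961206760194 : ℝ) / (98304 * 2 ^ 60)
        + 64 * (9068391409084082311261 : ℝ) / (98304 * 2 ^ 60)) := by ring
  have tn : (11.8172 : ℝ) ≤ 64 * (218933263531492456029 : ℝ) / (3072 * 2 ^ 60)
        + 64 * (4852819142961206760194 : ℝ) / (98304 * 2 ^ 60)
        + 64 * (9068391409084082311261 : ℝ) / (98304 * 2 ^ 60) := by norm_num
  have hsum := add_le_add (add_le_add q1 q2) q3
  rw [tot] at hsum
  have l1 : (5 - 2 * a) ^ 2 / 2 = 12.5 - 10 * a + 2 * a ^ 2 := by ring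
  have l2 : a * (3 + a) / 3 = a + a ^ 2 / 3 := by ring
  rw [l1, l2]
  norm_num at t1 t2 al tn ⊢
  linarith

end H494.MixNum
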