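import Mathlib
import Pool.Agent.H494.MixGibbs
import Pool.Agent.H494.MixN
import Pool.Agent.H494.MixA

set_option autoImplicit false
open MeasureTheory Set Filter Topology
open scoped Interval ENNReal

namespace H494.Mix

theorem symm2 (Ψ Ψ' : ℝ → ℝ) (s L : ℝ) (h1 : ∀ᶠ x in 𝓝 s, HasDerivAt Ψ (Ψ' x) x)
    (h2 : HasDerivAt Ψ' L s) :
    Tendsto (fun η => (Ψ (s + η) + Ψ (s - η) - 2 * Ψ s) / η ^ 2) (𝓝[≠] 0) (𝓝 L) := by
  have c1 : Tendsto (fun η : ℝ => s + η) (𝓝[≠] 0) (𝓝 s) := by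
    have : Tendsto (fun η : ℝ => s + η) (𝓝 0) (𝓝 (s + 0)) := (continuous_const.add continuous_id).tendsto _
    rw [add_zero] at this
    exact this.mono_left nhdsWithin_le_nhds
  have c2 : Tendsto (fun η : ℝ => s - η) (𝓝[≠] 0) (𝓝 s) := by
    have : Tendsto (fun η : ℝ => s - η) (𝓝 0) (𝓝 (s - 0)) := (continuous_const.sub continuous_id).tendsto _
    rw [sub_zero] at this
    exact this.mono_left nhdsWithin_le_nhds
  have hc : ContinuousAt Ψ s := (h1.self_of_nhds).continuousAt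
  refine HasDerivAt.lhopital_zero_nhdsNE (f' := fun η => Ψ' (s + η) - Ψ' (s - η))
    (g' := fun η => 2 * η) ?_ ?_ ?_ ?_ ?_ ?_
  · filter_upwards [c1.eventually h1, c2.eventually h1] with η hη1 hη2
    have e1 : HasDerivAt (fun η : ℝ => s + η) 1 η := by
      simpa using (hasDerivAt_id η).const_add s
    have e2 : HasDerivAt (fun η : ℝ => s - η) (-1) η := by
      simpa using (hasDerivAt_id η).const_sub s
    have := ((hη1.comp η e1).add (hη2.comp η e2)).sub_const (2 * Ψ s)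
    refine this.congr_deriv ?_
    ring
  · refine Eventually.of_forall (fun η => ?_)
    simpa using hasDerivAt_pow 2 η
  · filter_upwards [self_mem_nhdsWithin] with η hη
    exact mul_ne_zero two_ne_zero hη
  · have := ((hc.tendsto.comp c1).add (hc.tendsto.comp c2)).sub_const (2 * Ψ s)
    simp only [Function.comp_def] at this
    convert this using 2
    ring
  · have : Tendsto (fun η : ℝ => η ^ 2) (𝓝 0) (𝓝 (0 ^ 2)) := (continuous_pow 2).tendsto _
    rw [zero_pow two_ne_zero] at this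
    exact this.mono_left nhdsWithin_le_nhds
  · rw [hasDerivAt_iff_tendsto_slope_zero] at h2
    have hn : Tendsto (fun η : ℝ => -η) (𝓝[≠] 0) (𝓝[≠] 0) := by
      rw [tendsto_nhdsWithin_iff]
      constructor
      · have : Tendsto (fun η : ℝ => -η) (𝓝 0) (𝓝 (-0)) := continuous_neg.tendsto _
        rw [neg_zero] at this
        exact this.mono_left nhdsWithin_le_nhds
      · filter_upwards [self_mem_nhdsWithin] with η hη
        simpa using hη
    have h3 := h2.comp hn
    have h4 := (h2.add h3).div_const 2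
    rw [show (L + L) / 2 = L by ring] at h4
    refine h4.congr' ?_
    filter_upwards [self_mem_nhdsWithin] with η hη
    have hη' : η ≠ 0 := hη
    simp only [Function.comp_def, smul_eq_mul]
    rw [← sub_eq_add_neg]
    field_simp
    ring

theorem psi_lim (G G' G'' : ℝ → ℝ) (a b : ℝ) (hW : ∀ x ∈ Ioo a b, W 0 x = G x)
    (hG : ∀ x, HasDerivAt G (G' x) x) (hG' : ∀ x, HasDerivAt G' (G'' x) x)
    (s : ℝ) (hs : s ∈ Ioo a b) (hs11 : |s| < 11) :
    Tendsto (fun η => (psi (s + η) + psi (s - η) - 2 * psi s) / η ^ 2) (𝓝[≠] 0)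
      (𝓝 ((G' s ^ 2 - G s * G'' s) / G s ^ 2)) := by
  have hopen : ∀ᶠ x in 𝓝 s, x ∈ Ioo a b ∧ |x| < 11 := by
    have h1 : Ioo a b ∈ 𝓝 s := isOpen_Ioo.mem_nhds hs
    have h2 : {x : ℝ | |x| < 11} ∈ 𝓝 s := (isOpen_lt continuous_abs continuous_const).mem_nhds hs11
    filter_upwards [h1, h2] with x hx1 hx2 using ⟨hx1, hx2⟩
  have hGs : 0 < G s := by rw [← hW s hs]; exact W0_pos s hs11
  refine symm2 psi (fun x => -(G' x) / G x) s _ ?_ ?_
  · filter_upwards [hopen] with x hx
    have hGx : 0 < G x := by rw [← hW x hx.1]; exact W0_pos x hx.2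
    have h3 : HasDerivAt (fun x => -Real.log (G x)) (-(G' x / G x)) x := ((hG x).log hGx.ne').neg
    have h4 : psi =ᶠ[𝓝 x] (fun x => -Real.log (G x)) := by
      filter_upwards [isOpen_Ioo.mem_nhds hx.1] with y hy
      unfold psi; rw [hW y hy]
    refine (h3.congr_of_eventuallyEq h4).congr_deriv ?_
    ring
  · have h5 := ((hG' s).neg).div (hG s) hGs.ne'
    refine h5.congr_deriv ?_
    simp only [Pi.neg_apply]
    ring

open MixNum

noncomputable def G4 (s : ℝ) : ℝ := (11 - s) * Real.exp (3 - s)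
noncomputable def G4' (s : ℝ) : ℝ := -(12 - s) * Real.exp (3 - s)
noncomputable def G4'' (s : ℝ) : ℝ := (13 - s) * Real.exp (3 - s)

theorem de1 (x : ℝ) : HasDerivAt (fun x : ℝ => Real.exp (-x)) (-Real.exp (-x)) x := by
  have := (hasDerivAt_id x).neg.exp
  simpa using this
theorem de2 (x : ℝ) : HasDerivAt (fun x : ℝ => Real.exp (x - 8)) (Real.exp (x - 8)) x := by
  have := ((hasDerivAt_id x).sub_const 8).exp
  simpa using this
theorem de3 (x : ℝ) : HasDerivAt (fun x : ℝ => Real.exp (3 - x)) (-Real.exp (3 - x)) x := by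
  have := ((hasDerivAt_id x).const_sub 3).exp
  simpa using this

theorem hG1 (x : ℝ) : HasDerivAt G1 (G1' x) x := by
  have := (((hasDerivAt_id x).const_sub 5).sub (de1 x)).sub (de2 x)
  refine this.congr_deriv ?_
  unfold G1'; ring
theorem hG1' (x : ℝ) : HasDerivAt G1' (G1'' x) x := by
  have := (((de1 x).const_add (-1)).sub (de2 x))
  refine this.congr_deriv ?_
  unfold G1''; ring
theorem hG2 (x : ℝ) : HasDerivAt G2 (G2' x) x := by
  have := (((((hasDerivAt_id x).sub_const 1).mul (de3 x)).sub (de1 x)).sub (de2 x))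
  refine this.congr_deriv ?_
  unfold G2'; simp; ring
theorem hG2' (x : ℝ) : HasDerivAt G2' (G2'' x) x := by
  have := ((((((hasDerivAt_id x).sub_const 2).neg).mul (de3 x)).add (de1 x)).sub (de2 x))
  refine this.congr_deriv ?_
  unfold G2''; simp; ring
theorem hG3 (x : ℝ) : HasDerivAt G3 (G3' x) x := by
  have := ((((hasDerivAt_id x).sub_const 1).mul (de3 x)).sub_const (2 * Real.exp (-4)))
  refine this.congr_deriv ?_
  unfold G3'; simp; ring
theorem hG3' (x : ℝ) : HasDerivAt G3' (G3'' x) x := by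
  have := ((((hasDerivAt_id x).sub_const 2).neg).mul (de3 x))
  refine this.congr_deriv ?_
  unfold G3''; simp; ring
theorem hG4 (x : ℝ) : HasDerivAt G4 (G4' x) x := by
  have := (((hasDerivAt_id x).const_sub 11).mul (de3 x))
  refine this.congr_deriv ?_
  unfold G4'; simp; ring
theorem hG4' (x : ℝ) : HasDerivAt G4' (G4'' x) x := by
  have := ((((hasDerivAt_id x).const_sub 12).neg).mul (de3 x))
  refine this.congr_deriv ?_
  unfold G4''; simp; ring

noncomputable def Qp (s : ℝ) : ℝ :=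
  if s < 3 then (G1' s ^ 2 - G1 s * G1'' s) / G1 s ^ 2
  else if s < 4 then (G2' s ^ 2 - G2 s * G2'' s) / G2 s ^ 2
  else if s < 7 then (G3' s ^ 2 - G3 s * G3'' s) / G3 s ^ 2
  else (G4' s ^ 2 - G4 s * G4'' s) / G4 s ^ 2

theorem Qp_meas : Measurable Qp := by
  unfold Qp
  refine Measurable.ite (measurableSet_lt (by fun_prop) (by fun_prop)) ?_
    (Measurable.ite (measurableSet_lt (by fun_prop) (by fun_prop)) ?_
      (Measurable.ite (measurableSet_lt (by fun_prop) (by fun_prop)) ?_ ?_))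
  · unfold G1 G1' G1''; fun_prop
  · unfold G2 G2' G2''; fun_prop
  · unfold G3 G3' G3''; fun_prop
  · unfold G4 G4' G4''; fun_prop

/-- limit of the second difference quotient, `0 < s < 11` -/
theorem psi_lim_pos (s : ℝ) (h0 : 0 < s) (h11 : s < 11) (h3 : s ≠ 3) (h4 : s ≠ 4) (h7 : s ≠ 7) :
    Tendsto (fun η => (psi (s + η) + psi (s - η) - 2 * psi s) / η ^ 2) (𝓝[≠] 0) (𝓝 (Qp s)) := by
  have habs : |s| < 11 := by rwa [abs_of_pos h0]
  unfold Qp
  split_ifs with c1 c2 c3
  · exact psi_lim G1 G1' G1'' 0 3 (fun x hx => by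
      rw [W0_eq]; exact (conv_formula x).1 (Ioo_subset_Icc_self hx)) hG1 hG1' s ⟨h0, c1⟩ habs
  · have c1' : 3 < s := lt_of_le_of_ne (not_lt.mp c1) (Ne.symm h3)
    exact psi_lim G2 G2' G2'' 3 4 (fun x hx => by
      rw [W0_eq]; exact (conv_formula x).2.1 (Ioo_subset_Icc_self hx)) hG2 hG2' s ⟨c1', c2⟩ habs
  · have c2' : 4 < s := lt_of_le_of_ne (not_lt.mp c2) (Ne.symm h4)
    exact psi_lim G3 G3' G3'' 4 7 (fun x hx => by
      rw [W0_eq]; exact (conv_formula x).2.2.1 (Ioo_subset_Icc_self hx)) hG3 hG3' s ⟨c2', c3⟩ habs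
  · have c3' : 7 < s := lt_of_le_of_ne (not_lt.mp c3) (Ne.symm h7)
    exact psi_lim G4 G4' G4'' 7 11 (fun x hx => by
      rw [W0_eq]; exact (conv_formula x).2.2.2 (Ioo_subset_Icc_self hx)) hG4 hG4' s ⟨c3', h11⟩ habs

theorem psi_even (z : ℝ) : psi (-z) = psi z := by
  unfold psi; rw [W_even 0 z le_rfl one_pos]

theorem psi_lim_all (s : ℝ) (h11 : |s| < 11) (h0 : |s| ≠ 0) (h3 : |s| ≠ 3) (h4 : |s| ≠ 4)
    (h7 : |s| ≠ 7) :
    Tendsto (fun η => (psi (s + η) + psi (s - η) - 2 * psi s) / η ^ 2) (𝓝[≠] 0)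
      (𝓝 (Qp |s|)) := by
  have h := psi_lim_pos |s| (lt_of_le_of_ne (abs_nonneg s) (Ne.symm h0)) h11 h3 h4 h7
  rcases abs_choice s with hs | hs
  · rwa [hs] at h ⊢
  · rw [hs] at h ⊢
    refine h.congr (fun η => ?_)
    rw [show -s + η = -(s - η) by ring, show -s - η = -(s + η) by ring, psi_even, psi_even, psi_even]
    ring

end H494.Mix
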