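import Mathlib
import Pool.Agent.H494.MixLim

set_option autoImplicit false
open MeasureTheory Set Filter Topology
open scoped Interval ENNReal

namespace H494.Mix

theorem Dd_lim (p : ℝ × ℝ) (h11 : |p.1 + p.2| < 11) (h0 : |p.1 + p.2| ≠ 0) (h3 : |p.1 + p.2| ≠ 3)
    (h4 : |p.1 + p.2| ≠ 4) (h7 : |p.1 + p.2| ≠ 7) :
    Tendsto (fun ε => Dd ε p / ε ^ 2) (𝓝[>] 0) (𝓝 (Qp |p.1 + p.2| * (p.1 - p.2) ^ 2)) := by
  by_cases hd : p.1 - p.2 = 0
  · have : (fun ε => Dd ε p / ε ^ 2) = fun _ => (0 : ℝ) := by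
      ext ε; unfold Dd; rw [hd]; simp; left; ring
    rw [this, hd]
    simp
  · have h := psi_lim_all (p.1 + p.2) h11 h0 h3 h4 h7
    have hη : Tendsto (fun ε : ℝ => ε * (p.1 - p.2)) (𝓝[>] 0) (𝓝[≠] 0) := by
      rw [tendsto_nhdsWithin_iff]
      constructor
      · have : Tendsto (fun ε : ℝ => ε * (p.1 - p.2)) (𝓝 0) (𝓝 (0 * (p.1 - p.2))) :=
          (continuous_id.mul continuous_const).tendsto _
        rw [zero_mul] at this
        exact this.mono_left nhdsWithin_le_nhds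
      · filter_upwards [self_mem_nhdsWithin] with ε hε
        exact mul_ne_zero (ne_of_gt hε) hd
    have h2 := (h.comp hη).mul_const ((p.1 - p.2) ^ 2)
    refine h2.congr' ?_
    filter_upwards [self_mem_nhdsWithin] with ε hε
    have hε' : ε ≠ 0 := ne_of_gt hε
    simp only [Function.comp_def]
    unfold Dd
    field_simp

theorem μ0_ac : μ0 ≪ volume := withDensity_absolutelyContinuous _ _

theorem μ0_single (c : ℝ) : μ0 {c} = 0 := μ0_ac (by simp)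

theorem ae_abs : ∀ᵐ x ∂μ0, |x| < 11 / 2 := by
  have h1 : ∀ᵐ x ∂μ0, |x| ≤ 11 / 2 := by
    unfold μ0
    rw [ae_withDensity_iff f0_meas.ennreal_ofReal]
    refine Eventually.of_forall (fun x hx => ?_)
    by_contra hc
    exact hx (by rw [f0_out (not_le.mp hc)]; simp)
  have h2 : ∀ᵐ x ∂μ0, x ≠ 11 / 2 := by
    rw [ae_iff]; simpa using μ0_single (11 / 2)
  have h3 : ∀ᵐ x ∂μ0, x ≠ -(11 / 2) := by
    rw [ae_iff]; simpa using μ0_single (-(11 / 2))
  filter_upwards [h1, h2, h3] with x a1 a2 a3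
  refine lt_of_le_of_ne a1 (fun h => ?_)
  rcases (abs_eq (by norm_num : (0 : ℝ) ≤ 11 / 2)).mp h with h | h
  · exact a2 h
  · exact a3 h

theorem ae_sum (c : ℝ) : ∀ᵐ p ∂(μ0.prod μ0), p.1 + p.2 ≠ c := by
  rw [ae_iff]
  have hs : {p : ℝ × ℝ | ¬(p.1 + p.2 ≠ c)} = {p : ℝ × ℝ | p.1 + p.2 = c} := by ext p; simp
  rw [hs, Measure.measure_prod_null (measurableSet_eq_fun (by fun_prop) (by fun_prop))]
  refine Eventually.of_forall (fun x => ?_)
  have : Prod.mk x ⁻¹' {p : ℝ × ℝ | p.1 + p.2 = c} = {c - x} := by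
    ext y; simp only [mem_preimage, mem_setOf_eq, mem_singleton_iff]
    constructor
    · intro h; linarith
    · intro h; linarith
  show μ0 (Prod.mk x ⁻¹' {p : ℝ × ℝ | p.1 + p.2 = c}) = 0
  rw [this]
  exact μ0_single _

theorem ae_abs_sum (c : ℝ) (hc : 0 ≤ c) : ∀ᵐ p ∂(μ0.prod μ0), |p.1 + p.2| ≠ c := by
  filter_upwards [ae_sum c, ae_sum (-c)] with p h1 h2
  intro h
  rcases (abs_eq hc).mp h with h | h
  · exact h1 h
  · exact h2 h

theorem ae_good : ∀ᵐ p ∂(μ0.prod μ0), |p.1| < 11 / 2 ∧ |p.2| < 11 / 2 ∧ |p.1 + p.2| ≠ 0 ∧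
    |p.1 + p.2| ≠ 3 ∧ |p.1 + p.2| ≠ 4 ∧ |p.1 + p.2| ≠ 7 := by
  have h1 : ∀ᵐ p ∂(μ0.prod μ0), |p.1| < 11 / 2 :=
    Measure.quasiMeasurePreserving_fst.ae ae_abs
  have h2 : ∀ᵐ p ∂(μ0.prod μ0), |p.2| < 11 / 2 :=
    Measure.quasiMeasurePreserving_snd.ae ae_abs
  filter_upwards [h1, h2, ae_abs_sum 0 le_rfl, ae_abs_sum 3 (by norm_num),
    ae_abs_sum 4 (by norm_num), ae_abs_sum 7 (by norm_num)] with p a1 a2 a3 a4 a5 a6
  exact ⟨a1, a2, a3, a4, a5, a6⟩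

theorem Dd_nonneg (ε : ℝ) (h0 : 0 ≤ ε) (h1 : ε ≤ 1 / 2) (p : ℝ × ℝ) (hp1 : |p.1| < 11 / 2)
    (hp2 : |p.2| < 11 / 2) : 0 ≤ Dd ε p := by
  rw [abs_lt] at hp1 hp2
  obtain ⟨a1, a2⟩ := hp1
  obtain ⟨b1, b2⟩ := hp2
  unfold Dd psi
  refine psi_second_diff (p.1 + p.2) (ε * (p.1 - p.2)) (W0_pos _ ?_) (W0_pos _ ?_) (W0_pos _ ?_)
  · rw [abs_lt]; constructor <;> linarith
  · rw [show p.1 + p.2 + ε * (p.1 - p.2) = (1 + ε) * p.1 + (1 - ε) * p.2 by ring, abs_lt]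
    constructor <;> nlinarith
  · rw [show p.1 + p.2 - ε * (p.1 - p.2) = (1 - ε) * p.1 + (1 + ε) * p.2 by ring, abs_lt]
    constructor <;> nlinarith

theorem Dd_meas (ε : ℝ) : Measurable (Dd ε) := by
  unfold Dd
  exact ((psi_meas.comp (by fun_prop)).add (psi_meas.comp (by fun_prop))).sub
    ((psi_meas.comp (by fun_prop)).const_mul 2)

theorem fatou (M : ℝ) (hyp : ∀ ε : ℝ, 0 < ε → ε ≤ 1 / 2 →
    ∫ p, Dd ε p ∂(μ0.prod μ0) ≤ ε ^ 2 * M ^ 2 + 2 * chi ε) :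
    ∫⁻ p, ENNReal.ofReal (Qp |p.1 + p.2| * (p.1 - p.2) ^ 2) ∂(μ0.prod μ0)
      ≤ ENNReal.ofReal (M ^ 2) := by
  set e : ℕ → ℝ := fun n => 1 / ((n : ℝ) + 2) with he
  have hep : ∀ n, 0 < e n := fun n => by simp only [he]; positivity
  have heh : ∀ n, e n ≤ 1 / 2 := fun n => by
    simp only [he]
    apply one_div_le_one_div_of_le (by norm_num)
    have : (0 : ℝ) ≤ n := n.cast_nonneg
    linarith
  have hlim : Tendsto e atTop (𝓝[>] 0) := by
    rw [tendsto_nhdsWithin_iff]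
    refine ⟨?_, Eventually.of_forall hep⟩
    have : Tendsto (fun n : ℕ => (n : ℝ) + 2) atTop atTop :=
      tendsto_atTop_add_const_right _ _ tendsto_natCast_atTop_atTop
    have h := this.inv_tendsto_atTop
    refine h.congr (fun n => ?_)
    simp [he]
  have h1 : ∫⁻ p, ENNReal.ofReal (Qp |p.1 + p.2| * (p.1 - p.2) ^ 2) ∂(μ0.prod μ0)
      = ∫⁻ p, liminf (fun n => ENNReal.ofReal (Dd (e n) p / (e n) ^ 2)) atTop ∂(μ0.prod μ0) := by
    refine lintegral_congr_ae ?_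
    filter_upwards [ae_good] with p hp
    have hs : |p.1 + p.2| < 11 := by
      have := abs_add_le p.1 p.2
      linarith [hp.1, hp.2.1]
    have := ((ENNReal.continuous_ofReal.tendsto _).comp
      ((Dd_lim p hs hp.2.2.1 hp.2.2.2.1 hp.2.2.2.2.1 hp.2.2.2.2.2).comp hlim))
    exact (this.liminf_eq).symm
  rw [h1]
  refine (lintegral_liminf_le (fun n => ((Dd_meas (e n)).div_const _).ennreal_ofReal)).trans ?_
  have h2 : ∀ n, ∫⁻ p, ENNReal.ofReal (Dd (e n) p / (e n) ^ 2) ∂(μ0.prod μ0)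
      ≤ ENNReal.ofReal (M ^ 2 + 2 * (chi (e n) / (e n) ^ 2)) := by
    intro n
    rw [← ofReal_integral_eq_lintegral_ofReal]
    · apply ENNReal.ofReal_le_ofReal
      rw [integral_div, div_le_iff₀ (pow_pos (hep n) 2)]
      have := hyp (e n) (hep n) (heh n)
      have h3 : (M ^ 2 + 2 * (chi (e n) / e n ^ 2)) * e n ^ 2 = e n ^ 2 * M ^ 2 + 2 * chi (e n) := by
        have := (hep n).ne'
        field_simp
      rw [h3]; exact this
    · exact (Dd_int (e n) (hep n).le (heh n)).1.div_const _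
    · filter_upwards [ae_good] with p hp
      have := Dd_nonneg (e n) (hep n).le (heh n) p hp.1 hp.2.1
      simp only [Pi.zero_apply]; positivity
  have h4 : Tendsto (fun n => ENNReal.ofReal (M ^ 2 + 2 * (chi (e n) / (e n) ^ 2))) atTop
      (𝓝 (ENNReal.ofReal (M ^ 2))) := by
    have h5 : Tendsto (fun n => chi (e n) / (e n) ^ 2) atTop (𝓝 0) := chi_limit.comp hlim
    have h6 := (h5.const_mul 2).const_add (M ^ 2)
    rw [mul_zero, add_zero] at h6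
    exact (ENNReal.continuous_ofReal.tendsto _).comp h6
  rw [← h4.liminf_eq]
  exact liminf_le_liminf (Eventually.of_forall h2)

end H494.Mix
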