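import Mathlib
import Pool.Agent.H494.MixFatou

set_option autoImplicit false
open MeasureTheory Set Filter Topology
open scoped Interval ENNReal

namespace H494.Mix
open MixNum

theorem hyp_of_main (H : MainIneq) (ε : ℝ) (h0 : 0 < ε) (h1 : ε ≤ 1 / 2) :
    ∫ p, Dd ε p ∂(μ0.prod μ0) ≤ ε ^ 2 * m ^ 2 + 2 * chi ε := by
  have hM : ∫ x, f0 x = m := integral_f0
  have hr := reduction H m m_pos hM ε h0.le (by linarith)
  have hg := gibbs ε h0.le h1
  have e : ∀ ε : ℝ, 0 ≤ ε → ε < 1 → ∫ z, Real.negMulLog (W ε z / m ^ 2)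
      = (m ^ 2)⁻¹ * (∫ z, Real.negMulLog (W ε z)) + m ^ 2 * Real.negMulLog ((m ^ 2)⁻¹) := by
    intro ε h0 h1
    have : ∀ z, Real.negMulLog (W ε z / m ^ 2) = (m ^ 2)⁻¹ * Real.negMulLog (W ε z) +
        W ε z * Real.negMulLog ((m ^ 2)⁻¹) := by
      intro z; rw [div_eq_mul_inv, Real.negMulLog_mul]
    simp_rw [this]
    have i6 : Integrable (fun z => Real.negMulLog (W ε z)) := by
      simpa using W_negMulLog_int ε h0 h1 1
    rw [integral_add (i6.const_mul _) ((W_int ε h0 h1).mul_const _), integral_const_mul,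
      integral_mul_const, W_mass ε h0 h1, hM]
  rw [e ε h0.le (by linarith), e 0 le_rfl one_pos] at hr
  have hmp : 0 < m ^ 2 := pow_pos m_pos 2
  have h2 : (m ^ 2)⁻¹ * ((∫ z, Real.negMulLog (W ε z)) - ∫ z, Real.negMulLog (W 0 z)) ≤ ε ^ 2 / 2 := by
    linarith
  rw [inv_mul_le_iff₀ hmp] at h2
  linarith

noncomputable def BB (s : ℝ) : ℝ := ∫ x, (2 * x - s) ^ 2 * (f0 x * f0 (s - x))

theorem BB_int (s : ℝ) : Integrable (fun x => (2 * x - s) ^ 2 * (f0 x * f0 (s - x))) := by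
  have h1 : Integrable (fun x => (11 + |s|) ^ 2 * f0 x) := f0_integrable.const_mul _
  refine h1.mono' ?_ (Eventually.of_forall fun x => ?_)
  · exact (Measurable.mul (by fun_prop) (f0_meas.mul (f0_meas.comp (by fun_prop)))).aestronglyMeasurable
  · have a1 := f0_nonneg x
    have a2 := f0_nonneg (s - x)
    have a3 := f0_le_one (s - x)
    rw [Real.norm_of_nonneg (by positivity)]
    by_cases hx : |x| ≤ 11 / 2
    · have h2 : |2 * x - s| ≤ 11 + |s| := by
        calc |2 * x - s| ≤ |2 * x| + |s| := abs_sub _ _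
          _ ≤ 11 + |s| := by rw [abs_mul, abs_two]; linarith
      have h3 : (2 * x - s) ^ 2 ≤ (11 + |s|) ^ 2 := by
        rw [← sq_abs (2 * x - s)]; gcongr
      calc (2 * x - s) ^ 2 * (f0 x * f0 (s - x)) ≤ (11 + |s|) ^ 2 * (f0 x * 1) := by gcongr
        _ = _ := by ring
    · rw [f0_out (not_le.mp hx)]; simp

theorem BB_nonneg (s : ℝ) : 0 ≤ BB s := by
  unfold BB
  refine integral_nonneg (fun x => ?_)
  have a1 := f0_nonneg x
  have a2 := f0_nonneg (s - x)
  simp only [Pi.zero_apply]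
  positivity

theorem BB_even (s : ℝ) : BB (-s) = BB s := by
  unfold BB
  rw [← integral_neg_eq_self]
  refine integral_congr_ae (Eventually.of_forall fun x => ?_)
  simp only
  rw [f0_even, show -s - -x = -(s - x) by ring, f0_even]
  ring

theorem tonelli : ∫⁻ p, ENNReal.ofReal (Qp |p.1 + p.2| * (p.1 - p.2) ^ 2) ∂(μ0.prod μ0)
    = ∫⁻ s, ENNReal.ofReal (Qp |s| * BB s) := by
  have hQ : Measurable (fun s : ℝ => Qp |s|) := Qp_meas.comp (by fun_prop)
  have hF : Measurable (fun p : ℝ × ℝ => ENNReal.ofReal (Qp |p.1 + p.2| * (p.1 - p.2) ^ 2)) :=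
    ((hQ.comp (f := fun p : ℝ × ℝ => p.1 + p.2) (by fun_prop)).mul (by fun_prop)).ennreal_ofReal
  have hfo : Measurable (fun x => ENNReal.ofReal (f0 x)) := f0_meas.ennreal_ofReal
  have hfo2 : Measurable (fun p : ℝ × ℝ => ENNReal.ofReal (f0 p.1)) := hfo.comp measurable_fst
  have hfo3 : Measurable (fun p : ℝ × ℝ => ENNReal.ofReal (f0 (p.2 - p.1))) := hfo.comp (by fun_prop)
  rw [lintegral_prod _ hF.aemeasurable]
  unfold μ0
  rw [lintegral_withDensity_eq_lintegral_mul _ hfo (by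
    exact Measurable.lintegral_prod_right' (f := fun p : ℝ × ℝ =>
      ENNReal.ofReal (Qp |p.1 + p.2| * (p.1 - p.2) ^ 2)) hF)]
  simp only [Pi.mul_apply]
  have e1 : ∀ x : ℝ, ∫⁻ y, ENNReal.ofReal (Qp |x + y| * (x - y) ^ 2)
      ∂(volume.withDensity (fun x => ENNReal.ofReal (f0 x)))
      = ∫⁻ s, ENNReal.ofReal (f0 (s - x)) * ENNReal.ofReal (Qp |s| * (2 * x - s) ^ 2) := by
    intro x
    rw [lintegral_withDensity_eq_lintegral_mul _ hfo (by
      exact ((hQ.comp (f := fun y : ℝ => x + y) (by fun_prop)).mul (by fun_prop)).ennreal_ofReal)]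
    rw [← lintegral_add_left_eq_self (μ := volume)
      (fun s => ENNReal.ofReal (f0 (s - x)) * ENNReal.ofReal (Qp |s| * (2 * x - s) ^ 2)) x]
    refine lintegral_congr (fun y => ?_)
    simp only [Pi.mul_apply]
    rw [show x + y - x = y by ring, show 2 * x - (x + y) = x - y by ring]
  simp_rw [e1]
  have hK : Measurable (fun p : ℝ × ℝ => ENNReal.ofReal (f0 p.1) *
      (ENNReal.ofReal (f0 (p.2 - p.1)) * ENNReal.ofReal (Qp |p.2| * (2 * p.1 - p.2) ^ 2))) := by
    refine hfo2.mul (hfo3.mul ?_)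
    exact ((hQ.comp measurable_snd).mul (by fun_prop)).ennreal_ofReal
  rw [show (∫⁻ x, ENNReal.ofReal (f0 x) * ∫⁻ s, ENNReal.ofReal (f0 (s - x)) *
      ENNReal.ofReal (Qp |s| * (2 * x - s) ^ 2)) = ∫⁻ x, ∫⁻ s, ENNReal.ofReal (f0 x) *
      (ENNReal.ofReal (f0 (s - x)) * ENNReal.ofReal (Qp |s| * (2 * x - s) ^ 2)) from by
      refine lintegral_congr (fun x => ?_)
      rw [lintegral_const_mul]
      exact (hfo.comp (by fun_prop)).mul ((hQ.mul (by fun_prop)).ennreal_ofReal)]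
  rw [lintegral_lintegral_swap hK.aemeasurable]
  refine lintegral_congr (fun s => ?_)
  unfold BB
  rw [← integral_const_mul]
  by_cases hq : 0 ≤ Qp |s|
  · rw [ofReal_integral_eq_lintegral_ofReal ((BB_int s).const_mul _)]
    · refine lintegral_congr (fun x => ?_)
      rw [← ENNReal.ofReal_mul (f0_nonneg _), ← ENNReal.ofReal_mul (f0_nonneg _)]
      congr 1; ring
    · refine Eventually.of_forall fun x => ?_
      have a1 := f0_nonneg x
      have a2 := f0_nonneg (s - x)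
      simp only [Pi.zero_apply]
      positivity
  · push Not at hq
    have h1 : ∀ x : ℝ, ENNReal.ofReal (Qp |s| * (2 * x - s) ^ 2) = 0 := fun x =>
      ENNReal.ofReal_of_nonpos (mul_nonpos_of_nonpos_of_nonneg hq.le (sq_nonneg _))
    simp_rw [h1]
    simp only [mul_zero, lintegral_zero]
    symm
    apply ENNReal.ofReal_of_nonpos
    refine integral_nonpos (fun x => ?_)
    have a1 := f0_nonneg x
    have a2 := f0_nonneg (s - x)
    simp only [Pi.zero_apply]
    exact mul_nonpos_of_nonpos_of_nonneg hq.le (by positivity)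

/-- `ofReal (∫ F) ≤ ∫⁻ ofReal F` -/
theorem ofReal_int_le (F : ℝ → ℝ) (S : Set ℝ) (hF : IntegrableOn F S) :
    ENNReal.ofReal (∫ x in S, F x) ≤ ∫⁻ x in S, ENNReal.ofReal (F x) := by
  rw [integral_eq_lintegral_pos_part_sub_lintegral_neg_part hF]
  refine (ENNReal.ofReal_le_ofReal (sub_le_self _ ENNReal.toReal_nonneg)).trans ?_
  exact ENNReal.ofReal_toReal_le

end H494.Mix
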