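import Mathlib
import Pool.Agent.H494.MixTon

set_option autoImplicit false
open MeasureTheory Set Filter Topology
open scoped Interval ENNReal

namespace H494.Mix
open MixNum

theorem piece_lower (G G' G'' B : ℝ → ℝ) (a b : ℝ) (hab : a ≤ b) (ha : 0 ≤ a) (hb : b < 11)
    (hG : ∀ x, HasDerivAt G (G' x) x) (hG' : ∀ x, HasDerivAt G' (G'' x) x)
    (hG'' : Continuous G'') (hB : Continuous B)
    (hW : ∀ x ∈ Icc a b, W 0 x = G x) (hBB : ∀ x ∈ Icc a b, BB x = B x)
    (hQ : ∀ x ∈ Ioo a b, Qp x = (G' x ^ 2 - G x * G'' x) / G x ^ 2) :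
    ENNReal.ofReal (∫ s in a..b, (G' s ^ 2 - G s * G'' s) / G s ^ 2 * B s)
      ≤ ∫⁻ s in Ioo a b, ENNReal.ofReal (Qp |s| * BB s) := by
  rw [intervalIntegral.integral_of_le hab, integral_Ioc_eq_integral_Ioo]
  have hGc : Continuous G := continuous_iff_continuousAt.mpr fun x => (hG x).continuousAt
  have hG'c : Continuous G' := continuous_iff_continuousAt.mpr fun x => (hG' x).continuousAt
  have hcont : ContinuousOn (fun s => (G' s ^ 2 - G s * G'' s) / G s ^ 2 * B s) (Icc a b) := by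
    refine ContinuousOn.mul (ContinuousOn.div (by fun_prop) (by fun_prop) ?_) hB.continuousOn
    intro x hx
    have : 0 < G x := by
      rw [← hW x hx]
      refine W0_pos x ?_
      rw [abs_of_nonneg (ha.trans hx.1)]
      linarith [hx.2]
    positivity
  have hint : IntegrableOn (fun s => (G' s ^ 2 - G s * G'' s) / G s ^ 2 * B s) (Ioo a b) :=
    (hcont.integrableOn_compact isCompact_Icc).mono_set Ioo_subset_Icc_self
  refine (ofReal_int_le _ _ hint).trans (le_of_eq ?_)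
  refine setLIntegral_congr_fun measurableSet_Ioo (fun x hx => ?_)
  have hx0 : 0 ≤ x := ha.trans hx.1.le
  rw [abs_of_nonneg hx0, hQ x hx, hBB x (Ioo_subset_Icc_self hx)]

theorem G1''_cont : Continuous G1'' := by unfold G1''; fun_prop
theorem G2''_cont : Continuous G2'' := by unfold G2''; fun_prop
theorem G3''_cont : Continuous G3'' := by unfold G3''; fun_prop
theorem B1_cont : Continuous B1 := by unfold B1; fun_prop
theorem B2_cont : Continuous B2 := by unfold B2; fun_prop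
theorem B3_cont : Continuous B3 := by unfold B3; fun_prop

theorem p1 : ENNReal.ofReal (∫ s in (0 : ℝ)..3, (G1' s ^ 2 - G1 s * G1'' s) / G1 s ^ 2 * B1 s)
      ≤ ∫⁻ s in Ioo (0 : ℝ) 3, ENNReal.ofReal (Qp |s| * BB s) := by
  refine piece_lower G1 G1' G1'' B1 0 3 (by norm_num) le_rfl (by norm_num) hG1 hG1' G1''_cont
    B1_cont (fun x hx => ?_) (fun x hx => ?_) (fun x hx => ?_)
  · rw [W0_eq]; exact (conv_formula x).1 hx
  · exact (conv_sq_formula x).1 hx
  · unfold Qp; rw [if_pos hx.2]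

theorem p2 : ENNReal.ofReal (∫ s in (3 : ℝ)..4, (G2' s ^ 2 - G2 s * G2'' s) / G2 s ^ 2 * B2 s)
      ≤ ∫⁻ s in Ioo (3 : ℝ) 4, ENNReal.ofReal (Qp |s| * BB s) := by
  refine piece_lower G2 G2' G2'' B2 3 4 (by norm_num) (by norm_num) (by norm_num) hG2 hG2' G2''_cont
    B2_cont (fun x hx => ?_) (fun x hx => ?_) (fun x hx => ?_)
  · rw [W0_eq]; exact (conv_formula x).2.1 hx
  · exact (conv_sq_formula x).2.1 hx
  · unfold Qp; rw [if_neg (not_lt.mpr hx.1.le), if_pos hx.2]

theorem p3 : ENNReal.ofReal (∫ s in (4 : ℝ)..7, (G3' s ^ 2 - G3 s * G3'' s) / G3 s ^ 2 * B3 s)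
      ≤ ∫⁻ s in Ioo (4 : ℝ) 7, ENNReal.ofReal (Qp |s| * BB s) := by
  refine piece_lower G3 G3' G3'' B3 4 7 (by norm_num) (by norm_num) (by norm_num) hG3 hG3' G3''_cont
    B3_cont (fun x hx => ?_) (fun x hx => ?_) (fun x hx => ?_)
  · rw [W0_eq]; exact (conv_formula x).2.2.1 hx
  · exact (conv_sq_formula x).2.2.1 hx
  · unfold Qp; rw [if_neg (by linarith [hx.1]), if_neg (not_lt.mpr hx.1.le), if_pos hx.2]

theorem p4 : ENNReal.ofReal (Real.exp (-4) * (3 + Real.exp (-4)) / 3)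
      ≤ ∫⁻ s in Ioo (7 : ℝ) 11, ENNReal.ofReal (Qp |s| * BB s) := by
  have h1 : ∫ s in (7 : ℝ)..11, (11 - s) * Real.exp (3 - s) / 3 = Real.exp (-4) * (3 + Real.exp (-4)) / 3 := by
    rw [intervalIntegral.integral_eq_sub_of_hasDerivAt
      (f := fun s => (s - 10) * Real.exp (3 - s) / 3)]
    · have e1 : Real.exp (3 - 11) = Real.exp (-4) * Real.exp (-4) := by
        rw [← Real.exp_add]; norm_num
      have e2 : Real.exp (3 - 7) = Real.exp (-4) := by norm_num
      rw [e1, e2]; ring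
    · intro x _
      have := ((((hasDerivAt_id x).sub_const 10).mul (de3 x)).div_const 3)
      refine this.congr_deriv ?_
      simp; ring
    · apply Continuous.intervalIntegrable; fun_prop
  rw [← h1, intervalIntegral.integral_of_le (by norm_num), integral_Ioc_eq_integral_Ioo]
  have hint : IntegrableOn (fun s : ℝ => (11 - s) * Real.exp (3 - s) / 3) (Ioo 7 11) := by
    have : Continuous (fun s : ℝ => (11 - s) * Real.exp (3 - s) / 3) := by fun_prop
    exact (this.continuousOn.integrableOn_compact (isCompact_Icc (a := (7 : ℝ)) (b := 11))).mono_set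
      Ioo_subset_Icc_self
  refine (ofReal_int_le _ _ hint).trans (le_of_eq ?_)
  refine setLIntegral_congr_fun measurableSet_Ioo (fun x hx => ?_)
  obtain ⟨h7, h11⟩ := hx
  rw [abs_of_pos (by linarith)]
  have hB : BB x = (11 - x) ^ 3 / 3 * Real.exp (3 - x) :=
    (conv_sq_formula x).2.2.2 ⟨h7.le, h11.le⟩
  rw [hB]
  unfold Qp
  rw [if_neg (by linarith), if_neg (by linarith), if_neg (by linarith)]
  unfold G4 G4' G4''
  congr 1
  have h3 : (11 : ℝ) - x ≠ 0 := by linarith
  have h4 := (Real.exp_pos (3 - x)).ne'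
  field_simp
  ring

theorem half (F : ℝ → ℝ≥0∞) (hF : Measurable F) (he : ∀ x, F (-x) = F x) :
    2 * ∫⁻ s in Ioi (0 : ℝ), F s ≤ ∫⁻ s, F s := by
  have h1 : ∫⁻ s in Iio (0 : ℝ), F s = ∫⁻ s in Ioi (0 : ℝ), F s := by
    have hmp : MeasurePreserving (fun x : ℝ => -x) (volume.restrict (Ioi 0)) (volume.restrict (Iio 0)) := by
      have := (Measure.measurePreserving_neg (volume : Measure ℝ)).restrict_preimage
        (s := Iio (0 : ℝ)) measurableSet_Iio
      simpa using this
    rw [← hmp.lintegral_comp hF]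
    simp_rw [he]
  have h2 : (∫⁻ s in Iio (0 : ℝ), F s) + ∫⁻ s in Ici (0 : ℝ), F s = ∫⁻ s, F s := by
    rw [← lintegral_union measurableSet_Ici (by
      rw [Set.disjoint_left]; intro x hx hx'
      simp only [mem_Iio, mem_Ici] at hx hx'; linarith)]
    rw [Iio_union_Ici, Measure.restrict_univ]
  rw [two_mul, ← h2]
  exact add_le_add h1.ge (lintegral_mono_set Ioi_subset_Ici_self)

theorem BB_meas : Measurable BB := by
  unfold BB
  have : StronglyMeasurable (fun s : ℝ => ∫ x, (2 * x - s) ^ 2 * (f0 x * f0 (s - x))) := by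
    apply StronglyMeasurable.integral_prod_right
      (f := fun s x : ℝ => (2 * x - s) ^ 2 * (f0 x * f0 (s - x)))
    apply Measurable.stronglyMeasurable
    apply Measurable.mul (by fun_prop)
    exact (f0_meas.comp measurable_snd).mul (f0_meas.comp (by fun_prop))
  exact this.measurable

theorem final (H : MainIneq) : False := by
  have h1 := fatou m (hyp_of_main H)
  rw [tonelli] at h1
  have hFm : Measurable (fun s : ℝ => ENNReal.ofReal (Qp |s| * BB s)) :=
    ((Qp_meas.comp (by fun_prop)).mul BB_meas).ennreal_ofReal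
  have h2 := (half _ hFm (fun x => by rw [abs_neg, BB_even])).trans h1
  have hsplit : (∫⁻ s in Ioo (0 : ℝ) 3, ENNReal.ofReal (Qp |s| * BB s))
      + (∫⁻ s in Ioo (3 : ℝ) 4, ENNReal.ofReal (Qp |s| * BB s))
      + (∫⁻ s in Ioo (4 : ℝ) 7, ENNReal.ofReal (Qp |s| * BB s))
      + (∫⁻ s in Ioo (7 : ℝ) 11, ENNReal.ofReal (Qp |s| * BB s))
      ≤ ∫⁻ s in Ioi (0 : ℝ), ENNReal.ofReal (Qp |s| * BB s) := by
    rw [← lintegral_union measurableSet_Ioo, ← lintegral_union measurableSet_Ioo,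
      ← lintegral_union measurableSet_Ioo]
    · refine lintegral_mono_set ?_
      rintro x (((hx | hx) | hx) | hx) <;> simp only [mem_Ioi] <;> linarith [hx.1]
    · rw [Set.disjoint_left]; rintro x ((hx | hx) | hx) hx' <;> linarith [hx.2, hx'.1]
    · rw [Set.disjoint_left]; rintro x (hx | hx) hx' <;> linarith [hx.2, hx'.1]
    · rw [Set.disjoint_left]; rintro x hx hx'; linarith [hx.2, hx'.1]
  set I1 := ∫ s in (0 : ℝ)..3, (G1' s ^ 2 - G1 s * G1'' s) / G1 s ^ 2 * B1 s with hI1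
  set I2 := ∫ s in (3 : ℝ)..4, (G2' s ^ 2 - G2 s * G2'' s) / G2 s ^ 2 * B2 s with hI2
  set I3 := ∫ s in (4 : ℝ)..7, (G3' s ^ 2 - G3 s * G3'' s) / G3 s ^ 2 * B3 s with hI3
  set I4 := Real.exp (-4) * (3 + Real.exp (-4)) / 3 with hI4
  have h3 : ENNReal.ofReal (I1 + I2 + I3 + I4) ≤ ∫⁻ s in Ioi (0 : ℝ), ENNReal.ofReal (Qp |s| * BB s) := by
    refine le_trans ?_ hsplit
    refine ENNReal.ofReal_add_le.trans (add_le_add ?_ p4)
    refine ENNReal.ofReal_add_le.trans (add_le_add ?_ p3)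
    exact ENNReal.ofReal_add_le.trans (add_le_add p1 p2)
  have h4 : ENNReal.ofReal (2 * (I1 + I2 + I3 + I4)) ≤ ENNReal.ofReal (m ^ 2) := by
    rw [ENNReal.ofReal_mul (by norm_num)]
    simp only [ENNReal.ofReal_ofNat]
    exact (mul_le_mul_right h3 2).trans h2
  have hnum := numeric
  rw [← hI1, ← hI2, ← hI3, ← hI4] at hnum
  have h5 := (ENNReal.ofReal_le_ofReal_iff (sq_nonneg m)).mp h4
  unfold m at h5
  linarith

end H494.Mix
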