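import Mathlib

set_option autoImplicit false

namespace RenyiLB



/-- Lagrange / divided-difference weights kill all powers of degree `< card - 1`. -/
theorem sum_weight_pow {ι : Type} [Fintype ι] [DecidableEq ι] (y : ι → ℝ)
    (hy : Function.Injective y) (s : ℕ) (hs : s + 1 < Fintype.card ι) :
    ∑ i, (∏ j ∈ Finset.univ.erase i, (y i - y j)⁻¹) * y i ^ s = 0 := by
  have hdeg : (Polynomial.X ^ s : Polynomial ℝ).degree < ((Finset.univ : Finset ι).card : ℕ) := by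
    rw [Polynomial.degree_X_pow, Finset.card_univ]
    exact_mod_cast (by omega : s < Fintype.card ι)
  have h := Lagrange.coeff_eq_sum (s := (Finset.univ : Finset ι)) (v := y) hy.injOn hdeg
  have h0 : (Polynomial.X ^ s : Polynomial ℝ).coeff ((Finset.univ : Finset ι).card - 1) = 0 := by
    rw [Polynomial.coeff_X_pow, if_neg]
    rw [Finset.card_univ]
    omega
  rw [h0] at h
  rw [h]
  apply Finset.sum_congr rfl
  intro i _
  rw [Polynomial.eval_pow, Polynomial.eval_X, Finset.prod_inv_distrib]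
  rw [div_eq_mul_inv, mul_comm]



theorem far_prod_fact (L : ℕ) : ∀ j : ℕ, j ≤ L → L.factorial ^ 2 ≤ (L - j).factorial * (L + j).factorial := by
  intro j
  induction j with
  | zero => intro _; simp [pow_two]
  | succ j ih =>
    intro h
    have h1 := ih (by omega)
    obtain ⟨k, hk⟩ : ∃ k, L - j = k + 1 := ⟨L - j - 1, by omega⟩
    have hk' : L - (j + 1) = k := by omega
    rw [hk] at h1
    rw [hk']
    have e1 : (k + 1).factorial = (k + 1) * k.factorial := Nat.factorial_succ k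
    have e2 : (L + (j + 1)).factorial = (L + j + 1) * (L + j).factorial := by
      rw [← add_assoc]; exact Nat.factorial_succ _
    rw [e1] at h1
    rw [e2]
    have h3 : k + 1 ≤ L + j + 1 := by omega
    calc L.factorial ^ 2 ≤ (k + 1) * k.factorial * (L + j).factorial := h1
      _ ≤ (L + j + 1) * k.factorial * (L + j).factorial := by gcongr
      _ = k.factorial * ((L + j + 1) * (L + j).factorial) := by ring

theorem far_prod_low (j : ℕ) : ∀ m : ℕ, m < j →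
    (∏ l ∈ Finset.Icc 1 m, ((l : ℝ) ^ 2 / |(j : ℝ) ^ 2 - (l : ℝ) ^ 2|)) * ((j + m).factorial : ℝ)
      = (m.factorial : ℝ) ^ 2 * ((j - m - 1).factorial : ℝ) * j := by
  intro m
  induction m with
  | zero =>
    intro h
    obtain ⟨k, rfl⟩ : ∃ k, j = k + 1 := ⟨j - 1, by omega⟩
    simp
    rw [Nat.factorial_succ]; push_cast; ring
  | succ m ih =>
    intro h
    have h1 := ih (by omega)
    have hins : Finset.Icc 1 (m + 1) = insert (m + 1) (Finset.Icc 1 m) := by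
      ext x; simp; omega
    rw [hins, Finset.prod_insert (by simp)]
    obtain ⟨k, hk⟩ : ∃ k, j = m + 2 + k := ⟨j - (m + 2), by omega⟩
    have e1 : j - m - 1 = k + 1 := by omega
    have e2 : j - (m + 1) - 1 = k := by omega
    rw [e1] at h1
    rw [e2]
    have e3 : ((j + (m + 1)).factorial : ℝ) = ((j : ℝ) + m + 1) * ((j + m).factorial : ℝ) := by
      rw [← add_assoc, Nat.factorial_succ]; push_cast; ring
    have e4 : ((k + 1).factorial : ℝ) = ((k : ℝ) + 1) * (k.factorial : ℝ) := by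
      rw [Nat.factorial_succ]; push_cast; ring
    have e5 : ((m + 1).factorial : ℝ) = ((m : ℝ) + 1) * (m.factorial : ℝ) := by
      rw [Nat.factorial_succ]; push_cast; ring
    rw [e4] at h1
    rw [e3, e5]
    have hjR : (j : ℝ) = m + 2 + k := by rw [hk]; push_cast; ring
    have e6 : |(j : ℝ) ^ 2 - ((m + 1 : ℕ) : ℝ) ^ 2| = ((k : ℝ) + 1) * ((j : ℝ) + m + 1) := by
      have : (j : ℝ) ^ 2 - ((m + 1 : ℕ) : ℝ) ^ 2 = ((k : ℝ) + 1) * ((j : ℝ) + m + 1) := by
        rw [hjR]; push_cast; ring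
      rw [this, abs_of_nonneg (by positivity)]
    rw [e6]
    have hp1 : ((k : ℝ) + 1) ≠ 0 := by positivity
    have hp2 : ((j : ℝ) + m + 1) ≠ 0 := by positivity
    push_cast
    field_simp
    linear_combination h1

theorem far_prod_high (j : ℕ) (hj1 : 1 ≤ j) (k : ℕ) :
    (∏ l ∈ (Finset.Icc 1 (j + k)).erase j, ((l : ℝ) ^ 2 / |(j : ℝ) ^ 2 - (l : ℝ) ^ 2|))
      * ((k.factorial : ℝ) * ((2 * j + k).factorial : ℝ)) = 2 * ((j + k).factorial : ℝ) ^ 2 := by
  induction k with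
  | zero =>
    obtain ⟨i, rfl⟩ : ∃ i, j = i + 1 := ⟨j - 1, by omega⟩
    have h1 := far_prod_low (i + 1) i (by omega)
    have e1 : (Finset.Icc 1 (i + 1 + 0)).erase (i + 1) = Finset.Icc 1 i := by
      ext x; rw [Finset.mem_erase, Finset.mem_Icc, Finset.mem_Icc]; omega
    rw [e1]
    have e2 : 2 * (i + 1) + 0 = (i + 1 + i) + 1 := by ring
    rw [e2, Nat.factorial_succ (i + 1 + i)]
    have e3 : i + 1 - i - 1 = 0 := by omega
    rw [e3] at h1
    have e5 : ((i + 1).factorial : ℝ) = ((i : ℝ) + 1) * (i.factorial : ℝ) := by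
      rw [Nat.factorial_succ]; push_cast; ring
    simp only [Nat.factorial_zero, add_zero]
    rw [e5]
    push_cast at h1 ⊢
    simp only [Nat.factorial_zero, Nat.cast_one] at h1
    linear_combination ((i : ℝ) + 1 + i + 1) * h1
  | succ k ih =>
    have e1 : (Finset.Icc 1 (j + (k + 1))).erase j
        = insert (j + (k + 1)) ((Finset.Icc 1 (j + k)).erase j) := by
      ext x; simp; omega
    rw [e1, Finset.prod_insert (by simp)]
    have e2 : ((2 * j + (k + 1)).factorial : ℝ) = (2 * (j : ℝ) + k + 1) * ((2 * j + k).factorial : ℝ) := by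
      rw [← add_assoc, Nat.factorial_succ]; push_cast; ring
    have e4 : ((k + 1).factorial : ℝ) = ((k : ℝ) + 1) * (k.factorial : ℝ) := by
      rw [Nat.factorial_succ]; push_cast; ring
    have e5 : ((j + (k + 1)).factorial : ℝ) = ((j : ℝ) + k + 1) * ((j + k).factorial : ℝ) := by
      rw [← add_assoc, Nat.factorial_succ]; push_cast; ring
    have e6 : |(j : ℝ) ^ 2 - ((j + (k + 1) : ℕ) : ℝ) ^ 2| = ((k : ℝ) + 1) * (2 * (j : ℝ) + k + 1) := by
      have : (j : ℝ) ^ 2 - ((j + (k + 1) : ℕ) : ℝ) ^ 2 = -(((k : ℝ) + 1) * (2 * (j : ℝ) + k + 1)) := by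
        push_cast; ring
      rw [this, abs_neg, abs_of_nonneg (by positivity)]
    rw [e6, e2, e4, e5]
    have hp1 : ((k : ℝ) + 1) ≠ 0 := by positivity
    have hp2 : (2 * (j : ℝ) + k + 1) ≠ 0 := by positivity
    push_cast
    field_simp
    linear_combination ((j : ℝ) + (k + 1)) ^ 2 * ih

/-- `∏_{l ≠ j, 1 ≤ l ≤ L} l² / |j² - l²| = 2 (L!)² / ((L-j)! (L+j)!) ≤ 2`. -/
theorem far_prod (L : ℕ) (j : ℕ) (hj1 : 1 ≤ j) (hjL : j ≤ L) :
    ∏ l ∈ (Finset.Icc 1 L).erase j, ((l : ℝ) ^ 2 / |(j : ℝ) ^ 2 - (l : ℝ) ^ 2|) ≤ 2 := by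
  obtain ⟨k, rfl⟩ : ∃ k, L = j + k := ⟨L - j, by omega⟩
  have h1 := far_prod_high j hj1 k
  have h2 := far_prod_fact (j + k) j (by omega)
  have e1 : j + k - j = k := by omega
  have e2 : j + k + j = 2 * j + k := by ring
  rw [e1, e2] at h2
  have h3 : ((j + k).factorial : ℝ) ^ 2 ≤ (k.factorial : ℝ) * ((2 * j + k).factorial : ℝ) := by
    exact_mod_cast h2
  have hpos : (0 : ℝ) < (k.factorial : ℝ) * ((2 * j + k).factorial : ℝ) := by positivity
  have h4 : (∏ l ∈ (Finset.Icc 1 (j + k)).erase j, ((l : ℝ) ^ 2 / |(j : ℝ) ^ 2 - (l : ℝ) ^ 2|))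
      * ((k.factorial : ℝ) * ((2 * j + k).factorial : ℝ)) ≤ 2 * ((k.factorial : ℝ) * ((2 * j + k).factorial : ℝ)) := by
    rw [h1]; linarith
  exact le_of_mul_le_mul_right h4 hpos



/-- the nodes: `R` geometric ones `Λ^i` and `L` quadratically spaced ones `Λ^R (j+1)²`. -/
noncomputable def node (Λ : ℝ) (R L : ℕ) : Fin R ⊕ Fin L → ℝ
  | Sum.inl i => Λ ^ (i : ℕ)
  | Sum.inr j => Λ ^ R * ((j : ℕ) + 1 : ℝ) ^ 2

/-- the divided-difference weight of node `i`. -/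
noncomputable def wt {ι : Type} [Fintype ι] [DecidableEq ι] (y : ι → ℝ) (i : ι) : ℝ :=
  ∏ j ∈ Finset.univ.erase i, (y i - y j)⁻¹




theorem erase_inl {R L : ℕ} (i : Fin R) (f : Fin R ⊕ Fin L → ℝ) :
    ∏ j ∈ Finset.univ.erase (Sum.inl i), f j =
      (∏ l ∈ Finset.univ.erase i, f (Sum.inl l)) * ∏ j, f (Sum.inr j) := by
  have h : (Finset.univ.erase (Sum.inl i) : Finset (Fin R ⊕ Fin L)) =
      (Finset.univ.erase i).disjSum Finset.univ := by
    ext x
    rcases x with x | x <;> simp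
  rw [h, Finset.prod_disjSum]

theorem erase_inr {R L : ℕ} (j : Fin L) (f : Fin R ⊕ Fin L → ℝ) :
    ∏ l ∈ Finset.univ.erase (Sum.inr j), f l =
      (∏ i, f (Sum.inl i)) * ∏ l ∈ Finset.univ.erase j, f (Sum.inr l) := by
  have h : (Finset.univ.erase (Sum.inr j) : Finset (Fin R ⊕ Fin L)) =
      Finset.univ.disjSum (Finset.univ.erase j) := by
    ext x
    rcases x with x | x <;> simp
  rw [h, Finset.prod_disjSum]

theorem erase_inl_sum {R L : ℕ} (i : Fin R) (f : Fin R ⊕ Fin L → ℝ) :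
    ∑ j ∈ Finset.univ.erase (Sum.inl i), f j =
      (∑ l ∈ Finset.univ.erase i, f (Sum.inl l)) + ∑ j, f (Sum.inr j) := by
  have h : (Finset.univ.erase (Sum.inl i) : Finset (Fin R ⊕ Fin L)) =
      (Finset.univ.erase i).disjSum Finset.univ := by
    ext x
    rcases x with x | x <;> simp
  rw [h, Finset.sum_disjSum]

theorem abs_wt {ι : Type} [Fintype ι] [DecidableEq ι] (y : ι → ℝ) (i : ι) :
    |wt y i| = ∏ j ∈ Finset.univ.erase i, |y i - y j|⁻¹ := by
  unfold wt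
  rw [Finset.abs_prod]
  apply Finset.prod_congr rfl
  intro j _
  rw [abs_inv]

/-- the exponent -/
def sx (R i : ℕ) : ℕ := ∑ l ∈ (Finset.range R).erase i, max i l

theorem sum_max (R i : ℕ) (h : i < R) :
    2 * (∑ l ∈ Finset.range R, max i l) + R = R * R + i * (i + 1) := by
  induction R, h using Nat.le_induction with
  | base =>
    have h1 : ∑ l ∈ Finset.range (i + 1), max i l = ∑ _l ∈ Finset.range (i + 1), i := by
      apply Finset.sum_congr rfl
      intro l hl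
      have := Finset.mem_range.1 hl
      omega
    rw [Nat.succ_eq_add_one, h1, Finset.sum_const, Finset.card_range, smul_eq_mul]
    ring
  | succ R hR ih =>
    rw [Finset.sum_range_succ]
    have h1 : max i R = R := by omega
    rw [h1]
    nlinarith

theorem sx_eq (R i : ℕ) (h : i < R) : ((sx R i : ℕ) : ℝ) = ((R : ℝ) ^ 2 - R + i ^ 2 - i) / 2 := by
  have h1 := sum_max R i h
  have h2 : ∑ l ∈ Finset.range R, max i l = i + sx R i := by
    unfold sx
    rw [← Finset.add_sum_erase (Finset.range R) (fun l => max i l) (Finset.mem_range.2 h)]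
    simp
  rw [h2] at h1
  have h3 : (2 * ((i : ℝ) + sx R i) + R) = R * R + i * (i + 1) := by exact_mod_cast h1
  linarith

theorem near_prod_eq {R : ℕ} (Λ : ℝ) (i : Fin R) :
    ∏ l ∈ Finset.univ.erase i, Λ ^ (max (i : ℕ) (l : ℕ)) = Λ ^ sx R i := by
  rw [Finset.prod_pow_eq_pow_sum]
  congr 1
  unfold sx
  apply Finset.sum_nbij (fun l : Fin R => (l : ℕ))
  · intro l hl
    simp only [Finset.mem_erase, Finset.mem_univ, and_true] at hl
    simp only [Finset.mem_erase, Finset.mem_range]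
    exact ⟨fun h => hl (Fin.ext h), l.2⟩
  · intro a _ b _ h
    exact Fin.ext h
  · intro m hm
    simp only [Finset.coe_erase, Finset.coe_range, Set.mem_sdiff, Set.mem_Iio,
      Set.mem_singleton_iff] at hm
    refine ⟨⟨m, hm.1⟩, ?_, rfl⟩
    simp only [Finset.coe_erase, Finset.coe_univ, Set.mem_sdiff, Set.mem_univ,
      Set.mem_singleton_iff, true_and]
    intro h
    exact hm.2 (by rw [← h])
  · intro l _
    rfl

theorem pow_diff_bounds {Λ : ℝ} (hΛ : 2 ≤ Λ) {i l : ℕ} (h : i ≠ l) :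
    Λ ^ (max i l) / 2 ≤ |Λ ^ i - Λ ^ l| ∧ |Λ ^ i - Λ ^ l| ≤ Λ ^ (max i l) := by
  wlog hlt : i < l generalizing i l with H
  · have h1 : l < i := by omega
    have := H (Ne.symm h) h1
    rwa [max_comm, abs_sub_comm] at this
  · have h1 : max i l = l := max_eq_right hlt.le
    rw [h1]
    have hΛ0 : 0 < Λ := by linarith
    have h2 : 0 < Λ ^ i := by positivity
    have h3 : 2 * Λ ^ i ≤ Λ ^ l := by
      calc 2 * Λ ^ i ≤ Λ * Λ ^ i := by gcongr
        _ = Λ ^ (i + 1) := by rw [pow_succ]; ring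
        _ ≤ Λ ^ l := pow_le_pow_right₀ (by linarith) hlt
    rw [abs_sub_comm, abs_of_pos (by linarith)]
    constructor <;> linarith

theorem near_bounds {R : ℕ} {Λ : ℝ} (hΛ : 2 ≤ Λ) (i : Fin R) :
    (Λ ^ sx R i)⁻¹ ≤ ∏ l ∈ Finset.univ.erase i, |Λ ^ (i : ℕ) - Λ ^ (l : ℕ)|⁻¹ ∧
    ∏ l ∈ Finset.univ.erase i, |Λ ^ (i : ℕ) - Λ ^ (l : ℕ)|⁻¹ ≤ 2 ^ R * (Λ ^ sx R i)⁻¹ := by
  have hΛ0 : 0 < Λ := by linarith
  have hb : ∀ l ∈ Finset.univ.erase i, Λ ^ (max (i : ℕ) (l : ℕ)) / 2 ≤ |Λ ^ (i : ℕ) - Λ ^ (l : ℕ)| ∧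
      |Λ ^ (i : ℕ) - Λ ^ (l : ℕ)| ≤ Λ ^ (max (i : ℕ) (l : ℕ)) := by
    intro l hl
    apply pow_diff_bounds hΛ
    simp only [Finset.mem_erase, Finset.mem_univ, and_true] at hl
    exact fun h => hl (Fin.ext h.symm)
  constructor
  · rw [← near_prod_eq, ← Finset.prod_inv_distrib]
    apply Finset.prod_le_prod
    · intro l _
      positivity
    · intro l hl
      obtain ⟨h1, h2⟩ := hb l hl
      have h3 : 0 < Λ ^ (max (i : ℕ) (l : ℕ)) := by positivity
      exact inv_anti₀ (by linarith) h2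
  · calc ∏ l ∈ Finset.univ.erase i, |Λ ^ (i : ℕ) - Λ ^ (l : ℕ)|⁻¹
        ≤ ∏ l ∈ Finset.univ.erase i, (2 * (Λ ^ (max (i : ℕ) (l : ℕ)))⁻¹) := by
          apply Finset.prod_le_prod
          · intro l _
            positivity
          · intro l hl
            obtain ⟨h1, h2⟩ := hb l hl
            have h3 : 0 < Λ ^ (max (i : ℕ) (l : ℕ)) := by positivity
            calc |Λ ^ (i : ℕ) - Λ ^ (l : ℕ)|⁻¹ ≤ (Λ ^ (max (i : ℕ) (l : ℕ)) / 2)⁻¹ :=
                  inv_anti₀ (by positivity) h1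
              _ = 2 * (Λ ^ (max (i : ℕ) (l : ℕ)))⁻¹ := by rw [inv_div]; ring
      _ = 2 ^ (R - 1) * (Λ ^ sx R i)⁻¹ := by
          rw [Finset.prod_mul_distrib, Finset.prod_const, Finset.prod_inv_distrib, near_prod_eq,
            Finset.card_erase_of_mem (Finset.mem_univ i), Finset.card_univ, Fintype.card_fin]
      _ ≤ 2 ^ R * (Λ ^ sx R i)⁻¹ := by
          have : (2 : ℝ) ^ (R - 1) ≤ 2 ^ R := pow_le_pow_right₀ (by norm_num) (Nat.sub_le _ _)
          gcongr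

theorem sum_inv_sq (L : ℕ) : ∑ j : Fin L, (((j : ℕ) + 1 : ℝ) ^ 2)⁻¹ ≤ 2 := by
  rw [Fin.sum_univ_eq_sum_range (fun j : ℕ => (((j : ℕ) + 1 : ℝ) ^ 2)⁻¹) L]
  rcases Nat.eq_zero_or_pos L with h | h
  · rw [h]; simp
  · have key : ∀ M : ℕ, ∑ j ∈ Finset.range (M + 1), (((j : ℕ) + 1 : ℝ) ^ 2)⁻¹ ≤ 2 - 1 / (M + 1) := by
      intro M
      induction M with
      | zero => norm_num
      | succ M ih =>
        rw [Finset.sum_range_succ]
        push_cast
        have h1 : (((M : ℝ) + 1 + 1) ^ 2)⁻¹ ≤ 1 / ((M : ℝ) + 1) - 1 / ((M : ℝ) + 1 + 1) := by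
          have h2 : (0 : ℝ) < (M : ℝ) + 1 := by positivity
          have h3 : (0 : ℝ) < (M : ℝ) + 1 + 1 := by positivity
          rw [div_sub_div _ _ h2.ne' h3.ne', inv_eq_one_div, div_le_div_iff₀ (by positivity)
            (by positivity)]
          nlinarith
        linarith
    obtain ⟨M, rfl⟩ : ∃ M, L = M + 1 := ⟨L - 1, by omega⟩
    have := key M
    have h2 : (0 : ℝ) < 1 / ((M : ℝ) + 1) := by positivity
    linarith

/-- the far factor at a near node -/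
theorem far_factor {R L : ℕ} {Λ : ℝ} (hΛ : 4 ≤ Λ) (i : Fin R) :
    1 ≤ (∏ j : Fin L, (Λ ^ R * ((j : ℕ) + 1 : ℝ) ^ 2)) *
      ∏ j : Fin L, |Λ ^ (i : ℕ) - Λ ^ R * ((j : ℕ) + 1 : ℝ) ^ 2|⁻¹ ∧
    (∏ j : Fin L, (Λ ^ R * ((j : ℕ) + 1 : ℝ) ^ 2)) *
      ∏ j : Fin L, |Λ ^ (i : ℕ) - Λ ^ R * ((j : ℕ) + 1 : ℝ) ^ 2|⁻¹ ≤ 3 := by
  have hΛ0 : 0 < Λ := by linarith
  rw [← Finset.prod_mul_distrib]
  have hi : Λ * Λ ^ (i : ℕ) ≤ Λ ^ R := by
    calc Λ * Λ ^ (i : ℕ) = Λ ^ ((i : ℕ) + 1) := by rw [pow_succ]; ring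
      _ ≤ Λ ^ R := pow_le_pow_right₀ (by linarith) i.2
  have hfac : ∀ j : Fin L, 1 ≤ (Λ ^ R * ((j : ℕ) + 1 : ℝ) ^ 2) *
      |Λ ^ (i : ℕ) - Λ ^ R * ((j : ℕ) + 1 : ℝ) ^ 2|⁻¹ ∧
      (Λ ^ R * ((j : ℕ) + 1 : ℝ) ^ 2) * |Λ ^ (i : ℕ) - Λ ^ R * ((j : ℕ) + 1 : ℝ) ^ 2|⁻¹ ≤
        Real.exp (2 * (1 / Λ * (((j : ℕ) + 1 : ℝ) ^ 2)⁻¹)) := by
    intro j
    set a : ℝ := ((j : ℕ) + 1 : ℝ) ^ 2 with ha
    have ha1 : 1 ≤ a := by
      rw [ha]
      have : (0 : ℝ) ≤ (j : ℕ) := by positivity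
      nlinarith
    set Y : ℝ := Λ ^ R * a with hY
    have hli : 0 < Λ ^ (i : ℕ) := by positivity
    have hYpos : 0 < Y := by positivity
    have hlY : Λ * Λ ^ (i : ℕ) ≤ Y := by
      calc Λ * Λ ^ (i : ℕ) ≤ Λ ^ R := hi
        _ ≤ Λ ^ R * a := le_mul_of_one_le_right (by positivity) ha1
    have hlt : Λ ^ (i : ℕ) < Y := by nlinarith
    rw [abs_sub_comm, abs_of_pos (by linarith)]
    have hd : 0 < Y - Λ ^ (i : ℕ) := by linarith
    constructor
    · rw [← div_eq_mul_inv, le_div_iff₀ hd]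
      linarith
    · set x : ℝ := Λ ^ (i : ℕ) / Y with hx
      have hx0 : 0 < x := by positivity
      have hxle : x ≤ 1 / Λ * a⁻¹ := by
        rw [hx, hY, div_le_iff₀ (by positivity)]
        have : 1 / Λ * a⁻¹ * (Λ ^ R * a) = Λ ^ R / Λ := by
          field_simp
        rw [this, le_div_iff₀ hΛ0]
        linarith
      have hx4 : x ≤ 1 / 4 := by
        rw [hx, div_le_iff₀ hYpos]
        nlinarith
      have h1 : Y * (Y - Λ ^ (i : ℕ))⁻¹ = (1 - x)⁻¹ := by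
        rw [hx]
        field_simp
      rw [h1]
      have h2 : (1 - x)⁻¹ ≤ Real.exp (2 * x) := by
        rw [inv_le_iff_one_le_mul₀ (by linarith)]
        have h3 := Real.add_one_le_exp (2 * x)
        have h4 : 0 < 1 - x := by linarith
        nlinarith
      refine h2.trans (Real.exp_le_exp.2 ?_)
      linarith
  constructor
  · calc (1 : ℝ) = ∏ _j : Fin L, (1 : ℝ) := by simp
      _ ≤ _ := by
        apply Finset.prod_le_prod
        · intro j _; norm_num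
        · intro j _
          exact (hfac j).1
  · calc _ ≤ ∏ j : Fin L, Real.exp (2 * (1 / Λ * (((j : ℕ) + 1 : ℝ) ^ 2)⁻¹)) := by
          apply Finset.prod_le_prod
          · intro j _
            exact zero_le_one.trans (hfac j).1
          · intro j _
            exact (hfac j).2
      _ = Real.exp (∑ j : Fin L, 2 * (1 / Λ * (((j : ℕ) + 1 : ℝ) ^ 2)⁻¹)) := by
          rw [Real.exp_sum]
      _ ≤ Real.exp 1 := by
          apply Real.exp_le_exp.2
          rw [← Finset.mul_sum, ← Finset.mul_sum]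
          have h1 := sum_inv_sq L
          have h2 : 1 / Λ ≤ 1 / 4 := by
            apply one_div_le_one_div_of_le <;> linarith
          have h3 : 0 ≤ ∑ j : Fin L, (((j : ℕ) + 1 : ℝ) ^ 2)⁻¹ :=
            Finset.sum_nonneg fun j _ => by positivity
          have h4 : 0 < 1 / Λ := by positivity
          nlinarith
      _ ≤ 3 := by
          have := Real.exp_one_lt_d9
          linarith

theorem rpow_exp_eq {Λ : ℝ} (hΛ : 0 < Λ) (i s : ℕ) (α : ℝ) :
    (Λ ^ s)⁻¹ * (Λ ^ i) ^ α = Λ ^ ((i : ℝ) * α - s) := by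
  rw [← Real.rpow_natCast Λ s, ← Real.rpow_natCast Λ i, ← Real.rpow_mul hΛ.le,
    ← Real.rpow_neg hΛ.le, ← Real.rpow_add hΛ]
  congr 1
  ring

/-- total far weight -/
noncomputable def PP (Λ : ℝ) (R L : ℕ) : ℝ := ∏ j : Fin L, (Λ ^ R * ((j : ℕ) + 1 : ℝ) ^ 2)

theorem PP_pos {Λ : ℝ} (hΛ : 0 < Λ) (R L : ℕ) : 0 < PP Λ R L := by
  unfold PP
  apply Finset.prod_pos
  intro j _
  positivity

theorem near_both {R L : ℕ} {Λ : ℝ} (hΛ : 4 ≤ Λ) (α : ℝ) (i : Fin R) :
    Λ ^ (((i : ℕ) : ℝ) * α - sx R i) ≤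
      PP Λ R L * (|wt (node Λ R L) (Sum.inl i)| * node Λ R L (Sum.inl i) ^ α) ∧
    PP Λ R L * (|wt (node Λ R L) (Sum.inl i)| * node Λ R L (Sum.inl i) ^ α) ≤
      3 * 2 ^ R * Λ ^ (((i : ℕ) : ℝ) * α - sx R i) := by
  have hΛ0 : 0 < Λ := by linarith
  rw [abs_wt, erase_inl]
  simp only [node]
  obtain ⟨n1, n2⟩ := near_bounds (show (2 : ℝ) ≤ Λ by linarith) i
  obtain ⟨f1, f2⟩ := far_factor (L := L) hΛ i
  rw [← rpow_exp_eq hΛ0]
  set N := ∏ l ∈ Finset.univ.erase i, |Λ ^ (i : ℕ) - Λ ^ (l : ℕ)|⁻¹ with hN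
  set G := ∏ j : Fin L, |Λ ^ (i : ℕ) - Λ ^ R * ((j : ℕ) + 1 : ℝ) ^ 2|⁻¹ with hG
  have e1 : PP Λ R L * (N * G * (Λ ^ (i : ℕ)) ^ α) = (PP Λ R L * G) * N * (Λ ^ (i : ℕ)) ^ α := by ring
  rw [e1]
  have f1' : 1 ≤ PP Λ R L * G := f1
  have f2' : PP Λ R L * G ≤ 3 := f2
  have hp : 0 ≤ (Λ ^ (i : ℕ)) ^ α := by positivity
  have hs : 0 < (Λ ^ sx R i)⁻¹ := by positivity
  constructor
  · calc (Λ ^ sx R i)⁻¹ * (Λ ^ (i : ℕ)) ^ α = 1 * (Λ ^ sx R i)⁻¹ * (Λ ^ (i : ℕ)) ^ α := by ring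
      _ ≤ (PP Λ R L * G) * N * (Λ ^ (i : ℕ)) ^ α := by
          gcongr
  · calc (PP Λ R L * G) * N * (Λ ^ (i : ℕ)) ^ α ≤ 3 * (2 ^ R * (Λ ^ sx R i)⁻¹) * (Λ ^ (i : ℕ)) ^ α := by
          have : 0 ≤ N := hs.le.trans n1
          gcongr
      _ = _ := by ring

theorem far_upper {R L : ℕ} {Λ : ℝ} (hΛ : 4 ≤ Λ) (α : ℝ) (hβ : α + 1 - R ≤ -1) (j : Fin L) :
    PP Λ R L * (|wt (node Λ R L) (Sum.inr j)| * node Λ R L (Sum.inr j) ^ α) ≤
      2 ^ (R + 1) * Λ ^ ((R : ℝ) * (α + 1 - R)) * (((j : ℕ) + 1 : ℝ) ^ 2)⁻¹ := by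
  have hΛ0 : 0 < Λ := by linarith
  rw [abs_wt, erase_inr]
  simp only [node]
  set a : ℝ := ((j : ℕ) + 1 : ℝ) ^ 2 with ha
  have ha1 : 1 ≤ a := by
    rw [ha]
    have : (0 : ℝ) ≤ (j : ℕ) := by positivity
    nlinarith
  have ha0 : 0 < a := by linarith
  set Y : ℝ := Λ ^ R * a with hY
  have hY0 : 0 < Y := by positivity
  -- near factor
  have hnear : ∏ i : Fin R, |Y - Λ ^ (i : ℕ)|⁻¹ ≤ (2 / Y) ^ R := by
    calc ∏ i : Fin R, |Y - Λ ^ (i : ℕ)|⁻¹ ≤ ∏ _i : Fin R, (2 / Y) := by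
          apply Finset.prod_le_prod
          · intro i _; positivity
          · intro i _
            have hi : Λ * Λ ^ (i : ℕ) ≤ Y := by
              calc Λ * Λ ^ (i : ℕ) = Λ ^ ((i : ℕ) + 1) := by rw [pow_succ]; ring
                _ ≤ Λ ^ R := pow_le_pow_right₀ (by linarith) i.2
                _ ≤ Y := le_mul_of_one_le_right (by positivity) ha1
            have hli : 0 < Λ ^ (i : ℕ) := by positivity
            have h2 : Y / 2 ≤ Y - Λ ^ (i : ℕ) := by nlinarith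
            rw [abs_of_pos (by linarith)]
            calc (Y - Λ ^ (i : ℕ))⁻¹ ≤ (Y / 2)⁻¹ := inv_anti₀ (by positivity) h2
              _ = 2 / Y := by rw [inv_div]
      _ = (2 / Y) ^ R := by rw [Finset.prod_const, Finset.card_univ, Fintype.card_fin]
  -- far factor
  have hfar : (∏ l ∈ Finset.univ.erase j, (Λ ^ R * ((l : ℕ) + 1 : ℝ) ^ 2)) *
      ∏ l ∈ Finset.univ.erase j, |Y - Λ ^ R * ((l : ℕ) + 1 : ℝ) ^ 2|⁻¹ ≤ 2 := by
    rw [← Finset.prod_mul_distrib]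
    have h1 := far_prod L (j + 1) (by omega) (by have := j.2; omega)
    refine le_trans (le_of_eq ?_) h1
    apply Finset.prod_nbij (fun l : Fin L => (l : ℕ) + 1)
    · intro l hl
      simp only [Finset.mem_erase, Finset.mem_univ, and_true] at hl
      simp only [Finset.mem_erase, Finset.mem_Icc]
      refine ⟨fun h => hl (Fin.ext (by omega)), by omega, by have := l.2; omega⟩
    · intro x _ y _ h
      simp only at h
      exact Fin.ext (by omega)
    · intro m hm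
      simp only [Finset.coe_erase, Finset.coe_Icc, Set.mem_sdiff, Set.mem_Icc,
        Set.mem_singleton_iff] at hm
      refine ⟨⟨m - 1, by omega⟩, ?_, by simp only; omega⟩
      simp only [Finset.coe_erase, Finset.coe_univ, Set.mem_sdiff, Set.mem_univ,
        Set.mem_singleton_iff, true_and]
      intro h
      have := congrArg (fun x : Fin L => (x : ℕ)) h
      simp only at this
      omega
    · intro l _
      push_cast
      rw [hY, ← mul_sub, abs_mul, abs_of_pos (by positivity : 0 < Λ ^ R), ha, mul_inv]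
      field_simp
  have hP : PP Λ R L = Y * ∏ l ∈ Finset.univ.erase j, (Λ ^ R * ((l : ℕ) + 1 : ℝ) ^ 2) := by
    unfold PP
    rw [← Finset.mul_prod_erase Finset.univ _ (Finset.mem_univ j)]
  set A := ∏ l ∈ Finset.univ.erase j, (Λ ^ R * ((l : ℕ) + 1 : ℝ) ^ 2) with hA
  set Bf := ∏ l ∈ Finset.univ.erase j, |Y - Λ ^ R * ((l : ℕ) + 1 : ℝ) ^ 2|⁻¹ with hBf
  set N := ∏ i : Fin R, |Y - Λ ^ (i : ℕ)|⁻¹ with hN
  have hN0 : 0 ≤ N := Finset.prod_nonneg fun i _ => by positivity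
  rw [hP]
  have e1 : Y * A * (N * Bf * Y ^ α) = (A * Bf) * N * (Y * Y ^ α) := by ring
  rw [e1]
  calc (A * Bf) * N * (Y * Y ^ α) ≤ 2 * (2 / Y) ^ R * (Y * Y ^ α) := by gcongr
    _ = 2 ^ (R + 1) * Y ^ (α + 1 - R) := by
        rw [div_pow, Real.rpow_sub hY0, Real.rpow_add hY0, Real.rpow_one, Real.rpow_natCast]
        ring
    _ ≤ 2 ^ (R + 1) * (Λ ^ ((R : ℝ) * (α + 1 - R)) * a⁻¹) := by
        gcongr
        rw [hY, Real.mul_rpow (by positivity) (by positivity), ← Real.rpow_natCast Λ R,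
          ← Real.rpow_mul hΛ0.le]
        gcongr
        rw [← Real.rpow_neg_one]
        exact Real.rpow_le_rpow_of_exponent_le ha1 hβ
    _ = _ := by ring

/-- JOB. One single node dominates all the others in the weight `|w(y)| y^α`, uniformly in `L`. -/
theorem dominance (α : ℝ) (hα : 0 < α) (hint : ∀ m : ℕ, α ≠ m) (K : ℝ) (hK : 1 ≤ K) :
    ∃ (R : ℕ) (Λ : ℝ), 2 ≤ R ∧ 2 ≤ Λ ∧ ∀ L : ℕ, ∃ i₀ : Fin R ⊕ Fin L,
      K * ∑ i ∈ Finset.univ.erase i₀, |wt (node Λ R L) i| * node Λ R L i ^ α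
        ≤ |wt (node Λ R L) i₀| * node Λ R L i₀ ^ α := by
  set r : ℕ := ⌊α⌋₊ with hr
  have hr1 : (r : ℝ) < α := lt_of_le_of_ne (Nat.floor_le hα.le) (fun h => hint r h.symm)
  have hr2 : α < r + 1 := Nat.lt_floor_add_one α
  set θ : ℝ := min (α - r) (r + 1 - α) with hθ
  have hθ0 : 0 < θ := lt_min (by linarith) (by linarith)
  have hθ1 : θ ≤ 1 := by
    have := min_le_left (α - r) (r + 1 - α)
    linarith
  set C : ℝ := K * ((r + 3 : ℕ) * (3 * 2 ^ (r + 3)) + 2 ^ (r + 3 + 1) * 2) with hC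
  have hC0 : 0 < C := by positivity
  have hlim : Filter.Tendsto (fun x : ℝ => C * x ^ (-θ)) Filter.atTop (nhds (C * 0)) :=
    (tendsto_rpow_neg_atTop hθ0).const_mul C
  rw [mul_zero] at hlim
  obtain ⟨Λ, hΛ1, hΛ4⟩ := ((hlim.eventually (gt_mem_nhds one_pos)).and
    (Filter.eventually_ge_atTop (4 : ℝ))).exists
  have hΛ0 : 0 < Λ := by linarith
  have hΛge1 : 1 ≤ Λ := by linarith
  refine ⟨r + 3, Λ, by omega, by linarith, fun L => ?_⟩
  have hlt : r + 1 < r + 3 := by omega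
  refine ⟨Sum.inl ⟨r + 1, hlt⟩, ?_⟩
  have hPP := PP_pos hΛ0 (r + 3) L
  refine le_of_mul_le_mul_left ?_ hPP
  have hlow := (near_both (L := L) hΛ4 α (⟨r + 1, hlt⟩ : Fin (r + 3))).1
  refine le_trans ?_ hlow
  -- exponents
  set T : ℝ := (((⟨r + 1, hlt⟩ : Fin (r + 3)) : ℕ) : ℝ) * α - sx (r + 3) ((⟨r + 1, hlt⟩ : Fin (r + 3)) : ℕ)
    with hT
  have hTval : T = (r + 1) * α - (((r + 3 : ℕ) : ℝ) ^ 2 - (r + 3 : ℕ) + ((r + 1 : ℕ) : ℝ) ^ 2 - (r + 1 : ℕ)) / 2 := by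
    rw [hT, sx_eq _ _ hlt]
    push_cast
    ring
  have hnear : ∀ i ∈ Finset.univ.erase (⟨r + 1, hlt⟩ : Fin (r + 3)),
      PP Λ (r + 3) L * (|wt (node Λ (r + 3) L) (Sum.inl i)| * node Λ (r + 3) L (Sum.inl i) ^ α) ≤
        3 * 2 ^ (r + 3) * (Λ ^ (-θ) * Λ ^ T) := by
    intro i hi
    refine (near_both (L := L) hΛ4 α i).2.trans ?_
    have hne : (i : ℕ) ≠ r + 1 := by
      intro h
      simp only [Finset.mem_erase, Finset.mem_univ, and_true] at hi
      exact hi (Fin.ext h)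
    rw [← Real.rpow_add hΛ0]
    gcongr
    rw [sx_eq _ _ i.2, hTval]
    have hi3 : (i : ℕ) < r + 3 := i.2
    push_cast
    rcases Nat.lt_or_ge (i : ℕ) (r + 1) with h | h
    · have h1 : ((i : ℕ) : ℝ) ≤ r := by
        have : (i : ℕ) ≤ r := by omega
        exact_mod_cast this
      have h2 : θ ≤ α - r := min_le_left _ _
      have h3 : (0 : ℝ) ≤ (i : ℕ) := by positivity
      nlinarith [mul_nonneg (sub_nonneg.2 h1) (sub_nonneg.2 h1), mul_nonneg (sub_nonneg.2 h1) (sub_nonneg.2 hr1.le)]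
    · have h1 : (i : ℕ) = r + 2 := by omega
      have h2 : ((i : ℕ) : ℝ) = r + 2 := by rw [h1]; push_cast; ring
      rw [h2]
      have h3 : θ ≤ r + 1 - α := min_le_right _ _
      nlinarith
  have hβ : α + 1 - ((r + 3 : ℕ) : ℝ) ≤ -1 := by
    push_cast
    linarith
  have hfar : ∀ j : Fin L,
      PP Λ (r + 3) L * (|wt (node Λ (r + 3) L) (Sum.inr j)| * node Λ (r + 3) L (Sum.inr j) ^ α) ≤
        2 ^ (r + 3 + 1) * (Λ ^ (-θ) * Λ ^ T) * (((j : ℕ) + 1 : ℝ) ^ 2)⁻¹ := by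
    intro j
    refine (far_upper hΛ4 α hβ j).trans ?_
    rw [← Real.rpow_add hΛ0]
    gcongr
    rw [hTval]
    push_cast
    nlinarith
  rw [erase_inl_sum]
  have hsum1 : PP Λ (r + 3) L * ∑ l ∈ Finset.univ.erase (⟨r + 1, hlt⟩ : Fin (r + 3)),
      |wt (node Λ (r + 3) L) (Sum.inl l)| * node Λ (r + 3) L (Sum.inl l) ^ α ≤
      (r + 3 : ℕ) * (3 * 2 ^ (r + 3) * (Λ ^ (-θ) * Λ ^ T)) := by
    rw [Finset.mul_sum]
    calc _ ≤ ∑ l ∈ Finset.univ.erase (⟨r + 1, hlt⟩ : Fin (r + 3)),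
          (3 * 2 ^ (r + 3) * (Λ ^ (-θ) * Λ ^ T)) := Finset.sum_le_sum hnear
      _ = ((Finset.univ.erase (⟨r + 1, hlt⟩ : Fin (r + 3))).card : ℝ) *
          (3 * 2 ^ (r + 3) * (Λ ^ (-θ) * Λ ^ T)) := by rw [Finset.sum_const, nsmul_eq_mul]
      _ ≤ _ := by
          have : (Finset.univ.erase (⟨r + 1, hlt⟩ : Fin (r + 3))).card ≤ r + 3 := by
            rw [Finset.card_erase_of_mem (Finset.mem_univ _), Finset.card_univ, Fintype.card_fin]
            omega
          have h2 : ((Finset.univ.erase (⟨r + 1, hlt⟩ : Fin (r + 3))).card : ℝ) ≤ (r + 3 : ℕ) := by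
            exact_mod_cast this
          gcongr
  have hsum2 : PP Λ (r + 3) L * ∑ j : Fin L,
      |wt (node Λ (r + 3) L) (Sum.inr j)| * node Λ (r + 3) L (Sum.inr j) ^ α ≤
      2 ^ (r + 3 + 1) * (Λ ^ (-θ) * Λ ^ T) * 2 := by
    rw [Finset.mul_sum]
    calc _ ≤ ∑ j : Fin L, 2 ^ (r + 3 + 1) * (Λ ^ (-θ) * Λ ^ T) * (((j : ℕ) + 1 : ℝ) ^ 2)⁻¹ :=
          Finset.sum_le_sum fun j _ => hfar j
      _ = 2 ^ (r + 3 + 1) * (Λ ^ (-θ) * Λ ^ T) * ∑ j : Fin L, (((j : ℕ) + 1 : ℝ) ^ 2)⁻¹ := by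
          rw [Finset.mul_sum]
      _ ≤ _ := by
          gcongr
          exact sum_inv_sq L
  have hTpos : 0 < Λ ^ T := by positivity
  calc PP Λ (r + 3) L * (K * ((∑ l ∈ Finset.univ.erase (⟨r + 1, hlt⟩ : Fin (r + 3)),
      |wt (node Λ (r + 3) L) (Sum.inl l)| * node Λ (r + 3) L (Sum.inl l) ^ α) +
      ∑ j : Fin L, |wt (node Λ (r + 3) L) (Sum.inr j)| * node Λ (r + 3) L (Sum.inr j) ^ α))
      = K * (PP Λ (r + 3) L * ∑ l ∈ Finset.univ.erase (⟨r + 1, hlt⟩ : Fin (r + 3)),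
      |wt (node Λ (r + 3) L) (Sum.inl l)| * node Λ (r + 3) L (Sum.inl l) ^ α) +
      K * (PP Λ (r + 3) L * ∑ j : Fin L,
        |wt (node Λ (r + 3) L) (Sum.inr j)| * node Λ (r + 3) L (Sum.inr j) ^ α) := by ring
    _ ≤ K * ((r + 3 : ℕ) * (3 * 2 ^ (r + 3) * (Λ ^ (-θ) * Λ ^ T))) +
        K * (2 ^ (r + 3 + 1) * (Λ ^ (-θ) * Λ ^ T) * 2) := by
        gcongr
    _ = (C * Λ ^ (-θ)) * Λ ^ T := by rw [hC]; ring
    _ ≤ 1 * Λ ^ T := by gcongr
    _ = Λ ^ T := one_mul _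

theorem node_inj (Λ : ℝ) (hΛ : 2 ≤ Λ) (R L : ℕ) : Function.Injective (node Λ R L) := by
  have h1 : 1 < Λ := by linarith
  have hlt : ∀ (i : Fin R) (j : Fin L), node Λ R L (Sum.inl i) < node Λ R L (Sum.inr j) := by
    intro i j
    simp only [node]
    have h2 : Λ ^ (i : ℕ) < Λ ^ R := pow_lt_pow_right₀ h1 i.2
    have h3 : (1:ℝ) ≤ ((j : ℕ) + 1 : ℝ) ^ 2 := by
      have : (0:ℝ) ≤ ((j : ℕ) : ℝ) := Nat.cast_nonneg _
      nlinarith
    have h4 : 0 < Λ ^ R := by positivity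
    nlinarith
  rintro (i | i) (j | j) h
  · simp only [node] at h
    have := pow_right_injective₀ (by linarith : (0:ℝ) < Λ) h1.ne' h
    rw [Fin.ext this]
  · exact absurd h (hlt i j).ne
  · exact absurd h (hlt j i).ne'
  · simp only [node] at h
    have h4 : (Λ ^ R) ≠ 0 := by positivity
    have h5 := mul_left_cancel₀ h4 h
    have h6 : ((i : ℕ) + 1 : ℝ) = ((j : ℕ) + 1 : ℝ) := by
      have hi : (0:ℝ) ≤ ((i : ℕ) : ℝ) := Nat.cast_nonneg _
      have hj : (0:ℝ) ≤ ((j : ℕ) : ℝ) := Nat.cast_nonneg _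
      exact (pow_left_inj₀ (by positivity) (by positivity) two_ne_zero).1 h5
    have h7 : (i : ℕ) = (j : ℕ) := by exact_mod_cast (add_right_cancel h6)
    rw [Fin.ext h7]

theorem node_ge (Λ : ℝ) (hΛ : 2 ≤ Λ) (R L : ℕ) (i : Fin R ⊕ Fin L) : 1 ≤ node Λ R L i := by
  have h1 : 1 ≤ Λ := by linarith
  rcases i with i | j
  · simp only [node]
    exact one_le_pow₀ h1
  · simp only [node]
    have h3 : (1:ℝ) ≤ ((j : ℕ) + 1 : ℝ) ^ 2 := by
      have : (0:ℝ) ≤ ((j : ℕ) : ℝ) := Nat.cast_nonneg _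
      nlinarith
    have h4 : 1 ≤ Λ ^ R := one_le_pow₀ h1
    nlinarith

theorem node_le (Λ : ℝ) (hΛ : 2 ≤ Λ) (R L : ℕ) (hL : 1 ≤ L) (i : Fin R ⊕ Fin L) :
    node Λ R L i ≤ Λ ^ R * (L : ℝ) ^ 2 := by
  have h1 : 1 ≤ Λ := by linarith
  have h4 : 1 ≤ Λ ^ R := one_le_pow₀ h1
  have hL' : (1:ℝ) ≤ L := by exact_mod_cast hL
  rcases i with i | j
  · simp only [node]
    have h2 : Λ ^ (i : ℕ) ≤ Λ ^ R := pow_le_pow_right₀ h1 i.2.le
    have h3 : (1:ℝ) ≤ (L:ℝ) ^ 2 := one_le_pow₀ hL'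
    nlinarith
  · simp only [node]
    have h3 : ((j : ℕ) + 1 : ℝ) ≤ L := by exact_mod_cast j.2
    have h0 : (0:ℝ) ≤ ((j : ℕ) : ℝ) := Nat.cast_nonneg _
    gcongr

/-- JOB. A family of probability vectors with the same first `L` moments and geometrically
growing `α`-th moments. -/
theorem family (α : ℝ) (hα : 0 < α) (hint : ∀ m : ℕ, α ≠ m) (ρ : ℝ) (hρ : 1 < ρ) (G : ℕ) :
    ∃ M₀ : ℝ, 1 ≤ M₀ ∧ ∀ L : ℕ, 1 ≤ L →
      ∃ (N : ℕ) (y : Fin N → ℝ) (μ : ℕ → Fin N → ℝ) (b : ℝ),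
        1 ≤ b ∧ (∀ i, 1 ≤ y i) ∧ (∀ i, y i ≤ M₀ * (L : ℝ) ^ 2) ∧
        (∀ q, q < G → ∀ i, 0 ≤ μ q i) ∧ (∀ q, q < G → ∑ i, μ q i = 1) ∧
        (∀ q, q < G → ∀ s : ℕ, s ≤ L → ∑ i, μ q i * y i ^ s = ∑ i, μ 0 i * y i ^ s) ∧
        (∀ q, q < G → ∑ i, μ q i * y i ^ α = b * ρ ^ q) := by
  classical
  set K : ℝ := ρ ^ (G + 1) with hK
  have hK1 : 1 < K := one_lt_pow₀ hρ (by omega)
  obtain ⟨R, Λ, hR, hΛ, hdom⟩ := dominance α hα hint K hK1.le
  refine ⟨Λ ^ R, one_le_pow₀ (by linarith), ?_⟩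
  intro L hL
  obtain ⟨i₀, hi₀⟩ := hdom L
  -- the general statement on the sum type
  suffices h : ∃ (μ : ℕ → (Fin R ⊕ Fin L) → ℝ) (b : ℝ),
        1 ≤ b ∧
        (∀ q, q < G → ∀ i, 0 ≤ μ q i) ∧ (∀ q, q < G → ∑ i, μ q i = 1) ∧
        (∀ q, q < G → ∀ s : ℕ, s ≤ L → ∑ i, μ q i * node Λ R L i ^ s = ∑ i, μ 0 i * node Λ R L i ^ s) ∧
        (∀ q, q < G → ∑ i, μ q i * node Λ R L i ^ α = b * ρ ^ q) by
    obtain ⟨μ, b, hb, h0, h1, h2, h3⟩ := h
    let e : Fin (R + L) ≃ Fin R ⊕ Fin L := finSumFinEquiv.symm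
    refine ⟨R + L, fun i => node Λ R L (e i), fun q i => μ q (e i), b, hb, fun i => node_ge Λ hΛ R L _,
      fun i => node_le Λ hΛ R L hL _, fun q hq i => h0 q hq _, ?_, ?_, ?_⟩
    · intro q hq
      rw [← h1 q hq]
      exact Equiv.sum_comp e (fun i => μ q i)
    · intro q hq s hs
      have e1 := Equiv.sum_comp e (fun i => μ q i * node Λ R L i ^ s)
      have e2 := Equiv.sum_comp e (fun i => μ 0 i * node Λ R L i ^ s)
      rw [e1, e2]
      exact h2 q hq s hs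
    · intro q hq
      have e1 := Equiv.sum_comp e (fun i => μ q i * node Λ R L i ^ α)
      rw [e1]
      exact h3 q hq
  set y := node Λ R L with hy
  have yinj : Function.Injective y := node_inj Λ hΛ R L
  have y1 : ∀ i, 1 ≤ y i := node_ge Λ hΛ R L
  set w := wt y with hw
  have w0 : w i₀ ≠ 0 := by
    rw [hw, wt, Finset.prod_ne_zero_iff]
    intro j hj
    apply inv_ne_zero
    rw [sub_ne_zero]
    intro h
    exact (Finset.mem_erase.1 hj).1 (yinj h).symm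
  have hsum : ∀ s : ℕ, s ≤ L → ∑ i, w i * y i ^ s = 0 := by
    intro s hs
    have := sum_weight_pow y yinj s (by
      rw [Fintype.card_sum, Fintype.card_fin, Fintype.card_fin]; omega)
    exact this
  -- sign
  obtain ⟨σ, hσ, hσw⟩ : ∃ σ : ℝ, |σ| = 1 ∧ σ * w i₀ = |w i₀| := by
    rcases lt_or_gt_of_ne w0 with h | h
    · exact ⟨-1, by simp, by rw [abs_of_neg h]; ring⟩
    · exact ⟨1, by simp, by rw [abs_of_pos h]; ring⟩
  set v : Fin R ⊕ Fin L → ℝ := fun i => σ * w i with hv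
  have hvabs : ∀ i, |v i| = |w i| := by
    intro i; rw [hv]; simp only [abs_mul, hσ, one_mul]
  have hv0 : 0 < v i₀ := by
    rw [hv]; simp only [hσw]; exact abs_pos.2 w0
  have hvsum : ∀ s : ℕ, s ≤ L → ∑ i, v i * y i ^ s = 0 := by
    intro s hs
    have : ∑ i, v i * y i ^ s = σ * ∑ i, w i * y i ^ s := by
      rw [Finset.mul_sum]
      apply Finset.sum_congr rfl
      intro i _
      rw [hv]; ring
    rw [this, hsum s hs, mul_zero]
  set A : Fin R ⊕ Fin L → ℝ := fun i => max (v i) 0 with hA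
  set B : Fin R ⊕ Fin L → ℝ := fun i => max (-v i) 0 with hB
  have hAB : ∀ i, A i - B i = v i := by
    intro i
    simp only [hA, hB]
    rcases le_total 0 (v i) with h | h
    · rw [max_eq_left h, max_eq_right (by linarith)]; ring
    · rw [max_eq_right h, max_eq_left (by linarith)]; ring
  have hA0 : ∀ i, 0 ≤ A i := fun i => le_max_right _ _
  have hB0 : ∀ i, 0 ≤ B i := fun i => le_max_right _ _
  have hBle : ∀ i, B i ≤ |w i| := by
    intro i
    rw [← hvabs i]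
    exact max_le (neg_le_abs _) (abs_nonneg _)
  have hBi₀ : B i₀ = 0 := max_eq_right (by linarith)
  have hAi₀ : A i₀ = |w i₀| := by
    have : A i₀ = v i₀ := max_eq_left hv0.le
    rw [this, hv]; exact hσw
  have hABs : ∀ s : ℕ, s ≤ L → ∑ i, A i * y i ^ s = ∑ i, B i * y i ^ s := by
    intro s hs
    rw [← sub_eq_zero, ← Finset.sum_sub_distrib, ← hvsum s hs]
    apply Finset.sum_congr rfl
    intro i _
    rw [← hAB i]; ring
  set W := ∑ i, A i with hW
  have hWB : ∑ i, B i = W := by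
    have := hABs 0 (Nat.zero_le _)
    simp only [pow_zero, mul_one] at this
    rw [hW]; exact this.symm
  have hWpos : 0 < W := by
    apply lt_of_lt_of_le (b := A i₀)
    · rw [hAi₀]; exact abs_pos.2 w0
    · exact Finset.single_le_sum (fun i _ => hA0 i) (Finset.mem_univ i₀)
  have yα : ∀ i, 1 ≤ y i ^ α := fun i => Real.one_le_rpow (y1 i) hα.le
  set a := ∑ i, A i / W * y i ^ α with ha
  set b := ∑ i, B i / W * y i ^ α with hb
  have hb1 : 1 ≤ b := by
    have h1 : ∑ i, B i / W = 1 := by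
      rw [← Finset.sum_div, hWB]; exact div_self hWpos.ne'
    rw [← h1, hb]
    apply Finset.sum_le_sum
    intro i _
    have := yα i
    have h2 : 0 ≤ B i / W := div_nonneg (hB0 i) hWpos.le
    nlinarith
  have hKb : K * b ≤ a := by
    have h1 : W * b = ∑ i ∈ Finset.univ.erase i₀, B i * y i ^ α := by
      rw [hb, Finset.mul_sum, ← Finset.add_sum_erase _ _ (Finset.mem_univ i₀), hBi₀]
      simp only [zero_div, zero_mul, mul_zero, zero_add]
      apply Finset.sum_congr rfl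
      intro i _
      field_simp
    have h2 : W * b ≤ ∑ i ∈ Finset.univ.erase i₀, |w i| * y i ^ α := by
      rw [h1]
      apply Finset.sum_le_sum
      intro i _
      exact mul_le_mul_of_nonneg_right (hBle i) (by linarith [yα i])
    have h3 : |w i₀| * y i₀ ^ α ≤ W * a := by
      rw [← hAi₀, ha, Finset.mul_sum]
      have : A i₀ * y i₀ ^ α = W * (A i₀ / W * y i₀ ^ α) := by field_simp
      rw [this]
      apply Finset.single_le_sum (f := fun i => W * (A i / W * y i ^ α)) _ (Finset.mem_univ i₀)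
      intro i _
      have := yα i
      have h4 := hA0 i
      positivity
    have h4 : W * (K * b) ≤ W * a := by
      calc W * (K * b) = K * (W * b) := by ring
        _ ≤ K * ∑ i ∈ Finset.univ.erase i₀, |w i| * y i ^ α := by gcongr
        _ ≤ |w i₀| * y i₀ ^ α := hi₀
        _ ≤ W * a := h3
    exact le_of_mul_le_mul_left h4 hWpos
  have hab : 0 < a - b := by nlinarith
  refine ⟨fun q i => (1 - (ρ ^ q - 1) * b / (a - b)) * (B i / W) + (ρ ^ q - 1) * b / (a - b) * (A i / W),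
    b, hb1, ?_, ?_, ?_, ?_⟩
  · intro q hq i
    have hq1 : 1 ≤ ρ ^ q := one_le_pow₀ hρ.le
    have hqK : ρ ^ q ≤ K := by
      rw [hK]; exact pow_le_pow_right₀ hρ.le (by omega)
    have t0 : 0 ≤ (ρ ^ q - 1) * b / (a - b) := by
      apply div_nonneg _ hab.le
      apply mul_nonneg <;> linarith
    have t1 : (ρ ^ q - 1) * b / (a - b) ≤ 1 := by
      rw [div_le_one hab]
      nlinarith
    have h2 : 0 ≤ B i / W := div_nonneg (hB0 i) hWpos.le
    have h3 : 0 ≤ A i / W := div_nonneg (hA0 i) hWpos.le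
    have h4 : 0 ≤ 1 - (ρ ^ q - 1) * b / (a - b) := by linarith
    exact add_nonneg (mul_nonneg h4 h2) (mul_nonneg t0 h3)
  · intro q _
    rw [Finset.sum_add_distrib, ← Finset.mul_sum, ← Finset.mul_sum, ← Finset.sum_div, ← Finset.sum_div,
      hWB, ← hW, div_self hWpos.ne']
    ring
  · intro q _ s hs
    have key : ∀ t : ℝ, ∑ i, ((1 - t) * (B i / W) + t * (A i / W)) * y i ^ s = (∑ i, B i * y i ^ s) / W := by
      intro t
      have e1 : ∀ i, ((1 - t) * (B i / W) + t * (A i / W)) * y i ^ s =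
          (1 - t) / W * (B i * y i ^ s) + t / W * (A i * y i ^ s) := by
        intro i; ring
      simp only [e1]
      rw [Finset.sum_add_distrib, ← Finset.mul_sum, ← Finset.mul_sum, hABs s hs]
      ring
    rw [key, key]
  · intro q _
    have e1 : ∀ i, ((1 - (ρ ^ q - 1) * b / (a - b)) * (B i / W) + (ρ ^ q - 1) * b / (a - b) * (A i / W)) * y i ^ α =
        (1 - (ρ ^ q - 1) * b / (a - b)) * (B i / W * y i ^ α) + (ρ ^ q - 1) * b / (a - b) * (A i / W * y i ^ α) := by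
      intro i; ring
    simp only [e1]
    rw [Finset.sum_add_distrib, ← Finset.mul_sum, ← Finset.mul_sum, ← ha, ← hb]
    field_simp
    ring




theorem log_rpow_le (s r c : ℝ) (hr : 0 < r) (hc : 0 < c) :
    ∀ᶠ x : ℝ in Filter.atTop, Real.log x ^ s ≤ c * x ^ r := by
  have h := (isLittleO_log_rpow_rpow_atTop s hr).bound hc
  filter_upwards [h, Filter.eventually_ge_atTop (0 : ℝ)] with x hx h0
  refine (le_abs_self _).trans (hx.trans ?_)
  rw [Real.norm_eq_abs, abs_of_nonneg (Real.rpow_nonneg h0 r)]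

/-- JOB (routine asymptotics). -/
theorem asymp (A α η₀ : ℝ) (hA : 1 ≤ A) (hα : 0 < α) (hη : 0 < η₀) :
    ∃ k₀ : ℕ, ∀ k : ℕ, k₀ ≤ k →
      3 ≤ k ∧ 1 ≤ Real.log k ∧
      2 / (k : ℝ) + 2 * k * Real.exp (1 - 2 * k / (3 * (A * Real.log k ^ 2)))
        + 12 * (A * Real.log k ^ 2) ^ α / k
        + Real.exp (-(2 * k / (3 * (A * Real.log k ^ 2)))) < η₀ ∧
      (α < 1 → 4 * ((k : ℝ) - 1) * (A * Real.log k ^ 2) ≤ ((k : ℝ) - 1) ^ (1 / α)) := by
  have hA0 : 0 < A := by linarith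
  have hcast : Filter.Tendsto (fun k : ℕ => (k : ℝ)) Filter.atTop Filter.atTop :=
    tendsto_natCast_atTop_atTop
  have hcast1 : Filter.Tendsto (fun k : ℕ => (k : ℝ) - 1) Filter.atTop Filter.atTop :=
    Filter.tendsto_atTop_add_const_right _ (-1) hcast
  have e1 : ∀ᶠ k : ℕ in Filter.atTop, 3 ≤ k := Filter.eventually_ge_atTop 3
  have e2 : ∀ᶠ k : ℕ in Filter.atTop, 1 ≤ Real.log k :=
    (Real.tendsto_log_atTop.comp hcast).eventually_ge_atTop 1
  have e3 : ∀ᶠ k : ℕ in Filter.atTop, Real.log k ^ (3 : ℝ) ≤ (2 / (9 * A)) * (k : ℝ) ^ (1 : ℝ) :=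
    hcast.eventually (log_rpow_le 3 1 (2 / (9 * A)) one_pos (by positivity))
  have e4 : ∀ᶠ k : ℕ in Filter.atTop, 100 / η₀ < (k : ℝ) :=
    hcast.eventually_gt_atTop _
  have e5 : ∀ᶠ k : ℕ in Filter.atTop,
      Real.log k ^ (2 * α) ≤ (η₀ / (60 * A ^ α)) * (k : ℝ) ^ (1 : ℝ) :=
    hcast.eventually (log_rpow_le (2 * α) 1 (η₀ / (60 * A ^ α)) one_pos (by positivity))
  have e6 : ∀ᶠ k : ℕ in Filter.atTop, α < 1 →
      Real.log ((k : ℝ) - 1) ^ (2 : ℝ) ≤ (1 / (16 * A)) * ((k : ℝ) - 1) ^ (1 / α - 1) := by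
    by_cases h : α < 1
    · have hr : 0 < 1 / α - 1 := by
        rw [sub_pos, lt_div_iff₀ hα]
        linarith
      filter_upwards [hcast1.eventually (log_rpow_le 2 (1 / α - 1) (1 / (16 * A)) hr (by positivity))]
        with k hk _
      exact hk
    · exact Filter.Eventually.of_forall fun k h' => absurd h' h
  obtain ⟨k₀, hk₀⟩ := Filter.eventually_atTop.1 (e1.and (e2.and (e3.and (e4.and (e5.and e6)))))
  refine ⟨k₀, fun k hk => ?_⟩
  obtain ⟨h1, h2, h3, h4, h5, h6⟩ := hk₀ k hk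
  have hk3 : (3 : ℝ) ≤ k := by exact_mod_cast h1
  have hk0 : (0 : ℝ) < k := by linarith
  set L := Real.log k with hL
  have hL0 : 0 < L := by linarith
  have h3' : L ^ 3 ≤ 2 / (9 * A) * k := by
    rw [Real.rpow_one] at h3
    have : L ^ (3 : ℝ) = L ^ 3 := by
      rw [← Real.rpow_natCast]; norm_num
    rwa [this] at h3
  have hq : 3 * L ≤ 2 * k / (3 * (A * L ^ 2)) := by
    rw [le_div_iff₀ (by positivity)]
    have : 3 * L * (3 * (A * L ^ 2)) = 9 * A * L ^ 3 := by ring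
    rw [this]
    calc 9 * A * L ^ 3 ≤ 9 * A * (2 / (9 * A) * k) := by
          apply mul_le_mul_of_nonneg_left h3' (by positivity)
      _ = 2 * k := by field_simp
  have hexp3 : Real.exp (-(3 * L)) = 1 / (k : ℝ) ^ 3 := by
    have : -(3 * L) = Real.log k * (-3 : ℝ) := by rw [← hL]; ring
    rw [this, ← Real.rpow_def_of_pos hk0, Real.rpow_neg hk0.le]
    rw [one_div]
    congr 1
    rw [← Real.rpow_natCast]; norm_num
  have hη1 : 1 / (k : ℝ) < η₀ / 100 := by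
    rw [div_lt_iff₀ hη] at h4
    rw [div_lt_div_iff₀ hk0 (by norm_num)]
    linarith
  have hk1 : 1 / (k : ℝ) ^ 2 ≤ 1 / k := by
    apply one_div_le_one_div_of_le hk0
    nlinarith
  have hk2 : 1 / (k : ℝ) ^ 3 ≤ 1 / k := by
    apply one_div_le_one_div_of_le hk0
    have : (k : ℝ) ^ 3 = k * (k * k) := by ring
    rw [this]
    nlinarith
  refine ⟨h1, h2, ?_, ?_⟩
  · have t1 : 2 / (k : ℝ) < η₀ / 5 := by
      have : 2 / (k : ℝ) = 2 * (1 / k) := by ring
      rw [this]; linarith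
    have t2 : 2 * (k : ℝ) * Real.exp (1 - 2 * k / (3 * (A * L ^ 2))) < η₀ / 5 := by
      have hle : Real.exp (1 - 2 * k / (3 * (A * L ^ 2))) ≤ Real.exp 1 * (1 / (k : ℝ) ^ 3) := by
        rw [← hexp3, ← Real.exp_add]
        apply Real.exp_le_exp.2
        linarith
      have he : Real.exp 1 < 3 := by
        have := Real.exp_one_lt_d9
        linarith
      calc 2 * (k : ℝ) * Real.exp (1 - 2 * k / (3 * (A * L ^ 2)))
          ≤ 2 * (k : ℝ) * (Real.exp 1 * (1 / (k : ℝ) ^ 3)) := by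
            apply mul_le_mul_of_nonneg_left hle (by positivity)
        _ = 2 * Real.exp 1 * (1 / (k : ℝ) ^ 2) := by
            field_simp
        _ ≤ 2 * 3 * (1 / (k : ℝ)) := by
            apply mul_le_mul _ hk1 (by positivity) (by norm_num)
            linarith
        _ < η₀ / 5 := by linarith
    have t3 : 12 * (A * L ^ 2) ^ α / k ≤ η₀ / 5 := by
      rw [Real.rpow_one] at h5
      rw [Real.mul_rpow hA0.le (by positivity)]
      have hL2 : (L ^ 2) ^ α = L ^ (2 * α) := by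
        rw [Real.rpow_mul hL0.le]
        congr 1
        norm_num
      rw [hL2, div_le_iff₀ hk0]
      have hAa : 0 < A ^ α := Real.rpow_pos_of_pos hA0 α
      calc 12 * (A ^ α * L ^ (2 * α)) ≤ 12 * (A ^ α * (η₀ / (60 * A ^ α) * k)) := by
            apply mul_le_mul_of_nonneg_left _ (by norm_num)
            apply mul_le_mul_of_nonneg_left h5 hAa.le
        _ = η₀ / 5 * k := by
            field_simp
            ring
    have t4 : Real.exp (-(2 * k / (3 * (A * L ^ 2)))) < η₀ / 5 := by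
      calc Real.exp (-(2 * k / (3 * (A * L ^ 2)))) ≤ Real.exp (-(3 * L)) := by
            apply Real.exp_le_exp.2
            linarith
        _ = 1 / (k : ℝ) ^ 3 := hexp3
        _ ≤ 1 / k := hk2
        _ < η₀ / 5 := by linarith
    linarith
  · intro hα1
    have h6' := h6 hα1
    set y := (k : ℝ) - 1 with hy
    have hy2 : 2 ≤ y := by linarith
    have hy0 : 0 < y := by linarith
    have hlogy : 0 ≤ Real.log y := Real.log_nonneg (by linarith)
    have hLy : L ≤ 2 * Real.log y := by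
      have : (k : ℝ) ≤ y ^ 2 := by nlinarith
      calc L ≤ Real.log (y ^ 2) := Real.log_le_log hk0 this
        _ = 2 * Real.log y := by rw [Real.log_pow]; norm_num
    have h7 : Real.log y ^ 2 ≤ 1 / (16 * A) * y ^ (1 / α - 1) := by
      have : Real.log y ^ (2 : ℝ) = Real.log y ^ 2 := by
        rw [← Real.rpow_natCast]; norm_num
      rwa [this] at h6'
    have hyp : y ^ (1 / α) = y * y ^ (1 / α - 1) := by
      rw [← Real.rpow_one_add' hy0.le]
      · congr 1; ring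
      · have : 0 < 1 / α := by positivity
        intro h0
        have : 1 + (1 / α - 1) = 1 / α := by ring
        rw [this] at h0
        linarith
    rw [hyp]
    have hL2 : L ^ 2 ≤ 4 * Real.log y ^ 2 := by
      nlinarith
    calc 4 * y * (A * L ^ 2) ≤ 4 * y * (A * (4 * Real.log y ^ 2)) := by
          apply mul_le_mul_of_nonneg_left _ (by positivity)
          apply mul_le_mul_of_nonneg_left hL2 hA0.le
      _ ≤ 4 * y * (A * (4 * (1 / (16 * A) * y ^ (1 / α - 1)))) := by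
          apply mul_le_mul_of_nonneg_left _ (by positivity)
          apply mul_le_mul_of_nonneg_left _ hA0.le
          exact mul_le_mul_of_nonneg_left h7 (by norm_num)
      _ = y * y ^ (1 / α - 1) := by
          field_simp
          ring


end RenyiLB
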