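import Mathlib

/-! Definitions for the sample complexity of Rényi entropy estimation (problem MP_5d6a7c_lc). -/

set_option autoImplicit false

namespace RenyiLB

/-- `p` is a probability vector on `Ω`. -/
def IsDist {Ω : Type} [Fintype Ω] (p : Ω → ℝ) : Prop := (∀ x, 0 ≤ p x) ∧ ∑ x, p x = 1

/-- the Rényi entropy of order `α` of `p`. -/
noncomputable def renyi {Ω : Type} [Fintype Ω] (α : ℝ) (p : Ω → ℝ) : ℝ :=
  Real.log (∑ x, p x ^ α) / (1 - α)

open Classical in
/-- probability of the event `E` when `n` i.i.d. samples are drawn from `p`. -/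
noncomputable def prob {Ω : Type} [Fintype Ω] (p : Ω → ℝ) (n : ℕ) (E : Set (Fin n → Ω)) : ℝ :=
  ∑ X : Fin n → Ω, if X ∈ E then ∏ j, p (X j) else 0

/-- some estimator with `n` samples from a distribution on `Ω` has accuracy `δ` and error
probability `< ε`. -/
def Works (α δ ε : ℝ) (Ω : Type) [Fintype Ω] (n : ℕ) : Prop :=
  ∃ f : (Fin n → Ω) → ℝ, ∀ p : Ω → ℝ, IsDist p → prob p n {X | δ < |f X - renyi α p|} < ε


end RenyiLB
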