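import Mathlib
import Pool.Agent.H494.RyDefs

set_option autoImplicit false

namespace RenyiLB



/-- expectation of `g` under the product of the (possibly signed) weights `m i`. -/
noncomputable def PE {h N : ℕ} (m : Fin h → Fin N → ℝ) (g : (Fin h → Fin N) → ℝ) : ℝ :=
  ∑ u : Fin h → Fin N, (∏ i, m i (u i)) * g u


section
theorem hybrid_prod {h N : ℕ} (m : Fin h → Fin N → ℝ) (i : Fin h) (κ : Fin N → ℝ)
    (u : Fin h → Fin N) :
    ∏ j, (Function.update m i κ) j (u j) = κ (u i) * ∏ j ∈ Finset.univ.erase i, m j (u j) := by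
  rw [← Finset.mul_prod_erase Finset.univ _ (Finset.mem_univ i), Function.update_self]
  congr 1
  apply Finset.prod_congr rfl
  intro j hj
  rw [Function.update_of_ne (Finset.ne_of_mem_erase hj)]

theorem hybrid_erase {h N : ℕ} (m : Fin h → Fin N → ℝ) (i : Fin h) (u : Fin h → Fin N) (y : Fin N) :
    ∏ j ∈ Finset.univ.erase i, m j (Function.update u i y j) =
      ∏ j ∈ Finset.univ.erase i, m j (u j) := by
  apply Finset.prod_congr rfl
  intro j hj
  rw [Function.update_of_ne (Finset.ne_of_mem_erase hj)]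

theorem hybrid_split {h N : ℕ} (m : Fin h → Fin N → ℝ) (i : Fin h) (κ ν : Fin N → ℝ)
    (hν : ∑ y, ν y = 1) (g : (Fin h → Fin N) → ℝ) :
    PE (Function.update m i κ) g =
      PE (Function.update m i ν) (fun u => ∑ y, κ y * g (Function.update u i y)) := by
  unfold PE
  simp only [hybrid_prod]
  set G : (Fin h → Fin N) → ℝ := fun u => ∏ j ∈ Finset.univ.erase i, m j (u j) with hG
  have hGu : ∀ u y, G (Function.update u i y) = G u := fun u y => hybrid_erase m i u y
  set F : (Fin h → Fin N) × Fin N → ℝ := fun p =>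
    ν (p.1 i) * G p.1 * (κ p.2 * g (Function.update p.1 i p.2)) with hF
  have hR : ∑ u, ν (u i) * G u * ∑ y, κ y * g (Function.update u i y) = ∑ p, F p := by
    rw [Fintype.sum_prod_type]
    apply Finset.sum_congr rfl
    intro u _
    rw [Finset.mul_sum]
  have hinv : Function.Involutive
      (fun p : (Fin h → Fin N) × Fin N => (Function.update p.1 i p.2, p.1 i)) := by
    rintro ⟨u, y⟩
    simp
  have hS : ∑ p, F p = ∑ p : (Fin h → Fin N) × Fin N, F (Function.update p.1 i p.2, p.1 i) :=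
    (Equiv.sum_comp (hinv.toPerm _) F).symm
  have hL : ∑ p : (Fin h → Fin N) × Fin N, F (Function.update p.1 i p.2, p.1 i) =
      ∑ u, κ (u i) * G u * g u := by
    rw [Fintype.sum_prod_type]
    apply Finset.sum_congr rfl
    intro u _
    have : ∀ z : Fin N, F (Function.update u i z, u i) = ν z * (κ (u i) * G u * g u) := by
      intro z
      show ν (Function.update u i z i) * G (Function.update u i z) *
        (κ (u i) * g (Function.update (Function.update u i z) i (u i))) = _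
      rw [hGu, Function.update_self, Function.update_idem, Function.update_eq_self]
      ring
    rw [Finset.sum_congr rfl (fun z _ => this z), ← Finset.sum_mul, hν, one_mul]
  rw [hR, hS, hL]

theorem PE_sub {h N : ℕ} (m : Fin h → Fin N → ℝ) (f g : (Fin h → Fin N) → ℝ) :
    PE m f - PE m g = PE m (fun u => f u - g u) := by
  unfold PE
  rw [← Finset.sum_sub_distrib]
  apply Finset.sum_congr rfl
  intro u _
  ring

theorem hybrid_step {h N : ℕ} {X : Type} [Fintype X] (μ ν : Fin N → ℝ)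
    (hν1 : ∑ i, ν i = 1)
    (Φ : (Fin h → Fin N) → X → ℝ) (D : (Fin h → Fin N) → ℝ)
    (hD : ∀ (i : Fin h) (u : Fin h → Fin N),
      ∑ x, |∑ y, (μ y - ν y) * Φ (Function.update u i y) x| ≤ D u)
    (B : ℝ) (m : Fin h → Fin N → ℝ) (hm0 : ∀ j y, 0 ≤ m j y) (i : Fin h) (hmi : m i = ν)
    (hB : PE m D ≤ B) :
    ∑ x, |PE (Function.update m i μ) (fun u => Φ u x) - PE m (fun u => Φ u x)| ≤ B := by
  have hup : Function.update m i ν = m := by rw [← hmi]; exact Function.update_eq_self i m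
  have hkey : ∀ x, PE (Function.update m i μ) (fun u => Φ u x) - PE m (fun u => Φ u x) =
      PE m (fun u => ∑ y, (μ y - ν y) * Φ (Function.update u i y) x) := by
    intro x
    have h1 := hybrid_split m i μ ν hν1 (fun u => Φ u x)
    have h2 := hybrid_split m i ν ν hν1 (fun u => Φ u x)
    rw [hup] at h1 h2
    rw [h1]
    conv_lhs => rw [h2]
    rw [PE_sub]
    congr 1
    funext u
    rw [← Finset.sum_sub_distrib]
    apply Finset.sum_congr rfl
    intro y _
    ring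
  calc ∑ x, |PE (Function.update m i μ) (fun u => Φ u x) - PE m (fun u => Φ u x)|
      = ∑ x, |PE m (fun u => ∑ y, (μ y - ν y) * Φ (Function.update u i y) x)| := by
        apply Finset.sum_congr rfl
        intro x _
        rw [hkey]
    _ ≤ ∑ x, PE m (fun u => |∑ y, (μ y - ν y) * Φ (Function.update u i y) x|) := by
        apply Finset.sum_le_sum
        intro x _
        unfold PE
        refine (Finset.abs_sum_le_sum_abs _ _).trans ?_
        apply Finset.sum_le_sum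
        intro u _
        rw [abs_mul, abs_of_nonneg (Finset.prod_nonneg fun j _ => hm0 j (u j))]
    _ = PE m (fun u => ∑ x, |∑ y, (μ y - ν y) * Φ (Function.update u i y) x|) := by
        unfold PE
        rw [Finset.sum_comm]
        apply Finset.sum_congr rfl
        intro u _
        rw [Finset.mul_sum]
    _ ≤ PE m D := by
        unfold PE
        apply Finset.sum_le_sum
        intro u _
        exact mul_le_mul_of_nonneg_left (hD i u) (Finset.prod_nonneg fun j _ => hm0 j (u j))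
    _ ≤ B := hB

/-- JOB (hybrid / telescoping argument): change the law of the coordinates from `ν` to `μ`
one coordinate at a time. -/
theorem hybrid {h N : ℕ} {X : Type} [Fintype X] (μ ν : Fin N → ℝ)
    (hμ0 : ∀ i, 0 ≤ μ i) (hμ1 : ∑ i, μ i = 1) (hν0 : ∀ i, 0 ≤ ν i) (hν1 : ∑ i, ν i = 1)
    (Φ : (Fin h → Fin N) → X → ℝ) (D : (Fin h → Fin N) → ℝ)
    (hD : ∀ (i : Fin h) (u : Fin h → Fin N),
      ∑ x, |∑ y, (μ y - ν y) * Φ (Function.update u i y) x| ≤ D u)
    (B : ℝ) (hB : ∀ m : Fin h → Fin N → ℝ, (∀ i, m i = μ ∨ m i = ν) → PE m D ≤ B) :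
    ∑ x, |PE (fun _ => μ) (fun u => Φ u x) - PE (fun _ => ν) (fun u => Φ u x)| ≤ h * B := by
  classical
  have key : ∀ S : Finset (Fin h),
      ∑ x, |PE (fun i => if i ∈ S then μ else ν) (fun u => Φ u x) -
        PE (fun _ => ν) (fun u => Φ u x)| ≤ S.card * B := by
    intro S
    induction S using Finset.induction_on with
    | empty => simp
    | insert i S hi ih =>
      have hupd : (fun j => if j ∈ insert i S then μ else ν) =
          Function.update (fun j => if j ∈ S then μ else ν) i μ := by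
        funext j
        by_cases hj : j = i
        · subst hj; simp
        · rw [Function.update_of_ne hj]
          simp [Finset.mem_insert, hj]
      have hstep := hybrid_step μ ν hν1 Φ D hD B (fun j => if j ∈ S then μ else ν) (by
          intro j y
          by_cases hj : j ∈ S
          · simp only [hj, if_true]; exact hμ0 y
          · simp only [hj, if_false]; exact hν0 y) i (by simp [hi]) (hB _ (by
          intro j
          by_cases hj : j ∈ S
          · left; simp [hj]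
          · right; simp [hj]))
      rw [← hupd] at hstep
      rw [Finset.card_insert_of_notMem hi]
      push_cast
      calc ∑ x, |PE (fun j => if j ∈ insert i S then μ else ν) (fun u => Φ u x) -
            PE (fun _ => ν) (fun u => Φ u x)|
          ≤ ∑ x, (|PE (fun j => if j ∈ insert i S then μ else ν) (fun u => Φ u x) -
              PE (fun j => if j ∈ S then μ else ν) (fun u => Φ u x)| +
            |PE (fun j => if j ∈ S then μ else ν) (fun u => Φ u x) -
              PE (fun _ => ν) (fun u => Φ u x)|) := by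
            apply Finset.sum_le_sum
            intro x _
            exact abs_sub_le _ _ _
        _ ≤ (S.card + 1) * B := by
            rw [Finset.sum_add_distrib]
            linarith
  have := key Finset.univ
  simpa using this


end

section
theorem sum_cons {N h : ℕ} (F : (Fin (h+1) → Fin N) → ℝ) :
    ∑ u, F u = ∑ y : Fin N, ∑ v : Fin h → Fin N, F (Fin.cons y v) := by
  rw [← (Fin.consEquiv (fun _ : Fin (h+1) => Fin N)).sum_comp, Fintype.sum_prod_type]
  rfl

theorem tot {N : ℕ} (μ : Fin N → ℝ) (hμ1 : ∑ i, μ i = 1) (h : ℕ) :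
    ∑ u : Fin h → Fin N, (∏ i, μ (u i)) = 1 := by
  induction h with
  | zero => simp
  | succ h ih =>
    rw [sum_cons]
    simp only [Fin.prod_univ_succ, Fin.cons_zero, Fin.cons_succ]
    simp_rw [← Finset.mul_sum]
    rw [ih]
    simpa using hμ1

theorem mean {N : ℕ} (μ ψ : Fin N → ℝ) (hμ1 : ∑ i, μ i = 1) (hψ : ∑ i, μ i * ψ i = 0) (h : ℕ) :
    ∑ u : Fin h → Fin N, (∏ i, μ (u i)) * ∑ i, ψ (u i) = 0 := by
  induction h with
  | zero => simp
  | succ h ih =>
    rw [sum_cons]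
    simp only [Fin.prod_univ_succ, Fin.sum_univ_succ, Fin.cons_zero, Fin.cons_succ]
    have : ∀ y : Fin N, ∑ v : Fin h → Fin N, μ y * (∏ i, μ (v i)) * (ψ y + ∑ i, ψ (v i)) =
        μ y * ψ y := by
      intro y
      have e1 : ∀ v : Fin h → Fin N, μ y * (∏ i, μ (v i)) * (ψ y + ∑ i, ψ (v i)) =
          (μ y * ψ y) * (∏ i, μ (v i)) + μ y * ((∏ i, μ (v i)) * ∑ i, ψ (v i)) := by
        intro v; ring
      simp_rw [e1]
      rw [Finset.sum_add_distrib, ← Finset.mul_sum, ← Finset.mul_sum, ih, tot μ hμ1]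
      ring
    simp_rw [this]
    exact hψ

theorem var {N : ℕ} (μ ψ : Fin N → ℝ) (hμ1 : ∑ i, μ i = 1) (hψ : ∑ i, μ i * ψ i = 0) (h : ℕ) :
    ∑ u : Fin h → Fin N, (∏ i, μ (u i)) * (∑ i, ψ (u i))^2 = h * ∑ i, μ i * ψ i ^ 2 := by
  induction h with
  | zero => simp
  | succ h ih =>
    rw [sum_cons]
    simp only [Fin.prod_univ_succ, Fin.sum_univ_succ, Fin.cons_zero, Fin.cons_succ]
    have : ∀ y : Fin N, ∑ v : Fin h → Fin N, μ y * (∏ i, μ (v i)) * (ψ y + ∑ i, ψ (v i))^2 =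
        μ y * ψ y ^ 2 + μ y * (h * ∑ i, μ i * ψ i ^ 2) := by
      intro y
      have e1 : ∀ v : Fin h → Fin N, μ y * (∏ i, μ (v i)) * (ψ y + ∑ i, ψ (v i))^2 =
          (μ y * ψ y ^ 2) * (∏ i, μ (v i)) + (2 * μ y * ψ y) * ((∏ i, μ (v i)) * ∑ i, ψ (v i)) +
          μ y * ((∏ i, μ (v i)) * (∑ i, ψ (v i))^2) := by
        intro v; ring
      simp_rw [e1]
      rw [Finset.sum_add_distrib, Finset.sum_add_distrib, ← Finset.mul_sum, ← Finset.mul_sum,
        ← Finset.mul_sum, ih, tot μ hμ1, mean μ ψ hμ1 hψ]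
      ring
    simp_rw [this]
    rw [Finset.sum_add_distrib, ← Finset.sum_mul, hμ1]
    push_cast
    ring

open Classical in
/-- JOB (Chebyshev for a finite product weight): the i.i.d. sum of `φ (u i)` lies in
`[he/2, 2he]` except with probability `≤ 4B/(he)`. -/
theorem cheb {h N : ℕ} (μ : Fin N → ℝ) (hμ0 : ∀ i, 0 ≤ μ i) (hμ1 : ∑ i, μ i = 1)
    (φ : Fin N → ℝ) (B e : ℝ) (hφ0 : ∀ i, 0 ≤ φ i) (hφB : ∀ i, φ i ≤ B)
    (he : ∑ i, μ i * φ i = e) (hepos : 0 < e) (hh : 0 < h) :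
    PE (fun _ : Fin h => μ)
      (fun u => if ((h : ℝ) * e / 2 ≤ ∑ i, φ (u i) ∧ ∑ i, φ (u i) ≤ 2 * ((h : ℝ) * e))
        then 0 else 1) ≤ 4 * B / ((h : ℝ) * e) := by
  have hhR : (0:ℝ) < h := by exact_mod_cast hh
  have hhe : 0 < (h:ℝ) * e := by positivity
  obtain ⟨ψ, hψ⟩ : ∃ ψ : Fin N → ℝ, ∀ i, ψ i = φ i - e := ⟨fun i => φ i - e, fun _ => rfl⟩
  have hψ0 : ∑ i, μ i * ψ i = 0 := by
    simp_rw [hψ, mul_sub]
    rw [Finset.sum_sub_distrib, ← Finset.sum_mul, he, hμ1]
    ring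
  have hV : ∑ i, μ i * ψ i ^ 2 ≤ B * e := by
    have e1 : ∑ i, μ i * ψ i ^ 2 = ∑ i, μ i * φ i ^ 2 - e ^ 2 := by
      have : ∀ i, μ i * ψ i ^ 2 = μ i * φ i ^ 2 - 2 * e * (μ i * φ i) + e^2 * μ i := by
        intro i; rw [hψ]; ring
      simp_rw [this]
      rw [Finset.sum_add_distrib, Finset.sum_sub_distrib, ← Finset.mul_sum, ← Finset.mul_sum, he, hμ1]
      ring
    have e2 : ∑ i, μ i * φ i ^ 2 ≤ ∑ i, B * (μ i * φ i) := by
      apply Finset.sum_le_sum
      intro i _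
      have h1 : φ i ^ 2 ≤ B * φ i := by
        rw [sq]; exact mul_le_mul_of_nonneg_right (hφB i) (hφ0 i)
      nlinarith [hμ0 i]
    rw [← Finset.mul_sum, he] at e2
    nlinarith [sq_nonneg e]
  have hS : ∀ u : Fin h → Fin N, ∑ i, ψ (u i) = ∑ i, φ (u i) - h * e := by
    intro u
    simp_rw [hψ]
    rw [Finset.sum_sub_distrib]
    simp
  have hle : ∀ u : Fin h → Fin N,
      (if ((h : ℝ) * e / 2 ≤ ∑ i, φ (u i) ∧ ∑ i, φ (u i) ≤ 2 * ((h : ℝ) * e))
        then (0:ℝ) else 1) ≤ (∑ i, ψ (u i))^2 * (4 / ((h:ℝ) * e)^2) := by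
    intro u
    split_ifs with hc
    · positivity
    · rw [hS, mul_div_assoc', le_div_iff₀ (by positivity), one_mul]
      generalize ∑ i, φ (u i) = s at *
      rw [not_and_or, not_le, not_le] at hc
      rcases hc with hc | hc
      · nlinarith
      · nlinarith
  unfold PE
  calc ∑ u : Fin h → Fin N, (∏ i, μ (u i)) *
      (if ((h : ℝ) * e / 2 ≤ ∑ i, φ (u i) ∧ ∑ i, φ (u i) ≤ 2 * ((h : ℝ) * e))
        then (0:ℝ) else 1)
      ≤ ∑ u : Fin h → Fin N, (∏ i, μ (u i)) * ((∑ i, ψ (u i))^2 * (4 / ((h:ℝ) * e)^2)) := by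
        apply Finset.sum_le_sum
        intro u _
        exact mul_le_mul_of_nonneg_left (hle u) (Finset.prod_nonneg fun i _ => hμ0 _)
    _ = (∑ u : Fin h → Fin N, (∏ i, μ (u i)) * (∑ i, ψ (u i))^2) * (4 / ((h:ℝ) * e)^2) := by
        rw [Finset.sum_mul]
        apply Finset.sum_congr rfl
        intro u _; ring
    _ = (h * ∑ i, μ i * ψ i ^ 2) * (4 / ((h:ℝ) * e)^2) := by rw [var μ ψ hμ1 hψ0]
    _ ≤ (h * (B * e)) * (4 / ((h:ℝ) * e)^2) := by
        apply mul_le_mul_of_nonneg_right _ (by positivity)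
        exact mul_le_mul_of_nonneg_left hV hhR.le
    _ = 4 * B / ((h : ℝ) * e) := by
        field_simp


end

section
open Finset

theorem PE_prod {h N : ℕ} (m : Fin h → Fin N → ℝ) (f : Fin h → Fin N → ℝ) :
    PE m (fun u => ∏ i, f i (u i)) = ∏ i, ∑ v, m i v * f i v := by
  unfold PE
  rw [Finset.prod_univ_sum]
  simp only [Fintype.piFinset_univ]
  apply Finset.sum_congr rfl
  intro u _
  rw [← Finset.prod_mul_distrib]

theorem PE_one {h N : ℕ} (m : Fin h → Fin N → ℝ) (hm : ∀ i, ∑ v, m i v = 1) :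
    PE m (fun _ => 1) = 1 := by
  have := PE_prod m (fun _ _ => (1 : ℝ))
  simp only [Finset.prod_const_one, mul_one] at this
  rw [this]
  simp [hm]

theorem PE_add {h N : ℕ} (m : Fin h → Fin N → ℝ) (f g : (Fin h → Fin N) → ℝ) :
    PE m (fun u => f u + g u) = PE m f + PE m g := by
  unfold PE
  rw [← Finset.sum_add_distrib]
  apply Finset.sum_congr rfl
  intro u _
  ring

theorem PE_const_mul {h N : ℕ} (m : Fin h → Fin N → ℝ) (c : ℝ) (f : (Fin h → Fin N) → ℝ) :
    PE m (fun u => c * f u) = c * PE m f := by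
  unfold PE
  rw [Finset.mul_sum]
  apply Finset.sum_congr rfl
  intro u _
  ring

theorem PE_mono {h N : ℕ} (m : Fin h → Fin N → ℝ) (hm : ∀ i v, 0 ≤ m i v)
    (f g : (Fin h → Fin N) → ℝ) (hfg : ∀ u, f u ≤ g u) : PE m f ≤ PE m g := by
  unfold PE
  apply Finset.sum_le_sum
  intro u _
  exact mul_le_mul_of_nonneg_left (hfg u) (Finset.prod_nonneg (fun i _ => hm i _))

theorem affine_prod {N n L : ℕ} (ν : Fin N → ℝ) (y : Fin N → ℝ) (hy : ∀ i, 0 ≤ y i)
    (hmom : ∀ s, s ≤ L → ∑ i, ν i * y i ^ s = 0) (a b : Fin n → ℝ) (z : ℝ) (hz : 1 ≤ z) :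
    |∑ i, ν i * ∏ j, (a j + b j * y i)|
      ≤ (z⁻¹) ^ L * ∑ i, |ν i| * ∏ j, (|a j| + |b j| * (z * y i)) := by
  have hz0 : 0 < z := by linarith
  have e1 : ∑ i, ν i * ∏ j, (a j + b j * y i)
      = ∑ t ∈ (univ : Finset (Fin n)).powerset, ((∏ j ∈ t, a j) * ∏ j ∈ univ \ t, b j) *
          ∑ i, ν i * y i ^ (univ \ t).card := by
    have : ∀ i, ν i * ∏ j, (a j + b j * y i)
        = ∑ t ∈ (univ : Finset (Fin n)).powerset, ((∏ j ∈ t, a j) * ∏ j ∈ univ \ t, b j) *
            (ν i * y i ^ (univ \ t).card) := by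
      intro i
      rw [Finset.prod_add, Finset.mul_sum]
      apply Finset.sum_congr rfl
      intro t _
      rw [Finset.prod_mul_distrib, Finset.prod_const]
      ring
    simp_rw [this]
    rw [Finset.sum_comm]
    apply Finset.sum_congr rfl
    intro t _
    rw [Finset.mul_sum]
  have e2 : ∑ i, |ν i| * ∏ j, (|a j| + |b j| * (z * y i))
      = ∑ t ∈ (univ : Finset (Fin n)).powerset, ((∏ j ∈ t, |a j|) * ∏ j ∈ univ \ t, |b j|) *
          ∑ i, |ν i| * (z * y i) ^ (univ \ t).card := by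
    have : ∀ i, |ν i| * ∏ j, (|a j| + |b j| * (z * y i))
        = ∑ t ∈ (univ : Finset (Fin n)).powerset, ((∏ j ∈ t, |a j|) * ∏ j ∈ univ \ t, |b j|) *
            (|ν i| * (z * y i) ^ (univ \ t).card) := by
      intro i
      rw [Finset.prod_add, Finset.mul_sum]
      apply Finset.sum_congr rfl
      intro t _
      rw [Finset.prod_mul_distrib, Finset.prod_const]
      ring
    simp_rw [this]
    rw [Finset.sum_comm]
    apply Finset.sum_congr rfl
    intro t _
    rw [Finset.mul_sum]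
  rw [e1, e2, Finset.mul_sum]
  refine (Finset.abs_sum_le_sum_abs _ _).trans ?_
  apply Finset.sum_le_sum
  intro t _
  rw [abs_mul, abs_mul, Finset.abs_prod, Finset.abs_prod]
  have hP : 0 ≤ (∏ j ∈ t, |a j|) * ∏ j ∈ univ \ t, |b j| :=
    mul_nonneg (Finset.prod_nonneg (fun _ _ => abs_nonneg _))
      (Finset.prod_nonneg (fun _ _ => abs_nonneg _))
  rw [mul_left_comm]
  refine mul_le_mul_of_nonneg_left ?_ hP
  by_cases hc : (univ \ t).card ≤ L
  · rw [hmom _ hc, abs_zero]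
    apply mul_nonneg (pow_nonneg (inv_nonneg.mpr hz0.le) _)
    apply Finset.sum_nonneg
    intro i _
    exact mul_nonneg (abs_nonneg _) (pow_nonneg (mul_nonneg hz0.le (hy i)) _)
  · push Not at hc
    refine (Finset.abs_sum_le_sum_abs _ _).trans ?_
    rw [Finset.mul_sum]
    apply Finset.sum_le_sum
    intro i _
    rw [abs_mul, abs_of_nonneg (pow_nonneg (hy i) _), mul_pow, mul_left_comm]
    refine mul_le_mul_of_nonneg_left ?_ (abs_nonneg _)
    have h1 : 1 ≤ z⁻¹ ^ L * z ^ (univ \ t).card := by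
      have : z ^ L ≤ z ^ (univ \ t).card := pow_le_pow_right₀ hz hc.le
      calc (1 : ℝ) = z⁻¹ ^ L * z ^ L := by
            rw [← mul_pow, inv_mul_cancel₀ hz0.ne', one_pow]
        _ ≤ _ := mul_le_mul_of_nonneg_left this (pow_nonneg (inv_nonneg.mpr hz0.le) _)
    rw [← mul_assoc]
    exact le_mul_of_one_le_left (pow_nonneg (hy i) _) h1


/-- probability vector: the first block has weights `θ y(u i)`, the remaining mass is shared
equally by the second block. -/
noncomputable def pv (θ : ℝ) {h g N : ℕ} (y : Fin N → ℝ) (u : Fin h → Fin N) :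
    Fin h ⊕ Fin g → ℝ
  | Sum.inl i => θ * y (u i)
  | Sum.inr _ => (1 - θ * ∑ i, y (u i)) / g

open Classical in
/-- the same, with a fallback (all mass on the second block) if the first block is too heavy. -/
noncomputable def pf (θ : ℝ) {h g N : ℕ} (y : Fin N → ℝ) (u : Fin h → Fin N) :
    Fin h ⊕ Fin g → ℝ :=
  if θ * ∑ i, y (u i) ≤ 1 then pv θ y u
  else Sum.elim (fun _ => 0) (fun _ => 1 / (g : ℝ))

theorem pf_nonneg {θ : ℝ} (hθ : 0 < θ) {h g N : ℕ} (y : Fin N → ℝ) (hy : ∀ i, 0 ≤ y i)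
    (u : Fin h → Fin N) (ω : Fin h ⊕ Fin g) : 0 ≤ pf θ y u ω := by
  unfold pf
  split_ifs with hc
  · rcases ω with i | i
    · exact mul_nonneg hθ.le (hy _)
    · exact div_nonneg (by linarith) (Nat.cast_nonneg _)
  · rcases ω with i | i
    · simp
    · simp

theorem pf_sum {θ : ℝ} {h g N : ℕ} (hg : 0 < g) (y : Fin N → ℝ)
    (u : Fin h → Fin N) : ∑ ω : Fin h ⊕ Fin g, pf θ y u ω = 1 := by
  have hg' : (g : ℝ) ≠ 0 := by positivity
  unfold pf
  split_ifs with hc
  · rw [Fintype.sum_sum_type]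
    simp only [pv]
    rw [← Finset.mul_sum, Finset.sum_const, Finset.card_univ, Fintype.card_fin, nsmul_eq_mul,
      mul_div_cancel₀ _ hg']
    ring
  · rw [Fintype.sum_sum_type]
    simp [hg']

theorem sum_prod_pow {Ω : Type} [Fintype Ω] (n : ℕ) (p : Ω → ℝ) :
    ∑ x : Fin n → Ω, ∏ j, p (x j) = (∑ ω, p ω) ^ n := by
  have := Finset.prod_univ_sum (fun _ : Fin n => (univ : Finset Ω)) (fun _ ω => p ω)
  simp only [Fintype.piFinset_univ, Finset.prod_const, Finset.card_univ, Fintype.card_fin] at this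
  exact this.symm

theorem coord {h g N n L : ℕ} (hg : 0 < g) (θ M z : ℝ) (hθ : 0 < θ) (hz : 1 ≤ z)
    (ν : Fin N → ℝ) (y : Fin N → ℝ) (hy : ∀ i, 0 ≤ y i) (hyM : ∀ i, y i ≤ M)
    (hmom : ∀ s, s ≤ L → ∑ i, ν i * y i ^ s = 0)
    (i : Fin h) (u : Fin h → Fin N)
    (hgood : θ * ∑ l ∈ univ.erase i, y (u l) ≤ 1 - θ * M) (hM : 0 ≤ M) :
    ∑ x : Fin n → Fin h ⊕ Fin g,
      |∑ v, ν v * ∏ j, pf θ y (Function.update u i v) (x j)|
      ≤ (z⁻¹) ^ L * (∑ v, |ν v|) * (1 + 2 * z * θ * M) ^ n := by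
  have hg' : (0 : ℝ) < g := by positivity
  have hz0 : 0 < z := by linarith
  set σ := ∑ l ∈ univ.erase i, y (u l) with hσ
  have hσ0 : 0 ≤ σ := Finset.sum_nonneg (fun l _ => hy _)
  have hsum : ∀ v, ∑ l, y (Function.update u i v l) = σ + y v := by
    intro v
    rw [← Finset.add_sum_erase univ _ (Finset.mem_univ i), Function.update_self, add_comm]
    congr 1
    apply Finset.sum_congr rfl
    intro l hl
    rw [Function.update_of_ne (Finset.ne_of_mem_erase hl)]
  -- affine coefficients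
  let a : Fin h ⊕ Fin g → ℝ := Sum.elim (fun l => if l = i then 0 else θ * y (u l))
    (fun _ => (1 - θ * σ) / g)
  let b : Fin h ⊕ Fin g → ℝ := Sum.elim (fun l => if l = i then θ else 0) (fun _ => -θ / g)
  have hpf : ∀ v ω, pf θ y (Function.update u i v) ω = a ω + b ω * y v := by
    intro v ω
    have hgd : θ * ∑ l, y (Function.update u i v l) ≤ 1 := by
      rw [hsum]
      nlinarith [hyM v, mul_le_mul_of_nonneg_left (hyM v) hθ.le]
    unfold pf
    rw [if_pos hgd]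
    rcases ω with l | l
    · simp only [pv, a, b, Sum.elim_inl]
      by_cases hl : l = i
      · subst hl; simp
      · simp [hl]
    · simp only [pv, a, b, Sum.elim_inr, hsum]
      field_simp
      ring
  have hρ : 0 ≤ 1 - θ * σ := by nlinarith [mul_nonneg hθ.le hM]
  have habs : ∀ v, ∑ ω, (|a ω| + |b ω| * (z * y v)) = 1 + 2 * z * θ * y v := by
    intro v
    rw [Fintype.sum_sum_type]
    have h1 : ∑ l : Fin h, (|a (Sum.inl l)| + |b (Sum.inl l)| * (z * y v))
        = θ * σ + θ * (z * y v) := by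
      rw [← Finset.add_sum_erase univ _ (Finset.mem_univ i)]
      have e1 : |a (Sum.inl i)| + |b (Sum.inl i)| * (z * y v) = θ * (z * y v) := by
        simp [a, b, abs_of_pos hθ]
      have e2 : ∑ l ∈ univ.erase i, (|a (Sum.inl l)| + |b (Sum.inl l)| * (z * y v)) = θ * σ := by
        rw [hσ, Finset.mul_sum]
        apply Finset.sum_congr rfl
        intro l hl
        have hl' : l ≠ i := Finset.ne_of_mem_erase hl
        simp [a, b, hl', abs_of_nonneg (mul_nonneg hθ.le (hy (u l)))]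
      rw [e1, e2]; ring
    have h2 : ∑ l : Fin g, (|a (Sum.inr l)| + |b (Sum.inr l)| * (z * y v))
        = (1 - θ * σ) + θ * (z * y v) := by
      have e1 : ∀ l : Fin g, |a (Sum.inr l)| + |b (Sum.inr l)| * (z * y v)
          = ((1 - θ * σ) + θ * (z * y v)) / g := by
        intro l
        simp only [a, b, Sum.elim_inr]
        rw [abs_of_nonneg (div_nonneg hρ hg'.le), neg_div, abs_neg,
          abs_of_nonneg (div_nonneg hθ.le hg'.le)]
        ring
      simp only [e1, Finset.sum_const, Finset.card_univ, Fintype.card_fin, nsmul_eq_mul]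
      field_simp
    rw [h1, h2]; ring
  calc ∑ x : Fin n → Fin h ⊕ Fin g, |∑ v, ν v * ∏ j, pf θ y (Function.update u i v) (x j)|
      ≤ ∑ x : Fin n → Fin h ⊕ Fin g, (z⁻¹) ^ L * ∑ v, |ν v| * ∏ j, (|a (x j)| + |b (x j)| * (z * y v)) := by
        apply Finset.sum_le_sum
        intro x _
        have := affine_prod (n := n) (L := L) ν y hy hmom (fun j => a (x j)) (fun j => b (x j)) z hz
        simp only [hpf]
        exact this
    _ = (z⁻¹) ^ L * ∑ v, |ν v| * (1 + 2 * z * θ * y v) ^ n := by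
        rw [← Finset.mul_sum, Finset.sum_comm]
        congr 1
        apply Finset.sum_congr rfl
        intro v _
        rw [← Finset.mul_sum, sum_prod_pow n (fun ω => |a ω| + |b ω| * (z * y v)), habs v]
    _ ≤ (z⁻¹) ^ L * ((∑ v, |ν v|) * (1 + 2 * z * θ * M) ^ n) := by
        apply mul_le_mul_of_nonneg_left _ (pow_nonneg (inv_nonneg.mpr hz0.le) _)
        rw [Finset.sum_mul]
        apply Finset.sum_le_sum
        intro v _
        apply mul_le_mul_of_nonneg_left _ (abs_nonneg _)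
        have h0 : 0 ≤ 2 * z * θ := by positivity
        apply pow_le_pow_left₀
        · nlinarith [mul_nonneg h0 (hy v)]
        · nlinarith [mul_le_mul_of_nonneg_left (hyM v) h0]
    _ = _ := by ring



theorem exp_le_one_add {t : ℝ} (h0 : 0 ≤ t) (h1 : t ≤ 1) : Real.exp t ≤ 1 + 2 * t := by
  have := Real.abs_exp_sub_one_sub_id_le (x := t) (by rw [abs_of_nonneg h0]; exact h1)
  have h2 := (abs_le.mp this).2
  nlinarith

/-- exponential moment of the product -/
theorem PE_exp {h N : ℕ} (M τ s : ℝ) (hM : 0 < M) (y : Fin N → ℝ) (hy : ∀ i, 0 ≤ y i)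
    (hyM : ∀ i, y i ≤ M) (m : Fin h → Fin N → ℝ) (hm : ∀ i v, 0 ≤ m i v)
    (hm1 : ∀ i, ∑ v, m i v = 1) (hτ : ∀ i, ∑ v, m i v * y v = τ) :
    PE m (fun u => Real.exp ((∑ i, y (u i) - s) / M)) ≤ Real.exp (2 * h * τ / M - s / M) := by
  have e1 : (fun u : Fin h → Fin N => Real.exp ((∑ i, y (u i) - s) / M))
      = fun u => Real.exp (-s / M) * ∏ i, Real.exp (y (u i) / M) := by
    funext u
    rw [← Real.exp_sum, ← Real.exp_add, ← Finset.sum_div]
    congr 1
    ring
  rw [e1, PE_const_mul, PE_prod m (fun _ v => Real.exp (y v / M))]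
  have h2 : ∀ i, ∑ v, m i v * Real.exp (y v / M) ≤ Real.exp (2 * τ / M) := by
    intro i
    calc ∑ v, m i v * Real.exp (y v / M) ≤ ∑ v, m i v * (1 + 2 * (y v / M)) := by
          apply Finset.sum_le_sum
          intro v _
          apply mul_le_mul_of_nonneg_left _ (hm i v)
          exact exp_le_one_add (div_nonneg (hy v) hM.le) ((div_le_one hM).mpr (hyM v))
      _ = ∑ v, m i v + (2 / M) * ∑ v, m i v * y v := by
          rw [Finset.mul_sum, ← Finset.sum_add_distrib]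
          apply Finset.sum_congr rfl
          intro v _
          ring
      _ = 2 * τ / M + 1 := by rw [hm1, hτ]; ring
      _ ≤ Real.exp (2 * τ / M) := Real.add_one_le_exp _
  have h3 : ∏ i : Fin h, ∑ v, m i v * Real.exp (y v / M) ≤ Real.exp (2 * τ / M) ^ h := by
    have := Finset.prod_le_prod (s := (univ : Finset (Fin h)))
      (f := fun i => ∑ v, m i v * Real.exp (y v / M)) (g := fun _ => Real.exp (2 * τ / M))
      (fun i _ => Finset.sum_nonneg (fun v _ => mul_nonneg (hm i v) (Real.exp_pos _).le))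
      (fun i _ => h2 i)
    simpa using this
  calc Real.exp (-s / M) * ∏ i : Fin h, ∑ v, m i v * Real.exp (y v / M)
      ≤ Real.exp (-s / M) * Real.exp (2 * τ / M) ^ h :=
        mul_le_mul_of_nonneg_left h3 (Real.exp_pos _).le
    _ = Real.exp (2 * h * τ / M - s / M) := by
        rw [← Real.exp_nat_mul, ← Real.exp_add]
        congr 1
        ring

theorem sum_abs_sub_le {N : ℕ} (μ ν : Fin N → ℝ) (hμ0 : ∀ i, 0 ≤ μ i) (hμ1 : ∑ i, μ i = 1)
    (hν0 : ∀ i, 0 ≤ ν i) (hν1 : ∑ i, ν i = 1) : ∑ v, |μ v - ν v| ≤ 2 := by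
  calc ∑ v, |μ v - ν v| ≤ ∑ v, (μ v + ν v) := by
        apply Finset.sum_le_sum
        intro v _
        rw [abs_le]
        constructor <;> linarith [hμ0 v, hν0 v]
    _ = 2 := by rw [Finset.sum_add_distrib, hμ1, hν1]; norm_num

/-- total variation bound between the two mixtures of `n`-sample laws. -/
theorem tv_bound {h g N n L : ℕ} (hg : 0 < g) (θ M z τ : ℝ) (hθ : 0 < θ) (hz : 1 ≤ z)
    (hM : 0 < M) (y : Fin N → ℝ) (hy : ∀ i, 0 ≤ y i) (hyM : ∀ i, y i ≤ M)
    (μ ν : Fin N → ℝ) (hμ0 : ∀ i, 0 ≤ μ i) (hμ1 : ∑ i, μ i = 1) (hν0 : ∀ i, 0 ≤ ν i)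
    (hν1 : ∑ i, ν i = 1)
    (hmom : ∀ s, s ≤ L → ∑ i, μ i * y i ^ s = ∑ i, ν i * y i ^ s)
    (hμτ : ∑ i, μ i * y i = τ) (hντ : ∑ i, ν i * y i = τ) :
    ∑ x : Fin n → Fin h ⊕ Fin g,
      |PE (fun _ => μ) (fun u => ∏ j, pf θ y u (x j)) -
        PE (fun _ => ν) (fun u => ∏ j, pf θ y u (x j))|
      ≤ h * (2 * (z⁻¹) ^ L * (1 + 2 * z * θ * M) ^ n
          + 2 * Real.exp (2 * h * τ / M - (1 / θ - M) / M)) := by
  have hz0 : 0 < z := by linarith
  set c := (z⁻¹) ^ L * (1 + 2 * z * θ * M) ^ n with hc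
  have hc0 : 0 ≤ c := by
    rw [hc]; positivity
  have key := hybrid (X := Fin n → Fin h ⊕ Fin g) μ ν hμ0 hμ1 hν0 hν1
    (fun u x => ∏ j, pf θ y u (x j))
    (fun u => 2 * c * 1 + 2 * Real.exp ((∑ i, y (u i) - (1 / θ - M)) / M)) ?_
    (2 * c + 2 * Real.exp (2 * h * τ / M - (1 / θ - M) / M)) ?_
  · refine key.trans (le_of_eq ?_)
    rw [hc]; ring
  · intro i u
    by_cases hgood : θ * ∑ l ∈ univ.erase i, y (u l) ≤ 1 - θ * M
    · have h1 := coord (n := n) (L := L) hg θ M z hθ hz (fun v => μ v - ν v) y hy hyM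
        (by
          intro s hs
          have := hmom s hs
          simp only [sub_mul, Finset.sum_sub_distrib]
          linarith) i u hgood hM.le
      have h2 := sum_abs_sub_le μ ν hμ0 hμ1 hν0 hν1
      refine h1.trans ?_
      have h3 : (z⁻¹) ^ L * (∑ v, |μ v - ν v|) * (1 + 2 * z * θ * M) ^ n
          = (∑ v, |μ v - ν v|) * c := by rw [hc]; ring
      rw [h3]
      have h4 := mul_le_mul_of_nonneg_right h2 hc0
      have h5 := Real.exp_pos ((∑ i, y (u i) - (1 / θ - M)) / M)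
      linarith
    · push Not at hgood
      have h1 : 1 / θ - M < ∑ l ∈ univ.erase i, y (u l) := by
        rw [sub_lt_iff_lt_add, div_lt_iff₀ hθ]
        nlinarith
      have h2 : ∑ l ∈ univ.erase i, y (u l) ≤ ∑ l, y (u l) :=
        Finset.sum_le_sum_of_subset_of_nonneg (Finset.erase_subset _ _) (fun l _ _ => hy _)
      have h3 : 1 ≤ Real.exp ((∑ i, y (u i) - (1 / θ - M)) / M) := by
        apply Real.one_le_exp
        apply div_nonneg _ hM.le
        linarith
      have h4 : ∑ x : Fin n → Fin h ⊕ Fin g,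
          |∑ v, (μ v - ν v) * ∏ j, pf θ y (Function.update u i v) (x j)| ≤ 2 := by
        calc ∑ x : Fin n → Fin h ⊕ Fin g,
              |∑ v, (μ v - ν v) * ∏ j, pf θ y (Function.update u i v) (x j)|
            ≤ ∑ x : Fin n → Fin h ⊕ Fin g,
              ∑ v, |μ v - ν v| * ∏ j, pf θ y (Function.update u i v) (x j) := by
              apply Finset.sum_le_sum
              intro x _
              refine (Finset.abs_sum_le_sum_abs _ _).trans (le_of_eq ?_)
              apply Finset.sum_congr rfl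
              intro v _
              rw [abs_mul, abs_of_nonneg (Finset.prod_nonneg (fun j _ => pf_nonneg hθ y hy _ _))]
          _ = ∑ v, |μ v - ν v| := by
              rw [Finset.sum_comm]
              apply Finset.sum_congr rfl
              intro v _
              rw [← Finset.mul_sum, sum_prod_pow n (pf θ y (Function.update u i v)),
                pf_sum hg y, one_pow, mul_one]
          _ ≤ 2 := sum_abs_sub_le μ ν hμ0 hμ1 hν0 hν1
      linarith
  · intro m hm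
    have hm0 : ∀ i v, 0 ≤ m i v := by
      intro i v
      rcases hm i with h | h <;> rw [h]
      · exact hμ0 v
      · exact hν0 v
    have hm1 : ∀ i, ∑ v, m i v = 1 := by
      intro i
      rcases hm i with h | h <;> rw [h]
      · exact hμ1
      · exact hν1
    have hmτ : ∀ i, ∑ v, m i v * y v = τ := by
      intro i
      rcases hm i with h | h <;> rw [h]
      · exact hμτ
      · exact hντ
    rw [PE_add, PE_const_mul, PE_const_mul, PE_one m hm1]
    have := PE_exp M τ (1 / θ - M) hM y hy hyM m hm0 hm1 hmτ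
    linarith



theorem PE_sum {h N : ℕ} {X : Type} (s : Finset X) (m : Fin h → Fin N → ℝ)
    (f : X → (Fin h → Fin N) → ℝ) :
    PE m (fun u => ∑ x ∈ s, f x u) = ∑ x ∈ s, PE m (f x) := by
  unfold PE
  rw [Finset.sum_comm]
  apply Finset.sum_congr rfl
  intro u _
  rw [Finset.mul_sum]

/-- power sum of the vector on the good event -/
theorem pf_power {θ : ℝ} (hθ : 0 < θ) {h g N : ℕ} (hg : 0 < g) (α : ℝ) (y : Fin N → ℝ)
    (hy : ∀ i, 0 ≤ y i) (u : Fin h → Fin N) (hu : θ * ∑ i, y (u i) ≤ 1) :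
    ∑ ω : Fin h ⊕ Fin g, pf θ y u ω ^ α
      = θ ^ α * ∑ i, y (u i) ^ α + (g : ℝ) ^ (1 - α) * (1 - θ * ∑ i, y (u i)) ^ α := by
  have hg' : (0 : ℝ) < g := by positivity
  unfold pf
  rw [if_pos hu, Fintype.sum_sum_type]
  simp only [pv]
  rw [Finset.sum_const, Finset.card_univ, Fintype.card_fin, nsmul_eq_mul]
  congr 1
  · rw [Finset.mul_sum]
    apply Finset.sum_congr rfl
    intro i _
    rw [Real.mul_rpow hθ.le (hy _)]
  · rw [Real.div_rpow (by linarith) hg'.le, Real.rpow_sub hg', Real.rpow_one]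
    ring

theorem core {h g N n L G : ℕ} (hg : 0 < g) (hh : 0 < h)
    (α δ ε θ M z τ b ρ C₀ : ℝ) (hα : 0 < α) (hα1 : α ≠ 1) (hδ : 0 < δ)
    (hε0 : 0 < ε) (hε1 : ε < 1) (hθ : 0 < θ) (hz : 1 ≤ z) (hM : 1 ≤ M) (y : Fin N → ℝ) (hy : ∀ i, 1 ≤ y i)
    (hyM : ∀ i, y i ≤ M) (μ : ℕ → Fin N → ℝ) (hG : 0 < G)
    (hμ0 : ∀ q, q < G → ∀ i, 0 ≤ μ q i) (hμ1 : ∀ q, q < G → ∑ i, μ q i = 1)
    (hmom : ∀ q, q < G → ∀ s : ℕ, s ≤ L → ∑ i, μ q i * y i ^ s = ∑ i, μ 0 i * y i ^ s)
    (hL : 1 ≤ L)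
    (hτ : ∑ i, μ 0 i * y i = τ)
    (hb : 1 ≤ b) (hρ : 1 < ρ) (hα' : ∀ q, q < G → ∑ i, μ q i * y i ^ α = b * ρ ^ q)
    (hC₀ : 0 ≤ C₀) (hC : (g : ℝ) ^ (1 - α) ≤ C₀ * (θ ^ α * h * b))
    (hρ2 : 2 * (δ * |1 - α| + Real.log (2 + C₀)) < Real.log ρ)
    (hW : Works α δ ε (Fin h ⊕ Fin g) n) :
    (G : ℝ) * (1 - ε - (4 * M ^ α / h + Real.exp (2 * h * τ / M - 1 / (θ * M)))
      - h * (2 * (z⁻¹) ^ L * (1 + 2 * z * θ * M) ^ n
          + 2 * Real.exp (2 * h * τ / M - (1 / θ - M) / M))) ≤ 1 := by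
  classical
  obtain ⟨f, hf⟩ := hW
  have hM0 : 0 < M := by linarith
  have hy0 : ∀ i, 0 ≤ y i := fun i => by linarith [hy i]
  have hρ0 : 0 < ρ := by linarith
  have hh' : (0 : ℝ) < h := by positivity
  have hg' : (0 : ℝ) < g := by positivity
  have hmean : ∀ q, q < G → ∑ i, μ q i * y i = τ := by
    intro q hq
    have := hmom q hq 1 hL
    simpa [hτ] using this
  set c := 1 - α with hc
  have hc0 : c ≠ 0 := by
    rw [hc]; intro h0; apply hα1; linarith
  set η := h * (2 * (z⁻¹) ^ L * (1 + 2 * z * θ * M) ^ n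
          + 2 * Real.exp (2 * h * τ / M - (1 / θ - M) / M)) with hη
  set ζ := 4 * M ^ α / h + Real.exp (2 * h * τ / M - 1 / (θ * M)) with hζ
  set C₃ := Real.log (2 + C₀) with hC₃
  set Φ : ℕ → ℝ := fun q => θ ^ α * h * b * ρ ^ q with hΦ
  have hθα : 0 < θ ^ α := Real.rpow_pos_of_pos hθ α
  have hb0 : 0 < b := by linarith
  have hΦpos : ∀ q, 0 < Φ q := by
    intro q; rw [hΦ]; positivity
  -- the events
  set E : ℕ → Set (Fin n → Fin h ⊕ Fin g) :=
    fun q => {X | |c * f X - Real.log (Φ q)| ≤ δ * |c| + C₃} with hE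
  have hlogΦ : ∀ q, Real.log (Φ q) = Real.log (θ ^ α * h * b) + q * Real.log ρ := by
    intro q
    simp only [hΦ]
    rw [Real.log_mul (by positivity) (by positivity), Real.log_pow]
  have hlogρ : 0 < Real.log ρ := Real.log_pos hρ
  -- disjointness
  have hdisj : ∀ q q', q < q' → ∀ X, X ∈ E q → X ∉ E q' := by
    intro q q' hqq X h1 h2
    simp only [hE, Set.mem_setOf_eq, hlogΦ] at h1 h2
    have h3 := abs_le.mp h1
    have h4 := abs_le.mp h2
    have h5 : (q : ℝ) + 1 ≤ q' := by exact_mod_cast hqq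
    have h6 : ((q' : ℝ) - q) * Real.log ρ ≥ Real.log ρ := by nlinarith
    nlinarith [h3.1, h3.2, h4.1, h4.2]
  -- on good configurations
  let Good : ℕ → (Fin h → Fin N) → Prop := fun q u =>
    ((h : ℝ) * (b * ρ ^ q) / 2 ≤ ∑ i, y (u i) ^ α ∧
      ∑ i, y (u i) ^ α ≤ 2 * ((h : ℝ) * (b * ρ ^ q))) ∧ θ * ∑ i, y (u i) ≤ 1
  have hgood : ∀ q u, Good q u → 1 - ε ≤ ∑ X : Fin n → Fin h ⊕ Fin g,
      if X ∈ E q then ∏ j, pf θ y u (X j) else 0 := by
    intro q u ⟨⟨hl, hu⟩, hm⟩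
    have hdist : IsDist (pf θ y u : Fin h ⊕ Fin g → ℝ) :=
      ⟨pf_nonneg hθ y hy0 u, pf_sum hg y u⟩
    have h1 := hf _ hdist
    set F := ∑ ω : Fin h ⊕ Fin g, pf θ y u ω ^ α with hF
    have hFe := pf_power hθ hg α y hy0 u hm
    rw [← hF] at hFe
    have hℓ0 : 0 ≤ (1 - θ * ∑ i, y (u i)) ^ α := Real.rpow_nonneg (by linarith) _
    have hℓ1 : (1 - θ * ∑ i, y (u i)) ^ α ≤ 1 := by
      apply Real.rpow_le_one (by linarith) _ hα.le
      have : 0 ≤ θ * ∑ i, y (u i) := mul_nonneg hθ.le (Finset.sum_nonneg (fun i _ => hy0 _))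
      linarith
    have hgc : 0 ≤ (g : ℝ) ^ (1 - α) := Real.rpow_nonneg hg'.le _
    have hρq : 1 ≤ ρ ^ q := one_le_pow₀ hρ.le
    have hFl : Φ q / 2 ≤ F := by
      rw [hFe]
      have h3 : θ ^ α * ((h : ℝ) * (b * ρ ^ q) / 2) ≤ θ ^ α * ∑ i, y (u i) ^ α :=
        mul_le_mul_of_nonneg_left hl hθα.le
      have h4 : 0 ≤ (g : ℝ) ^ (1 - α) * (1 - θ * ∑ i, y (u i)) ^ α := mul_nonneg hgc hℓ0
      have h5 : Φ q / 2 = θ ^ α * ((h : ℝ) * (b * ρ ^ q) / 2) := by
        simp only [hΦ]; ring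
      linarith
    have hFu : F ≤ (2 + C₀) * Φ q := by
      rw [hFe]
      have h3 : θ ^ α * ∑ i, y (u i) ^ α ≤ θ ^ α * (2 * ((h : ℝ) * (b * ρ ^ q))) :=
        mul_le_mul_of_nonneg_left hu hθα.le
      have h4 : (g : ℝ) ^ (1 - α) * (1 - θ * ∑ i, y (u i)) ^ α ≤ (g : ℝ) ^ (1 - α) :=
        mul_le_of_le_one_right hgc hℓ1
      have h5 : C₀ * (θ ^ α * h * b) ≤ C₀ * Φ q := by
        apply mul_le_mul_of_nonneg_left _ hC₀
        simp only [hΦ]
        exact le_mul_of_one_le_right (by positivity) hρq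
      have h6 : θ ^ α * (2 * ((h : ℝ) * (b * ρ ^ q))) = 2 * Φ q := by
        simp only [hΦ]; ring
      linarith
    have hFpos : 0 < F := lt_of_lt_of_le (by linarith [hΦpos q]) hFl
    have hlog : |Real.log F - Real.log (Φ q)| ≤ C₃ := by
      rw [abs_le]
      constructor
      · have h7 : Real.log (Φ q / 2) ≤ Real.log F := Real.log_le_log (by linarith [hΦpos q]) hFl
        rw [Real.log_div (hΦpos q).ne' (by norm_num)] at h7
        have h8 : Real.log 2 ≤ C₃ := Real.log_le_log (by norm_num) (by linarith)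
        linarith
      · have h7 : Real.log F ≤ Real.log ((2 + C₀) * Φ q) := Real.log_le_log hFpos hFu
        rw [Real.log_mul (by linarith) (hΦpos q).ne'] at h7
        linarith
    have hsub : ∀ X, X ∉ E q → δ < |f X - renyi α (pf θ y u : Fin h ⊕ Fin g → ℝ)| := by
      intro X hX
      by_contra hcon
      push Not at hcon
      apply hX
      simp only [hE, Set.mem_setOf_eq]
      have h9 : c * renyi α (pf θ y u : Fin h ⊕ Fin g → ℝ) = Real.log F := by
        unfold renyi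
        rw [← hc, ← hF]
        field_simp
      have h10 : |c * f X - Real.log F| ≤ δ * |c| := by
        rw [← h9, ← mul_sub, abs_mul, mul_comm]
        exact mul_le_mul_of_nonneg_right hcon (abs_nonneg _)
      calc |c * f X - Real.log (Φ q)|
          = |(c * f X - Real.log F) + (Real.log F - Real.log (Φ q))| := by congr 1; ring
        _ ≤ |c * f X - Real.log F| + |Real.log F - Real.log (Φ q)| := abs_add_le _ _
        _ ≤ δ * |c| + C₃ := add_le_add h10 hlog
    have hprod0 : ∀ X : Fin n → Fin h ⊕ Fin g, 0 ≤ ∏ j, pf θ y u (X j) :=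
      fun X => Finset.prod_nonneg (fun j _ => pf_nonneg hθ y hy0 u _)
    have htot : ∑ X : Fin n → Fin h ⊕ Fin g, ∏ j, pf θ y u (X j) = 1 := by
      rw [sum_prod_pow n (pf θ y u), pf_sum hg y, one_pow]
    have h11 : ∑ X : Fin n → Fin h ⊕ Fin g, ∏ j, pf θ y u (X j)
        ≤ (∑ X : Fin n → Fin h ⊕ Fin g, if X ∈ E q then ∏ j, pf θ y u (X j) else 0)
          + prob (pf θ y u) n {X | δ < |f X - renyi α (pf θ y u : Fin h ⊕ Fin g → ℝ)|} := by
      unfold prob
      rw [← Finset.sum_add_distrib]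
      apply Finset.sum_le_sum
      intro X _
      by_cases hX : X ∈ E q
      · rw [if_pos hX]
        have : 0 ≤ (if X ∈ {X | δ < |f X - renyi α (pf θ y u : Fin h ⊕ Fin g → ℝ)|}
            then ∏ j, pf θ y u (X j) else 0) := by
          split_ifs
          · exact hprod0 X
          · exact le_rfl
        linarith
      · rw [if_neg hX, if_pos (by exact hsub X hX)]
        linarith
    linarith
  -- mixtures
  set T : ℕ → (Fin n → Fin h ⊕ Fin g) → ℝ := fun q X =>
    PE (fun _ => μ q) (fun u => ∏ j, pf θ y u (X j)) with hT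
  have hTE : ∀ q, q < G → 1 - ε - ζ ≤ ∑ X, if X ∈ E q then T q X else 0 := by
    intro q hq
    have e1 : ∑ X, (if X ∈ E q then T q X else 0)
        = PE (fun _ : Fin h => μ q) (fun u => ∑ X : Fin n → Fin h ⊕ Fin g,
          if X ∈ E q then ∏ j, pf θ y u (X j) else 0) := by
      rw [PE_sum]
      apply Finset.sum_congr rfl
      intro X _
      by_cases hX : X ∈ E q
      · simp only [hX, if_true, hT]
      · simp only [hX, if_false]
        unfold PE; simp
    rw [e1]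
    have hmono : PE (fun _ : Fin h => μ q) (fun u => (1 - ε) * 1 +
        (-1) * ((if ((h : ℝ) * (b * ρ ^ q) / 2 ≤ ∑ i, y (u i) ^ α ∧
          ∑ i, y (u i) ^ α ≤ 2 * ((h : ℝ) * (b * ρ ^ q))) then 0 else 1)
          + Real.exp ((∑ i, y (u i) - 1 / θ) / M)))
        ≤ PE (fun _ : Fin h => μ q) (fun u => ∑ X : Fin n → Fin h ⊕ Fin g,
          if X ∈ E q then ∏ j, pf θ y u (X j) else 0) := by
      have hε : 0 ≤ 1 - ε ∧ 1 - ε ≤ 1 := ⟨by linarith, by linarith⟩
      · apply PE_mono _ (fun _ v => hμ0 q hq v)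
        intro u
        have hnn : 0 ≤ ∑ X : Fin n → Fin h ⊕ Fin g,
            if X ∈ E q then ∏ j, pf θ y u (X j) else 0 := by
          apply Finset.sum_nonneg
          intro X _
          split_ifs
          · exact Finset.prod_nonneg (fun j _ => pf_nonneg hθ y hy0 u _)
          · exact le_rfl
        have hexp := Real.exp_pos ((∑ i, y (u i) - 1 / θ) / M)
        by_cases h1 : ((h : ℝ) * (b * ρ ^ q) / 2 ≤ ∑ i, y (u i) ^ α ∧
          ∑ i, y (u i) ^ α ≤ 2 * ((h : ℝ) * (b * ρ ^ q)))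
        · rw [if_pos h1]
          by_cases h2 : θ * ∑ i, y (u i) ≤ 1
          · have := hgood q u ⟨h1, h2⟩
            linarith
          · push Not at h2
            have h3 : 1 ≤ Real.exp ((∑ i, y (u i) - 1 / θ) / M) := by
              apply Real.one_le_exp
              apply div_nonneg _ hM0.le
              have : 1 / θ < ∑ i, y (u i) := by
                rw [div_lt_iff₀ hθ]; linarith
              linarith
            linarith [hε.2]
        · rw [if_neg h1]
          linarith [hε.2]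
    refine le_trans ?_ hmono
    rw [PE_add, PE_const_mul, PE_const_mul, PE_one _ (fun _ => hμ1 q hq), PE_add]
    have h5 := cheb (h := h) (μ q) (hμ0 q hq) (hμ1 q hq) (fun v => y v ^ α) (M ^ α)
      (b * ρ ^ q) (fun i => Real.rpow_nonneg (hy0 i) _)
      (fun i => Real.rpow_le_rpow (hy0 i) (hyM i) hα.le) (hα' q hq) (by positivity) hh
    have h6 := PE_exp M τ (1 / θ) hM0 y hy0 hyM (fun _ : Fin h => μ q) (fun _ => hμ0 q hq)
      (fun _ => hμ1 q hq) (fun _ => hmean q hq)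
    have h7 : 4 * M ^ α / ((h : ℝ) * (b * ρ ^ q)) ≤ 4 * M ^ α / h := by
      apply div_le_div_of_nonneg_left (by positivity) hh'
      have h8 : 1 ≤ b * ρ ^ q := by
        have : 1 ≤ ρ ^ q := one_le_pow₀ hρ.le
        nlinarith
      nlinarith
    have h8 : 1 / θ / M = 1 / (θ * M) := by rw [div_div]
    rw [h8] at h6
    rw [hζ]
    linarith
  have hTV : ∀ q, q < G → ∑ X, |T q X - T 0 X| ≤ η := by
    intro q hq
    exact tv_bound hg θ M z τ hθ hz hM0 y hy0 hyM (μ q) (μ 0) (hμ0 q hq) (hμ1 q hq)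
      (hμ0 0 hG) (hμ1 0 hG) (hmom q hq) (hmean q hq) hτ
  have hT0E : ∀ q, q < G → 1 - ε - ζ - η ≤ ∑ X, if X ∈ E q then T 0 X else 0 := by
    intro q hq
    have h1 := hTE q hq
    have h2 := hTV q hq
    have h3 : ∑ X, (if X ∈ E q then T q X else 0)
        ≤ ∑ X, (if X ∈ E q then T 0 X else 0) + ∑ X, |T q X - T 0 X| := by
      rw [← Finset.sum_add_distrib]
      apply Finset.sum_le_sum
      intro X _
      split_ifs
      · linarith [le_abs_self (T q X - T 0 X)]
      · linarith [abs_nonneg (T q X - T 0 X)]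
    linarith
  have hT0nn : ∀ X, 0 ≤ T 0 X := by
    intro X
    simp only [hT]
    unfold PE
    apply Finset.sum_nonneg
    intro u _
    exact mul_nonneg (Finset.prod_nonneg (fun i _ => hμ0 0 hG _))
      (Finset.prod_nonneg (fun j _ => pf_nonneg hθ y hy0 u _))
  have hT0sum : ∑ X, T 0 X = 1 := by
    simp only [hT]
    rw [← PE_sum]
    have : (fun u : Fin h → Fin N => ∑ X : Fin n → Fin h ⊕ Fin g, ∏ j, pf θ y u (X j))
        = fun _ => (1 : ℝ) := by
      funext u
      rw [sum_prod_pow n (pf θ y u), pf_sum hg y, one_pow]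
    rw [this]
    exact PE_one _ (fun _ => hμ1 0 hG)
  have hfin : ∑ q ∈ Finset.range G, (∑ X, if X ∈ E q then T 0 X else 0) ≤ 1 := by
    rw [Finset.sum_comm, ← hT0sum]
    apply Finset.sum_le_sum
    intro X _
    by_cases hex : ∃ q ∈ Finset.range G, X ∈ E q
    · obtain ⟨q, hq, hX⟩ := hex
      rw [Finset.sum_eq_single q]
      · rw [if_pos hX]
      · intro q' _ hne
        rw [if_neg]
        intro hX'
        rcases lt_or_gt_of_ne hne with h1 | h1
        · exact hdisj q' q h1 X hX' hX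
        · exact hdisj q q' h1 X hX hX'
      · intro h1; exact absurd hq h1
    · push Not at hex
      rw [Finset.sum_eq_zero]
      · exact hT0nn X
      · intro q hq
        rw [if_neg (hex q hq)]
  have hlow : (G : ℝ) * (1 - ε - ζ - η) ≤ ∑ q ∈ Finset.range G,
      (∑ X, if X ∈ E q then T 0 X else 0) := by
    calc (G : ℝ) * (1 - ε - ζ - η) = ∑ q ∈ Finset.range G, (1 - ε - ζ - η) := by
          rw [Finset.sum_const, Finset.card_range, nsmul_eq_mul]
      _ ≤ _ := Finset.sum_le_sum (fun q hq => hT0E q (Finset.mem_range.mp hq))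
  linarith

/-! ### final assembly -/

theorem prob_congr {Ω Ω' : Type} [Fintype Ω] [Fintype Ω'] (e : Ω ≃ Ω') (p : Ω' → ℝ) (n : ℕ)
    (E : Set (Fin n → Ω')) :
    prob (fun x => p (e x)) n {X | (fun j => e (X j)) ∈ E} = prob p n E := by
  classical
  unfold prob
  refine Fintype.sum_equiv (Equiv.arrowCongr (Equiv.refl (Fin n)) e) _ _ ?_
  intro X
  rfl

theorem works_congr {Ω Ω' : Type} [Fintype Ω] [Fintype Ω'] (e : Ω ≃ Ω') (α δ ε : ℝ) (n : ℕ)
    (hW : Works α δ ε Ω n) : Works α δ ε Ω' n := by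
  obtain ⟨f, hf⟩ := hW
  refine ⟨fun X => f (fun j => e.symm (X j)), fun p hp => ?_⟩
  have hp' : IsDist (fun x => p (e x)) := by
    refine ⟨fun x => hp.1 _, ?_⟩
    rw [← hp.2]
    exact Fintype.sum_equiv e _ _ (fun _ => rfl)
  have h1 := hf _ hp'
  have h2 : renyi α (fun x => p (e x)) = renyi α p := by
    unfold renyi
    congr 2
    exact Fintype.sum_equiv e _ _ (fun _ => rfl)
  rw [h2] at h1
  have h3 := prob_congr e p n {X | δ < |f (fun j => e.symm (X j)) - renyi α p|}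
  rw [← h3]
  simpa using h1

set_option maxHeartbeats 1000000 in
/-- the main numerical step: the common part of the two regimes. -/
theorem final_step (α δ ε η₀ ρ C₀ M₀ β : ℝ) (G : ℕ) (hα : 0 < α) (hα1 : α ≠ 1) (hδ : 0 < δ)
    (hε0 : 0 < ε) (hε1 : ε < 1) (hG : 0 < G) (hGε : 2 ≤ (G : ℝ) * (1 - ε))
    (hη₀ : η₀ = (1 - ε) / 2) (hρ : 1 < ρ) (hC₀ : 0 ≤ C₀)
    (hρ2 : 2 * (δ * |1 - α| + Real.log (2 + C₀)) < Real.log ρ) (hM₀ : 1 ≤ M₀) (hβ : 1 ≤ β)
    (k : ℕ) (hk3 : 3 ≤ k) (hlog : 1 ≤ Real.log k)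
    (hasymp : 2 / (k : ℝ) + 2 * k * Real.exp (1 - 2 * k / (3 * ((25 * M₀) * Real.log k ^ 2)))
        + 12 * ((25 * M₀) * Real.log k ^ 2) ^ α / k
        + Real.exp (-(2 * k / (3 * ((25 * M₀) * Real.log k ^ 2)))) < η₀)
    (L : ℕ) (hL1 : 1 ≤ L) (hL4 : 4 * Real.log k ≤ L) (hL5 : (L : ℝ) ≤ 5 * Real.log k)
    (N : ℕ) (y : Fin N → ℝ) (μ : ℕ → Fin N → ℝ) (b : ℝ)
    (hb : 1 ≤ b) (hy : ∀ i, 1 ≤ y i) (hyM : ∀ i, y i ≤ M₀ * (L : ℝ) ^ 2)
    (hμ0 : ∀ q, q < G → ∀ i, 0 ≤ μ q i) (hμ1 : ∀ q, q < G → ∑ i, μ q i = 1)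
    (hmom : ∀ q, q < G → ∀ s : ℕ, s ≤ L → ∑ i, μ q i * y i ^ s = ∑ i, μ 0 i * y i ^ s)
    (hα' : ∀ q, q < G → ∑ i, μ q i * y i ^ α = b * ρ ^ q)
    (τ : ℝ) (hτ : ∑ i, μ 0 i * y i = τ)
    (h g n : ℕ) (hh : 0 < h) (hg : 0 < g) (hhk : h ≤ k) (h3 : (k : ℝ) ≤ 3 * h)
    (θ : ℝ) (hθ : 0 < θ) (hθβ : θ ≤ (h : ℝ) ^ (-β)) (hθτ : 4 * h * τ * θ ≤ 1)
    (hC : (g : ℝ) ^ (1 - α) ≤ C₀ * (θ ^ α * h * b))
    (hn : (n : ℝ) < 1 / (75 * 3 ^ β * M₀) * ((k : ℝ) ^ β / Real.log k))
    (hW : Works α δ ε (Fin h ⊕ Fin g) n) : False := by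
  have hk0 : (0 : ℝ) < k := by positivity
  have hh0 : (0 : ℝ) < h := by positivity
  have hlog0 : 0 < Real.log k := by linarith
  set M := M₀ * (L : ℝ) ^ 2 with hMdef
  have hL1' : (1 : ℝ) ≤ L := by exact_mod_cast hL1
  have hM : 1 ≤ M := by
    rw [hMdef]
    have : (1 : ℝ) ≤ (L : ℝ) ^ 2 := one_le_pow₀ hL1'
    calc (1 : ℝ) ≤ M₀ := hM₀
      _ = M₀ * 1 := (mul_one _).symm
      _ ≤ _ := mul_le_mul_of_nonneg_left this (by linarith)
  have hM0 : 0 < M := by linarith
  have hMle : M ≤ (25 * M₀) * Real.log k ^ 2 := by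
    rw [hMdef]
    have : (L : ℝ) ^ 2 ≤ (5 * Real.log k) ^ 2 := pow_le_pow_left₀ (by linarith) hL5 2
    calc M₀ * (L : ℝ) ^ 2 ≤ M₀ * (5 * Real.log k) ^ 2 :=
          mul_le_mul_of_nonneg_left this (by linarith)
      _ = _ := by ring
  have hτ1 : 1 ≤ τ := by
    rw [← hτ, ← hμ1 0 hG]
    apply Finset.sum_le_sum
    intro i _
    nlinarith [hμ0 0 hG i, hy i]
  set z := Real.exp 1 with hz
  have hz1 : 1 ≤ z := by
    rw [hz]; exact Real.one_le_exp (by norm_num)
  have hz3 : z ≤ 3 := by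
    rw [hz]; linarith [Real.exp_one_lt_d9]
  have hcore := core (n := n) hg hh α δ ε θ M z τ b ρ C₀ hα hα1 hδ hε0 hε1 hθ hz1 hM y hy hyM μ hG
    hμ0 hμ1 hmom hL1 hτ hb hρ hα' hC₀ hC hρ2 hW
  -- bound of θ M n
  have hθMn : θ * M * n ≤ Real.log k / 3 := by
    have h1 : θ ≤ 3 ^ β * (k : ℝ) ^ (-β) := by
      refine hθβ.trans ?_
      rw [Real.rpow_neg hh0.le, Real.rpow_neg hk0.le, ← div_eq_mul_inv, inv_eq_one_div,
        div_le_div_iff₀ (Real.rpow_pos_of_pos hh0 _) (Real.rpow_pos_of_pos hk0 _), one_mul,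
        ← Real.mul_rpow (by norm_num) hh0.le]
      exact Real.rpow_le_rpow hk0.le h3 (by linarith)
    have h2 : (n : ℝ) ≤ 1 / (75 * 3 ^ β * M₀) * ((k : ℝ) ^ β / Real.log k) := hn.le
    have hn0 : (0 : ℝ) ≤ n := Nat.cast_nonneg n
    calc θ * M * n ≤ (3 ^ β * (k : ℝ) ^ (-β)) * ((25 * M₀) * Real.log k ^ 2) *
          (1 / (75 * 3 ^ β * M₀) * ((k : ℝ) ^ β / Real.log k)) := by
          apply mul_le_mul _ h2 hn0 (by positivity)
          exact mul_le_mul h1 hMle hM0.le (by positivity)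
      _ = Real.log k / 3 := by
          rw [Real.rpow_neg hk0.le]
          have e1 : (0 : ℝ) < 3 ^ β := by positivity
          have e2 : (0 : ℝ) < (k : ℝ) ^ β := Real.rpow_pos_of_pos hk0 _
          field_simp
          norm_num
  have hpow : (1 + 2 * z * θ * M) ^ n ≤ (k : ℝ) ^ 2 := by
    have h1 : 1 + 2 * z * θ * M ≤ Real.exp (2 * z * θ * M) := by
      linarith [Real.add_one_le_exp (2 * z * θ * M)]
    have h2 : (1 + 2 * z * θ * M) ^ n ≤ Real.exp (2 * z * θ * M) ^ n :=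
      pow_le_pow_left₀ (by positivity) h1 n
    refine h2.trans ?_
    rw [← Real.exp_nat_mul]
    have h3 : (n : ℝ) * (2 * z * θ * M) ≤ 2 * Real.log k := by
      have : (n : ℝ) * (2 * z * θ * M) = 2 * z * (θ * M * n) := by ring
      rw [this]
      have h4 : 0 ≤ θ * M * n := by positivity
      have h5 : z * (θ * M * n) ≤ 3 * (θ * M * n) := mul_le_mul_of_nonneg_right hz3 h4
      linarith
    calc Real.exp ((n : ℝ) * (2 * z * θ * M)) ≤ Real.exp (2 * Real.log k) :=
          Real.exp_le_exp.mpr h3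
      _ = (k : ℝ) ^ 2 := by
          rw [mul_comm, Real.exp_mul, Real.exp_log hk0]
          norm_cast
  have hzL : (z⁻¹) ^ L ≤ 1 / (k : ℝ) ^ 4 := by
    rw [hz, ← Real.exp_neg, ← Real.exp_nat_mul]
    calc Real.exp ((L : ℝ) * -1) ≤ Real.exp (-(4 * Real.log k)) :=
          Real.exp_le_exp.mpr (by linarith)
      _ = 1 / (k : ℝ) ^ 4 := by
          rw [Real.exp_neg, mul_comm, Real.exp_mul, Real.exp_log hk0, one_div]
          norm_cast
  have hA : (z⁻¹) ^ L * (1 + 2 * z * θ * M) ^ n ≤ 1 / (k : ℝ) ^ 2 := by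
    calc (z⁻¹) ^ L * (1 + 2 * z * θ * M) ^ n ≤ 1 / (k : ℝ) ^ 4 * (k : ℝ) ^ 2 :=
          mul_le_mul hzL hpow (by positivity) (by positivity)
      _ = 1 / (k : ℝ) ^ 2 := by field_simp
  have hinv : 4 * h * τ ≤ 1 / θ := by
    rw [le_div_iff₀ hθ]; exact hθτ
  have hexp1 : 2 * h * τ / M - (1 / θ - M) / M
      ≤ 1 - 2 * k / (3 * ((25 * M₀) * Real.log k ^ 2)) := by
    have e1 : 2 * h * τ / M - (1 / θ - M) / M = 1 - (1 / θ - 2 * h * τ) / M := by
      field_simp
      ring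
    rw [e1]
    have e2 : 2 * (k : ℝ) / (3 * ((25 * M₀) * Real.log k ^ 2)) ≤ (1 / θ - 2 * h * τ) / M := by
      rw [div_le_div_iff₀ (by positivity) hM0]
      have e3 : 2 * (h : ℝ) ≤ 1 / θ - 2 * h * τ := by
        have e5 : (h : ℝ) * 1 ≤ h * τ := mul_le_mul_of_nonneg_left hτ1 hh0.le
        linarith
      have e4 : 2 * (k : ℝ) ≤ 3 * (1 / θ - 2 * h * τ) := by linarith
      calc 2 * (k : ℝ) * M ≤ (3 * (1 / θ - 2 * h * τ)) * ((25 * M₀) * Real.log k ^ 2) :=
            mul_le_mul e4 hMle hM0.le (by linarith)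
        _ = _ := by ring
    linarith
  have hexp2 : 2 * h * τ / M - 1 / (θ * M) ≤ -(2 * k / (3 * ((25 * M₀) * Real.log k ^ 2))) := by
    have e1 : 2 * h * τ / M - 1 / (θ * M) = -((1 / θ - 2 * h * τ) / M) := by
      field_simp
      ring
    rw [e1]
    have e2 : 2 * (k : ℝ) / (3 * ((25 * M₀) * Real.log k ^ 2)) ≤ (1 / θ - 2 * h * τ) / M := by
      rw [div_le_div_iff₀ (by positivity) hM0]
      have e3 : 2 * (h : ℝ) ≤ 1 / θ - 2 * h * τ := by
        have e5 : (h : ℝ) * 1 ≤ h * τ := mul_le_mul_of_nonneg_left hτ1 hh0.le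
        linarith
      have e4 : 2 * (k : ℝ) ≤ 3 * (1 / θ - 2 * h * τ) := by linarith
      calc 2 * (k : ℝ) * M ≤ (3 * (1 / θ - 2 * h * τ)) * ((25 * M₀) * Real.log k ^ 2) :=
            mul_le_mul e4 hMle hM0.le (by linarith)
        _ = _ := by ring
    linarith
  have hE1 := Real.exp_le_exp.mpr hexp1
  have hE2 := Real.exp_le_exp.mpr hexp2
  have hhk' : (h : ℝ) ≤ k := by exact_mod_cast hhk
  have hη : (h : ℝ) * (2 * (z⁻¹) ^ L * (1 + 2 * z * θ * M) ^ n
          + 2 * Real.exp (2 * h * τ / M - (1 / θ - M) / M))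
      ≤ 2 / (k : ℝ) + 2 * k * Real.exp (1 - 2 * k / (3 * ((25 * M₀) * Real.log k ^ 2))) := by
    calc (h : ℝ) * (2 * (z⁻¹) ^ L * (1 + 2 * z * θ * M) ^ n
          + 2 * Real.exp (2 * h * τ / M - (1 / θ - M) / M))
        = (h : ℝ) * (2 * ((z⁻¹) ^ L * (1 + 2 * z * θ * M) ^ n)
          + 2 * Real.exp (2 * h * τ / M - (1 / θ - M) / M)) := by ring
      _ ≤ (k : ℝ) * (2 * (1 / (k : ℝ) ^ 2)
          + 2 * Real.exp (1 - 2 * k / (3 * ((25 * M₀) * Real.log k ^ 2)))) := by
          apply mul_le_mul hhk' _ (by positivity) hk0.le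
          linarith
      _ = _ := by
          field_simp
  have hζ : 4 * M ^ α / h ≤ 12 * ((25 * M₀) * Real.log k ^ 2) ^ α / k := by
    rw [div_le_div_iff₀ hh0 hk0]
    have e1 : M ^ α ≤ ((25 * M₀) * Real.log k ^ 2) ^ α :=
      Real.rpow_le_rpow hM0.le hMle hα.le
    have e0 : 0 ≤ M ^ α := Real.rpow_nonneg hM0.le _
    calc 4 * M ^ α * k ≤ 4 * ((25 * M₀) * Real.log k ^ 2) ^ α * (3 * h) := by
          apply mul_le_mul _ h3 hk0.le (by positivity)
          linarith
      _ = _ := by ring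
  have hGpos : (0 : ℝ) < G := by exact_mod_cast hG
  have hlast : (G : ℝ) * (1 - ε - η₀) < (G : ℝ) *
      (1 - ε - (4 * M ^ α / h + Real.exp (2 * h * τ / M - 1 / (θ * M)))
      - h * (2 * (z⁻¹) ^ L * (1 + 2 * z * θ * M) ^ n
          + 2 * Real.exp (2 * h * τ / M - (1 / θ - M) / M))) := by
    apply mul_lt_mul_of_pos_left _ hGpos
    linarith
  have : (G : ℝ) * (1 - ε - η₀) = (G * (1 - ε)) / 2 := by rw [hη₀]; ring
  linarith

end

end RenyiLB
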