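import Mathlib
import Pool.Agent.H494.RyA
import Pool.Agent.H494.RyC

set_option autoImplicit false

namespace RenyiLB

set_option maxHeartbeats 1000000 in
theorem lower_bound (α : ℝ) (hα : 0 < α) (hint : ∀ m : ℕ, α ≠ m) (δ ε : ℝ) (hδ : 0 < δ)
    (hε0 : 0 < ε) (hε1 : ε < 1) :
    ∃ c : ℝ, 0 < c ∧ ∃ k₀ : ℕ, ∀ k : ℕ, k₀ ≤ k → ∀ (Ω : Type) [Fintype Ω],
      Fintype.card Ω = k → ∀ n : ℕ, Works α δ ε Ω n →
      c * ((k : ℝ) ^ max 1 (1 / α) / Real.log k) ≤ n := by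
  classical
  have hα1 : α ≠ 1 := by
    have := hint 1
    simpa using this
  set β := max 1 (1 / α) with hβdef
  have hβ : 1 ≤ β := le_max_left _ _
  set C₀ : ℝ := 4 ^ α with hC₀def
  have hC₀ : 0 ≤ C₀ := by positivity
  set G := ⌈2 / (1 - ε)⌉₊ with hGdef
  have hε2 : 0 < 1 - ε := by linarith
  have hG : 0 < G := Nat.ceil_pos.mpr (by positivity)
  have hGε : 2 ≤ (G : ℝ) * (1 - ε) := by
    have := Nat.le_ceil (2 / (1 - ε))
    rwa [div_le_iff₀ hε2] at this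
  set ρ := Real.exp (2 * (δ * |1 - α| + Real.log (2 + C₀)) + 1) with hρdef
  have hlogC : 0 < Real.log (2 + C₀) := Real.log_pos (by linarith)
  have hρ : 1 < ρ := by
    rw [hρdef, Real.one_lt_exp_iff]
    positivity
  have hρ2 : 2 * (δ * |1 - α| + Real.log (2 + C₀)) < Real.log ρ := by
    rw [hρdef, Real.log_exp]; linarith
  obtain ⟨M₀, hM₀, hfam⟩ := family α hα hint ρ hρ G
  obtain ⟨k₀, hk₀⟩ := asymp (25 * M₀) α ((1 - ε) / 2) (by linarith) hα (by linarith)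
  refine ⟨1 / (75 * 3 ^ β * M₀), by positivity, k₀, ?_⟩
  intro k hk Ω _ hΩ n hW
  obtain ⟨hk3, hlog, hasymp, hlast⟩ := hk₀ k hk
  by_contra hcon
  push Not at hcon
  have hk0 : (0 : ℝ) < k := by positivity
  have hk3' : (3 : ℝ) ≤ k := by exact_mod_cast hk3
  set L := ⌈4 * Real.log k⌉₊ with hLdef
  have hL4 : 4 * Real.log k ≤ L := Nat.le_ceil _
  have hL5 : (L : ℝ) ≤ 5 * Real.log k := by
    have := Nat.ceil_lt_add_one (a := 4 * Real.log k) (by linarith)
    linarith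
  have hL1 : 1 ≤ L := by
    have : 0 < L := Nat.ceil_pos.mpr (by linarith)
    omega
  obtain ⟨N, y, μ, b, hb, hy, hyM, hμ0, hμ1, hmom, hα'⟩ := hfam L hL1
  set τ := ∑ i, μ 0 i * y i with hτ
  have hb0 : 0 < b := by linarith
  have hτ1 : 1 ≤ τ := by
    rw [hτ, ← hμ1 0 hG]
    apply Finset.sum_le_sum
    intro i _
    nlinarith [hμ0 0 hG i, hy i]
  have hτ0 : 0 < τ := by linarith
  rcases lt_or_gt_of_ne hα1 with h1 | h1
  · -- α < 1
    have hβ' : β = 1 / α := by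
      rw [hβdef, max_eq_right]
      rw [le_div_iff₀ hα]; linarith
    have hh : 0 < k - 1 := by omega
    have hhR : ((k - 1 : ℕ) : ℝ) = (k : ℝ) - 1 := by
      rw [Nat.cast_sub (by omega)]; simp
    have hh0 : (0 : ℝ) < ((k - 1 : ℕ) : ℝ) := by exact_mod_cast hh
    have hW' : Works α δ ε (Fin (k - 1) ⊕ Fin 1) n := by
      refine works_congr (Fintype.equivOfCardEq ?_) α δ ε n hW
      simp [hΩ]; omega
    have hτM : τ ≤ M₀ * (L : ℝ) ^ 2 := by
      rw [hτ]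
      calc ∑ i, μ 0 i * y i ≤ ∑ i, μ 0 i * (M₀ * (L : ℝ) ^ 2) := by
            apply Finset.sum_le_sum
            intro i _
            exact mul_le_mul_of_nonneg_left (hyM i) (hμ0 0 hG i)
        _ = _ := by rw [← Finset.sum_mul, hμ1 0 hG, one_mul]
    have hMle : M₀ * (L : ℝ) ^ 2 ≤ (25 * M₀) * Real.log k ^ 2 := by
      have : (L : ℝ) ^ 2 ≤ (5 * Real.log k) ^ 2 :=
        pow_le_pow_left₀ (Nat.cast_nonneg _) hL5 2
      calc M₀ * (L : ℝ) ^ 2 ≤ M₀ * (5 * Real.log k) ^ 2 :=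
            mul_le_mul_of_nonneg_left this (by linarith)
        _ = _ := by ring
    set θ : ℝ := (((k - 1 : ℕ) : ℝ) * b) ^ (-(1 / α)) with hθdef
    have hhb : 0 < ((k - 1 : ℕ) : ℝ) * b := by positivity
    have hθ : 0 < θ := Real.rpow_pos_of_pos hhb _
    have hθα : θ ^ α * ((k - 1 : ℕ) : ℝ) * b = 1 := by
      rw [hθdef, ← Real.rpow_mul hhb.le]
      have : -(1 / α) * α = -1 := by field_simp
      rw [this, Real.rpow_neg hhb.le, Real.rpow_one, mul_assoc, inv_mul_cancel₀ hhb.ne']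
    refine final_step α δ ε ((1 - ε) / 2) ρ C₀ M₀ β G hα hα1 hδ hε0 hε1 hG hGε rfl hρ hC₀ hρ2
      hM₀ hβ k hk3 hlog hasymp L hL1 hL4 hL5 N y μ b hb hy hyM hμ0 hμ1 hmom hα' τ rfl
      (k - 1) 1 n hh one_pos (by omega) ?_ θ hθ ?_ ?_ ?_ hcon hW'
    · rw [hhR]; linarith
    · rw [hθdef, hβ']
      apply Real.rpow_le_rpow_of_nonpos hh0
      · nlinarith
      · have : 0 < 1 / α := by positivity
        linarith
    · have e1 : 4 * ((k - 1 : ℕ) : ℝ) * τ ≤ (((k - 1 : ℕ) : ℝ) * b) ^ (1 / α) := by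
        calc 4 * ((k - 1 : ℕ) : ℝ) * τ ≤ 4 * ((k : ℝ) - 1) * ((25 * M₀) * Real.log k ^ 2) := by
              rw [hhR]
              apply mul_le_mul_of_nonneg_left (hτM.trans hMle)
              linarith
          _ ≤ ((k : ℝ) - 1) ^ (1 / α) := hlast h1
          _ ≤ (((k - 1 : ℕ) : ℝ) * b) ^ (1 / α) := by
              rw [hhR]
              apply Real.rpow_le_rpow (by linarith)
              · have : (0 : ℝ) ≤ (k : ℝ) - 1 := by linarith
                nlinarith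
              · positivity
      calc 4 * ((k - 1 : ℕ) : ℝ) * τ * θ ≤ (((k - 1 : ℕ) : ℝ) * b) ^ (1 / α) * θ :=
            mul_le_mul_of_nonneg_right e1 hθ.le
        _ = 1 := by
            rw [hθdef, Real.rpow_neg hhb.le, mul_inv_cancel₀]
            exact (Real.rpow_pos_of_pos hhb _).ne'
    · rw [hθα, mul_one]
      simp only [Nat.cast_one, Real.one_rpow]
      rw [hC₀def]
      exact Real.one_le_rpow (by norm_num) hα.le
  · -- α > 1
    have hβ' : β = 1 := by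
      rw [hβdef, max_eq_left]
      rw [div_le_one hα]; linarith
    have hh : 0 < k / 2 := by omega
    have hg : 0 < k - k / 2 := by omega
    have hhg : k / 2 ≤ k - k / 2 := by omega
    have hh0 : (0 : ℝ) < ((k / 2 : ℕ) : ℝ) := by exact_mod_cast hh
    have hg0 : (0 : ℝ) < ((k - k / 2 : ℕ) : ℝ) := by exact_mod_cast hg
    have hW' : Works α δ ε (Fin (k / 2) ⊕ Fin (k - k / 2)) n := by
      refine works_congr (Fintype.equivOfCardEq ?_) α δ ε n hW
      simp [hΩ]; omega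
    have h3k : (k : ℝ) ≤ 3 * ((k / 2 : ℕ) : ℝ) := by
      have : k ≤ 3 * (k / 2) := by omega
      exact_mod_cast this
    set θ : ℝ := 1 / (4 * ((k / 2 : ℕ) : ℝ) * τ) with hθdef
    have hθ : 0 < θ := by positivity
    refine final_step α δ ε ((1 - ε) / 2) ρ C₀ M₀ β G hα hα1 hδ hε0 hε1 hG hGε rfl hρ hC₀ hρ2
      hM₀ hβ k hk3 hlog hasymp L hL1 hL4 hL5 N y μ b hb hy hyM hμ0 hμ1 hmom hα' τ rfl
      (k / 2) (k - k / 2) n hh hg (by omega) h3k θ hθ ?_ ?_ ?_ hcon hW'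
    · rw [hβ', Real.rpow_neg hh0.le, Real.rpow_one, hθdef, one_div]
      apply inv_anti₀ hh0
      have e5 : ((k / 2 : ℕ) : ℝ) * 1 ≤ ((k / 2 : ℕ) : ℝ) * τ :=
        mul_le_mul_of_nonneg_left hτ1 hh0.le
      linarith
    · rw [hθdef]
      apply le_of_eq
      field_simp
    · -- g^(1-α) ≤ 4^α θ^α h b
      have hjen : τ ^ α ≤ b := by
        have h5 := Real.rpow_arith_mean_le_arith_mean_rpow Finset.univ (μ 0) y
          (fun i _ => hμ0 0 hG i) (hμ1 0 hG) (fun i _ => by linarith [hy i]) h1.le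
        have h6 := hα' 0 hG
        rw [pow_zero, mul_one] at h6
        rw [← h6]
        exact h5
      have e1 : ((k - k / 2 : ℕ) : ℝ) ^ (1 - α) ≤ ((k / 2 : ℕ) : ℝ) ^ (1 - α) := by
        apply Real.rpow_le_rpow_of_nonpos hh0
        · exact_mod_cast hhg
        · linarith
      refine e1.trans ?_
      have e2 : θ ^ α = (4 ^ α)⁻¹ * ((((k / 2 : ℕ) : ℝ) ^ α)⁻¹ * (τ ^ α)⁻¹) := by
        rw [hθdef, one_div, Real.inv_rpow (by positivity), Real.mul_rpow (by positivity) hτ0.le,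
          Real.mul_rpow (by norm_num) hh0.le, mul_inv, mul_inv]
        ring
      rw [hC₀def, e2, Real.rpow_sub hh0, Real.rpow_one]
      have e3 : (0 : ℝ) < 4 ^ α := by positivity
      have e4 : 0 < ((k / 2 : ℕ) : ℝ) ^ α := Real.rpow_pos_of_pos hh0 _
      have e5 : 0 < τ ^ α := Real.rpow_pos_of_pos hτ0 _
      have e6 : (4 : ℝ) ^ α * ((4 ^ α)⁻¹ * ((((k / 2 : ℕ) : ℝ) ^ α)⁻¹ * (τ ^ α)⁻¹) *
          ((k / 2 : ℕ) : ℝ) * b) = ((k / 2 : ℕ) : ℝ) / ((k / 2 : ℕ) : ℝ) ^ α * (b / τ ^ α) := by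
        field_simp
      rw [e6]
      have e7 : 1 ≤ b / τ ^ α := by rw [one_le_div e5]; exact hjen
      exact le_mul_of_one_le_right (by positivity) e7

end RenyiLB
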